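import Mathlib
import Pool.Agent.Helper27.WalkDefs

/-! SW/FDefs.  Definitions of the final theorem (MP_d44763_nt). -/

set_option autoImplicit false

namespace Pool.Agent.SW

open MeasureTheory Pool.Agent.Helper27

/-- infinitely many terms of the walk are primes -/
def InfPrimes (A : ℕ → ℤ) : Prop := {n : ℕ | IsPosPrime (A n)}.Infinite

/-- at most `R` terms of the walk are primes -/
def FewPrimes (R : ℕ) (A : ℕ → ℤ) : Prop := {n : ℕ | IsPosPrime (A n)}.encard ≤ R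

/-- the pairs `(2^u, b 2^u)` with `u ≥ 1`, `b ∈ {2, 4, 8, 16, 256}` -/
def Listed (i j : ℤ) : Prop :=
  ∃ u : ℕ, 1 ≤ u ∧ i = 2 ^ u ∧ (j = 2 * i ∨ j = 4 * i ∨ j = 8 * i ∨ j = 16 * i ∨ j = 256 * i)

/-- the walk from `k` that follows the strategy `f`: at the position `x` it makes the step `f x` -/
def follow (f : ℤ → ℤ) (k : ℤ) : ℕ → ℤ
  | 0 => k
  | n + 1 => follow f k n + f (follow f k n)

/-- for every strategy `f`, for all but `o(X)` of its even translates by `0 ≤ t ≤ X` every walk from an odd `k`, `|k| ≤ X`,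
that follows the translated strategy has more than `R` prime terms, uniformly in `f` -/
def AlmostAllTranslates (i j : ℤ) : Prop :=
  ∀ (R : ℕ) (ε : ℝ), 0 < ε → ∃ X0 : ℕ, ∀ X : ℕ, X0 ≤ X → ∀ f : ℤ → ℤ, (∀ x, f x = i ∨ f x = j) →
    (({t : ℤ | 0 ≤ t ∧ t ≤ X ∧ Even t ∧ ∃ k : ℤ, Odd k ∧ |k| ≤ X ∧
      FewPrimes R (follow (fun x => f (x - t)) k)}.ncard : ℕ) : ℝ) ≤ ε * X

/-- the walk from `k` in the environment `ω`: at the position `k + m` it makes the step `F (T^m ω)` -/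
def posWalk {Ω : Type} (T : Ω → Ω) (F : Ω → ℤ) (k : ℤ) (ω : Ω) : ℕ → ℤ
  | 0 => k
  | n + 1 => posWalk T F k ω n + F (T^[(posWalk T F k ω n - k).toNat] ω)

/-- the walk from `k` with the steps `F ω, F (T ω), F (T^2 ω), …` -/
def timeWalk {Ω : Type} (T : Ω → Ω) (F : Ω → ℤ) (k : ℤ) (ω : Ω) (n : ℕ) : ℤ :=
  k + ∑ m ∈ Finset.range n, F (T^[m] ω)

/-- stationary strategies: the step at a position is a stationary random function of the position -/
def PositionStationary (i j : ℤ) : Prop :=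
  ∀ (Ω : Type) (mΩ : MeasurableSpace Ω) (μ : Measure Ω), IsProbabilityMeasure μ →
    ∀ (T : Ω → Ω) (F : Ω → ℤ), MeasurePreserving T μ μ → Measurable F → (∀ ω, F ω = i ∨ F ω = j) →
    ∀ᵐ ω ∂μ, ∀ k : ℤ, Odd k → InfPrimes (posWalk T F k ω)

/-- stationary steps: the sequence of steps is a stationary process -/
def TimeStationary (i j : ℤ) : Prop :=
  ∀ (Ω : Type) (mΩ : MeasurableSpace Ω) (μ : Measure Ω), IsProbabilityMeasure μ →
    ∀ (T : Ω → Ω) (F : Ω → ℤ), MeasurePreserving T μ μ → Measurable F → (∀ ω, F ω = i ∨ F ω = j) →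
    ∀ᵐ ω ∂μ, ∀ k : ℤ, Odd k → InfPrimes (timeWalk T F k ω)

/-- every walk with an eventually periodic sequence of steps has infinitely many prime terms -/
def PeriodicForced (i j : ℤ) : Prop :=
  ∀ k : ℤ, Odd k → ∀ A : ℕ → ℤ, IsWalk i j k A →
    (∃ N T : ℕ, 0 < T ∧ ∀ n : ℕ, N ≤ n → A (n + T + 1) - A (n + T) = A (n + 1) - A n) → InfPrimes A

end Pool.Agent.SW
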