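import Pool.Agent.SW.FDefs
import Pool.Agent.Helper27.WalkRatio

/-! SW/ConvB.  `AlmostAllTranslates i j → Listed i j`. -/

set_option autoImplicit false

namespace Pool.Agent.SW

open Pool.Agent.Helper27

theorem conv_b {i j : ℤ} (hi : Even i) (hj : Even j) (h0 : 0 < i) (hij : i < j)
    (h : AlmostAllTranslates i j) : Listed i j := by
  classical
  rcases ratio i j hi hj h0 hij with hL | ⟨T, hT1, _, hK⟩
  · exact hL
  exfalso
  obtain ⟨k, hk1, hkodd, A, ⟨hA0, hstep⟩, hper, hnp⟩ := hK 1
  have hpos : ∀ n, 0 < A (n + 1) - A n := by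
    intro n
    rcases hstep n with h1 | h1 <;> rw [h1] <;> omega
  have hmono : StrictMono A := strictMono_nat_of_lt_succ fun n => by
    have := hpos n
    omega
  have heven : ∀ n, Even (A n - A 0) := by
    intro n
    induction n with
    | zero => simp
    | succ n ih =>
      have e : A (n + 1) - A 0 = (A (n + 1) - A n) + (A n - A 0) := by ring
      rw [e]
      refine Even.add ?_ ih
      rcases hstep n with h1 | h1
      · rw [h1]; exact hi
      · rw [h1]; exact hj
  have hQ : 0 < A T - A 0 := by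
    have := hmono (show 0 < T by omega)
    omega
  have hT : ∀ n, A (n + T) = A n + (A T - A 0) := by
    intro n
    induction n with
    | zero => rw [zero_add]; ring
    | succ n ih =>
      have e1 : n + 1 + T = n + T + 1 := by ring
      have e2 := hper n
      rw [e1]
      linarith
  obtain ⟨q, hq⟩ : ∃ q : ℕ, A T - A 0 = q := Int.eq_ofNat_of_zero_le hQ.le
  obtain ⟨κ, hκ⟩ : ∃ κ : ℕ, k = κ := Int.eq_ofNat_of_zero_le (by omega)
  have hq1 : 1 ≤ q := by omega
  have hlT : ∀ (l n : ℕ), A (n + l * T) = A n + (l : ℤ) * q := by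
    intro l n
    induction l with
    | zero => simp
    | succ l ih =>
      have e1 : n + (l + 1) * T = n + l * T + T := by ring
      rw [e1, hT, ih, hq]
      push_cast
      ring
  let f : ℤ → ℤ := fun x => if hx : ∃ n, A n = x then A (hx.choose + 1) - A hx.choose else i
  have hf1 : ∀ x, f x = i ∨ f x = j := by
    intro x
    by_cases hx : ∃ n, A n = x
    · have e : f x = A (hx.choose + 1) - A hx.choose := dif_pos hx
      rw [e]
      exact hstep _
    · left
      exact dif_neg hx
  have hf2 : ∀ n, f (A n) = A (n + 1) - A n := by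
    intro n
    have hx : ∃ m, A m = A n := ⟨n, rfl⟩
    have e : f (A n) = A (hx.choose + 1) - A hx.choose := dif_pos hx
    rw [e, hmono.injective hx.choose_spec]
  have hfol : ∀ (t : ℤ) (n : ℕ), follow (fun x => f (x - t)) (k + t) n = A n + t := by
    intro t n
    induction n with
    | zero =>
      show k + t = A 0 + t
      rw [hA0]
    | succ n ih =>
      show follow (fun x => f (x - t)) (k + t) n + f (follow (fun x => f (x - t)) (k + t) n - t) = _
      rw [ih, add_sub_cancel_right, hf2]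
      ring
  have hfew : ∀ l : ℕ, FewPrimes 0 (follow (fun x => f (x - (l : ℤ) * q)) (k + (l : ℤ) * q)) := by
    intro l
    unfold FewPrimes
    have he : {n : ℕ | IsPosPrime (follow (fun x => f (x - (l : ℤ) * q)) (k + (l : ℤ) * q) n)} = ∅ := by
      ext n
      simp only [Set.mem_ofPred_eq, Set.mem_empty_iff_false, iff_false]
      rw [hfol, ← hlT]
      exact hnp _
    rw [he, Set.encard_empty]
    exact zero_le
  have hqR : (0 : ℝ) < q := by exact_mod_cast hq1
  obtain ⟨X0, hX0⟩ := h 0 (1 / (2 * (q : ℝ))) (by positivity)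
  have hX := hX0 ((X0 + κ) * q + κ) (by nlinarith) f hf1
  set S : Set ℤ := {t : ℤ | 0 ≤ t ∧ t ≤ (((X0 + κ) * q + κ : ℕ) : ℤ) ∧ Even t ∧ ∃ k : ℤ, Odd k ∧
    |k| ≤ (((X0 + κ) * q + κ : ℕ) : ℤ) ∧ FewPrimes 0 (follow (fun x => f (x - t)) k)} with hS
  have hfin : S.Finite := by
    refine (Set.finite_Icc (0 : ℤ) (((X0 + κ) * q + κ : ℕ) : ℤ)).subset ?_
    intro t ht
    exact ⟨ht.1, ht.2.1⟩
  have hsub : ((Finset.range (X0 + κ + 1)).image (fun l : ℕ => (l : ℤ) * q) : Finset ℤ) ⊆
      hfin.toFinset := by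
    intro t ht
    obtain ⟨l, hl, rfl⟩ := Finset.mem_image.1 ht
    rw [Finset.mem_range] at hl
    rw [Set.Finite.mem_toFinset]
    have hle : (l : ℤ) * q ≤ (X0 + κ : ℕ) * q := by
      have h1 : (l : ℤ) ≤ (X0 + κ : ℕ) := by
        exact_mod_cast Nat.lt_succ_iff.1 hl
      exact mul_le_mul_of_nonneg_right h1 (Int.natCast_nonneg q)
    have hnn : (0 : ℤ) ≤ (l : ℤ) * q := by positivity
    have hev : Even ((l : ℤ) * q) := by
      rw [← hq]
      exact (heven T).mul_left _
    have hb : (((X0 + κ) * q + κ : ℕ) : ℤ) = (X0 + κ : ℕ) * q + κ := by push_cast; ring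
    refine ⟨hnn, ?_, hev, k + (l : ℤ) * q, hkodd.add_even hev, ?_, hfew l⟩
    · rw [hb]
      omega
    · rw [hb, abs_of_nonneg (by omega), hκ]
      omega
  have hcard : X0 + κ + 1 ≤ S.ncard := by
    rw [Set.ncard_eq_toFinset_card S hfin]
    have h1 := Finset.card_le_card hsub
    rwa [Finset.card_image_of_injective, Finset.card_range] at h1
    intro a b hab
    have h2 : (a : ℤ) * q = (b : ℤ) * q := hab
    have h3 : (q : ℤ) ≠ 0 := by exact_mod_cast (by omega : q ≠ 0)
    have h4 := mul_right_cancel₀ h3 h2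
    exact_mod_cast h4
  have hcardR : ((X0 + κ + 1 : ℕ) : ℝ) ≤ (S.ncard : ℝ) := by exact_mod_cast hcard
  have hfinal := hcardR.trans hX
  rw [div_mul_eq_mul_div, one_mul, le_div_iff₀ (by positivity)] at hfinal
  push_cast at hfinal
  have hκ0 : (0 : ℝ) ≤ κ := Nat.cast_nonneg κ
  have hX00 : (0 : ℝ) ≤ X0 := Nat.cast_nonneg X0
  have hq1R : (1 : ℝ) ≤ q := by exact_mod_cast hq1
  nlinarith [mul_nonneg hX00 hqR.le, mul_nonneg hκ0 (sub_nonneg.2 hq1R)]

end Pool.Agent.SW
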