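import Pool.Agent.SW.FDefs
import Pool.Agent.Helper27.WalkRatio

/-! SW/ConvP.  `PositionStationary i j → Listed i j`.

PROOF.  Let `A` be the periodic walk without primes of `ratio` (period `T` of the steps, start `k`), `Q = (A T - A 0).toNat ≥ 2`.  `Ω = ZMod Q` with the uniform
probability measure (`⊤` measurable space), `T ω = ω + 1`; `F ω = A (n+1) - A n` if `ω = A n - k` modulo `Q` for some `n < T` (these are distinct classes because
`0 = A 0 - k < A 1 - k < … < A (T-1) - k < Q`), `F ω = i` otherwise.  For `ω = 0` (probability `1/Q > 0`): `posWalk T F k 0 n = A n` (induction), which has no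
primes; contradiction. -/

set_option autoImplicit false

namespace Pool.Agent.SW

open MeasureTheory Pool.Agent.Helper27

private theorem cp_lin {A : ℕ → ℤ} {T : ℕ}
    (hT : ∀ n : ℕ, A (n + T + 1) - A (n + T) = A (n + 1) - A n) (n : ℕ) :
    A (n + T) = A n + (A T - A 0) := by
  induction n with
  | zero =>
    rw [Nat.zero_add]
    ring
  | succ n ih =>
    have h := hT n
    have e : n + 1 + T = n + T + 1 := by ring
    rw [e]
    linarith

private theorem cp_lin2 {A : ℕ → ℤ} {T : ℕ}
    (hT : ∀ n : ℕ, A (n + T + 1) - A (n + T) = A (n + 1) - A n) (n m : ℕ) :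
    A (n + m * T) = A n + m * (A T - A 0) := by
  induction m with
  | zero => simp
  | succ m ih =>
    have h := cp_lin hT (n + m * T)
    have e : n + (m + 1) * T = n + m * T + T := by ring
    rw [e, h, ih]
    push_cast
    ring

private theorem cp_step {A : ℕ → ℤ} {T : ℕ} (hA : StrictMono A)
    (hT : ∀ n : ℕ, A (n + T + 1) - A (n + T) = A (n + 1) - A n) {n m : ℕ} (hnm : n ≤ m)
    (hd : (A T - A 0) ∣ A m - A n) (h0 : 0 < A T - A 0) : A (m + 1) - A m = A (n + 1) - A n := by
  obtain ⟨c, hc⟩ := hd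
  have hle : A n ≤ A m := hA.monotone hnm
  have hc0 : 0 ≤ c := by
    by_contra hcon
    push Not at hcon
    have : (A T - A 0) * c < 0 := mul_neg_of_pos_of_neg h0 hcon
    linarith
  obtain ⟨e, rfl⟩ := Int.eq_ofNat_of_zero_le hc0
  have h1 := cp_lin2 hT n e
  have h2 : A (n + e * T) = A m := by
    rw [h1]
    linarith
  have h3 : n + e * T = m := hA.injective h2
  have h4 := cp_lin2 hT (n + 1) e
  have h5 : n + 1 + e * T = m + 1 := by rw [← h3]; ring
  rw [h5] at h4
  rw [h4, ← h2, h1]
  ring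

private theorem cp_iter (Q m : ℕ) : (fun ω : ZMod Q => ω + 1)^[m] 0 = (m : ZMod Q) := by
  induction m with
  | zero => simp
  | succ m ih =>
    rw [Function.iterate_succ_apply', ih]
    push_cast
    rfl

theorem conv_p {i j : ℤ} (hi : Even i) (hj : Even j) (h0 : 0 < i) (hij : i < j)
    (h : PositionStationary i j) : Listed i j := by
  classical
  rcases ratio i j hi hj h0 hij with hL | ⟨T, hT1, _, hK⟩
  · exact hL
  exfalso
  obtain ⟨k, _, hk, A, ⟨hA0, hAs⟩, hper, hnp⟩ := hK 0
  have hA : StrictMono A := by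
    refine strictMono_nat_of_lt_succ fun n => ?_
    rcases hAs n with h1 | h1 <;> linarith
  have hQ0 : 0 < A T - A 0 := by
    have := hA (show 0 < T by omega)
    linarith
  obtain ⟨Q, hQ⟩ := Int.eq_ofNat_of_zero_le hQ0.le
  have hQpos : 0 < Q := by
    have : (0 : ℤ) < Q := by rw [← hQ]; exact hQ0
    exact_mod_cast this
  have : NeZero Q := ⟨hQpos.ne'⟩
  let F : ZMod Q → ℤ := fun ω =>
    if ∃ n, ((A n - k : ℤ) : ZMod Q) = ω ∧ A (n + 1) - A n = j then j else i
  have hFij : ∀ ω, F ω = i ∨ F ω = j := by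
    intro ω
    show (if ∃ n, ((A n - k : ℤ) : ZMod Q) = ω ∧ A (n + 1) - A n = j then j else i) = i ∨
      (if ∃ n, ((A n - k : ℤ) : ZMod Q) = ω ∧ A (n + 1) - A n = j then j else i) = j
    split_ifs
    · exact Or.inr rfl
    · exact Or.inl rfl
  have hFA : ∀ n, F ((A n - k : ℤ) : ZMod Q) = A (n + 1) - A n := by
    intro n
    show (if ∃ m, ((A m - k : ℤ) : ZMod Q) = ((A n - k : ℤ) : ZMod Q) ∧ A (m + 1) - A m = j
      then j else i) = A (n + 1) - A n
    split_ifs with hex
    · obtain ⟨m, hm1, hm2⟩ := hex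
      have h1 : (Q : ℤ) ∣ (A n - k) - (A m - k) := (ZMod.intCast_eq_intCast_iff_dvd_sub _ _ _).1 hm1
      have h2 : (A T - A 0) ∣ A n - A m := by
        rw [hQ]
        have e : A n - k - (A m - k) = A n - A m := by ring
        rwa [e] at h1
      rcases le_total m n with hmn | hmn
      · rw [cp_step hA hper hmn h2 hQ0, hm2]
      · have h3 : (A T - A 0) ∣ A m - A n := by
          have := (dvd_neg).2 h2
          rwa [neg_sub] at this
        rw [← cp_step hA hper hmn h3 hQ0, hm2]
    · rcases hAs n with h1 | h1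
      · exact h1.symm
      · exact absurd ⟨n, rfl, h1⟩ hex
  have hpw : ∀ n, posWalk (fun ω : ZMod Q => ω + 1) F k 0 n = A n := by
    intro n
    induction n with
    | zero => exact hA0.symm
    | succ n ih =>
      show posWalk (fun ω : ZMod Q => ω + 1) F k 0 n +
        F ((fun ω : ZMod Q => ω + 1)^[(posWalk (fun ω : ZMod Q => ω + 1) F k 0 n - k).toNat] 0) =
        A (n + 1)
      rw [ih, cp_iter]
      have h1 : k ≤ A n := by
        rw [← hA0]
        exact hA.monotone (Nat.zero_le n)
      have h2 : (((A n - k).toNat : ℕ) : ZMod Q) = ((A n - k : ℤ) : ZMod Q) := by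
        have h3 : (((A n - k).toNat : ℕ) : ℤ) = A n - k := Int.toNat_of_nonneg (by linarith)
        rw [← Int.cast_natCast, h3]
      rw [h2, hFA]
      ring
  let mΩ : MeasurableSpace (ZMod Q) := ⊤
  let μ : Measure (ZMod Q) := ((Q : ENNReal)⁻¹) • Measure.count
  have hQe : (Q : ENNReal) ≠ 0 := by exact_mod_cast hQpos.ne'
  have hQt : (Q : ENNReal) ≠ ⊤ := ENNReal.natCast_ne_top Q
  have hμu : μ Set.univ = 1 := by
    show ((Q : ENNReal)⁻¹) * Measure.count (Set.univ : Set (ZMod Q)) = 1
    rw [Measure.count_univ, ENat.card_eq_coe_fintype_card, ZMod.card]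
    exact ENNReal.inv_mul_cancel hQe hQt
  have hprob : IsProbabilityMeasure μ := ⟨hμu⟩
  have hmp : MeasurePreserving (fun ω : ZMod Q => ω + 1) μ μ := by
    refine ⟨fun s _ => trivial, ?_⟩
    refine Measure.ext fun s hs => ?_
    have hmeas : Measurable (fun ω : ZMod Q => ω + 1) := fun s _ => trivial
    rw [Measure.map_apply hmeas hs]
    show ((Q : ENNReal)⁻¹) * Measure.count ((fun ω : ZMod Q => ω + 1) ⁻¹' s) =
      ((Q : ENNReal)⁻¹) * Measure.count s
    congr 1
    rw [Measure.count_apply (show MeasurableSet ((fun ω : ZMod Q => ω + 1) ⁻¹' s) from trivial),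
      Measure.count_apply hs]
    congr 1
    have h1 : s = (Equiv.addRight (1 : ZMod Q)) '' ((fun ω : ZMod Q => ω + 1) ⁻¹' s) := by
      have h2 : (fun ω : ZMod Q => ω + 1) ⁻¹' s = (Equiv.addRight (1 : ZMod Q)) ⁻¹' s := rfl
      rw [h2, Equiv.image_preimage]
    conv_rhs => rw [h1]
    rw [(Equiv.addRight (1 : ZMod Q)).injective.encard_image]
  have hae := h (ZMod Q) mΩ μ hprob (fun ω => ω + 1) F hmp (fun s _ => trivial) hFij
  have h0s : ∀ k : ℤ, Odd k → InfPrimes (posWalk (fun ω : ZMod Q => ω + 1) F k 0) := by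
    by_contra hcon
    rw [ae_iff] at hae
    have h1 : μ {(0 : ZMod Q)} = 0 := by
      refine measure_mono_null ?_ hae
      intro ω hω
      rw [Set.mem_singleton_iff] at hω
      rw [hω]
      exact hcon
    have h2 : μ {(0 : ZMod Q)} = (Q : ENNReal)⁻¹ := by
      show ((Q : ENNReal)⁻¹) * Measure.count ({(0 : ZMod Q)} : Set (ZMod Q)) = _
      rw [Measure.count_singleton, mul_one]
    rw [h2, ENNReal.inv_eq_zero] at h1
    exact hQt h1
  have hinf := h0s k hk
  apply hinf
  have hemp : {n : ℕ | IsPosPrime (posWalk (fun ω : ZMod Q => ω + 1) F k 0 n)} = ∅ := by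
    ext n
    constructor
    · intro hn
      have hn' : IsPosPrime (posWalk (fun ω : ZMod Q => ω + 1) F k 0 n) := hn
      rw [hpw n] at hn'
      exact absurd hn' (hnp n)
    · intro hn
      exact absurd hn (Set.notMem_empty n)
  rw [hemp]
  exact Set.finite_empty

end Pool.Agent.SW
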