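import Pool.Agent.SW.FDefs
import Pool.Agent.Helper27.WalkRatio

/-! SW/ConvT.  `TimeStationary i j → Listed i j` and `PeriodicForced i j → Listed i j`.

PROOF.  Let `A` be the periodic walk without primes of `ratio` (period `P ≥ 1` of the steps, start `k`).  `Ω = ZMod P` with the uniform probability measure,
`T ω = ω + 1`, `F ω = A (ω.val + 1) - A ω.val`.  For `ω = 0`: `timeWalk T F k 0 n = A n` (induction; the steps have the period `P`), which has no
primes, and `0` has positive probability.  The second statement is immediate. -/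

set_option autoImplicit false

namespace Pool.Agent.SW

open MeasureTheory Pool.Agent.Helper27

private theorem iter_add_one (P m : ℕ) : (fun ω : ZMod P => ω + 1)^[m] 0 = (m : ZMod P) := by
  induction m with
  | zero => simp
  | succ m ih =>
    rw [Function.iterate_succ_apply', ih]
    push_cast
    rfl

theorem conv_t {i j : ℤ} (hi : Even i) (hj : Even j) (h0 : 0 < i) (hij : i < j)
    (h : TimeStationary i j) : Listed i j := by
  rcases ratio i j hi hj h0 hij with hl | ⟨P, hP, -, hr⟩
  · exact hl
  exfalso
  obtain ⟨k, -, hk, A, hA, hper, hno⟩ := hr 0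
  have : NeZero P := ⟨by omega⟩
  let mΩ : MeasurableSpace (ZMod P) := ⊤
  have : DiscreteMeasurableSpace (ZMod P) := ⟨fun _ => trivial⟩
  let μ : Measure (ZMod P) := ((P : ENNReal)⁻¹) • (Measure.count : Measure (ZMod P))
  have hP0 : (P : ENNReal) ≠ 0 := by
    have : P ≠ 0 := by omega
    exact_mod_cast this
  have hPt : (P : ENNReal) ≠ ⊤ := ENNReal.natCast_ne_top P
  have hprob : IsProbabilityMeasure μ := by
    refine ⟨?_⟩
    rw [Measure.smul_apply, Measure.count_apply MeasurableSet.univ, smul_eq_mul]
    have : (Set.univ : Set (ZMod P)).encard = P := by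
      rw [Set.encard_univ, ENat.card_eq_coe_fintype_card, ZMod.card]
    rw [this]
    exact ENNReal.inv_mul_cancel hP0 hPt
  have hpres : MeasurePreserving (fun ω : ZMod P => ω + 1) μ μ := by
    refine ⟨fun s _ => trivial, ?_⟩
    ext s hs
    have hs2 : MeasurableSet ((fun ω : ZMod P => ω + 1) ⁻¹' s) := trivial
    have hm : Measurable (fun ω : ZMod P => ω + 1) := fun _ _ => trivial
    rw [Measure.map_apply hm hs, Measure.smul_apply, Measure.smul_apply,
      Measure.count_apply hs, Measure.count_apply hs2]
    have he := Set.encard_preimage_of_bijective (Equiv.addRight (1 : ZMod P)).bijective s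
    have he2 : ((fun ω : ZMod P => ω + 1) ⁻¹' s).encard = s.encard := he
    rw [he2]
  have hF : ∀ ω : ZMod P, (A (ω.val + 1) - A ω.val = i ∨ A (ω.val + 1) - A ω.val = j) :=
    fun ω => hA.2 _
  have hmain := h (ZMod P) mΩ μ hprob (fun ω => ω + 1) (fun ω => A (ω.val + 1) - A ω.val) hpres
    (fun s _ => trivial) hF
  rw [ae_iff] at hmain
  have hwalk : ∀ n, timeWalk (fun ω : ZMod P => ω + 1) (fun ω => A (ω.val + 1) - A ω.val) k 0 n
      = A n := by
    intro n
    unfold timeWalk
    have hs : Function.Periodic (fun m => A (m + 1) - A m) P := fun m => hper m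
    have hsum : ∀ m ∈ Finset.range n,
        (fun ω : ZMod P => A (ω.val + 1) - A ω.val) ((fun ω : ZMod P => ω + 1)^[m] 0)
          = A (m + 1) - A m := by
      intro m _
      rw [iter_add_one]
      show A ((m : ZMod P).val + 1) - A (m : ZMod P).val = _
      rw [ZMod.val_natCast]
      exact hs.map_mod_nat m
    rw [Finset.sum_congr rfl hsum, Finset.sum_range_sub, ← hA.1]
    ring
  have hbad : (0 : ZMod P) ∈ {ω : ZMod P | ¬ ∀ k : ℤ, Odd k →
      InfPrimes (timeWalk (fun ω : ZMod P => ω + 1) (fun ω => A (ω.val + 1) - A ω.val) k ω)} := by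
    intro hall
    have h1 := hall k hk
    unfold InfPrimes at h1
    apply h1
    have : {n : ℕ | IsPosPrime (timeWalk (fun ω : ZMod P => ω + 1)
        (fun ω => A (ω.val + 1) - A ω.val) k 0 n)} = ∅ := by
      ext n
      simp only [Set.mem_ofPred_eq, Set.mem_empty_iff_false, iff_false]
      rw [hwalk n]
      exact hno n
    rw [this]
    exact Set.finite_empty
  have hle : μ {0} ≤ 0 := by
    rw [← hmain]
    exact measure_mono (Set.singleton_subset_iff.2 hbad)
  have h1 : μ {0} = (P : ENNReal)⁻¹ := by
    rw [Measure.smul_apply, Measure.count_singleton, smul_eq_mul, mul_one]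
  rw [h1] at hle
  exact (ENNReal.inv_ne_zero.2 hPt) (le_antisymm hle bot_le)

theorem conv_d {i j : ℤ} (hi : Even i) (hj : Even j) (h0 : 0 < i) (hij : i < j)
    (h : PeriodicForced i j) : Listed i j := by
  rcases ratio i j hi hj h0 hij with hl | ⟨P, hP, -, hr⟩
  · exact hl
  exfalso
  obtain ⟨k, -, hk, A, hA, hper, hno⟩ := hr 0
  have h1 := h k hk A hA ⟨0, P, by omega, fun n _ => hper n⟩
  unfold InfPrimes at h1
  apply h1
  have : {n : ℕ | IsPosPrime (A n)} = ∅ := by
    ext n
    simp only [Set.mem_ofPred_eq, Set.mem_empty_iff_false, iff_false]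
    exact hno n
  rw [this]
  exact Set.finite_empty

end Pool.Agent.SW
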