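import Pool.Agent.SW.UD

/-! SW/Pos.  Stationary strategies: `UD i j → PositionStationary i j`.

PROOF.  Put `h ω 0 = 0`, `h ω (n+1) = h ω n + F (T^[(h ω n).toNat] ω)` (`= posWalk T F 0 ω`); `h · n` is measurable (it takes countably many values,
`F ∘ T^[m]` is measurable) and `posWalk T F x ω n = x + h ω n` for every `x` (induction).  Fix `R` and for `x : ℤ` let
`Bad x = {ω : FewPrimes R (posWalk T F x ω)}` (measurable: a countable condition on the `h · n`), `a x = μ (Bad x)`.
(1) For every `ω` the walk `x + h ω n` has the sequence of steps `s_ω n = F (T^[(h ω n).toNat] ω)`, independent of `x`; by `UD` (`N ≥ N0`) at most `ε N` odd `x ∈ [1, N]`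
have `ω ∈ Bad x`.  Integrate: `∑_{x odd, 1 ≤ x ≤ N} a x ≤ ε N`.
(2) Fix `k` odd.  If `ω ∈ Bad k` and `x = posWalk T F k ω m` is a position of the walk, then with `c = (x - k).toNat = (h ω m).toNat` the tail is
`posWalk T F x (T^[c] ω) n = posWalk T F k ω (m + n)` (`T^[a] (T^[c] ω) = T^[a + c] ω`, `h (T^[c] ω) n = h ω (m+n) - h ω m`), so
`T^[c] ω ∈ Bad x`.  So for `ω ∈ Bad k`: `#{x ∈ [1,N] odd, x ≥ k : T^[(x-k).toNat] ω ∈ Bad x} ≥ (N - |k|)/j - 2`.  Integrate, with
`μ (T^[c] ⁻¹ Bad x) = a x`: `((N - |k|)/j - 2) μ (Bad k) ≤ ∑_{x odd ≤ N} a x ≤ ε N`.  Divide by `N`, `N → ∞`, then `ε → 0`: `μ (Bad k) = 0`.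
(3) Countable union over `R` and `k`: almost surely for all odd `k` no `R` works, i.e. `InfPrimes`. -/

set_option autoImplicit false

namespace Pool.Agent.SW

open MeasureTheory Pool.Agent.Helper27

section Walk

variable {Ω : Type} (T : Ω → Ω) (F : Ω → ℤ)

private def gg (ω : Ω) : ℕ → ℕ
  | 0 => 0
  | n + 1 => gg ω n + (F (T^[gg ω n] ω)).toNat

private theorem posWalk_gg (hF : ∀ ω, 0 < F ω) (x : ℤ) (ω : Ω) (n : ℕ) :
    posWalk T F x ω n = x + (gg T F ω n : ℤ) := by
  induction n with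
  | zero => simp [posWalk, gg]
  | succ n ih =>
    rw [posWalk, ih, gg]
    have h1 : (x + (gg T F ω n : ℤ) - x).toNat = gg T F ω n := by omega
    rw [h1, Nat.cast_add, Int.toNat_of_nonneg (hF _).le]
    ring

private theorem gg_add (ω : Ω) (m n : ℕ) :
    gg T F ω (m + n) = gg T F ω m + gg T F (T^[gg T F ω m] ω) n := by
  induction n with
  | zero => simp [gg]
  | succ n ih =>
    rw [← Nat.add_assoc, gg, ih, gg, ← Nat.add_assoc]
    rw [Nat.add_comm (gg T F ω m) (gg T F (T^[gg T F ω m] ω) n), Function.iterate_add_apply]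

private theorem gg_meas [MeasurableSpace Ω] (hT : Measurable T) (hF : Measurable F) (n : ℕ) :
    Measurable fun ω => gg T F ω n := by
  induction n with
  | zero => exact measurable_const
  | succ n ih =>
    have h1 : Measurable fun p : ℕ × Ω => (F (T^[p.1] p.2)).toNat :=
      measurable_from_prod_countable_right fun m =>
        (measurable_of_countable Int.toNat).comp (hF.comp (hT.iterate m))
    exact ih.add (h1.comp (ih.prodMk measurable_id))

private theorem gg_lower {i j : ℤ} (h0 : 0 < i) (hij : i < j) (hF : ∀ ω, F ω = i ∨ F ω = j)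
    (ω : Ω) (n : ℕ) : n ≤ gg T F ω n ∧ gg T F ω n ≤ j.toNat * n := by
  induction n with
  | zero => simp [gg]
  | succ n ih =>
    rw [gg]
    rcases hF (T^[gg T F ω n] ω) with h | h <;> rw [h] <;> constructor
    · omega
    · have : i.toNat ≤ j.toNat := by omega
      nlinarith [ih.2]
    · omega
    · nlinarith [ih.2]

private theorem gg_mono {i j : ℤ} (h0 : 0 < i) (hij : i < j) (hF : ∀ ω, F ω = i ∨ F ω = j)
    (ω : Ω) : StrictMono (gg T F ω) := by
  refine strictMono_nat_of_lt_succ fun n => ?_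
  rw [gg]
  rcases hF (T^[gg T F ω n] ω) with h | h <;> rw [h] <;> omega

private theorem gg_even {i j : ℤ} (h0 : 0 < i) (hij : i < j) (hi : Even i) (hj : Even j)
    (hF : ∀ ω, F ω = i ∨ F ω = j) (ω : Ω) (n : ℕ) : Even (gg T F ω n : ℤ) := by
  induction n with
  | zero => simp [gg]
  | succ n ih =>
    rw [gg, Nat.cast_add]
    refine ih.add ?_
    rcases hF (T^[gg T F ω n] ω) with h | h <;> rw [h]
    · rw [Int.toNat_of_nonneg h0.le]; exact hi
    · rw [Int.toNat_of_nonneg (h0.trans hij).le]; exact hj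

private theorem gg_step (hF : ∀ ω, 0 < F ω) (x : ℤ) (ω : Ω) :
    stepWalk (fun n => F (T^[gg T F ω n] ω)) x = posWalk T F x ω := by
  funext n
  rw [posWalk_gg T F hF, stepWalk]
  congr 1
  induction n with
  | zero => simp [gg]
  | succ n ih => rw [Finset.sum_range_succ, ih, gg, Nat.cast_add, Int.toNat_of_nonneg (hF _).le]

private theorem few_iff (hF : ∀ ω, 0 < F ω) (R : ℕ) (x : ℤ) (ω : Ω) :
    FewPrimes R (posWalk T F x ω) ↔ ∀ N : ℕ, (∑ n ∈ Finset.range N,
      (Set.indicator {g : ℕ | IsPosPrime (x + (g : ℤ))} (fun _ => 1) (gg T F ω n) : ℕ)) ≤ R := by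
  classical
  have h1 : ∀ N : ℕ, (∑ n ∈ Finset.range N,
      (Set.indicator {g : ℕ | IsPosPrime (x + (g : ℤ))} (fun _ => 1) (gg T F ω n) : ℕ)) =
      ((Finset.range N).filter fun n => IsPosPrime (posWalk T F x ω n)).card := by
    intro N
    rw [Finset.card_filter]
    refine Finset.sum_congr rfl fun n _ => ?_
    rw [Set.indicator_apply, posWalk_gg T F hF]
    rfl
  unfold FewPrimes
  constructor
  · intro h N
    rw [h1, ← Nat.cast_le (α := ℕ∞)]
    refine le_trans ?_ h
    rw [← Set.encard_coe_eq_coe_finsetCard]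
    refine Set.encard_le_encard fun n hn => ?_
    exact (Finset.mem_filter.1 (Finset.mem_coe.1 hn)).2
  · intro h
    by_contra hc
    push Not at hc
    obtain ⟨t, ht, htc⟩ := Set.exists_subset_encard_eq (Order.add_one_le_of_lt hc)
    have hfin : t.Finite := Set.finite_of_encard_eq_coe (k := R + 1) (by rw [htc]; norm_cast)
    obtain ⟨N, hN⟩ := hfin.bddAbove
    have h2 := h (N + 1)
    rw [h1] at h2
    have h3 : t ⊆ ((Finset.range (N + 1)).filter fun n => IsPosPrime (posWalk T F x ω n) :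
        Finset ℕ) := by
      intro n hn
      rw [Finset.mem_coe, Finset.mem_filter, Finset.mem_range]
      exact ⟨Nat.lt_succ_of_le (hN hn), ht hn⟩
    have h4 := Set.encard_le_encard h3
    rw [htc, Set.encard_coe_eq_coe_finsetCard] at h4
    have h5 : R + 1 ≤ ((Finset.range (N + 1)).filter fun n =>
      IsPosPrime (posWalk T F x ω n)).card := by exact_mod_cast h4
    omega

private theorem bad_meas [MeasurableSpace Ω] (hT : Measurable T) (hFm : Measurable F)
    (hF : ∀ ω, 0 < F ω) (R : ℕ) (x : ℤ) :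
    MeasurableSet {ω | FewPrimes R (posWalk T F x ω)} := by
  have h1 : {ω | FewPrimes R (posWalk T F x ω)} = ⋂ N : ℕ, {ω | (∑ n ∈ Finset.range N,
      (Set.indicator {g : ℕ | IsPosPrime (x + (g : ℤ))} (fun _ => 1) (gg T F ω n) : ℕ)) ≤ R} := by
    ext ω
    rw [Set.mem_iInter]
    exact few_iff T F hF R x ω
  rw [h1]
  refine MeasurableSet.iInter fun N => ?_
  refine measurableSet_le (Finset.measurable_sum _ fun n _ => ?_) measurable_const
  exact (measurable_of_countable (Set.indicator {g : ℕ | IsPosPrime (x + (g : ℤ))}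
    (fun _ => (1 : ℕ)))).comp (gg_meas T F hT hFm n)

end Walk

private theorem sum_le {Ω ι : Type} [MeasurableSpace Ω] (μ : Measure Ω) [IsProbabilityMeasure μ]
    (S : Finset ι) (B : ι → Set Ω) (hB : ∀ x, MeasurableSet (B x)) (C : ENNReal)
    (h : ∀ ω, (({x : ι | x ∈ S ∧ ω ∈ B x}.ncard : ℕ) : ENNReal) ≤ C) :
    ∑ x ∈ S, μ (B x) ≤ C := by
  classical
  have h1 : ∑ x ∈ S, μ (B x) = ∫⁻ ω, ∑ x ∈ S, (B x).indicator (fun _ => 1) ω ∂μ := by
    rw [lintegral_finsetSum _ fun x _ => measurable_const.indicator (hB x)]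
    refine Finset.sum_congr rfl fun x _ => ?_
    rw [lintegral_indicator (hB x)]
    simp
  rw [h1]
  calc ∫⁻ ω, ∑ x ∈ S, (B x).indicator (fun _ => 1) ω ∂μ ≤ ∫⁻ _, C ∂μ := by
        refine lintegral_mono fun ω => le_trans (le_of_eq ?_) (h ω)
        have e : {x : ι | x ∈ S ∧ ω ∈ B x} = (S.filter fun x => ω ∈ B x : Finset ι) := by
          ext x
          simp
        rw [e, Set.ncard_coe_finset, Finset.card_filter]
        push_cast
        refine Finset.sum_congr rfl fun x _ => ?_
        rw [Set.indicator_apply]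
    _ = C := by simp

private theorem le_sum {Ω ι : Type} [MeasurableSpace Ω] (μ : Measure Ω)
    (S : Finset ι) (B : ι → Set Ω) (hB : ∀ x, MeasurableSet (B x)) (E : Set Ω)
    (hE : MeasurableSet E) (L : ENNReal)
    (h : ∀ ω ∈ E, L ≤ (({x : ι | x ∈ S ∧ ω ∈ B x}.ncard : ℕ) : ENNReal)) :
    L * μ E ≤ ∑ x ∈ S, μ (B x) := by
  classical
  have h1 : ∑ x ∈ S, μ (B x) = ∫⁻ ω, ∑ x ∈ S, (B x).indicator (fun _ => 1) ω ∂μ := by
    rw [lintegral_finsetSum _ fun x _ => measurable_const.indicator (hB x)]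
    refine Finset.sum_congr rfl fun x _ => ?_
    rw [lintegral_indicator (hB x)]
    simp
  rw [h1]
  have h2 : L * μ E = ∫⁻ ω, E.indicator (fun _ => L) ω ∂μ := by
    rw [lintegral_indicator hE]
    simp
  rw [h2]
  refine lintegral_mono fun ω => ?_
  show E.indicator (fun _ => L) ω ≤ ∑ x ∈ S, (B x).indicator (fun _ => 1) ω
  by_cases hω : ω ∈ E
  · rw [Set.indicator_of_mem hω]
    refine le_trans (h ω hω) (le_of_eq ?_)
    have e : {x : ι | x ∈ S ∧ ω ∈ B x} = (S.filter fun x => ω ∈ B x : Finset ι) := by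
      ext x
      simp
    rw [e, Set.ncard_coe_finset, Finset.card_filter]
    push_cast
    refine Finset.sum_congr rfl fun x _ => ?_
    rw [Set.indicator_apply]
  · rw [Set.indicator_of_notMem hω]
    exact zero_le

private theorem bad_null {i j : ℤ} (h0 : 0 < i) (hij : i < j) (hi : Even i) (hj : Even j)
    (h : UD i j) {Ω : Type} [MeasurableSpace Ω] (μ : Measure Ω) [IsProbabilityMeasure μ]
    (T : Ω → Ω) (F : Ω → ℤ) (hT : MeasurePreserving T μ μ) (hFm : Measurable F)
    (hF : ∀ ω, F ω = i ∨ F ω = j) (R : ℕ) (k : ℤ) (hk : Odd k) :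
    μ {ω | FewPrimes R (posWalk T F k ω)} = 0 := by
  have hFp : ∀ ω, 0 < F ω := fun ω => by rcases hF ω with h | h <;> omega
  set K : ℕ := k.natAbs with hK
  set J : ℕ := j.toNat with hJ
  have hJ1 : 1 ≤ J := by omega
  set Q : ℕ := J * (K + 2) + K with hQ
  have hQ1 : 1 ≤ Q := by nlinarith
  have key : ∀ δ : NNReal, 0 < δ → μ {ω | FewPrimes R (posWalk T F k ω)} ≤ δ := by
    intro δ hδ
    have hδ' : (0 : ℝ) < δ := by exact_mod_cast hδ
    obtain ⟨N0, hN0⟩ := h R ((δ : ℝ) / Q) (div_pos hδ' (by exact_mod_cast hQ1))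
    set L : ℕ := N0 + 1 with hL
    set N : ℕ := J * (K + 1 + L) + K with hN
    have hNN0 : N0 ≤ N := by nlinarith
    have hNL : N ≤ L * Q := by
      have e : L * Q = J * L * (K + 2) + L * K := by rw [hQ]; ring
      rw [e, hN]
      have h1 : 1 ≤ L := by omega
      have h2 : J * (K + 1 + L) ≤ J * L * (K + 2) := by
        rw [Nat.mul_assoc]
        exact Nat.mul_le_mul_left _ (by nlinarith)
      have h3 : K ≤ L * K := Nat.le_mul_of_pos_left _ h1
      omega
    set S : Finset ℤ := (Finset.Icc 1 (N : ℤ)).filter fun x => Odd x with hS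
    have hbad : ∀ x : ℤ, MeasurableSet {ω | FewPrimes R (posWalk T F x ω)} :=
      fun x => bad_meas T F hT.measurable hFm hFp R x
    have hup : ∑ x ∈ S, μ {ω | FewPrimes R (posWalk T F x ω)} ≤
        ENNReal.ofReal ((δ : ℝ) / Q * N) := by
      refine sum_le μ S _ hbad _ fun ω => ?_
      have h1 := hN0 N hNN0 (fun n => F (T^[gg T F ω n] ω)) (fun n => hF _)
      rw [← ENNReal.ofReal_natCast]
      refine ENNReal.ofReal_le_ofReal (le_trans (le_of_eq ?_) h1)
      congr 2
      ext x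
      simp only [hS, Set.mem_ofPred_eq, Finset.mem_filter, Finset.mem_Icc, gg_step T F hFp]
      tauto
    have hlow : (L : ENNReal) * μ {ω | FewPrimes R (posWalk T F k ω)} ≤
        ∑ x ∈ S, μ (T^[(x - k).toNat] ⁻¹' {ω | FewPrimes R (posWalk T F x ω)}) := by
      refine le_sum μ S _ (fun x => (hT.measurable.iterate _) (hbad x)) _ (hbad k) _ ?_
      intro ω hω
      have hfin : {x : ℤ | x ∈ S ∧
          ω ∈ T^[(x - k).toNat] ⁻¹' {ω | FewPrimes R (posWalk T F x ω)}}.Finite :=
        S.finite_toSet.subset fun x hx => hx.1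
      rw [Nat.cast_le]
      have h1 : ((fun m : ℕ => k + (gg T F ω m : ℤ)) '' (Finset.Ico (K + 1) (K + 1 + L) : Finset ℕ)) ⊆
          {x : ℤ | x ∈ S ∧
          ω ∈ T^[(x - k).toNat] ⁻¹' {ω | FewPrimes R (posWalk T F x ω)}} := by
        rintro x ⟨m, hm, rfl⟩
        rw [Finset.mem_coe, Finset.mem_Ico] at hm
        obtain ⟨g1, g2⟩ := gg_lower T F h0 hij hF ω m
        have g3 : gg T F ω m ≤ J * (K + 1 + L) := g2.trans (Nat.mul_le_mul_left _ hm.2.le)
        constructor
        · show k + (gg T F ω m : ℤ) ∈ S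
          rw [hS, Finset.mem_filter, Finset.mem_Icc]
          refine ⟨⟨by omega, ?_⟩, hk.add_even (gg_even T F h0 hij hi hj hF ω m)⟩
          rw [hN]
          have g4 : (gg T F ω m : ℤ) ≤ ((J * (K + 1 + L) : ℕ) : ℤ) := by exact_mod_cast g3
          rw [Nat.cast_add]
          omega
        · have e1 : (k + (gg T F ω m : ℤ) - k).toNat = gg T F ω m := by omega
          show FewPrimes R (posWalk T F (k + (gg T F ω m : ℤ)) (T^[(k + (gg T F ω m : ℤ) - k).toNat] ω))
          rw [e1]
          have hω' : {n : ℕ | IsPosPrime (posWalk T F k ω n)}.encard ≤ R := hω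
          unfold FewPrimes
          refine le_trans ?_ hω'
          have e2 : (fun n : ℕ => m + n) '' {n : ℕ | IsPosPrime
              (posWalk T F (k + (gg T F ω m : ℤ)) (T^[gg T F ω m] ω) n)} ⊆
              {n : ℕ | IsPosPrime (posWalk T F k ω n)} := by
            rintro n ⟨a, ha, rfl⟩
            show IsPosPrime (posWalk T F k ω (m + a))
            have ha' : IsPosPrime (posWalk T F (k + (gg T F ω m : ℤ)) (T^[gg T F ω m] ω) a) := ha
            rw [posWalk_gg T F hFp] at ha' ⊢
            rw [gg_add, Nat.cast_add, ← add_assoc]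
            exact ha'
          rw [← (add_right_injective m).encard_image]
          exact Set.encard_le_encard e2
      have h2 := Set.ncard_le_ncard h1 hfin
      rw [Set.ncard_image_of_injective, Set.ncard_coe_finset, Nat.card_Ico] at h2
      · omega
      · intro a b hab
        have hab' : k + (gg T F ω a : ℤ) = k + (gg T F ω b : ℤ) := hab
        exact (gg_mono T F h0 hij hF ω).injective (by omega)
    have heq : ∑ x ∈ S, μ (T^[(x - k).toNat] ⁻¹' {ω | FewPrimes R (posWalk T F x ω)}) =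
        ∑ x ∈ S, μ {ω | FewPrimes R (posWalk T F x ω)} :=
      Finset.sum_congr rfl fun x _ => (hT.iterate _).measure_preimage (hbad x).nullMeasurableSet
    have hall : (L : ENNReal) * μ {ω | FewPrimes R (posWalk T F k ω)} ≤ (L : ENNReal) * δ := by
      refine (hlow.trans (heq.le.trans hup)).trans ?_
      have e1 : (L : ENNReal) * δ = ENNReal.ofReal ((L : ℝ) * δ) := by
        rw [ENNReal.ofReal_mul (Nat.cast_nonneg _), ENNReal.ofReal_natCast, ENNReal.ofReal_coe_nnreal]
      rw [e1]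
      refine ENNReal.ofReal_le_ofReal ?_
      have hQ' : (0 : ℝ) < Q := by exact_mod_cast hQ1
      rw [div_mul_eq_mul_div, div_le_iff₀ hQ']
      have h3 : (N : ℝ) ≤ L * Q := by exact_mod_cast hNL
      nlinarith
    have hL0 : (L : ENNReal) ≠ 0 := by
      rw [Nat.cast_ne_zero]
      omega
    exact (ENNReal.mul_le_mul_iff_right hL0 (ENNReal.natCast_ne_top L)).1 hall
  by_contra hne
  have hpos : 0 < μ {ω | FewPrimes R (posWalk T F k ω)} := pos_iff_ne_zero.2 hne
  obtain ⟨δ, hδ0, hδ1⟩ := ENNReal.lt_iff_exists_nnreal_btwn.1 hpos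
  exact absurd (key δ (by exact_mod_cast hδ0)) (not_le.2 hδ1)

theorem pos {i j : ℤ} (h0 : 0 < i) (hij : i < j) (hi : Even i) (hj : Even j) (h : UD i j) :
    PositionStationary i j := by
  intro Ω mΩ μ hμ T F hT hFm hF
  rw [ae_all_iff]
  intro k
  by_cases hk : Odd k
  · have h1 : ∀ᵐ ω ∂μ, ∀ R : ℕ, ¬ FewPrimes R (posWalk T F k ω) := by
      rw [ae_all_iff]
      intro R
      rw [ae_iff]
      simpa only [not_not] using bad_null h0 hij hi hj h μ T F hT hFm hF R k hk
    filter_upwards [h1] with ω hω _ hfin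
    obtain ⟨R, hR⟩ := Set.Finite.exists_encard_eq_coe hfin
    exact hω R hR.le
  · exact Filter.Eventually.of_forall fun ω h => absurd h hk

end Pool.Agent.SW
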