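import Pool.Agent.SW.UD

/-! SW/Strat.  From fixed sequences of steps to all strategies: `UD i j → AlmostAllTranslates i j`. -/

set_option autoImplicit false

namespace Pool.Agent.SW

open Pool.Agent.Helper27

private theorem st_follow (f : ℤ → ℤ) (t k : ℤ) (n : ℕ) :
    follow (fun x => f (x - t)) k n = t + follow f (k - t) n := by
  induction n with
  | zero =>
    show k = t + (k - t)
    ring
  | succ n ih =>
    show follow (fun x => f (x - t)) k n + f (follow (fun x => f (x - t)) k n - t) =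
      t + (follow f (k - t) n + f (follow f (k - t) n))
    rw [ih, add_sub_cancel_left]
    ring

private theorem st_tail (f : ℤ → ℤ) (k : ℤ) (m n : ℕ) :
    follow f k (m + n) = follow f (follow f k m) n := by
  induction n with
  | zero => rfl
  | succ n ih =>
    show follow f k (m + n) + f (follow f k (m + n)) = _
    rw [ih]
    rfl

private theorem st_sum (f : ℤ → ℤ) (z : ℤ) (n : ℕ) :
    follow f z n = z + ∑ l ∈ Finset.range n, f (follow f z l) := by
  induction n with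
  | zero =>
    rw [Finset.sum_range_zero, add_zero]
    rfl
  | succ n ih =>
    rw [Finset.sum_range_succ, ← add_assoc, ← ih]
    rfl

private theorem st_odd {f : ℤ → ℤ} (hf : ∀ x, Even (f x)) {k : ℤ} (hk : Odd k) (n : ℕ) :
    Odd (follow f k n) := by
  induction n with
  | zero => exact hk
  | succ n ih => exact ih.add_even (hf _)

private theorem st_ge {f : ℤ → ℤ} (hf : ∀ x, 1 ≤ f x) (k : ℤ) (n : ℕ) :
    k + n ≤ follow f k n := by
  induction n with
  | zero =>
    show k + ((0 : ℕ) : ℤ) ≤ k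
    simp
  | succ n ih =>
    show k + ((n + 1 : ℕ) : ℤ) ≤ follow f k n + f (follow f k n)
    have := hf (follow f k n)
    push_cast
    linarith

private theorem st_reach {f : ℤ → ℤ} {j : ℤ} (hf : ∀ x, 1 ≤ f x) (hf2 : ∀ x, f x ≤ j) {k X : ℤ}
    (hk : k ≤ X) : ∃ m, X ≤ follow f k m ∧ follow f k m ≤ X + j := by
  classical
  have hex : ∃ m, X ≤ follow f k m := by
    refine ⟨(X - k).toNat, ?_⟩
    have h1 := st_ge hf k (X - k).toNat
    rw [Int.toNat_of_nonneg (by linarith)] at h1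
    linarith
  obtain ⟨m, hm⟩ : ∃ m, m = Nat.find hex := ⟨_, rfl⟩
  have h1 : X ≤ follow f k m := by
    rw [hm]
    exact Nat.find_spec hex
  refine ⟨m, h1, ?_⟩
  have hj : 1 ≤ j := (hf 0).trans (hf2 0)
  rcases m with _ | m
  · show k ≤ X + j
    linarith
  · have h2 : ¬ X ≤ follow f k m := Nat.find_min hex (by omega)
    push Not at h2
    show follow f k m + f (follow f k m) ≤ X + j
    have := hf2 (follow f k m)
    linarith

private theorem st_few {R : ℕ} {A B : ℕ → ℤ} (m : ℕ) (h : ∀ n, B n = A (m + n))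
    (hA : FewPrimes R A) : FewPrimes R B := by
  unfold FewPrimes at *
  refine le_trans ?_ hA
  have hinj : Function.Injective (fun n : ℕ => m + n) := fun a b hab => Nat.add_left_cancel hab
  rw [← hinj.encard_image]
  refine Set.encard_le_encard ?_
  rintro _ ⟨n, hn, rfl⟩
  show IsPosPrime (A (m + n))
  rw [← h n]
  exact hn

theorem strat {i j : ℤ} (h0 : 0 < i) (hij : i < j) (hi : Even i) (hj : Even j) (h : UD i j) :
    AlmostAllTranslates i j := by
  intro R ε hε
  have hj0 : 0 < j := h0.trans hij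
  have hjr : (0 : ℝ) < j := by exact_mod_cast hj0
  have hε' : 0 < ε / (3 * ((j : ℝ) + 1)) := by positivity
  obtain ⟨N0, hN0⟩ := h R _ hε'
  refine ⟨max N0 (max j.toNat 1), fun X hX f hf => ?_⟩
  have hXN : N0 ≤ X := (le_max_left _ _).trans hX
  have hXj : j.toNat ≤ X := ((le_max_left _ _).trans (le_max_right _ _)).trans hX
  have hX1 : 1 ≤ X := ((le_max_right _ _).trans (le_max_right _ _)).trans hX
  have hjn : ((j.toNat : ℕ) : ℤ) = j := Int.toNat_of_nonneg hj0.le
  obtain ⟨N, hN⟩ : ∃ N : ℕ, N = 2 * X + j.toNat := ⟨_, rfl⟩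
  obtain ⟨K, hK⟩ : ∃ K : ℤ → Set ℤ, K = fun z => {k : ℤ | 1 ≤ k ∧ k ≤ N ∧ Odd k ∧
      FewPrimes R (stepWalk (fun n => f (follow f z n)) k)} := ⟨_, rfl⟩
  have hKfin : ∀ z, (K z).Finite := by
    intro z
    refine (Set.finite_Icc (1 : ℤ) N).subset fun k hk => ?_
    rw [hK] at hk
    exact ⟨hk.1, hk.2.1⟩
  have hKc : ∀ z, (((K z).ncard : ℕ) : ℝ) ≤ ε / (3 * ((j : ℝ) + 1)) * N := by
    intro z
    have h1 := hN0 N (by omega) (fun n => f (follow f z n)) (fun n => hf _)
    rw [hK]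
    exact h1
  have hf1 : ∀ x, 1 ≤ f x := by
    intro x
    rcases hf x with h1 | h1 <;> rw [h1] <;> omega
  have hf2 : ∀ x, f x ≤ j := by
    intro x
    rcases hf x with h1 | h1 <;> rw [h1]
    exact hij.le
  have hfe : ∀ x, Even (f x) := by
    intro x
    rcases hf x with h1 | h1 <;> rw [h1]
    · exact hi
    · exact hj
  have hsub : {t : ℤ | 0 ≤ t ∧ t ≤ X ∧ Even t ∧ ∃ k : ℤ, Odd k ∧ |k| ≤ X ∧
      FewPrimes R (follow (fun x => f (x - t)) k)} ⊆
      ⋃ z ∈ Finset.Icc (X : ℤ) (X + j), (fun k => k - z) '' K z := by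
    rintro t ⟨ht0, htX, hte, k, hko, hkX, hfew⟩
    rw [abs_le] at hkX
    obtain ⟨m, hm1, hm2⟩ := st_reach (k := k - t) (X := X) hf1 hf2 (by linarith [hkX.2])
    obtain ⟨z, hz⟩ : ∃ z, z = follow f (k - t) m := ⟨_, rfl⟩
    rw [← hz] at hm1 hm2
    rw [Set.mem_iUnion₂]
    refine ⟨z, Finset.mem_Icc.2 ⟨hm1, hm2⟩, t + z, ?_, by simp⟩
    have hzo : Odd z := by
      rw [hz]
      exact st_odd hfe (hko.sub_even hte) m
    have hX1' : (1 : ℤ) ≤ X := by exact_mod_cast hX1
    rw [hK]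
    refine ⟨by linarith, ?_, hte.add_odd hzo, ?_⟩
    · rw [hN]
      push_cast
      rw [hjn]
      linarith
    · refine st_few m (fun n => ?_) hfew
      rw [st_follow, st_tail, ← hz, st_sum f z n]
      unfold stepWalk
      ring
  have hfinU : (⋃ z ∈ Finset.Icc (X : ℤ) (X + j), (fun k => k - z) '' K z).Finite :=
    Set.Finite.biUnion (Finset.finite_toSet _) fun z _ => (hKfin z).image _
  have h1 := Set.ncard_le_ncard hsub hfinU
  have h2 : (⋃ z ∈ Finset.Icc (X : ℤ) (X + j), (fun k => k - z) '' K z).ncard ≤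
      ∑ z ∈ Finset.Icc (X : ℤ) (X + j), ((fun k => k - z) '' K z).ncard :=
    Finset.set_ncard_biUnion_le _ _
  have h3 : (((⋃ z ∈ Finset.Icc (X : ℤ) (X + j), (fun k => k - z) '' K z).ncard : ℕ) : ℝ) ≤
      ∑ z ∈ Finset.Icc (X : ℤ) (X + j), ε / (3 * ((j : ℝ) + 1)) * N := by
    refine (Nat.cast_le.2 h2).trans ?_
    rw [Nat.cast_sum]
    refine Finset.sum_le_sum fun z _ => ?_
    exact (Nat.cast_le.2 (Set.ncard_image_le (hKfin z))).trans (hKc z)
  rw [Finset.sum_const, Int.card_Icc, nsmul_eq_mul] at h3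
  have h4 : ((((X : ℤ) + j + 1 - X).toNat : ℕ) : ℝ) = (j : ℝ) + 1 := by
    have e1 : ((((X : ℤ) + j + 1 - X).toNat : ℕ) : ℤ) = j + 1 := by
      rw [Int.toNat_of_nonneg (by linarith)]
      ring
    have e2 : (((((X : ℤ) + j + 1 - X).toNat : ℕ) : ℤ) : ℝ) = ((j + 1 : ℤ) : ℝ) := by rw [e1]
    push_cast at e2
    exact e2
  rw [h4] at h3
  have h5 : (j : ℝ) ≤ X := by
    have : j ≤ (X : ℤ) := by
      rw [← hjn]
      exact_mod_cast hXj
    exact_mod_cast this
  have h6 : (N : ℝ) ≤ 3 * X := by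
    have e1 : (N : ℝ) = 2 * X + j := by
      have e2 : (N : ℤ) = 2 * X + j := by
        rw [hN]
        push_cast
        rw [hjn]
      exact_mod_cast e2
    rw [e1]
    linarith
  refine (Nat.cast_le.2 h1).trans (h3.trans ?_)
  have h7 : ((j : ℝ) + 1) * (ε / (3 * ((j : ℝ) + 1)) * N) = ε / 3 * N := by
    field_simp
  rw [h7]
  have h8 : ε / 3 * N ≤ ε / 3 * (3 * X) := mul_le_mul_of_nonneg_left h6 (by positivity)
  linarith

end Pool.Agent.SW
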