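import Pool.Agent.SW.UD

/-! SW/Tim.  Stationary steps: `UD i j → TimeStationary i j`.

PROOF.  `g ω n = ∑_{m < n} F (T^[m] ω)`, `timeWalk T F x ω n = x + g ω n`.  Fix `R`; `Bad x = {ω : FewPrimes R (timeWalk T F x ω)}` is measurable.  Let `k` be odd
and `N ≥ 1`.  For `n ≤ N` put `r ω n = ∑_{m = N-n}^{N-1} F (T^[m] ω) = g (T^[N-n] ω) n`, strictly increasing in `n`, `r ω n ∈ [i n, j n]`, even, and
`E n = {ω : T^[N] ω ∈ Bad (k + r ω n)}`.  (1) `(T^[N-n]) ⁻¹ (Bad k) ⊆ E n`: the walk from `k` with the steps of `T^[N-n] ω` is after `n` steps at `k + r ω n`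
and continues with the steps of `T^[N] ω`; its tail has at most `R` primes.  So `μ (Bad k) ≤ μ (E n)` (`E n` measurable, or use the outer measure; `MeasurePreserving.iterate`).
(2) For each `ω` the numbers `x = k + r ω n`, `n < N`, are distinct odd numbers in `[k, k + j N]` and for `ω ∈ E n` the point `x` is bad for the
sequence of steps of `T^[N] ω`: by `UD` (with `N' = |k| + j N`) `#{n < N : ω ∈ E n} ≤ ε (|k| + j N) + |k| + 1` (the last terms for `x ≤ 0`).
Integrate the sum of the indicators: `N μ (Bad k) ≤ ε (|k| + j N) + |k| + 1`; `N → ∞`, `ε → 0`: `μ (Bad k) = 0`.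
(3) Countable union over `R`, `k`. -/

set_option autoImplicit false

namespace Pool.Agent.SW

open MeasureTheory Pool.Agent.Helper27

private theorem few_tail {Ω : Type} {R : ℕ} {T : Ω → Ω} {F : Ω → ℤ} {k : ℤ} {ω : Ω} (n : ℕ)
    (h : FewPrimes R (timeWalk T F k ω)) :
    FewPrimes R (stepWalk (fun m => F (T^[m] (T^[n] ω)))
      (k + ∑ m ∈ Finset.range n, F (T^[m] ω))) := by
  unfold FewPrimes at *
  refine le_trans ?_ h
  rw [← (add_right_injective n).encard_image]
  apply Set.encard_le_encard
  rintro _ ⟨l, hl, rfl⟩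
  have h1 : timeWalk T F k ω (n + l) = stepWalk (fun m => F (T^[m] (T^[n] ω)))
      (k + ∑ m ∈ Finset.range n, F (T^[m] ω)) l := by
    unfold timeWalk stepWalk
    rw [Finset.sum_range_add, add_assoc]
    have h2 : ∀ x, F (T^[n + x] ω) = F (T^[x] (T^[n] ω)) := by
      intro x
      rw [add_comm, Function.iterate_add_apply]
    simp only [h2]
  change IsPosPrime (timeWalk T F k ω (n + l))
  rw [h1]
  exact hl

private theorem meas_bad {Ω : Type} [MeasurableSpace Ω] {T : Ω → Ω} {F : Ω → ℤ} (hT : Measurable T)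
    (hF : Measurable F) (R : ℕ) (k : ℤ) : MeasurableSet {ω | FewPrimes R (timeWalk T F k ω)} := by
  have hw : ∀ n, Measurable (fun ω => timeWalk T F k ω n) := by
    intro n
    unfold timeWalk
    exact measurable_const.add
      (Finset.measurable_fun_sum _ (fun m _ => hF.comp (hT.iterate m)))
  have hs : ∀ n, MeasurableSet {ω | IsPosPrime (timeWalk T F k ω n)} := fun n =>
    (hw n) (MeasurableSet.of_discrete (s := {x : ℤ | IsPosPrime x}))
  have h1 : {ω | FewPrimes R (timeWalk T F k ω)} =
      ⋂ S : Finset ℕ, ⋂ (_ : S.card = R + 1),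
        (⋂ n ∈ S, {ω | IsPosPrime (timeWalk T F k ω n)})ᶜ := by
    ext ω
    simp only [Set.mem_setOf_eq, Set.mem_iInter, Set.mem_compl_iff]
    constructor
    · intro h S hS hall
      have h2 : (S : Set ℕ).encard ≤ R :=
        le_trans (Set.encard_le_encard (fun n hn => hall n hn)) h
      rw [Set.encard_coe_eq_coe_finsetCard, hS] at h2
      have h3 : R + 1 ≤ R := by exact_mod_cast h2
      omega
    · intro h
      by_contra hcon
      unfold FewPrimes at hcon
      rw [not_le] at hcon
      have h2 : ((R + 1 : ℕ) : ℕ∞) ≤ {n : ℕ | IsPosPrime (timeWalk T F k ω n)}.encard := by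
        have := Order.add_one_le_of_lt hcon
        exact_mod_cast this
      obtain ⟨t, ht1, ht2⟩ := Set.exists_subset_encard_eq h2
      have htf : t.Finite := Set.finite_of_encard_eq_coe ht2
      refine h htf.toFinset ?_ (fun n hn => ht1 (htf.mem_toFinset.mp hn))
      have h3 : (htf.toFinset : Set ℕ).encard = ((R + 1 : ℕ) : ℕ∞) := by
        rw [htf.coe_toFinset]
        exact ht2
      rw [Set.encard_coe_eq_coe_finsetCard] at h3
      exact_mod_cast h3
  rw [h1]
  refine MeasurableSet.iInter (fun S => MeasurableSet.iInter (fun _ => MeasurableSet.compl ?_))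
  exact MeasurableSet.biInter S.countable_toSet (fun n _ => hs n)

private theorem cnt {i j : ℤ} (h0 : 0 < i) (hij : i < j) (hi : Even i) (hj : Even j) {R : ℕ}
    {ε : ℝ} {N0 : ℕ}
    (hUD : ∀ N : ℕ, N0 ≤ N → ∀ s : ℕ → ℤ, (∀ n, s n = i ∨ s n = j) →
      (({k : ℤ | 1 ≤ k ∧ k ≤ N ∧ Odd k ∧ FewPrimes R (stepWalk s k)}.ncard : ℕ) : ℝ) ≤ ε * N)
    {Ω : Type} {T : Ω → Ω} {F : Ω → ℤ} (hF : ∀ ω, F ω = i ∨ F ω = j) {k : ℤ} (hk : Odd k) {N : ℕ}
    (hN : N0 ≤ k.natAbs + j.toNat * N) (ω : Ω) (A : Finset ℕ) (hA : A ⊆ Finset.range N)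
    (hA2 : ∀ n ∈ A, FewPrimes R (timeWalk T F k (T^[N - n] ω))) :
    (A.card : ℝ) ≤ ε * ((k.natAbs + j.toNat * N : ℕ) : ℝ) + ((k.natAbs : ℝ) + 1) := by
  classical
  set f : ℕ → ℤ := fun m => F (T^[m] ω) with hf
  have hfij : ∀ m, f m = i ∨ f m = j := fun m => hF _
  set x : ℕ → ℤ := fun n => k + ∑ m ∈ Finset.range n, f (N - n + m) with hx
  have hx0 : x 0 = k := by simp [hx]
  have hstep : ∀ n, n < N → x (n + 1) = f (N - (n + 1)) + x n := by
    intro n hn
    simp only [hx]
    rw [Finset.sum_range_succ']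
    have h1 : ∀ m, N - (n + 1) + (m + 1) = N - n + m := by intro m; omega
    simp only [h1, add_zero]
    ring
  have hprop : ∀ n, n ≤ N → k + n ≤ x n ∧ x n ≤ k + j * n ∧ Odd (x n) := by
    intro n
    induction n with
    | zero => intro _; rw [hx0]; simp [hk]
    | succ n ih =>
      intro hn
      obtain ⟨h1, h2, h3⟩ := ih (by omega)
      rw [hstep n (by omega)]
      push_cast
      rcases hfij (N - (n + 1)) with h4 | h4
      · rw [h4]
        exact ⟨by linarith, by linarith, hi.add_odd h3⟩
      · rw [h4]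
        exact ⟨by linarith, by linarith, hj.add_odd h3⟩
  have hlt : ∀ n, n < N → x n < x (n + 1) := by
    intro n hn
    rw [hstep n hn]
    rcases hfij (N - (n + 1)) with h4 | h4
    · rw [h4]; linarith
    · rw [h4]; linarith
  have hmono : ∀ a b, a < b → b ≤ N → x a < x b := by
    intro a b hab
    induction b with
    | zero => omega
    | succ b ih =>
      intro hb
      rcases Nat.lt_succ_iff_lt_or_eq.mp hab with h1 | h1
      · exact (ih h1 (by omega)).trans (hlt b (by omega))
      · subst h1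
        exact hlt a (by omega)
  set N' : ℕ := k.natAbs + j.toNat * N with hN'
  set s : ℕ → ℤ := fun m => F (T^[m] (T^[N] ω)) with hs
  set S : Set ℤ := {y : ℤ | 1 ≤ y ∧ y ≤ N' ∧ Odd y ∧ FewPrimes R (stepWalk s y)} with hS
  have hSf : S.Finite := (Set.finite_Icc (1 : ℤ) N').subset (fun y hy => ⟨hy.1, hy.2.1⟩)
  have hSc := hUD N' hN s (fun n => hF _)
  have hj0 : ((j.toNat : ℕ) : ℤ) = j := Int.toNat_of_nonneg (by linarith)
  have hkabs : k ≤ k.natAbs := Int.le_natAbs
  have hkabs' : -k ≤ k.natAbs := by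
    have := Int.le_natAbs (a := -k)
    rwa [Int.natAbs_neg] at this
  -- the two parts
  set A1 := A.filter (fun n => x n ≤ 0) with hA1
  set A2 := A.filter (fun n => ¬ x n ≤ 0) with hA2'
  have hcard : A1.card + A2.card = A.card := Finset.card_filter_add_card_filter_not _
  have hc1 : A1.card ≤ k.natAbs + 1 := by
    have h1 : A1 ⊆ Finset.range (k.natAbs + 1) := by
      intro n hn
      rw [hA1, Finset.mem_filter] at hn
      have h2 := Finset.mem_range.mp (hA hn.1)
      have h3 := (hprop n (by omega)).1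
      rw [Finset.mem_range]
      have h4 := hn.2
      omega
    simpa using Finset.card_le_card h1
  have hc2 : A2.card ≤ S.ncard := by
    rw [Set.ncard_eq_toFinset_card S hSf]
    apply Finset.card_le_card_of_injOn x
    · intro n hn
      rw [Finset.mem_coe, hA2', Finset.mem_filter] at hn
      have h2 := Finset.mem_range.mp (hA hn.1)
      obtain ⟨h3, h4, h5⟩ := hprop n (by omega)
      rw [Finset.mem_coe, hSf.mem_toFinset]
      refine ⟨by omega, ?_, h5, ?_⟩
      · rw [hN']
        push_cast
        rw [hj0]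
        have h6 : j * n ≤ j * N := by
          apply mul_le_mul_of_nonneg_left _ (by linarith)
          exact_mod_cast (by omega : n ≤ N)
        have h7 := le_abs_self k
        linarith
      · have h7 := few_tail n (hA2 n hn.1)
        have h8 : T^[n] (T^[N - n] ω) = T^[N] ω := by
          rw [← Function.iterate_add_apply]
          congr 1
          rw [show n + (N - n) = N by omega]
        have h9 : ∀ m, F (T^[m] (T^[N - n] ω)) = f (N - n + m) := by
          intro m
          rw [← Function.iterate_add_apply, add_comm]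
        rw [h8] at h7
        simp only [h9] at h7
        exact h7
    · intro a ha b hb hab
      rw [Finset.mem_coe, hA2', Finset.mem_filter] at ha hb
      have h2 := Finset.mem_range.mp (hA ha.1)
      have h3 := Finset.mem_range.mp (hA hb.1)
      rcases lt_trichotomy a b with h4 | h4 | h4
      · exact absurd hab (ne_of_lt (hmono a b h4 (by omega)))
      · exact h4
      · exact absurd hab.symm (ne_of_lt (hmono b a h4 (by omega)))
  have h1 : (A.card : ℝ) = (A1.card : ℝ) + (A2.card : ℝ) := by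
    rw [← hcard]
    push_cast
    ring
  have h2 : (A1.card : ℝ) ≤ (k.natAbs : ℝ) + 1 := by exact_mod_cast hc1
  have h3 : (A2.card : ℝ) ≤ (S.ncard : ℝ) := by exact_mod_cast hc2
  rw [h1]
  linarith

private theorem bad_null {i j : ℤ} (h0 : 0 < i) (hij : i < j) (hi : Even i) (hj : Even j)
    (h : UD i j) {Ω : Type} [MeasurableSpace Ω] {μ : Measure Ω} [IsProbabilityMeasure μ]
    {T : Ω → Ω} {F : Ω → ℤ} (hT : MeasurePreserving T μ μ) (hFm : Measurable F)
    (hF : ∀ ω, F ω = i ∨ F ω = j) (R : ℕ) {k : ℤ} (hk : Odd k) :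
    μ {ω | FewPrimes R (timeWalk T F k ω)} = 0 := by
  classical
  set B := {ω | FewPrimes R (timeWalk T F k ω)} with hB
  have hBm : MeasurableSet B := meas_bad hT.measurable hFm R k
  by_contra hne
  have hb : 0 < (μ B).toReal := ENNReal.toReal_pos hne (measure_ne_top μ B)
  set b := (μ B).toReal with hbdef
  have hj1 : (0 : ℝ) < j.toNat := by
    have : 0 < j.toNat := by omega
    exact_mod_cast this
  have hε : 0 < b / (4 * j.toNat) := by positivity
  obtain ⟨N0, hUD⟩ := h R (b / (4 * j.toNat)) hε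
  set ε := b / (4 * j.toNat) with hεdef
  have key : ∀ N : ℕ, N0 ≤ N → (N : ℝ) * b ≤
      ε * ((k.natAbs + j.toNat * N : ℕ) : ℝ) + ((k.natAbs : ℝ) + 1) := by
    intro N hN
    set C := ε * ((k.natAbs + j.toNat * N : ℕ) : ℝ) + ((k.natAbs : ℝ) + 1) with hC
    have hC0 : 0 ≤ C := by positivity
    have hNN : N0 ≤ k.natAbs + j.toNat * N := by
      have h1 : 0 < j.toNat := by omega
      exact hN.trans ((Nat.le_mul_of_pos_left N h1).trans (Nat.le_add_left _ _))
    have hP : ∀ n, MeasurableSet (T^[N - n] ⁻¹' B) := fun n =>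
      (hT.measurable.iterate _) hBm
    have h1 : ∀ n ∈ Finset.range N, μ B = ∫⁻ ω, (T^[N - n] ⁻¹' B).indicator 1 ω ∂μ := by
      intro n _
      rw [lintegral_indicator_one (hP n), (hT.iterate _).measure_preimage hBm.nullMeasurableSet]
    have h2 : (N : ENNReal) * μ B ≤ ENNReal.ofReal C := by
      calc (N : ENNReal) * μ B = ∑ n ∈ Finset.range N, μ B := by
            rw [Finset.sum_const, Finset.card_range, nsmul_eq_mul]
        _ = ∑ n ∈ Finset.range N, ∫⁻ ω, (T^[N - n] ⁻¹' B).indicator 1 ω ∂μ :=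
            Finset.sum_congr rfl h1
        _ = ∫⁻ ω, ∑ n ∈ Finset.range N, (T^[N - n] ⁻¹' B).indicator 1 ω ∂μ := by
            rw [lintegral_finset_sum]
            intro n _
            exact measurable_one.indicator (hP n)
        _ ≤ ∫⁻ _, ENNReal.ofReal C ∂μ := by
            apply lintegral_mono
            intro ω
            change ∑ n ∈ Finset.range N, (T^[N - n] ⁻¹' B).indicator (1 : Ω → ENNReal) ω ≤ _
            set A := (Finset.range N).filter (fun n => T^[N - n] ω ∈ B) with hA
            have h3 : ∑ n ∈ Finset.range N, (T^[N - n] ⁻¹' B).indicator (1 : Ω → ENNReal) ω =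
                (A.card : ENNReal) := by
              rw [hA, Finset.card_filter, Nat.cast_sum]
              apply Finset.sum_congr rfl
              intro n _
              rw [Set.indicator_apply]
              by_cases h4 : T^[N - n] ω ∈ B
              · rw [if_pos h4, if_pos (Set.mem_preimage.mpr h4), Pi.one_apply, Nat.cast_one]
              · rw [if_neg h4, if_neg (fun h5 => h4 (Set.mem_preimage.mp h5)), Nat.cast_zero]
            rw [h3]
            have h4 := cnt h0 hij hi hj hUD hF hk hNN ω A (Finset.filter_subset _ _)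
              (fun n hn => (Finset.mem_filter.mp hn).2)
            rw [← ENNReal.ofReal_natCast]
            exact ENNReal.ofReal_le_ofReal h4
        _ = ENNReal.ofReal C := by
            rw [lintegral_const, measure_univ, mul_one]
    have h3 := ENNReal.toReal_mono ENNReal.ofReal_ne_top h2
    rw [ENNReal.toReal_mul, ENNReal.toReal_natCast, ENNReal.toReal_ofReal hC0] at h3
    exact h3
  -- choose N large
  obtain ⟨N1, hN1⟩ := exists_nat_gt ((ε * (k.natAbs : ℝ) + (k.natAbs : ℝ) + 1) / (b / 2))
  have h4 := key (max N0 N1) (le_max_left _ _)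
  have h5 : ((N1 : ℕ) : ℝ) ≤ ((max N0 N1 : ℕ) : ℝ) := by exact_mod_cast le_max_right N0 N1
  set N := max N0 N1 with hNdef
  have h6 : (ε * (k.natAbs : ℝ) + (k.natAbs : ℝ) + 1) < (N : ℝ) * (b / 2) := by
    rw [div_lt_iff₀ (by positivity)] at hN1
    nlinarith
  have h7 : ε * ((k.natAbs + j.toNat * N : ℕ) : ℝ) = ε * (k.natAbs : ℝ) + (b / 4) * N := by
    push_cast
    rw [hεdef]
    field_simp
  rw [h7] at h4
  have h8 : 0 ≤ (N : ℝ) * b := by positivity
  nlinarith

theorem tim {i j : ℤ} (h0 : 0 < i) (hij : i < j) (hi : Even i) (hj : Even j) (h : UD i j) :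
    TimeStationary i j := by
  intro Ω mΩ μ hμ T F hT hFm hF
  have h1 : ∀ᵐ ω ∂μ, ∀ R : ℕ, ∀ k : ℤ, Odd k → ¬ FewPrimes R (timeWalk T F k ω) := by
    rw [ae_all_iff]
    intro R
    rw [ae_all_iff]
    intro k
    by_cases hk : Odd k
    · have h2 := bad_null h0 hij hi hj h hT hFm hF R hk
      rw [ae_iff]
      refine measure_mono_null ?_ h2
      intro ω hω
      simp only [Set.mem_setOf_eq, Classical.not_imp, not_not] at hω
      exact hω.2
    · exact Filter.Eventually.of_forall (fun ω h3 => absurd h3 hk)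
  filter_upwards [h1] with ω hω k hk
  unfold InfPrimes
  by_contra hcon
  rw [Set.not_infinite] at hcon
  apply hω hcon.toFinset.card k hk
  unfold FewPrimes
  have h2 : {n : ℕ | IsPosPrime (timeWalk T F k ω n)}.encard = (hcon.toFinset.card : ℕ∞) := by
    rw [← Set.encard_coe_eq_coe_finsetCard, hcon.coe_toFinset]
  exact le_of_eq h2

end Pool.Agent.SW
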