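import Pool.Agent.SW.UDL
import Pool.Agent.SW.Strat
import Pool.Agent.SW.Pos
import Pool.Agent.SW.Tim
import Pool.Agent.SW.ConvB
import Pool.Agent.SW.ConvP
import Pool.Agent.SW.ConvT

/-! SW/Final.  The equivalences. -/

set_option autoImplicit false

namespace Pool.Agent.SW

open Pool.Agent.Helper27

theorem listed_periodic {i j : ℤ} (h : Listed i j) : PeriodicForced i j := by
  obtain ⟨u, hu, hi, hj⟩ := h
  intro k hk A hA hper
  unfold InfPrimes
  have e2 : (2 : ℤ) * i = 2 ^ u * (2 : ℕ) := by rw [hi]; push_cast; ring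
  have e4 : (4 : ℤ) * i = 2 ^ u * (4 : ℕ) := by rw [hi]; push_cast; ring
  have e8 : (8 : ℤ) * i = 2 ^ u * (8 : ℕ) := by rw [hi]; push_cast; ring
  have e16 : (16 : ℤ) * i = 2 ^ u * (16 : ℕ) := by rw [hi]; push_cast; ring
  have e256 : (256 : ℤ) * i = 2 ^ u * (256 : ℕ) := by rw [hi]; push_cast; ring
  rcases hj with h | h | h | h | h
  · rw [e2] at h
    subst h; subst hi
    exact periodic_hits u 2 hu (by norm_num) list2 cut2 adm2 k hk A hA hper
  · rw [e4] at h
    subst h; subst hi
    exact periodic_hits u 4 hu (by norm_num) list4 cut4 adm4 k hk A hA hper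
  · rw [e8] at h
    subst h; subst hi
    exact periodic_hits u 8 hu (by norm_num) list8 cut8 adm8 k hk A hA hper
  · rw [e16] at h
    subst h; subst hi
    exact periodic_hits u 16 hu (by norm_num) list16 cut16 adm16 k hk A hA hper
  · rw [e256] at h
    subst h; subst hi
    exact periodic_hits u 256 hu (by norm_num) list256 cut256 adm256 k hk A hA hper

theorem final (i j : ℤ) (hi : Even i) (hj : Even j) (h0 : 0 < i) (hij : i < j) :
    [Listed i j, AlmostAllTranslates i j, PositionStationary i j, TimeStationary i j,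
      PeriodicForced i j].TFAE := by
  tfae_have 1 → 2 := fun h => strat h0 hij hi hj (ud_of_listed h)
  tfae_have 1 → 3 := fun h => pos h0 hij hi hj (ud_of_listed h)
  tfae_have 1 → 4 := fun h => tim h0 hij hi hj (ud_of_listed h)
  tfae_have 1 → 5 := listed_periodic
  tfae_have 2 → 1 := conv_b hi hj h0 hij
  tfae_have 3 → 1 := conv_p hi hj h0 hij
  tfae_have 4 → 1 := conv_t hi hj h0 hij
  tfae_have 5 → 1 := conv_d hi hj h0 hij
  tfae_finish

end Pool.Agent.SW
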