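import Pool.Agent.SW.Defs

/-! SW/AbelE.  Partial summation with `e(n β)`: `|e((n+1)β) - e(nβ)| ≤ 2π|β| ≤ 7|β|`. -/

set_option autoImplicit false

namespace Pool.Agent.SW

open Finset Pool.Agent.Helper98.Bern

private theorem abel_id (b : ℕ → ℂ) (β : ℝ) (N : ℕ) :
    ∑ n ∈ Ioc 0 N, b n * ee (n * β) = (∑ n ∈ Ioc 0 N, b n) * ee (N * β) +
      ∑ n ∈ range N, (∑ m ∈ Ioc 0 n, b m) * (ee (n * β) - ee ((n + 1 : ℕ) * β)) := by
  induction N with
  | zero => simp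
  | succ N ih =>
    rw [Finset.sum_Ioc_succ_top (Nat.zero_le N), Finset.sum_Ioc_succ_top (Nat.zero_le N), ih,
      Finset.sum_range_succ]
    ring

private theorem nee (t : ℝ) : ‖ee t‖ = 1 := by
  unfold ee
  rw [show (2 * Real.pi * t * Complex.I : ℂ) = ((2 * Real.pi * t : ℝ) : ℂ) * Complex.I by push_cast; ring]
  exact Complex.norm_exp_ofReal_mul_I _

private theorem ee_diff (x β : ℝ) : ‖ee x - ee (x + β)‖ ≤ 7 * |β| := by
  have h1 : ee (x + β) = ee x * ee β := by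
    unfold ee
    rw [← Complex.exp_add]
    congr 1
    push_cast
    ring
  have h2 : ee x - ee (x + β) = -(ee x * (ee β - 1)) := by
    rw [h1]
    ring
  rw [h2, norm_neg, norm_mul, nee, one_mul]
  have h3 : ee β = Complex.exp (Complex.I * ((2 * Real.pi * β : ℝ) : ℂ)) := by
    unfold ee
    congr 1
    push_cast
    ring
  rw [h3]
  refine Real.norm_exp_I_mul_ofReal_sub_one_le.trans ?_
  rw [Real.norm_eq_abs, abs_mul, abs_mul, abs_of_pos Real.pi_pos, abs_two]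
  have h4 := Real.pi_lt_d2
  have h5 := abs_nonneg β
  nlinarith

theorem abel_ee {N : ℕ} (b : ℕ → ℂ) {D : ℝ} (hD : ∀ t : ℕ, t ≤ N → ‖∑ n ∈ Ioc 0 t, b n‖ ≤ D) (β : ℝ) :
    ‖∑ n ∈ Ioc 0 N, b n * ee (n * β)‖ ≤ (1 + 7 * |β| * N) * D := by
  have hD0 : 0 ≤ D := (norm_nonneg _).trans (hD 0 (Nat.zero_le N))
  rw [abel_id]
  refine (norm_add_le _ _).trans ?_
  have h1 : ‖(∑ n ∈ Ioc 0 N, b n) * ee (N * β)‖ ≤ D := by
    rw [norm_mul, nee, mul_one]
    exact hD N le_rfl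
  have h2 : ‖∑ n ∈ range N, (∑ m ∈ Ioc 0 n, b m) * (ee (n * β) - ee ((n + 1 : ℕ) * β))‖ ≤
      N * (D * (7 * |β|)) := by
    refine (norm_sum_le _ _).trans ?_
    refine (Finset.sum_le_sum (g := fun _ => D * (7 * |β|)) fun n hn => ?_).trans ?_
    · rw [norm_mul]
      have h3 : ‖ee (n * β) - ee ((n + 1 : ℕ) * β)‖ ≤ 7 * |β| := by
        have h4 : ((n + 1 : ℕ) : ℝ) * β = n * β + β := by
          push_cast
          ring
        rw [h4]
        exact ee_diff _ _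
      exact mul_le_mul (hD n (Finset.mem_range.1 hn).le) h3 (norm_nonneg _) hD0
    · rw [Finset.sum_const, Finset.card_range, nsmul_eq_mul]
  calc _ ≤ D + N * (D * (7 * |β|)) := add_le_add h1 h2
    _ = (1 + 7 * |β| * N) * D := by ring

theorem tt_le (N : ℕ) (β : ℝ) : ‖TT N β‖ ≤ N := by
  unfold TT
  refine (norm_sum_le _ _).trans ?_
  simp only [nee, Finset.sum_const, Nat.card_Ioc, nsmul_eq_mul, mul_one]
  simp

end Pool.Agent.SW
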