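import Pool.Agent.SW.Defs

/-! SW/Bil.  Parseval: sums over `K + H`.

PROOF.  `M = 2N + 1`.  For integers `1 ≤ n ≤ 2N`, `1 ≤ k + h ≤ 2N`: `(1/M) ∑_{c < M} e(c (n - k - h)/M) = [n = k + h]`.  So
`∑_{k,h} f(k+h) = (1/M) ∑_{c < M} S_f(c/M) conj(S_K(c/M)) conj(S_H(c/M))`, `S_K(θ) = ∑_{k ∈ K} e(kθ)`, and by Cauchy-Schwarz and
`∑_c |S_K(c/M)|² = M |K|` (the elements of `K` are distinct modulo `M`), the same for `H`. -/

set_option autoImplicit false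

namespace Pool.Agent.SW

open Finset Pool.Agent.Helper98.Bern

private lemma bil_ee_add (a b : ℝ) : ee (a + b) = ee a * ee b := by
  unfold ee
  rw [← Complex.exp_add]
  congr 1
  push_cast
  ring

private lemma bil_ee_pow (a : ℝ) (n : ℕ) : ee (a * n) = ee a ^ n := by
  unfold ee
  rw [← Complex.exp_nat_mul]
  congr 1
  push_cast
  ring

private lemma bil_conj (a : ℝ) : (starRingEnd ℂ) (ee a) = ee (-a) := by
  unfold ee
  rw [← Complex.exp_conj, map_mul, map_mul, map_mul, Complex.conj_I, Complex.conj_ofReal,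
    Complex.conj_ofReal, map_ofNat]
  congr 1
  push_cast
  ring

private lemma bil_orth {M : ℕ} (hM : 0 < M) (d : ℤ) (hd : |d| < M) :
    ∑ c ∈ range M, ee ((d : ℝ) / M * (c : ℕ)) = if d = 0 then (M : ℂ) else 0 := by
  simp only [bil_ee_pow]
  split_ifs with h
  · have h1 : ee ((d : ℝ) / M) = 1 := by
      rw [h]
      simp [ee]
    simp [h1]
  · have hM' : (M : ℂ) ≠ 0 := by exact_mod_cast hM.ne'
    have h1 : ee ((d : ℝ) / M) ≠ 1 := by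
      intro h1
      unfold ee at h1
      rw [Complex.exp_eq_one_iff] at h1
      obtain ⟨n, hn⟩ := h1
      have h2 : ((d : ℝ) / M : ℝ) = n := by
        have h3 : (2 * Real.pi * Complex.I : ℂ) ≠ 0 := Complex.two_pi_I_ne_zero
        have h4 : (((d : ℝ) / M : ℝ) : ℂ) = (n : ℂ) := by
          apply mul_right_cancel₀ h3
          rw [← hn]
          ring
        exact_mod_cast h4
      have hM2 : (M : ℝ) ≠ 0 := by exact_mod_cast hM.ne'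
      rw [div_eq_iff hM2] at h2
      have h5 : d = n * M := by exact_mod_cast h2
      have h6 : (M : ℤ) ∣ d := ⟨n, by rw [h5, mul_comm]⟩
      exact h (Int.eq_zero_of_abs_lt_dvd h6 hd)
    rw [geom_sum_eq h1, ← bil_ee_pow]
    have h2 : ee ((d : ℝ) / M * (M : ℕ)) = 1 := by
      have hM2 : (M : ℝ) ≠ 0 := by exact_mod_cast hM.ne'
      rw [div_mul_cancel₀ _ hM2]
      unfold ee
      rw [Complex.exp_eq_one_iff]
      exact ⟨d, by push_cast; ring⟩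
    rw [h2, sub_self, zero_div]

private lemma bil_parseval {N : ℕ} (K : Finset ℕ) (hK : K ⊆ Icc 0 N) :
    ∑ c ∈ range (2 * N + 1), ‖∑ k ∈ K, ee (-((k : ℝ) / (2 * N + 1 : ℕ) * (c : ℕ)))‖ ^ 2 =
      ((2 * N + 1 : ℕ) : ℝ) * K.card := by
  have h1 : ∀ c : ℕ, ((‖∑ k ∈ K, ee (-((k : ℝ) / (2 * N + 1 : ℕ) * (c : ℕ)))‖ ^ 2 : ℝ) : ℂ) =
      ∑ k ∈ K, ∑ k' ∈ K, ee ((((k' : ℤ) - k : ℤ) : ℝ) / (2 * N + 1 : ℕ) * (c : ℕ)) := by
    intro c
    rw [Complex.ofReal_pow, ← Complex.mul_conj', map_sum, Finset.sum_mul_sum]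
    refine Finset.sum_congr rfl fun k _ => Finset.sum_congr rfl fun k' _ => ?_
    rw [bil_conj, neg_neg, ← bil_ee_add]
    congr 1
    push_cast
    ring
  have h2 : ((∑ c ∈ range (2 * N + 1), ‖∑ k ∈ K, ee (-((k : ℝ) / (2 * N + 1 : ℕ) * (c : ℕ)))‖ ^ 2 :
      ℝ) : ℂ) = ((((2 * N + 1 : ℕ) : ℝ) * K.card : ℝ) : ℂ) := by
    rw [Complex.ofReal_sum, Finset.sum_congr rfl fun c _ => h1 c, Finset.sum_comm]
    have h3 : ∀ k ∈ K, ∑ c ∈ range (2 * N + 1), ∑ k' ∈ K,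
        ee ((((k' : ℤ) - k : ℤ) : ℝ) / (2 * N + 1 : ℕ) * (c : ℕ)) = ((2 * N + 1 : ℕ) : ℂ) := by
      intro k hk
      rw [Finset.sum_comm]
      have h4 : ∀ k' ∈ K, ∑ c ∈ range (2 * N + 1),
          ee ((((k' : ℤ) - k : ℤ) : ℝ) / (2 * N + 1 : ℕ) * (c : ℕ)) =
            if k' = k then ((2 * N + 1 : ℕ) : ℂ) else 0 := by
        intro k' hk'
        have e1 := mem_Icc.1 (hK hk)
        have e2 := mem_Icc.1 (hK hk')
        rw [bil_orth (Nat.succ_pos _) _ (by rw [abs_lt]; push_cast; omega)]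
        have h5 : ((k' : ℤ) - k = 0) ↔ k' = k := by omega
        simp only [h5]
      rw [Finset.sum_congr rfl h4, Finset.sum_ite_eq' K k, if_pos hk]
    rw [Finset.sum_congr rfl h3, Finset.sum_const, nsmul_eq_mul]
    push_cast
    ring
  exact_mod_cast h2

private lemma bil_inv {N : ℕ} (f : ℕ → ℂ) {m : ℕ} (hm : m ∈ Ioc 0 (2 * N)) :
    ((2 * N + 1 : ℕ) : ℂ) * f m = ∑ c ∈ range (2 * N + 1),
      (∑ n ∈ Ioc 0 (2 * N), f n * ee (n * ((c : ℝ) / (2 * N + 1 : ℕ)))) *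
        ee (-((m : ℝ) / (2 * N + 1 : ℕ) * (c : ℕ))) := by
  have h1 : ∀ c : ℕ, (∑ n ∈ Ioc 0 (2 * N), f n * ee (n * ((c : ℝ) / (2 * N + 1 : ℕ)))) *
        ee (-((m : ℝ) / (2 * N + 1 : ℕ) * (c : ℕ))) =
      ∑ n ∈ Ioc 0 (2 * N), f n * ee ((((n : ℤ) - m : ℤ) : ℝ) / (2 * N + 1 : ℕ) * (c : ℕ)) := by
    intro c
    rw [Finset.sum_mul]
    refine Finset.sum_congr rfl fun n _ => ?_
    rw [mul_assoc, ← bil_ee_add]
    congr 2
    push_cast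
    ring
  rw [Finset.sum_congr rfl fun c _ => h1 c, Finset.sum_comm]
  have h2 : ∀ n ∈ Ioc 0 (2 * N), ∑ c ∈ range (2 * N + 1),
      f n * ee ((((n : ℤ) - m : ℤ) : ℝ) / (2 * N + 1 : ℕ) * (c : ℕ)) =
        if n = m then ((2 * N + 1 : ℕ) : ℂ) * f m else 0 := by
    intro n hn
    have e1 := mem_Ioc.1 hn
    have e2 := mem_Ioc.1 hm
    rw [← Finset.mul_sum, bil_orth (Nat.succ_pos _) _ (by rw [abs_lt]; push_cast; omega)]
    have h5 : ((n : ℤ) - m = 0) ↔ n = m := by omega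
    simp only [h5]
    split_ifs with h
    · rw [h, mul_comm]
    · rw [mul_zero]
  rw [Finset.sum_congr rfl h2, Finset.sum_ite_eq' _ m, if_pos hm]

theorem bil {N : ℕ} (f : ℕ → ℂ) {B : ℝ} (hB : ∀ θ : ℝ, ‖∑ n ∈ Ioc 0 (2 * N), f n * ee (n * θ)‖ ≤ B)
    (K H : Finset ℕ) (hK : K ⊆ Icc 1 N) (hH : H ⊆ Icc 0 N) :
    ‖∑ k ∈ K, ∑ h ∈ H, f (k + h)‖ ≤ B * √((K.card : ℝ) * H.card) := by
  have hM : (0 : ℝ) < ((2 * N + 1 : ℕ) : ℝ) := by positivity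
  have hB0 : 0 ≤ B := (norm_nonneg _).trans (hB 0)
  have hK' : K ⊆ Icc 0 N := hK.trans (Icc_subset_Icc_left (Nat.zero_le 1))
  have h1 : ((2 * N + 1 : ℕ) : ℂ) * ∑ k ∈ K, ∑ h ∈ H, f (k + h) =
      ∑ c ∈ range (2 * N + 1),
        (∑ n ∈ Ioc 0 (2 * N), f n * ee (n * ((c : ℝ) / (2 * N + 1 : ℕ)))) *
          ((∑ k ∈ K, ee (-((k : ℝ) / (2 * N + 1 : ℕ) * (c : ℕ)))) *
            ∑ h ∈ H, ee (-((h : ℝ) / (2 * N + 1 : ℕ) * (c : ℕ)))) := by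
    have h2 : ∀ c : ℕ, (∑ n ∈ Ioc 0 (2 * N), f n * ee (n * ((c : ℝ) / (2 * N + 1 : ℕ)))) *
          ((∑ k ∈ K, ee (-((k : ℝ) / (2 * N + 1 : ℕ) * (c : ℕ)))) *
            ∑ h ∈ H, ee (-((h : ℝ) / (2 * N + 1 : ℕ) * (c : ℕ)))) =
        ∑ k ∈ K, ∑ h ∈ H, (∑ n ∈ Ioc 0 (2 * N), f n * ee (n * ((c : ℝ) / (2 * N + 1 : ℕ)))) *
          ee (-(((k + h : ℕ) : ℝ) / (2 * N + 1 : ℕ) * (c : ℕ))) := by
      intro c
      rw [Finset.sum_mul_sum, Finset.mul_sum]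
      refine Finset.sum_congr rfl fun k _ => ?_
      rw [Finset.mul_sum]
      refine Finset.sum_congr rfl fun h _ => ?_
      rw [← bil_ee_add]
      congr 2
      push_cast
      ring
    rw [Finset.sum_congr rfl fun c _ => h2 c, Finset.mul_sum]
    conv_rhs => rw [Finset.sum_comm]
    refine Finset.sum_congr rfl fun k hk => ?_
    rw [Finset.mul_sum]
    conv_rhs => rw [Finset.sum_comm]
    refine Finset.sum_congr rfl fun h hh => ?_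
    have e1 := mem_Icc.1 (hK hk)
    have e2 := mem_Icc.1 (hH hh)
    exact bil_inv f (mem_Ioc.2 ⟨by omega, by omega⟩)
  have h3 : ((2 * N + 1 : ℕ) : ℝ) * ‖∑ k ∈ K, ∑ h ∈ H, f (k + h)‖ ≤
      B * (((2 * N + 1 : ℕ) : ℝ) * √((K.card : ℝ) * H.card)) := by
    have h4 : ((2 * N + 1 : ℕ) : ℝ) * ‖∑ k ∈ K, ∑ h ∈ H, f (k + h)‖ =
        ‖((2 * N + 1 : ℕ) : ℂ) * ∑ k ∈ K, ∑ h ∈ H, f (k + h)‖ := by
      rw [norm_mul, Complex.norm_natCast]
    rw [h4, h1]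
    refine (norm_sum_le _ _).trans ?_
    have h5 : ∀ c ∈ range (2 * N + 1),
        ‖(∑ n ∈ Ioc 0 (2 * N), f n * ee (n * ((c : ℝ) / (2 * N + 1 : ℕ)))) *
          ((∑ k ∈ K, ee (-((k : ℝ) / (2 * N + 1 : ℕ) * (c : ℕ)))) *
            ∑ h ∈ H, ee (-((h : ℝ) / (2 * N + 1 : ℕ) * (c : ℕ))))‖ ≤
        B * (‖∑ k ∈ K, ee (-((k : ℝ) / (2 * N + 1 : ℕ) * (c : ℕ)))‖ *
          ‖∑ h ∈ H, ee (-((h : ℝ) / (2 * N + 1 : ℕ) * (c : ℕ)))‖) := by
      intro c _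
      rw [norm_mul, norm_mul]
      exact mul_le_mul_of_nonneg_right (hB _) (by positivity)
    refine (Finset.sum_le_sum h5).trans ?_
    rw [← Finset.mul_sum]
    refine mul_le_mul_of_nonneg_left ?_ hB0
    refine (Real.sum_mul_le_sqrt_mul_sqrt _ _ _).trans ?_
    rw [bil_parseval K hK', bil_parseval H hH, ← Real.sqrt_mul (by positivity)]
    have h6 : ((2 * N + 1 : ℕ) : ℝ) * K.card * (((2 * N + 1 : ℕ) : ℝ) * H.card) =
        ((2 * N + 1 : ℕ) : ℝ) ^ 2 * ((K.card : ℝ) * H.card) := by ring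
    rw [h6, Real.sqrt_mul (by positivity), Real.sqrt_sq hM.le]
  have h7 : ((2 * N + 1 : ℕ) : ℝ) * ‖∑ k ∈ K, ∑ h ∈ H, f (k + h)‖ ≤
      ((2 * N + 1 : ℕ) : ℝ) * (B * √((K.card : ℝ) * H.card)) := by
    rw [mul_left_comm]
    exact h3
  exact le_of_mul_le_mul_left h7 hM

end Pool.Agent.SW
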