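import Pool.Agent.SW.Defs
import Pool.Agent.REC.QMain

/-! SW/ChrPsi.  `∑_{n ≤ t} Λ(n) χ(n)` for non-exceptional characters of modulus `q ≤ (log N)^16`, from `REC.qpnt` by a
dyadic decomposition of `(√N, t]`. -/

set_option autoImplicit false

namespace Pool.Agent.SW

open Finset DirichletCharacter

private theorem cp_triv {q : ℕ} (χ : DirichletCharacter ℂ q) {N m : ℕ} (hm : m ≤ N) (hN : 1 ≤ N) :
    ‖∑ n ∈ Ioc 0 m, ((ArithmeticFunction.vonMangoldt n : ℝ) : ℂ) * χ n‖ ≤ m * Real.log N := by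
  have hL : 0 ≤ Real.log N := Real.log_nonneg (by exact_mod_cast hN)
  refine (norm_sum_le _ _).trans ?_
  have h1 : ∀ n ∈ Ioc 0 m, ‖((ArithmeticFunction.vonMangoldt n : ℝ) : ℂ) * χ n‖ ≤ Real.log N := by
    intro n hn
    rw [mem_Ioc] at hn
    have hn0 : (0 : ℝ) < n := by exact_mod_cast hn.1
    have hn1 : (n : ℝ) ≤ N := by exact_mod_cast hn.2.trans hm
    have h1 : (ArithmeticFunction.vonMangoldt n : ℝ) ≤ Real.log n :=
      ArithmeticFunction.vonMangoldt_le_log
    have h2 : Real.log n ≤ Real.log N := Real.log_le_log hn0 hn1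
    have h3 := DirichletCharacter.norm_le_one χ (n : ZMod q)
    rw [norm_mul, Complex.norm_real, Real.norm_of_nonneg ArithmeticFunction.vonMangoldt_nonneg]
    calc (ArithmeticFunction.vonMangoldt n : ℝ) * ‖χ n‖ ≤ Real.log N * 1 :=
          mul_le_mul (h1.trans h2) h3 (norm_nonneg _) hL
      _ = Real.log N := mul_one _
  refine (Finset.sum_le_sum h1).trans (le_of_eq ?_)
  simp

private theorem cp_dyad {f : ℕ → ℂ} {s N : ℕ} {E : ℝ} (hE : 0 ≤ E)
    (h : ∀ P, s ≤ P → P ≤ N → ∀ y, P ≤ y → y ≤ 4 * P → ‖∑ n ∈ Ioc P y, f n‖ ≤ P * E)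
    (hs : 1 ≤ s) : ∀ t, s ≤ t → t ≤ N → ‖∑ n ∈ Ioc s t, f n‖ ≤ t * E := by
  intro t
  induction t using Nat.strong_induction_on with
  | _ t ih =>
    intro hst htN
    by_cases h4 : t ≤ 4 * s
    · refine (h s le_rfl (hst.trans htN) t hst h4).trans ?_
      have : (s : ℝ) ≤ t := by exact_mod_cast hst
      exact mul_le_mul_of_nonneg_right this hE
    · have h1 : s ≤ t / 2 := by omega
      have h2 := ih (t / 2) (by omega) h1 (by omega)
      have h3 := h (t / 2) h1 (by omega) t (by omega) (by omega)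
      have h5 : ∑ n ∈ Ioc s t, f n = ∑ n ∈ Ioc s (t / 2), f n + ∑ n ∈ Ioc (t / 2) t, f n := by
        rw [← Finset.sum_union (Finset.Ioc_disjoint_Ioc_of_le le_rfl),
          Finset.Ioc_union_Ioc_eq_Ioc h1 (by omega)]
      rw [h5]
      refine (norm_add_le _ _).trans ?_
      have h6 : ((t / 2 : ℕ) : ℝ) * 2 ≤ t := by exact_mod_cast Nat.div_mul_le_self t 2
      have h7 := mul_le_mul_of_nonneg_right h6 hE
      linarith

/-- the numerical facts for large `x = log N` -/
private theorem cp_num : ∃ X0 : ℝ, ∀ x : ℝ, X0 ≤ x → 3 ≤ Real.log x ∧ 4 * x ^ 61 ≤ Real.exp (x / 2) := by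
  have h1 : ∀ᶠ x : ℝ in Filter.atTop, 3 ≤ Real.log x :=
    Real.tendsto_log_atTop.eventually_ge_atTop 3
  have h2 := (isLittleO_pow_exp_pos_mul_atTop (k := 61) (b := 1 / 2) (by norm_num)).bound
    (show (0 : ℝ) < 1 / 4 by norm_num)
  obtain ⟨X0, hX0⟩ := Filter.eventually_atTop.1 (h1.and h2)
  refine ⟨max X0 0, fun x hx => ?_⟩
  obtain ⟨h3, h4⟩ := hX0 x ((le_max_left _ _).trans hx)
  have hx0 : 0 ≤ x := (le_max_right _ _).trans hx
  refine ⟨h3, ?_⟩
  rw [Real.norm_of_nonneg (by positivity), Real.norm_of_nonneg (Real.exp_pos _).le] at h4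
  have h5 : (1 : ℝ) / 2 * x = x / 2 := by ring
  rw [h5] at h4
  linarith

theorem chr_psi : ∃ N0 : ℕ, ∀ N : ℕ, N0 ≤ N → ∀ (q : ℕ) [NeZero q], (q : ℝ) ≤ Real.log N ^ 16 →
    ∀ χ : DirichletCharacter ℂ q, χ ≠ 1 → (χ ^ 2 = 1 → dl N ≤ ‖LFunction χ 1‖) → ∀ t : ℕ, t ≤ N →
    ‖∑ n ∈ Ioc 0 t, ((ArithmeticFunction.vonMangoldt n : ℝ) : ℂ) * χ n‖ ≤ N / Real.log N ^ 60 := by
  obtain ⟨P0, hP0⟩ := REC.qpnt
  obtain ⟨X0, hX0⟩ := cp_num
  refine ⟨max (P0 ^ 2 + 4) ⌈Real.exp (max X0 1)⌉₊, ?_⟩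
  intro N hN q _ hq χ hχ hex t ht
  have hN1 : P0 ^ 2 + 4 ≤ N := (le_max_left _ _).trans hN
  have hN2 : Real.exp (max X0 1) ≤ N := Nat.ceil_le.1 ((le_max_right _ _).trans hN)
  have hNpos : (0 : ℝ) < N := (Real.exp_pos _).trans_le hN2
  set L := Real.log N with hL
  have hLX : max X0 1 ≤ L := (Real.le_log_iff_exp_le hNpos).2 hN2
  have hL1 : 1 ≤ L := (le_max_right _ _).trans hLX
  obtain ⟨hu, hexp⟩ := hX0 L ((le_max_left _ _).trans hLX)
  have hLpos : 0 < L := by linarith
  set u := Real.log L with hu_def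
  have hexpL : Real.exp L = N := by rw [hL, Real.exp_log hNpos]
  have hexpu : Real.exp u = L := by rw [hu_def, Real.exp_log hLpos]
  -- the start of the dyadic decomposition
  set s := Nat.sqrt N + 1 with hs
  have hs1 : 1 ≤ s := by omega
  have hsP : P0 ≤ s := by
    have : P0 ≤ Nat.sqrt N := by
      rw [Nat.le_sqrt']
      omega
    omega
  have hsN : N < s ^ 2 := by
    have := Nat.lt_succ_sqrt N
    rw [hs, pow_two]
    exact this
  have hsle : ((Nat.sqrt N : ℕ) : ℝ) ≤ Real.exp (L / 2) := by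
    have h1 : ((Nat.sqrt N : ℕ) : ℝ) ^ 2 ≤ N := by exact_mod_cast Nat.sqrt_le' N
    have h2 : Real.exp (L / 2) ^ 2 = N := by
      rw [← Real.exp_nat_mul, ← hexpL]
      congr 1
      push_cast
      ring
    have h3 : ((Nat.sqrt N : ℕ) : ℝ) ^ 2 ≤ Real.exp (L / 2) ^ 2 := by rw [h2]; exact h1
    exact le_of_sq_le_sq h3 (Real.exp_pos _).le
  set E := Real.exp (-(u - 1) ^ 9) with hE
  have hE0 : 0 ≤ E := (Real.exp_pos _).le
  -- the estimate on one interval
  have hblock : ∀ P, s ≤ P → P ≤ N → ∀ y, P ≤ y → y ≤ 4 * P →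
      ‖∑ n ∈ Ioc P y, ((ArithmeticFunction.vonMangoldt n : ℝ) : ℂ) * χ n‖ ≤ P * E := by
    intro P hsP' hPN y hPy hy
    have hPpos : (0 : ℝ) < P := by
      have : 0 < P := by omega
      exact_mod_cast this
    have hlogP : L / 2 ≤ Real.log P := by
      have h1 : (N : ℝ) ≤ (P : ℝ) ^ 2 := by
        have h2 : N ≤ P ^ 2 := hsN.le.trans (Nat.pow_le_pow_left hsP' 2)
        exact_mod_cast h2
      have h3 := Real.log_le_log hNpos h1
      rw [Real.log_pow] at h3
      push_cast at h3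
      linarith
    have hlogP0 : 0 < Real.log P := by linarith
    have hlu : u - 1 ≤ Real.log (Real.log P) := by
      have h1 : Real.log (L / 2) ≤ Real.log (Real.log P) := Real.log_le_log (by linarith) hlogP
      rw [Real.log_div hLpos.ne' (by norm_num)] at h1
      have h2 := Real.log_two_lt_d9
      linarith
    have hu1 : 2 ≤ u - 1 := by linarith
    have hl0 : 0 < Real.log (Real.log P) := by linarith
    have h := hP0 P (hsP.trans hsP') (Real.log (Real.log P)) rfl q ?_ χ hχ ?_ P y le_rfl hPy hy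
    · refine h.trans ?_
      apply mul_le_mul_of_nonneg_left _ hPpos.le
      rw [hE, Real.exp_le_exp]
      have : (u - 1) ^ 9 ≤ Real.log (Real.log P) ^ 9 := pow_le_pow_left₀ (by linarith) hlu 9
      linarith
    · refine hq.trans ?_
      have h1 : L ^ 16 = Real.exp (16 * u) := by
        rw [← hexpu, ← Real.exp_nat_mul]
        norm_num
      rw [h1, Real.exp_le_exp]
      have h2 : (u - 1) ^ 8 ≤ Real.log (Real.log P) ^ 8 := pow_le_pow_left₀ (by linarith) hlu 8
      have h3 : (128 : ℝ) ≤ (u - 1) ^ 7 := by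
        calc (128 : ℝ) = 2 ^ 7 := by norm_num
          _ ≤ (u - 1) ^ 7 := pow_le_pow_left₀ (by norm_num) hu1 7
      have h4 : (u - 1) * 128 ≤ (u - 1) ^ 8 := by
        calc (u - 1) * 128 ≤ (u - 1) * (u - 1) ^ 7 := mul_le_mul_of_nonneg_left h3 (by linarith)
          _ = (u - 1) ^ 8 := by ring
      linarith
    · intro h2
      refine le_trans ?_ (hex h2)
      rw [dl]
      apply one_div_le_one_div_of_le
      · have : 0 < u - 1 := by linarith
        positivity
      · apply pow_le_pow_left₀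
        · have : 0 < u - 1 := by linarith
          positivity
        · have : (u - 1) ^ 12 ≤ Real.log (Real.log P) ^ 12 := pow_le_pow_left₀ (by linarith) hlu 12
          linarith
  have hN1' : 1 ≤ N := by omega
  have hEsmall : E ≤ 1 / (2 * L ^ 60) := by
    have h1 : 2 * L ^ 60 ≤ Real.exp ((u - 1) ^ 9) := by
      have h2 : L ^ 60 = Real.exp (60 * u) := by
        rw [← hexpu, ← Real.exp_nat_mul]
        norm_num
      have h3 : (2 : ℝ) ≤ Real.exp 1 := by
        have := Real.exp_one_gt_d9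
        linarith
      rw [h2]
      calc 2 * Real.exp (60 * u) ≤ Real.exp 1 * Real.exp (60 * u) :=
            mul_le_mul_of_nonneg_right h3 (Real.exp_pos _).le
        _ = Real.exp (1 + 60 * u) := by rw [Real.exp_add]
        _ ≤ Real.exp ((u - 1) ^ 9) := by
            rw [Real.exp_le_exp]
            have h4 : (256 : ℝ) ≤ (u - 1) ^ 8 := by
              calc (256 : ℝ) = 2 ^ 8 := by norm_num
                _ ≤ (u - 1) ^ 8 := pow_le_pow_left₀ (by norm_num) (by linarith) 8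
            have h5 : (u - 1) * 256 ≤ (u - 1) ^ 9 := by
              calc (u - 1) * 256 ≤ (u - 1) * (u - 1) ^ 8 :=
                    mul_le_mul_of_nonneg_left h4 (by linarith)
                _ = (u - 1) ^ 9 := by ring
            linarith
    rw [hE, Real.exp_neg, ← one_div]
    exact one_div_le_one_div_of_le (by positivity) h1
  have hsL : (s : ℝ) * L ≤ N / (2 * L ^ 60) := by
    have h1 : (s : ℝ) ≤ 2 * Real.exp (L / 2) := by
      rw [hs]
      push_cast
      have h2 : 1 ≤ Real.exp (L / 2) := Real.one_le_exp (by linarith)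
      linarith
    rw [le_div_iff₀ (by positivity)]
    have h3 : Real.exp (L / 2) * Real.exp (L / 2) = N := by
      rw [← Real.exp_add, ← hexpL]
      congr 1
      ring
    calc (s : ℝ) * L * (2 * L ^ 60) = s * (2 * L ^ 61) := by ring
      _ ≤ (2 * Real.exp (L / 2)) * (2 * L ^ 61) := mul_le_mul_of_nonneg_right h1 (by positivity)
      _ = Real.exp (L / 2) * (4 * L ^ 61) := by ring
      _ ≤ Real.exp (L / 2) * Real.exp (L / 2) :=
          mul_le_mul_of_nonneg_left hexp (Real.exp_pos _).le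
      _ = N := h3
  have hhalf : N / (2 * L ^ 60) + N / (2 * L ^ 60) = N / L ^ 60 := by
    field_simp
    ring
  have hpos : 0 ≤ N / (2 * L ^ 60) := by positivity
  by_cases hst : s ≤ t
  · have h5 : ∑ n ∈ Ioc 0 t, ((ArithmeticFunction.vonMangoldt n : ℝ) : ℂ) * χ n =
        ∑ n ∈ Ioc 0 s, ((ArithmeticFunction.vonMangoldt n : ℝ) : ℂ) * χ n +
        ∑ n ∈ Ioc s t, ((ArithmeticFunction.vonMangoldt n : ℝ) : ℂ) * χ n := by
      rw [← Finset.sum_union (Finset.Ioc_disjoint_Ioc_of_le le_rfl),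
        Finset.Ioc_union_Ioc_eq_Ioc (Nat.zero_le _) hst]
    rw [h5]
    refine (norm_add_le _ _).trans ?_
    have h6 := cp_triv χ (hst.trans ht) hN1'
    have h7 := cp_dyad hE0 hblock hs1 t hst ht
    have h8 : (t : ℝ) * E ≤ N / (2 * L ^ 60) := by
      have h9 : (t : ℝ) ≤ N := by exact_mod_cast ht
      calc (t : ℝ) * E ≤ N * (1 / (2 * L ^ 60)) := mul_le_mul h9 hEsmall hE0 hNpos.le
        _ = N / (2 * L ^ 60) := by ring
    linarith
  · have h6 := cp_triv χ ht hN1'
    have h7 : (t : ℝ) ≤ s := by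
      have : t ≤ s := by omega
      exact_mod_cast this
    have h8 : (t : ℝ) * L ≤ s * L := mul_le_mul_of_nonneg_right h7 hLpos.le
    linarith

end Pool.Agent.SW
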