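import Mathlib
import Pool.Agent.Helper27.WalkDefs
import Pool.Agent.Helper98.Bern.Defs

/-! SW/Defs.  Project SW (MP_d44763_nt, stationary strategies): definitions of the analytic part. -/

set_option autoImplicit false

namespace Pool.Agent.SW

open Finset Pool.Agent.Helper98.Bern

/-- distance to the nearest integer -/
noncomputable def dn (x : ℝ) : ℝ := |x - round x|

/-- `min X (1 / dn x)` for `X > 0` (equal to `X` if `dn x = 0`) -/
noncomputable def mn (X x : ℝ) : ℝ := X / max 1 (X * dn x)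

/-- `∑_{n ≤ N} Λ(n) e(n θ)` -/
noncomputable def SL (N : ℕ) (θ : ℝ) : ℂ :=
  ∑ n ∈ Ioc 0 N, ((ArithmeticFunction.vonMangoldt n : ℝ) : ℂ) * ee (n * θ)

/-- `∑_{n ≤ N} e(n β)` -/
noncomputable def TT (N : ℕ) (β : ℝ) : ℂ := ∑ n ∈ Ioc 0 N, ee (n * β)

/-- the model `(W/φ(W)) 1_{(n,W) = 1}`, `W` the product of the primes `≤ w` -/
noncomputable def lam (w n : ℕ) : ℝ :=
  if n.Coprime (primorial w) then (primorial w : ℝ) / ((primorial w).totient : ℝ) else 0

/-- `∑_{n ≤ N} lam w n e(n θ)` -/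
noncomputable def SM (w N : ℕ) (θ : ℝ) : ℂ := ∑ n ∈ Ioc 0 N, ((lam w n : ℝ) : ℂ) * ee (n * θ)

/-- the coefficient `μ(q)/φ(q)` -/
noncomputable def cq (q : ℕ) : ℂ := ((ArithmeticFunction.moebius q : ℤ) : ℂ) / (q.totient : ℂ)

/-- threshold for exceptional characters at the scale `N` -/
noncomputable def dl (N : ℕ) : ℝ := 1 / (32 * (Real.log (Real.log N) - 1) ^ 12) ^ 30

/-- the Gauss type sum of a character modulo `q` at the frequency `a/q` -/
noncomputable def gs (q : ℕ) [NeZero q] (a : ℤ) (χ : DirichletCharacter ℂ q) : ℂ :=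
  ∑ r : ZMod q, χ r * ee ((a : ℝ) * (r.val : ℝ) / (q : ℝ))

/-- partial sums of a sequence of steps -/
def hs (s : ℕ → ℕ) (n : ℕ) : ℕ := ∑ m ∈ range n, s m

/-- lower bound for the density of good places of a cut with `b` elements modulo the odd primes `≤ w` -/
noncomputable def dens (b w : ℕ) : ℝ :=
  ∏ p ∈ (Icc 3 w).filter Nat.Prime, (1 - ((min b (p - 1) : ℕ) : ℝ) / (p : ℝ))

end Pool.Agent.SW
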