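import Pool.Agent.SW.Defs
import Pool.Agent.Helper27.WalkCuts

/-! SW/Loc.  Every walk meets many numbers coprime to `primorial w`.

PROOF.  `W' = ∏` of the odd primes `≤ w`.  `τ n = hs s n / 2^u` has steps `1` or `b`, `τ 0 = 0`.  Call `t ≥ 1` good if for every odd prime
`p ≤ w` and every `x ∈ L`: `p ∤ k + 2^u (t + x)`.  For a fixed odd prime `p` the set of bad classes of `t` modulo `p` is
`{-x - k 2^(-u) : x ∈ L}`, with at most `min b (p-1)` elements (`L` has `b` elements and misses a class by `hadm`).  By CRT the number of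
good `t` in a complete system modulo `W'` is `≥ ∏ (p - min b (p-1)) = W' dens b w`.  By `crossing` (start `τ 0 = 0 < t`) for every
good `t` there are `n`, `x ∈ L` with `τ n = t + x`, and then `k + hs s n = k + 2^u (t + x)` is coprime to all odd primes `≤ w` and odd.
Each `n` belongs to at most `b` different `t`.  With `t ≤ N/2^u - max L`: `hs s n ≤ N`, so the number of `n` is
`≥ (1/b) ⌊(N/2^u - max L)/W'⌋ W' dens b w ≥ dens b w N/(2^(u+1) b)` for `N ≥ N0(u, b, L, w)`.  (`n ≤ hs s n ≤ N`.) -/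

set_option autoImplicit false

namespace Pool.Agent.SW

open Finset Pool.Agent.Helper27

private theorem modEq_of_dvd {p u k t t' x x' : ℕ} (hcop : Nat.Coprime (2 ^ u) p)
    (h : p ∣ k + 2 ^ u * (t + x)) (h' : p ∣ k + 2 ^ u * (t' + x')) :
    t + x ≡ t' + x' [MOD p] := by
  have h1 : k + 2 ^ u * (t + x) ≡ k + 2 ^ u * (t' + x') [MOD p] :=
    ((Nat.modEq_zero_iff_dvd).2 h).trans ((Nat.modEq_zero_iff_dvd).2 h').symm
  have h2 : 2 ^ u * (t + x) ≡ 2 ^ u * (t' + x') [MOD p] := Nat.ModEq.add_left_cancel' k h1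
  exact Nat.ModEq.cancel_left_of_coprime hcop.symm h2

private def Gd (L : List ℕ) (k u p t : ℕ) : Prop := ∀ x ∈ L, ¬ p ∣ k + 2 ^ u * (t + x)

open Classical in
private noncomputable def AA (L : List ℕ) (k u p : ℕ) : Finset ℕ :=
  (range p).filter fun t => Gd L k u p t

private theorem mem_AA {L : List ℕ} {k u p t : ℕ} :
    t ∈ AA L k u p ↔ t < p ∧ ∀ x ∈ L, ¬ p ∣ k + 2 ^ u * (t + x) := by
  classical
  unfold AA
  rw [Finset.mem_filter, mem_range]
  rfl

private theorem AA_sub (L : List ℕ) (k u p : ℕ) : AA L k u p ⊆ range p := fun _ ht =>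
  mem_range.2 (mem_AA.1 ht).1

private theorem card_good {p : ℕ} (hp : p.Prime) (hp2 : p ≠ 2) (u b : ℕ) (L : List ℕ)
    (hLb : L.length = b) (hmiss : ∃ a, Misses L p a) (k : ℕ) :
    p ≤ (AA L k u p).card + min b (p - 1) := by
  have hcop : Nat.Coprime (2 ^ u) p :=
    Nat.Coprime.pow_left u ((Nat.coprime_primes Nat.prime_two hp).2 fun h => hp2 h.symm)
  have hsum := Finset.card_sdiff_add_card_eq_card (AA_sub L k u p)
  rw [card_range] at hsum
  have h1 : (range p \ AA L k u p).card ≤ b := by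
    have hsub : (range p \ AA L k u p) ⊆
        L.toFinset.biUnion fun x => (range p).filter fun t => p ∣ k + 2 ^ u * (t + x) := by
      intro t ht
      rw [mem_sdiff, mem_AA, mem_range] at ht
      obtain ⟨h2, h3⟩ := ht
      push Not at h3
      obtain ⟨x, hx, hd⟩ := h3 h2
      rw [mem_biUnion]
      exact ⟨x, List.mem_toFinset.2 hx, mem_filter.2 ⟨mem_range.2 h2, hd⟩⟩
    refine (card_le_card hsub).trans ?_
    refine (card_biUnion_le_card_mul _ _ 1 fun x _ => ?_).trans ?_
    · rw [card_le_one]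
      intro t ht t' ht'
      rw [mem_filter, mem_range] at ht ht'
      have h3 := modEq_of_dvd hcop ht.2 ht'.2
      exact Nat.ModEq.eq_of_lt_of_lt (Nat.ModEq.add_right_cancel' x h3) ht.1 ht'.1
    · rw [mul_one, ← hLb]
      exact List.toFinset_card_le L
  have h2 : (AA L k u p).Nonempty := by
    obtain ⟨a, ha⟩ := hmiss
    obtain ⟨v, _, hv⟩ := Nat.exists_mul_mod_eq_one_of_coprime hcop hp.one_lt
    have hz : p ∣ k + 2 ^ u * ((v * ((p - 1) * k) + (p - 1) * a) % p + a) := by
      rw [← ZMod.natCast_eq_zero_iff]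
      have hv' : ((2 : ZMod p) ^ u) * (v : ZMod p) = 1 := by
        have h3 : ((2 ^ u * v : ℕ) : ZMod p) = ((1 : ℕ) : ZMod p) := by
          rw [ZMod.natCast_eq_natCast_iff]
          rw [Nat.ModEq, hv, Nat.mod_eq_of_lt hp.one_lt]
        push_cast at h3
        exact h3
      have hp1 : ((p - 1 : ℕ) : ZMod p) = -1 := by
        rw [Nat.cast_sub hp.one_lt.le]
        simp
      push_cast
      rw [ZMod.natCast_mod]
      push_cast
      rw [hp1]
      linear_combination (-(k : ZMod p)) * hv'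
    refine ⟨(v * ((p - 1) * k) + (p - 1) * a) % p, mem_AA.2
      ⟨Nat.mod_lt _ hp.pos, fun x hx hd => ?_⟩⟩
    have h3 := modEq_of_dvd hcop hd hz
    exact ha x hx (Nat.ModEq.add_left_cancel' _ h3)
  have h3 := h2.card_pos
  have h4 : (range p \ AA L k u p).card ≤ p - 1 := by
    omega
  have h5 := le_min h1 h4
  omega

private theorem crt_count (P : Finset ℕ) (hP : ∀ p ∈ P, p.Prime) (A : ℕ → Finset ℕ)
    (hA : ∀ p ∈ P, A p ⊆ range p) :
    ∏ p ∈ P, (A p).card ≤
      ((range (∏ p ∈ P, p)).filter fun t => ∀ p ∈ P, t % p ∈ A p).card := by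
  classical
  have hco : (↑(Finset.univ : Finset P) : Set P).Pairwise
      (Function.onFun Nat.Coprime fun p : P => (p : ℕ)) := by
    intro p _ q _ hpq
    exact (Nat.coprime_primes (hP p p.2) (hP q q.2)).2 fun h => hpq (Subtype.ext h)
  have hF : ∀ r : P → ℕ, ∃ t : ℕ, t < ∏ p ∈ P, p ∧ ∀ p : P, t ≡ r p [MOD p] := by
    intro r
    refine ⟨(Nat.chineseRemainderOfFinset r (fun p : P => (p : ℕ)) Finset.univ
      (fun p _ => (hP p p.2).ne_zero) hco : ℕ), ?_, fun p => ?_⟩
    · refine lt_of_lt_of_eq (Nat.chineseRemainderOfFinset_lt_prod r (fun p : P => (p : ℕ))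
        (fun p _ => (hP p p.2).ne_zero) hco) ?_
      exact Finset.prod_coe_sort P fun p => p
    · exact (Nat.chineseRemainderOfFinset r (fun p : P => (p : ℕ)) Finset.univ
        (fun p _ => (hP p p.2).ne_zero) hco).2 p (mem_univ p)
  choose F hF1 hF2 using hF
  have hcard : ∏ p ∈ P, (A p).card = (Fintype.piFinset fun p : P => A p).card := by
    rw [Fintype.card_piFinset]
    exact (Finset.prod_coe_sort P fun p => (A p).card).symm
  rw [hcard]
  refine card_le_card_of_injOn F (fun r hr => ?_) (fun r hr r' hr' hrr => ?_)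
  · rw [mem_coe, Fintype.mem_piFinset] at hr
    rw [mem_coe, mem_filter, mem_range]
    refine ⟨hF1 r, fun p hp => ?_⟩
    have h1 : F r ≡ r ⟨p, hp⟩ [MOD p] := hF2 r ⟨p, hp⟩
    have h2 := hr ⟨p, hp⟩
    have h3 : r ⟨p, hp⟩ < p := mem_range.1 (hA p hp h2)
    rw [Nat.ModEq, Nat.mod_eq_of_lt h3] at h1
    rw [h1]
    exact h2
  · rw [mem_coe, Fintype.mem_piFinset] at hr hr'
    funext p
    have h1 := hF2 r p
    have h2 := hF2 r' p
    rw [hrr] at h1
    exact Nat.ModEq.eq_of_lt_of_lt (h1.symm.trans h2) (mem_range.1 (hA p p.2 (hr p)))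
      (mem_range.1 (hA p p.2 (hr' p)))

theorem loc (u b : ℕ) (hu : 1 ≤ u) (hb : 2 ≤ b) (L : List ℕ) (hL : IsCut b L)
    (hadm : ∀ q : ℕ, q.Prime → q ≠ 2 → ∃ a, Misses L q a) (w : ℕ) : ∃ N0 : ℕ, ∀ N : ℕ, N0 ≤ N →
    ∀ s : ℕ → ℕ, (∀ n, s n = 2 ^ u ∨ s n = 2 ^ u * b) → ∀ k : ℕ, Odd k →
    dens b w * N / (2 ^ (u + 1) * b) ≤
      (((range (N + 1)).filter fun n => hs s n ≤ N ∧ (k + hs s n).Coprime (primorial w)).card : ℝ) := by
  obtain ⟨P, hP⟩ : ∃ P, P = (Icc 3 w).filter Nat.Prime := ⟨_, rfl⟩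
  have hPp : ∀ p ∈ P, p.Prime ∧ p ≠ 2 ∧ p ≤ w := by
    intro p hp
    rw [hP, mem_filter, mem_Icc] at hp
    exact ⟨hp.2, by omega, hp.1.2⟩
  obtain ⟨W, hW⟩ : ∃ W, W = ∏ p ∈ P, p := ⟨_, rfl⟩
  have hW0 : 0 < W := by
    rw [hW]
    exact Finset.prod_pos fun p hp => (hPp p hp).1.pos
  obtain ⟨B, hB⟩ : ∃ B : ℕ, ∀ x ∈ L, x ≤ B :=
    ⟨L.sum, fun x hx => List.single_le_sum (by simp) x hx⟩
  refine ⟨2 ^ (u + 1) * (1 + B + 2 * W), fun N hN s hs' k hk => ?_⟩
  obtain ⟨A, hA⟩ : ∃ A : ℕ → Finset ℕ, A = AA L k u := ⟨_, rfl⟩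
  obtain ⟨G, hG⟩ : ∃ G, G = (range W).filter fun t => ∀ p ∈ P, t % p ∈ A p := ⟨_, rfl⟩
  have hGc : ∏ p ∈ P, (A p).card ≤ G.card := by
    rw [hG, hW]
    refine crt_count P (fun p hp => (hPp p hp).1) A fun p _ => ?_
    rw [hA]
    exact AA_sub _ _ _ _
  have hfac : ∀ p ∈ P, (0 : ℝ) ≤ 1 - ((min b (p - 1) : ℕ) : ℝ) / (p : ℝ) := by
    intro p hp
    have hp0 : (0 : ℝ) < p := by exact_mod_cast (hPp p hp).1.pos
    rw [sub_nonneg, div_le_one hp0]
    exact_mod_cast (min_le_right b (p - 1)).trans (Nat.sub_le _ _)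
  have hd0 : 0 ≤ dens b w := by
    unfold dens
    rw [← hP]
    exact Finset.prod_nonneg hfac
  have hGd : dens b w * (W : ℝ) ≤ (G.card : ℝ) := by
    have h1 : dens b w * (W : ℝ) = ∏ p ∈ P, ((p : ℝ) - ((min b (p - 1) : ℕ) : ℝ)) := by
      unfold dens
      rw [← hP, hW]
      push_cast
      rw [← Finset.prod_mul_distrib]
      refine Finset.prod_congr rfl fun p hp => ?_
      have hp0 : (p : ℝ) ≠ 0 := by exact_mod_cast (hPp p hp).1.ne_zero
      field_simp
    have h2 : ∏ p ∈ P, ((p : ℝ) - ((min b (p - 1) : ℕ) : ℝ)) ≤ ∏ p ∈ P, ((A p).card : ℝ) := by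
      refine Finset.prod_le_prod (fun p hp => ?_) fun p hp => ?_
      · rw [sub_nonneg]
        exact_mod_cast (min_le_right b (p - 1)).trans (Nat.sub_le _ _)
      · have h3 := card_good (hPp p hp).1 (hPp p hp).2.1 u b L hL.1
          (hadm p (hPp p hp).1 (hPp p hp).2.1) k
        have h4 : (p : ℝ) ≤ ((A p).card : ℝ) + ((min b (p - 1) : ℕ) : ℝ) := by
          rw [hA]
          exact_mod_cast h3
        linarith
    rw [h1]
    refine h2.trans ?_
    have h5 : ((∏ p ∈ P, (A p).card : ℕ) : ℝ) ≤ (G.card : ℝ) := by exact_mod_cast hGc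
    push_cast at h5
    exact h5
  -- the walk in scaled coordinates
  obtain ⟨τ, hτ⟩ : ∃ τ : ℕ → ℕ, τ = fun n => ∑ m ∈ range n, (if s m = 2 ^ u then 1 else b) :=
    ⟨_, rfl⟩
  have hτs : ∀ n, τ (n + 1) = τ n + (if s n = 2 ^ u then 1 else b) := by
    intro n
    rw [hτ]
    exact Finset.sum_range_succ _ _
  have hhs : ∀ n, hs s n = 2 ^ u * τ n := by
    intro n
    rw [hτ]
    unfold hs
    rw [Finset.mul_sum]
    refine Finset.sum_congr rfl fun m _ => ?_
    split_ifs with h
    · rw [h, mul_one]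
    · rcases hs' m with h1 | h1
      · exact absurd h1 h
      · exact h1
  have hτn : ∀ n, n ≤ τ n := by
    intro n
    induction n with
    | zero => exact Nat.zero_le _
    | succ n ih =>
      rw [hτs]
      split_ifs
      · omega
      · omega
  have hcross : ∀ t : ℕ, ∃ n x : ℕ, 0 < t → (x ∈ L ∧ τ n = t + x) := by
    intro t
    by_cases ht : 0 < t
    · obtain ⟨n, x, hx, hn⟩ := crossing b (by omega) L hL (fun n => (τ n : ℤ)) (fun n => by
        rw [hτs]
        split_ifs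
        · left
          push_cast
          ring
        · right
          push_cast
          ring) (t : ℤ) (by
        have h0 : τ 0 = 0 := by
          rw [hτ]
          exact Finset.sum_range_zero _
        simp only [h0]
        exact_mod_cast ht)
      exact ⟨n, x, fun _ => ⟨hx, by exact_mod_cast hn⟩⟩
    · exact ⟨0, 0, fun h => absurd h ht⟩
  choose nf xf hnx using hcross
  -- numbers
  obtain ⟨M, hM⟩ : ∃ M, M = N / 2 ^ u := ⟨_, rfl⟩
  have h2u : 0 < 2 ^ u := by positivity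
  have hMN : 2 ^ u * M ≤ N := by
    rw [hM]
    exact Nat.mul_div_le N (2 ^ u)
  have hNM : N < 2 ^ u * (M + 1) := by
    rw [hM]
    exact Nat.lt_mul_div_succ N h2u
  have hM2 : 2 * (1 + B + 2 * W) ≤ M := by
    rw [hM, Nat.le_div_iff_mul_le h2u]
    refine le_trans (le_of_eq ?_) hN
    rw [pow_succ]
    ring
  obtain ⟨J, hJ⟩ : ∃ J, J = (M - B) / W - 1 := ⟨_, rfl⟩
  have hJ1 : (J + 1) * W ≤ M - B := by
    have h1 : 1 ≤ (M - B) / W := by
      rw [Nat.le_div_iff_mul_le hW0]
      omega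
    rw [hJ, Nat.sub_add_cancel h1]
    exact Nat.div_mul_le_self _ _
  have hJ2 : M + 1 ≤ 2 * (J * W) := by
    have h1 : 1 ≤ (M - B) / W := by
      rw [Nat.le_div_iff_mul_le hW0]
      omega
    have h2 : M - B < (J + 2) * W := by
      have h3 : (M - B) / W = J + 1 := by omega
      have h4 := Nat.lt_mul_div_succ (M - B) hW0
      rw [h3] at h4
      linarith
    have h3 : (J + 2) * W = J * W + 2 * W := by ring
    omega
  -- counting
  have hkey : J * G.card ≤ b * ((range (N + 1)).filter fun n => hs s n ≤ N ∧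
      (k + hs s n).Coprime (primorial w)).card := by
    obtain ⟨f, hf⟩ : ∃ f : ℕ × ℕ → ℕ, f = fun q => nf (q.1 * W + q.2) := ⟨_, rfl⟩
    have hQ : (Icc 1 J ×ˢ G).card = J * G.card := by
      rw [card_product, Nat.card_Icc]
      simp
    have hpos : ∀ q ∈ Icc 1 J ×ˢ G, 0 < q.1 * W + q.2 ∧ q.2 < W ∧ q.1 ≤ J ∧
        ∀ p ∈ P, (q.2 % p) ∈ A p := by
      intro q hq
      rw [mem_product, mem_Icc, hG, mem_filter, mem_range] at hq
      have : 0 < q.1 * W := Nat.mul_pos (by omega) hW0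
      exact ⟨by omega, hq.2.1, hq.1.2, hq.2.2⟩
    have himg : (Icc 1 J ×ˢ G).image f ⊆ (range (N + 1)).filter fun n => hs s n ≤ N ∧
        (k + hs s n).Coprime (primorial w) := by
      intro n hn
      rw [mem_image] at hn
      obtain ⟨q, hq, rfl⟩ := hn
      obtain ⟨h0, h1, h2, h3⟩ := hpos q hq
      obtain ⟨hx, hn⟩ := hnx _ h0
      have hfq : f q = nf (q.1 * W + q.2) := by rw [hf]
      rw [hfq]
      have h4 : q.1 * W + q.2 < (J + 1) * W := by
        have h5 : q.1 * W ≤ J * W := Nat.mul_le_mul_right W h2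
        have h6 : (J + 1) * W = J * W + W := by ring
        omega
      have h5 : τ (nf (q.1 * W + q.2)) ≤ M := by
        have := hB _ hx
        omega
      have h6 : hs s (nf (q.1 * W + q.2)) ≤ N := by
        rw [hhs]
        exact (Nat.mul_le_mul_left _ h5).trans hMN
      rw [mem_filter, mem_range]
      refine ⟨?_, h6, ?_⟩
      · have h7 := hτn (nf (q.1 * W + q.2))
        have h8 : τ (nf (q.1 * W + q.2)) ≤ 2 ^ u * τ (nf (q.1 * W + q.2)) :=
          Nat.le_mul_of_pos_left _ h2u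
        rw [← hhs] at h8
        omega
      · unfold primorial
        refine Nat.Coprime.prod_right fun p hp => ?_
        rw [mem_filter, mem_range] at hp
        refine ((Nat.Prime.coprime_iff_not_dvd hp.2).2 fun hd => ?_).symm
        rw [hhs, hn] at hd
        by_cases hp2 : p = 2
        · subst hp2
          have h9 : Even (2 ^ u * (q.1 * W + q.2 + xf (q.1 * W + q.2))) := by
            refine Even.mul_right ?_ _
            exact (Nat.even_pow.2 ⟨even_two, by omega⟩)
          exact (Nat.not_even_iff_odd.2 (hk.add_even h9)) (even_iff_two_dvd.2 hd)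
        · have hpP : p ∈ P := by
            rw [hP, mem_filter, mem_Icc]
            have := hp.2.two_le
            exact ⟨⟨by omega, by omega⟩, hp.2⟩
          have h9 := h3 p hpP
          rw [hA, mem_AA] at h9
          apply h9.2 _ hx
          have hpW : p ∣ W := by
            rw [hW]
            exact Finset.dvd_prod_of_mem _ hpP
          rw [← Nat.modEq_zero_iff_dvd] at hd ⊢
          refine Nat.ModEq.trans ?_ hd
          refine Nat.ModEq.add_left _ (Nat.ModEq.mul_left _ (Nat.ModEq.add_right _ ?_))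
          refine (Nat.mod_modEq _ _).trans ?_
          have h10 : q.1 * W + q.2 ≡ 0 + q.2 [MOD p] :=
            Nat.ModEq.add_right _ ((Nat.modEq_zero_iff_dvd).2 (Dvd.dvd.mul_left hpW _))
          rw [zero_add] at h10
          exact h10.symm
    have hfib : ∀ n ∈ (Icc 1 J ×ˢ G).image f,
        ((Icc 1 J ×ˢ G).filter fun q => f q = n).card ≤ b := by
      intro n _
      refine le_trans ?_ (le_trans (List.toFinset_card_le L) (le_of_eq hL.1))
      refine card_le_card_of_injOn (fun q => xf (q.1 * W + q.2)) (fun q hq => ?_)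
        (fun q hq q' hq' hqq => ?_)
      · rw [mem_coe, mem_filter] at hq
        rw [mem_coe, List.mem_toFinset]
        exact (hnx _ (hpos q hq.1).1).1
      · rw [mem_coe, mem_filter] at hq hq'
        obtain ⟨h0, h1, h2, _⟩ := hpos q hq.1
        obtain ⟨h0', h1', h2', _⟩ := hpos q' hq'.1
        have e1 := (hnx _ h0).2
        have e2 := (hnx _ h0').2
        have e3 : nf (q.1 * W + q.2) = nf (q'.1 * W + q'.2) := by
          have := hq.2.trans hq'.2.symm
          rw [hf] at this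
          exact this
        simp only at hqq
        rw [e3, hqq] at e1
        have e4 : q.1 * W + q.2 = q'.1 * W + q'.2 := by omega
        have e5 : q.1 = q'.1 := by
          have a1 : (q.1 * W + q.2) / W = q.1 := by
            rw [mul_comm, Nat.mul_add_div hW0, Nat.div_eq_of_lt h1, add_zero]
          have a2 : (q'.1 * W + q'.2) / W = q'.1 := by
            rw [mul_comm, Nat.mul_add_div hW0, Nat.div_eq_of_lt h1', add_zero]
          rw [← a1, ← a2, e4]
        have e6 : q.2 = q'.2 := by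
          rw [e5] at e4
          omega
        exact Prod.ext e5 e6
    have h1 := card_le_mul_card_image (Icc 1 J ×ˢ G) b hfib
    rw [hQ] at h1
    exact h1.trans (Nat.mul_le_mul_left b (card_le_card himg))
  obtain ⟨C, hC⟩ : ∃ C : ℕ, C = ((range (N + 1)).filter fun n => hs s n ≤ N ∧
      (k + hs s n).Coprime (primorial w)).card := ⟨_, rfl⟩
  rw [← hC] at hkey ⊢
  have hb0 : (0 : ℝ) < b := by
    have : 0 < b := by omega
    exact_mod_cast this
  rw [div_le_iff₀ (by positivity)]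
  have hkR : (J : ℝ) * (G.card : ℝ) ≤ (b : ℝ) * (C : ℝ) := by exact_mod_cast hkey
  have hNJ : (N : ℝ) ≤ 2 ^ (u + 1) * ((J : ℝ) * (W : ℝ)) := by
    have h1 : N ≤ 2 ^ (u + 1) * (J * W) := by
      have h2 : 2 ^ u * (M + 1) ≤ 2 ^ u * (2 * (J * W)) := Nat.mul_le_mul_left _ hJ2
      have h3 : 2 ^ (u + 1) * (J * W) = 2 ^ u * (2 * (J * W)) := by
        rw [pow_succ]
        ring
      omega
    exact_mod_cast h1
  have h2u' : (0 : ℝ) < 2 ^ (u + 1) := by positivity
  calc dens b w * (N : ℝ) ≤ dens b w * (2 ^ (u + 1) * ((J : ℝ) * (W : ℝ))) :=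
        mul_le_mul_of_nonneg_left hNJ hd0
    _ = 2 ^ (u + 1) * ((J : ℝ) * (dens b w * (W : ℝ))) := by ring
    _ ≤ 2 ^ (u + 1) * ((J : ℝ) * (G.card : ℝ)) := by
        refine mul_le_mul_of_nonneg_left ?_ h2u'.le
        exact mul_le_mul_of_nonneg_left hGd (Nat.cast_nonneg J)
    _ ≤ 2 ^ (u + 1) * ((b : ℝ) * (C : ℝ)) := mul_le_mul_of_nonneg_left hkR h2u'.le
    _ = (C : ℝ) * (2 ^ (u + 1) * (b : ℝ)) := by ring

end Pool.Agent.SW
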