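import Pool.Agent.SW.Defs
import Pool.Agent.Helper52.PrimeSums

/-! SW/Mert.  `w · dens b w` is unbounded.

PROOF.  For the primes `p ≤ 2b`: each factor is `≥ 1/p > 0`, a positive constant `c` altogether.  For `p > 2b`: `1 - b/p ≥ exp (-2b/p)`.  So
`dens b w ≥ c exp (-2b ∑_{2b < p ≤ w} 1/p)`, and `∑_{p ≤ 2^n} 1/p ≤ log n + 8` (Mertens). -/

set_option autoImplicit false

namespace Pool.Agent.SW

open Finset

private theorem factor_pos (b p : ℕ) (hp : 3 ≤ p) :
    1 / (p : ℝ) ≤ 1 - ((min b (p - 1) : ℕ) : ℝ) / (p : ℝ) := by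
  have hp0 : (0 : ℝ) < p := by
    have : 0 < p := by omega
    exact_mod_cast this
  have h1 : ((min b (p - 1) : ℕ) : ℝ) + 1 ≤ (p : ℝ) := by
    have : min b (p - 1) + 1 ≤ p := by
      have := min_le_right b (p - 1)
      omega
    exact_mod_cast this
  rw [le_sub_iff_add_le, ← add_div, div_le_one hp0]
  linarith

theorem dens_pos (b w : ℕ) : 0 < dens b w := by
  unfold dens
  apply Finset.prod_pos
  intro p hp
  have h3 : 3 ≤ p := (Finset.mem_Icc.1 (Finset.mem_filter.1 hp).1).1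
  have hp0 : (0 : ℝ) < p := by
    have : 0 < p := by omega
    exact_mod_cast this
  exact lt_of_lt_of_le (by positivity) (factor_pos b p h3)

private theorem one_sub_ge_exp (x : ℝ) (h0 : 0 ≤ x) (h1 : x ≤ 1 / 2) :
    Real.exp (-(2 * x)) ≤ 1 - x := by
  have h2 : (0 : ℝ) < 1 - x := by linarith
  rw [← Real.le_log_iff_exp_le h2]
  have h3 := Real.one_sub_inv_le_log_of_pos h2
  have h4 : -(2 * x) ≤ 1 - (1 - x)⁻¹ := by
    rw [le_sub_iff_add_le, ← sub_neg_eq_add]
    have h5 : (1 - x)⁻¹ ≤ 1 + 2 * x := by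
      rw [inv_le_comm₀ h2 (by linarith), inv_eq_one_div, div_le_iff₀ (by linarith)]
      nlinarith
    linarith
  linarith

private theorem factor_ge (b p : ℕ) (hp : 3 ≤ p) :
    Real.exp (-(2 * b * (1 / (p : ℝ)))) * (if p ≤ 2 * b then 1 / (p : ℝ) else 1) ≤
      1 - ((min b (p - 1) : ℕ) : ℝ) / (p : ℝ) := by
  have hp0 : (0 : ℝ) < p := by
    have : 0 < p := by omega
    exact_mod_cast this
  split_ifs with h
  · refine le_trans ?_ (factor_pos b p hp)
    have h1 : Real.exp (-(2 * b * (1 / (p : ℝ)))) ≤ 1 := by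
      rw [Real.exp_le_one_iff]
      have : 0 ≤ 2 * (b : ℝ) * (1 / (p : ℝ)) := by positivity
      linarith
    have h2 : (0 : ℝ) ≤ 1 / (p : ℝ) := by positivity
    nlinarith
  · have hlt : 2 * b < p := not_le.1 h
    have hm : min b (p - 1) = b := min_eq_left (by omega)
    rw [hm, mul_one]
    have h1 : (b : ℝ) / p ≤ 1 / 2 := by
      rw [div_le_div_iff₀ hp0 (by norm_num)]
      have : (2 : ℝ) * b < p := by exact_mod_cast hlt
      linarith
    have h2 := one_sub_ge_exp ((b : ℝ) / p) (by positivity) h1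
    have h3 : 2 * (b : ℝ) * (1 / (p : ℝ)) = 2 * ((b : ℝ) / p) := by ring
    rw [h3]
    exact h2

private theorem small_prod (b : ℕ) (s : Finset ℕ) (hs : ∀ p ∈ s, 1 ≤ p) :
    ∏ p ∈ Icc 1 (2 * b), (1 / (p : ℝ)) ≤ ∏ p ∈ s, (if p ≤ 2 * b then 1 / (p : ℝ) else 1) := by
  classical
  rw [← Finset.prod_filter]
  have hsub : s.filter (fun p => p ≤ 2 * b) ⊆ Icc 1 (2 * b) := by
    intro p hp
    rw [Finset.mem_filter] at hp
    rw [Finset.mem_Icc]
    exact ⟨hs p hp.1, hp.2⟩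
  rw [← Finset.prod_sdiff hsub]
  have h1 : ∏ p ∈ Icc 1 (2 * b) \ s.filter (fun p => p ≤ 2 * b), (1 / (p : ℝ)) ≤ 1 := by
    apply Finset.prod_le_one
    · intro p _
      positivity
    · intro p hp
      have hp1 : 1 ≤ p := (Finset.mem_Icc.1 (Finset.mem_sdiff.1 hp).1).1
      have hp1' : (1 : ℝ) ≤ p := by exact_mod_cast hp1
      rw [div_le_one (by linarith)]
      exact hp1'
  have h2 : 0 ≤ ∏ p ∈ s.filter (fun p => p ≤ 2 * b), (1 / (p : ℝ)) :=
    Finset.prod_nonneg (fun p _ => by positivity)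
  nlinarith

private theorem dens_ge (b n : ℕ) (hn : 1 ≤ n) :
    Real.exp (-(2 * b * (Real.log n + 8))) * ∏ p ∈ Icc 1 (2 * b), (1 / (p : ℝ)) ≤ dens b (2 ^ n) := by
  have hs : ∀ p ∈ (Icc 3 (2 ^ n)).filter Nat.Prime, 3 ≤ p := by
    intro p hp
    exact (Finset.mem_Icc.1 (Finset.mem_filter.1 hp).1).1
  have h1 : ∏ p ∈ (Icc 3 (2 ^ n)).filter Nat.Prime,
      (Real.exp (-(2 * b * (1 / (p : ℝ)))) * (if p ≤ 2 * b then 1 / (p : ℝ) else 1)) ≤ dens b (2 ^ n) := by
    unfold dens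
    apply Finset.prod_le_prod
    · intro p _
      split_ifs <;> positivity
    · intro p hp
      exact factor_ge b p (hs p hp)
  refine le_trans ?_ h1
  rw [Finset.prod_mul_distrib]
  have hsum : ∑ p ∈ (Icc 3 (2 ^ n)).filter Nat.Prime, (1 / (p : ℝ)) ≤ Real.log n + 8 := by
    refine le_trans ?_ (Pool.Agent.Helper52.mertens2 hn)
    apply Finset.sum_le_sum_of_subset_of_nonneg
    · intro p hp
      rw [Finset.mem_filter, Finset.mem_Icc] at hp
      rw [Pool.Agent.Helper52.mem_pr]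
      exact ⟨by omega, hp.1.2, hp.2⟩
    · intro p _ _
      positivity
  have h2 : Real.exp (-(2 * b * (Real.log n + 8))) ≤
      ∏ p ∈ (Icc 3 (2 ^ n)).filter Nat.Prime, Real.exp (-(2 * b * (1 / (p : ℝ)))) := by
    rw [← Real.exp_sum, Real.exp_le_exp, Finset.sum_neg_distrib, ← Finset.mul_sum]
    have hb : (0 : ℝ) ≤ 2 * b := by positivity
    have := mul_le_mul_of_nonneg_left hsum hb
    linarith
  have h3 := small_prod b ((Icc 3 (2 ^ n)).filter Nat.Prime) (fun p hp => by have := hs p hp; omega)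
  have h4 : 0 ≤ ∏ p ∈ Icc 1 (2 * b), (1 / (p : ℝ)) := Finset.prod_nonneg (fun p _ => by positivity)
  exact mul_le_mul h2 h3 h4 (Finset.prod_nonneg (fun p _ => (Real.exp_pos _).le))

theorem mert (b : ℕ) (C : ℝ) : ∃ w : ℕ, 2 ≤ w ∧ C ≤ w * dens b w := by
  set c : ℝ := ∏ p ∈ Icc 1 (2 * b), (1 / (p : ℝ)) with hc
  have hcpos : 0 < c := by
    apply Finset.prod_pos
    intro p hp
    have hp1 : 1 ≤ p := (Finset.mem_Icc.1 hp).1
    have hp1' : (1 : ℝ) ≤ p := by exact_mod_cast hp1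
    positivity
  -- 2^n * exp(-2b (log n + 8)) tends to infinity
  have hlim : Filter.Tendsto (fun x : ℝ => Real.exp (Real.log 2 * x) / x ^ (2 * b)) Filter.atTop Filter.atTop := by
    have := tendsto_exp_mul_div_rpow_atTop (2 * b : ℝ) (Real.log 2) (Real.log_pos (by norm_num))
    refine this.congr ?_
    intro x
    congr 1
    have : (2 * (b : ℝ)) = ((2 * b : ℕ) : ℝ) := by push_cast; ring
    rw [this, Real.rpow_natCast]
  have hlim2 := hlim.comp tendsto_natCast_atTop_atTop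
  obtain ⟨n, hn1, hn2⟩ := ((hlim2.eventually_ge_atTop (C * Real.exp (16 * b) / c)).and
    (Filter.eventually_ge_atTop 1)).exists
  refine ⟨2 ^ n, ?_, ?_⟩
  · calc 2 = 2 ^ 1 := by norm_num
      _ ≤ 2 ^ n := Nat.pow_le_pow_right (by norm_num) hn2
  · have h1 := dens_ge b n hn2
    have hn0 : (0 : ℝ) < n := by
      have : 0 < n := by omega
      exact_mod_cast this
    have h2 : Real.exp (-(2 * b * (Real.log n + 8))) = 1 / ((n : ℝ) ^ (2 * b) * Real.exp (16 * b)) := by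
      rw [show -(2 * (b : ℝ) * (Real.log n + 8)) = -(((2 * b : ℕ) : ℝ) * Real.log n + 16 * b) by
        push_cast; ring, Real.exp_neg, Real.exp_add, Real.exp_nat_mul, Real.exp_log hn0, one_div]
    rw [h2] at h1
    simp only [Function.comp] at hn1
    have h3 : Real.exp (Real.log 2 * (n : ℝ)) = (2 : ℝ) ^ n := by
      rw [mul_comm, Real.exp_nat_mul, Real.exp_log (by norm_num)]
    rw [h3] at hn1
    have hE : 0 < Real.exp (16 * (b : ℝ)) := Real.exp_pos _
    have hN : (0 : ℝ) < (n : ℝ) ^ (2 * b) := by positivity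
    rw [div_le_div_iff₀ hcpos hN] at hn1
    have h4 : C ≤ (2 : ℝ) ^ n * (1 / ((n : ℝ) ^ (2 * b) * Real.exp (16 * b)) * c) := by
      rw [show (2 : ℝ) ^ n * (1 / ((n : ℝ) ^ (2 * b) * Real.exp (16 * b)) * c) =
        ((2 : ℝ) ^ n * c) / ((n : ℝ) ^ (2 * b) * Real.exp (16 * b)) by ring, le_div_iff₀ (by positivity)]
      linarith
    refine le_trans h4 ?_
    push_cast
    exact mul_le_mul_of_nonneg_left h1 (by positivity)

end Pool.Agent.SW
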