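import Pool.Agent.SW.Uni
import Pool.Agent.SW.Bil
import Pool.Agent.SW.Loc
import Pool.Agent.SW.Mert

/-! SW/DensM.  The density theorem.  For `K` the set of the bad starting points and `H` the set of the positions up to
`N`, the sum of the model over `K + H` is large (`loc`), the sum of `Λ` is small by Chebyshev's bound for the prime powers,
and the difference is small by the bilinear estimate `bil` and `uniform`; `mert` gives the contradiction. -/

set_option autoImplicit false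

namespace Pool.Agent.SW

open Finset Pool.Agent.Helper27

private theorem hs_mono {s : ℕ → ℕ} (h1 : ∀ n, 1 ≤ s n) : StrictMono (hs s) := by
  refine strictMono_nat_of_lt_succ fun n => ?_
  rw [hs, hs, Finset.sum_range_succ]
  have := h1 n
  omega

private theorem hs_ge {s : ℕ → ℕ} (h1 : ∀ n, 1 ≤ s n) (n : ℕ) : n ≤ hs s n := (hs_mono h1).le_apply

private theorem lam_nonneg (w n : ℕ) : 0 ≤ lam w n := by
  rw [lam]
  split_ifs
  · positivity
  · exact le_rfl

private theorem lam_ge {w n : ℕ} (h : n.Coprime (primorial w)) : 1 ≤ lam w n := by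
  rw [lam, if_pos h]
  have h1 : 0 < (primorial w).totient := Nat.totient_pos.2 (primorial_pos w)
  have h2 : (0 : ℝ) < ((primorial w).totient : ℝ) := by exact_mod_cast h1
  rw [le_div_iff₀ h2, one_mul]
  exact_mod_cast Nat.totient_le _

/-- the positions up to `N` -/
private def HH (s : ℕ → ℕ) (N : ℕ) : Finset ℕ := ((range (N + 1)).filter fun n => hs s n ≤ N).image (hs s)

private theorem HH_sub (s : ℕ → ℕ) (N : ℕ) : HH s N ⊆ Icc 0 N := by
  intro x hx
  rw [HH, mem_image] at hx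
  obtain ⟨n, hn, rfl⟩ := hx
  exact mem_Icc.2 ⟨Nat.zero_le _, (mem_filter.1 hn).2⟩

private theorem HH_card (s : ℕ → ℕ) (N : ℕ) : (HH s N).card ≤ N + 1 := by
  have := card_le_card (HH_sub s N)
  simpa using this

private theorem HH_sum {s : ℕ → ℕ} (h1 : ∀ n, 1 ≤ s n) (N : ℕ) (f : ℕ → ℝ) :
    ∑ h ∈ HH s N, f h = ∑ n ∈ (range (N + 1)).filter (fun n => hs s n ≤ N), f (hs s n) := by
  rw [HH, sum_image]
  intro a _ b _ hab
  exact (hs_mono h1).injective hab

private theorem inner_lam {s : ℕ → ℕ} (h1 : ∀ n, 1 ≤ s n) (N w k : ℕ) {c : ℝ}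
    (h : c ≤ (((range (N + 1)).filter fun n => hs s n ≤ N ∧ (k + hs s n).Coprime (primorial w)).card : ℝ)) :
    c ≤ ∑ h ∈ HH s N, lam w (k + h) := by
  rw [HH_sum h1 N (fun h => lam w (k + h))]
  refine h.trans ?_
  rw [← filter_filter]
  have h2 : ((((range (N + 1)).filter fun n => hs s n ≤ N).filter
      fun n => (k + hs s n).Coprime (primorial w)).card : ℝ) =
      ∑ _n ∈ ((range (N + 1)).filter fun n => hs s n ≤ N).filter
        (fun n => (k + hs s n).Coprime (primorial w)), (1 : ℝ) := by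
    rw [sum_const, nsmul_eq_mul, mul_one]
  rw [h2]
  refine (sum_le_sum fun n hn => lam_ge (mem_filter.1 hn).2).trans ?_
  exact sum_le_sum_of_subset_of_nonneg (filter_subset _ _) fun n _ _ => lam_nonneg _ _

private theorem inner_prime {s : ℕ → ℕ} (h1 : ∀ n, 1 ≤ s n) {N k R : ℕ} (hk1 : 1 ≤ k) (hk : k ≤ N)
    (hR : {n : ℕ | (k + hs s n).Prime}.encard ≤ R) :
    ∑ h ∈ HH s N, ArithmeticFunction.vonMangoldt (k + h) ≤
      R * Real.log ((2 * N : ℕ) : ℝ) + 2 * √((2 * N : ℕ) : ℝ) * Real.log ((2 * N : ℕ) : ℝ) := by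
  have hN : 1 ≤ N := hk1.trans hk
  have hN2 : (1 : ℝ) ≤ ((2 * N : ℕ) : ℝ) := by
    exact_mod_cast (by omega : 1 ≤ 2 * N)
  have hlog : 0 ≤ Real.log ((2 * N : ℕ) : ℝ) := Real.log_nonneg hN2
  rw [← sum_filter_add_sum_filter_not (HH s N) (fun h => (k + h).Prime)]
  refine add_le_add ?_ ?_
  · have h2 : ((HH s N).filter fun h => (k + h).Prime).card ≤ R := by
      have h3 : (((HH s N).filter fun h => (k + h).Prime)).card ≤
          (((range (N + 1)).filter fun n => hs s n ≤ N).filter fun n => (k + hs s n).Prime).card := by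
        rw [HH, filter_image]
        exact card_image_le
      refine h3.trans ?_
      have h4 : ((((range (N + 1)).filter fun n => hs s n ≤ N).filter fun n => (k + hs s n).Prime : Finset ℕ) : Set ℕ)
          ⊆ {n : ℕ | (k + hs s n).Prime} := by
        intro n hn
        rw [mem_coe, mem_filter] at hn
        exact hn.2
      have h5 := (Set.encard_le_encard h4).trans hR
      rw [Set.encard_coe_eq_coe_finsetCard] at h5
      exact_mod_cast h5
    calc ∑ h ∈ (HH s N).filter (fun h => (k + h).Prime), ArithmeticFunction.vonMangoldt (k + h)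
        ≤ ∑ h ∈ (HH s N).filter (fun h => (k + h).Prime), Real.log ((2 * N : ℕ) : ℝ) := by
          refine sum_le_sum fun h hh => ?_
          rw [mem_filter] at hh
          have h6 := (mem_Icc.1 (HH_sub s N hh.1)).2
          rw [ArithmeticFunction.vonMangoldt_apply_prime hh.2]
          refine Real.log_le_log ?_ ?_
          · exact_mod_cast hh.2.pos
          · exact_mod_cast (by omega : k + h ≤ 2 * N)
      _ = (((HH s N).filter fun h => (k + h).Prime).card : ℝ) * Real.log ((2 * N : ℕ) : ℝ) := by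
          rw [sum_const, nsmul_eq_mul]
      _ ≤ R * Real.log ((2 * N : ℕ) : ℝ) := by
          refine mul_le_mul_of_nonneg_right ?_ hlog
          exact_mod_cast h2
  · have h2 := Chebyshev.psi_sub_theta_le hN2
    rw [Chebyshev.psi_sub_theta_eq_sum_not_prime, Nat.floor_natCast] at h2
    refine le_trans ?_ h2
    rw [← sum_image (f := fun m => ArithmeticFunction.vonMangoldt m) (g := fun h => k + h)
      (s := (HH s N).filter fun h => ¬ (k + h).Prime) (by
        intro a _ b _ hab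
        exact Nat.add_left_cancel hab)]
    refine sum_le_sum_of_subset_of_nonneg ?_ fun n _ _ => ArithmeticFunction.vonMangoldt_nonneg
    intro m hm
    rw [mem_image] at hm
    obtain ⟨h, hh, rfl⟩ := hm
    rw [mem_filter] at hh ⊢
    have h6 := (mem_Icc.1 (HH_sub s N hh.1)).2
    refine ⟨mem_Ioc.2 ⟨by omega, by omega⟩, hh.2⟩

private theorem eta_small (R : ℕ) {c : ℝ} (hc : 0 < c) : ∃ N1 : ℕ, ∀ N : ℕ, N1 ≤ N →
    R * Real.log ((2 * N : ℕ) : ℝ) + 2 * √((2 * N : ℕ) : ℝ) * Real.log ((2 * N : ℕ) : ℝ) ≤ c * N := by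
  have hd : (0 : ℝ) < c / (2 * (R + 2)) := by positivity
  have h1 := (isLittleO_log_rpow_atTop (by norm_num : (0 : ℝ) < 1 / 2)).bound hd
  have h2 : Filter.Tendsto (fun N : ℕ => ((2 * N : ℕ) : ℝ)) Filter.atTop Filter.atTop := by
    refine tendsto_natCast_atTop_atTop.comp ?_
    exact Filter.tendsto_id.const_mul_atTop' (by norm_num)
  have h3 := h2.eventually h1
  obtain ⟨N1, hN1⟩ := Filter.eventually_atTop.1 h3
  refine ⟨max N1 1, fun N hN => ?_⟩
  have h4 := hN1 N (le_trans (le_max_left _ _) hN)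
  have hN' : 1 ≤ N := le_trans (le_max_right _ _) hN
  set x : ℝ := ((2 * N : ℕ) : ℝ) with hx
  have hx1 : (1 : ℝ) ≤ x := by
    rw [hx]
    exact_mod_cast (by omega : 1 ≤ 2 * N)
  rw [← Real.sqrt_eq_rpow, Real.norm_of_nonneg (Real.log_nonneg hx1), Real.norm_of_nonneg (Real.sqrt_nonneg _)] at h4
  have h5 : 1 ≤ √x := Real.one_le_sqrt.2 hx1
  have h6 : √x * √x = x := Real.mul_self_sqrt (by linarith)
  have h7 : x = 2 * N := by rw [hx]; push_cast; ring
  have h8 : 0 ≤ Real.log x := Real.log_nonneg hx1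
  calc R * Real.log x + 2 * √x * Real.log x ≤ R * (√x * Real.log x) + 2 * √x * Real.log x := by
        have : Real.log x ≤ √x * Real.log x := le_mul_of_one_le_left h8 h5
        gcongr
    _ = (R + 2) * √x * Real.log x := by ring
    _ ≤ (R + 2) * √x * (c / (2 * (R + 2)) * √x) := by gcongr
    _ = c / 2 * (√x * √x) := by
        field_simp
    _ = c * N := by rw [h6, h7]; ring

theorem dens_main (u b : ℕ) (hu : 1 ≤ u) (hb : 2 ≤ b) (L : List ℕ) (hL : IsCut b L)
    (hadm : ∀ q : ℕ, q.Prime → q ≠ 2 → ∃ a, Misses L q a) (R : ℕ) (ε : ℝ) (hε : 0 < ε) :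
    ∃ N0 : ℕ, ∀ N : ℕ, N0 ≤ N → ∀ s : ℕ → ℕ, (∀ n, s n = 2 ^ u ∨ s n = 2 ^ u * b) →
    (({k : ℕ | 1 ≤ k ∧ k ≤ N ∧ Odd k ∧ {n : ℕ | (k + hs s n).Prime}.encard ≤ R}.ncard : ℕ) : ℝ) ≤ ε * N := by
  classical
  have hb' : (0 : ℝ) < b := by
    have : 0 < b := by omega
    exact_mod_cast this
  set c0 : ℝ := 2 ^ (u + 1) * b with hc0
  have hc0p : 0 < c0 := by positivity
  set e : ℝ := min ε 1 with he
  have hep : 0 < e := lt_min hε one_pos
  have hse : 0 < √e := Real.sqrt_pos.2 hep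
  obtain ⟨w, hw2, hw⟩ := mert b (16 * c0 / √e)
  have hwp : (0 : ℝ) < w := by
    have : 0 < w := by omega
    exact_mod_cast this
  obtain ⟨N1, hN1⟩ := loc u b hu hb L hL hadm w
  obtain ⟨N2, hN2⟩ := uniform w hw2
  obtain ⟨N3, hN3⟩ := eta_small R (show (0 : ℝ) < 6 / (w * √e) by positivity)
  refine ⟨max (max N1 N2) (max N3 1), fun N hN s hs' => ?_⟩
  have hNN1 : N1 ≤ N := ((le_max_left _ _).trans (le_max_left _ _)).trans hN
  have hNN2 : N2 ≤ N := ((le_max_right _ _).trans (le_max_left _ _)).trans hN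
  have hNN3 : N3 ≤ N := ((le_max_left _ _).trans (le_max_right _ _)).trans hN
  have hN1' : 1 ≤ N := ((le_max_right _ _).trans (le_max_right _ _)).trans hN
  have hNp : (0 : ℝ) < N := by exact_mod_cast hN1'
  have h1 : ∀ n, 1 ≤ s n := by
    intro n
    have h2u : 1 ≤ 2 ^ u := Nat.one_le_two_pow
    rcases hs' n with h | h
    · rw [h]; exact h2u
    · rw [h]
      exact Nat.one_le_iff_ne_zero.2 (Nat.mul_ne_zero (by omega) (by omega))
  set K : Finset ℕ := (Icc 1 N).filter fun k => Odd k ∧ {n : ℕ | (k + hs s n).Prime}.encard ≤ R with hK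
  have hKset : {k : ℕ | 1 ≤ k ∧ k ≤ N ∧ Odd k ∧ {n : ℕ | (k + hs s n).Prime}.encard ≤ R} = (K : Set ℕ) := by
    ext k
    rw [hK, mem_coe, mem_filter, mem_Icc, Set.mem_setOf_eq, and_assoc]
  rw [hKset, Set.ncard_coe_finset]
  by_contra hcon
  rw [not_le] at hcon
  have hKc : 0 < (K.card : ℝ) := lt_trans (by positivity) hcon
  have heN : e * N < K.card := lt_of_le_of_lt (mul_le_mul_of_nonneg_right (min_le_left _ _) hNp.le) hcon
  have hKsub : K ⊆ Icc 1 N := filter_subset _ _
  -- the three sums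
  have hA : (K.card : ℝ) * (dens b w * N / c0) ≤ ∑ k ∈ K, ∑ h ∈ HH s N, lam w (k + h) := by
    rw [← nsmul_eq_mul, ← sum_const]
    refine sum_le_sum fun k hk => ?_
    rw [hK, mem_filter] at hk
    exact inner_lam h1 N w k (hN1 N hNN1 s hs' k hk.2.1)
  have hB : ∑ k ∈ K, ∑ h ∈ HH s N, ArithmeticFunction.vonMangoldt (k + h) ≤ (K.card : ℝ) * (6 / (w * √e) * N) := by
    rw [← nsmul_eq_mul, ← sum_const]
    refine sum_le_sum fun k hk => ?_
    rw [hK, mem_filter, mem_Icc] at hk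
    exact (inner_prime h1 hk.1.1 hk.1.2 hk.2.2).trans (hN3 N hNN3)
  have hC : ‖∑ k ∈ K, ∑ h ∈ HH s N, (((ArithmeticFunction.vonMangoldt (k + h) - lam w (k + h) : ℝ)) : ℂ)‖ ≤
      3 / w * ((2 * N : ℕ) : ℝ) * √((K.card : ℝ) * (HH s N).card) := by
    refine bil (N := N) (fun n => (((ArithmeticFunction.vonMangoldt n - lam w n : ℝ)) : ℂ)) (fun θ => ?_) K (HH s N)
      hKsub (HH_sub s N)
    have h2 := hN2 (2 * N) (by omega) θ
    refine le_trans (le_of_eq ?_) h2
    congr 1
    rw [SL, SM, ← sum_sub_distrib]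
    refine sum_congr rfl fun n _ => ?_
    push_cast
    ring
  have hC' : |∑ k ∈ K, ∑ h ∈ HH s N, (ArithmeticFunction.vonMangoldt (k + h) - lam w (k + h))| ≤
      3 / w * ((2 * N : ℕ) : ℝ) * √((K.card : ℝ) * (HH s N).card) := by
    rw [← Real.norm_eq_abs, ← Complex.norm_real]
    refine le_trans (le_of_eq ?_) hC
    congr 1
    push_cast
    rfl
  have hD : ∑ k ∈ K, ∑ h ∈ HH s N, (ArithmeticFunction.vonMangoldt (k + h) - lam w (k + h)) =
      ∑ k ∈ K, ∑ h ∈ HH s N, ArithmeticFunction.vonMangoldt (k + h) - ∑ k ∈ K, ∑ h ∈ HH s N, lam w (k + h) := by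
    simp only [sum_sub_distrib]
  rw [hD] at hC'
  have hC'' := (abs_le.1 hC').1
  -- the square root
  have hH : ((HH s N).card : ℝ) ≤ 2 * N := by
    have := HH_card s N
    exact_mod_cast (by omega : (HH s N).card ≤ 2 * N)
  have hsq : √((K.card : ℝ) * (HH s N).card) ≤ (K.card : ℝ) * (3 / 2 / √e) := by
    refine Real.sqrt_le_iff.2 ⟨by positivity, ?_⟩
    have h3 : (3 / 2 / √e) ^ 2 = 9 / 4 / e := by
      rw [div_pow, Real.sq_sqrt hep.le]
      norm_num
    rw [mul_pow, h3, pow_two, mul_assoc]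
    refine mul_le_mul_of_nonneg_left ?_ hKc.le
    have h4 : (N : ℝ) ≤ K.card / e := by
      rw [le_div_iff₀ hep]
      linarith
    calc ((HH s N).card : ℝ) ≤ 2 * N := hH
      _ ≤ 2 * (K.card / e) := by gcongr
      _ ≤ 9 / 4 * (K.card / e) := by gcongr; norm_num
      _ = (K.card : ℝ) * (9 / 4 / e) := by ring
  have hE : 3 / w * ((2 * N : ℕ) : ℝ) * √((K.card : ℝ) * (HH s N).card) ≤ (K.card : ℝ) * (9 / (w * √e) * N) := by
    calc 3 / w * ((2 * N : ℕ) : ℝ) * √((K.card : ℝ) * (HH s N).card)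
        ≤ 3 / w * ((2 * N : ℕ) : ℝ) * ((K.card : ℝ) * (3 / 2 / √e)) := by gcongr
      _ = (K.card : ℝ) * (9 / (w * √e) * N) := by
        push_cast
        field_simp
        ring
  have hF : 16 / (w * √e) ≤ dens b w / c0 := by
    rw [div_le_div_iff₀ (by positivity) hc0p]
    rw [div_le_iff₀ hse] at hw
    linarith
  have hG : (K.card : ℝ) * (16 / (w * √e) * N) ≤ (K.card : ℝ) * (dens b w * N / c0) := by
    refine mul_le_mul_of_nonneg_left ?_ hKc.le
    calc 16 / (w * √e) * N ≤ dens b w / c0 * N := mul_le_mul_of_nonneg_right hF hNp.le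
      _ = dens b w * N / c0 := by ring
  have hI : (K.card : ℝ) * (16 / (w * √e) * N) = (K.card : ℝ) * (6 / (w * √e) * N) +
      (K.card : ℝ) * (9 / (w * √e) * N) + (K.card : ℝ) * (1 / (w * √e) * N) := by ring
  have hJ : 0 < (K.card : ℝ) * (1 / (w * √e) * N) := by positivity
  linarith

end Pool.Agent.SW
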