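import Pool.Agent.SW.Defs
import Pool.Agent.REC.Rep

/-! SW/Exc.  Exceptional real characters: at most one for each modulus `q ≤ (log N)^16`, none for bounded `q`.

`exc_unique`: `REC.repulsion` with `q1 = q2 = q`, `V = 2 (log log N - 1)^12`, `16 V = 32 (log log N - 1)^12`, so `dl N = 1/(16V)^30`;
`changeLevel_injective`; `3 q² ≤ 3 exp (32 log log N) ≤ exp V` for large `N`.
`exc_small`: finitely many characters, `LFunction_apply_one_ne_zero`, `dl N → 0`. -/

set_option autoImplicit false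

namespace Pool.Agent.SW

open DirichletCharacter

private theorem ll_tendsto :
    Filter.Tendsto (fun N : ℕ => Real.log (Real.log (N : ℝ))) Filter.atTop Filter.atTop :=
  Real.tendsto_log_atTop.comp (Real.tendsto_log_atTop.comp tendsto_natCast_atTop_atTop)

private theorem dl_tendsto : Filter.Tendsto dl Filter.atTop (nhds 0) := by
  have h1 : Filter.Tendsto (fun N : ℕ => Real.log (Real.log (N : ℝ)) - 1) Filter.atTop
      Filter.atTop := Filter.tendsto_atTop_add_const_right _ _ ll_tendsto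
  have h2 : Filter.Tendsto (fun N : ℕ => 32 * (Real.log (Real.log (N : ℝ)) - 1) ^ 12)
      Filter.atTop Filter.atTop :=
    ((Filter.tendsto_pow_atTop (by norm_num)).comp h1).const_mul_atTop (by norm_num)
  have h3 : Filter.Tendsto (fun N : ℕ => (32 * (Real.log (Real.log (N : ℝ)) - 1) ^ 12) ^ 30)
      Filter.atTop Filter.atTop := (Filter.tendsto_pow_atTop (by norm_num)).comp h2
  have h4 := tendsto_inv_atTop_zero.comp h3
  refine h4.congr fun N => ?_
  simp only [Function.comp, dl, one_div]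

theorem exc_unique : ∃ N0 : ℕ, ∀ N : ℕ, N0 ≤ N → ∀ (q : ℕ) [NeZero q], (q : ℝ) ≤ Real.log N ^ 16 →
    ∀ χ1 χ2 : DirichletCharacter ℂ q, χ1 ≠ 1 → χ2 ≠ 1 → χ1 ^ 2 = 1 → χ2 ^ 2 = 1 →
    ‖LFunction χ1 1‖ < dl N → ‖LFunction χ2 1‖ < dl N → χ1 = χ2 := by
  obtain ⟨N0, hN0⟩ := Filter.eventually_atTop.1
    ((ll_tendsto.eventually_ge_atTop 3).and (Filter.eventually_ge_atTop 3))
  refine ⟨N0, fun N hN q _ hq χ1 χ2 h1 h2 hr1 hr2 hL1 hL2 => ?_⟩
  obtain ⟨hL, hN3⟩ := hN0 N hN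
  obtain ⟨L, hLd⟩ : ∃ L, L = Real.log (Real.log (N : ℝ)) := ⟨_, rfl⟩
  rw [← hLd] at hL
  have hdl : dl N = 1 / (32 * (L - 1) ^ 12) ^ 30 := by rw [dl, ← hLd]
  have hN3' : (3 : ℝ) ≤ N := by exact_mod_cast hN3
  have hlog : 0 < Real.log N := Real.log_pos (by linarith)
  by_contra hne
  obtain ⟨V, hV⟩ : ∃ V, V = 2 * (L - 1) ^ 12 := ⟨_, rfl⟩
  have h2L : (2 : ℝ) ≤ L - 1 := by linarith
  have hVge : 4096 * (L - 1) ≤ V := by
    have h3 : (2 : ℝ) ^ 11 ≤ (L - 1) ^ 11 := pow_le_pow_left₀ (by norm_num) h2L 11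
    have h4 : (2 : ℝ) ^ 11 * (L - 1) ≤ (L - 1) ^ 11 * (L - 1) :=
      mul_le_mul_of_nonneg_right h3 (by linarith)
    rw [hV]
    have h5 : (L - 1) ^ 12 = (L - 1) ^ 11 * (L - 1) := by ring
    rw [h5]
    norm_num at h4
    linarith
  have hV16 : 16 * V = 32 * (L - 1) ^ 12 := by rw [hV]; ring
  have hpos : 0 < (16 * V) ^ 30 := by
    have : 0 < V := by linarith
    positivity
  have hle : dl N ≤ 2 / (16 * V) ^ 30 := by
    rw [hdl, ← hV16]
    exact div_le_div_of_nonneg_right (by norm_num) hpos.le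
  refine Pool.Agent.REC.repulsion (q1 := q) (q2 := q) h1 h2 hr1 hr2 ?_ (V := V) (by linarith) ?_
    (hL1.le.trans hle) (hL2.le.trans hle)
  · intro h
    have : NeZero (q * q) := ⟨mul_ne_zero (NeZero.ne q) (NeZero.ne q)⟩
    exact hne (changeLevel_injective (dvd_mul_right q q) h)
  · -- `3 q² ≤ exp V`
    have hq0 : (0 : ℝ) ≤ q := Nat.cast_nonneg q
    have h3 : (q : ℝ) ≤ Real.exp (16 * L) := by
      refine hq.trans (le_of_eq ?_)
      rw [hLd, mul_comm, Real.exp_mul, Real.exp_log hlog]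
      norm_cast
    have h4 : (3 : ℝ) ≤ Real.exp 2 := by
      have := Real.add_one_le_exp (2 : ℝ)
      linarith
    have h5 : ((q * q : ℕ) : ℝ) * 3 ≤ Real.exp (16 * L) * Real.exp (16 * L) * Real.exp 2 := by
      push_cast
      exact mul_le_mul (mul_le_mul h3 h3 hq0 (Real.exp_pos _).le) h4 (by norm_num)
        (by positivity)
    refine h5.trans ?_
    rw [← Real.exp_add, ← Real.exp_add]
    apply Real.exp_le_exp.2
    linarith

private theorem small_one (q : ℕ) [NeZero q] :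
    ∃ c : ℝ, 0 < c ∧ ∀ χ : DirichletCharacter ℂ q, χ ≠ 1 → c ≤ ‖LFunction χ 1‖ := by
  classical
  have hfin : Finite (DirichletCharacter ℂ q) := inferInstance
  have := Fintype.ofFinite (DirichletCharacter ℂ q)
  let s : Finset (DirichletCharacter ℂ q) := Finset.univ.filter fun χ => χ ≠ 1
  by_cases hs : s.Nonempty
  · obtain ⟨χ0, h0, hmin⟩ := s.exists_min_image (fun χ => ‖LFunction χ 1‖) hs
    refine ⟨‖LFunction χ0 1‖, ?_, fun χ hχ => hmin χ (Finset.mem_filter.2 ⟨Finset.mem_univ _, hχ⟩)⟩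
    exact norm_pos_iff.2 (LFunction_apply_one_ne_zero (Finset.mem_filter.1 h0).2)
  · refine ⟨1, one_pos, fun χ hχ => ?_⟩
    exact absurd ⟨χ, Finset.mem_filter.2 ⟨Finset.mem_univ _, hχ⟩⟩ hs

private theorem small_all (w : ℕ) :
    ∃ c : ℝ, 0 < c ∧ ∀ (q : ℕ) [NeZero q], q ≤ w → ∀ χ : DirichletCharacter ℂ q, χ ≠ 1 →
      c ≤ ‖LFunction χ 1‖ := by
  induction w with
  | zero =>
    refine ⟨1, one_pos, fun q hq h => ?_⟩
    exact absurd (Nat.le_zero.1 h) (NeZero.ne q)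
  | succ w ih =>
    obtain ⟨c, hc, h⟩ := ih
    obtain ⟨c', hc', h'⟩ := small_one (w + 1)
    refine ⟨min c c', lt_min hc hc', fun q hq hqw χ hχ => ?_⟩
    rcases Nat.lt_or_ge q (w + 1) with h1 | h1
    · exact (min_le_left _ _).trans (h q (by omega) χ hχ)
    · obtain rfl : q = w + 1 := by omega
      exact (min_le_right _ _).trans (h' χ hχ)

theorem exc_small (w : ℕ) : ∃ N0 : ℕ, ∀ N : ℕ, N0 ≤ N → ∀ (q : ℕ) [NeZero q], q ≤ w →
    ∀ χ : DirichletCharacter ℂ q, χ ≠ 1 → dl N ≤ ‖LFunction χ 1‖ := by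
  obtain ⟨c, hc, h⟩ := small_all w
  obtain ⟨N0, hN0⟩ := Filter.eventually_atTop.1 (dl_tendsto.eventually (gt_mem_nhds hc))
  exact ⟨N0, fun N hN q _ hq χ hχ => (hN0 N hN).le.trans (h q hq χ hχ)⟩

end Pool.Agent.SW
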