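import Pool.Agent.SW.Defs
import Pool.Agent.Helper98.Bern.KL

/-! SW/Geo.  Geometric sums.

`geo`: `|∑_{a < m ≤ b} e(m φ)| ≤ min (b - a, 1/|sin (π φ)|)`, `|sin (π φ)| ≥ 2 dn φ` (`Real.mul_le_sin` or concavity; reduce
`φ` modulo `1`: `ee (m φ) = ee (m (φ - round φ))`), and `mn X φ = min (X, 1/dn φ)` if `dn φ > 0`, `mn X φ = X` if `dn φ = 0`.
See also `Pool/Agent/Helper98/Bern/KL.lean`.
`geo_log`: Abel summation with the increasing weights `log m` (`m ≥ 1`), `|∑ g_m z_m| ≤ 2 g_b max |partial sums|`, partial sums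
`∑_{a < m ≤ c}`, `c ≤ b`, are bounded by `geo` (same `X`). -/

set_option autoImplicit false

namespace Pool.Agent.SW

open Finset Pool.Agent.Helper98.Bern

theorem mn_pos {X : ℝ} (hX : 0 < X) (φ : ℝ) : 0 < mn X φ :=
  div_pos hX (lt_of_lt_of_le one_pos (le_max_left _ _))

private theorem geo_dn_nonneg (φ : ℝ) : 0 ≤ dn φ := abs_nonneg _

theorem mn_mono {X Y : ℝ} (hX : 0 < X) (h : X ≤ Y) (φ : ℝ) : mn X φ ≤ mn Y φ := by
  have hd := geo_dn_nonneg φ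
  have hY : 0 < Y := hX.trans_le h
  unfold mn
  rw [div_le_div_iff₀ (lt_of_lt_of_le one_pos (le_max_left _ _))
    (lt_of_lt_of_le one_pos (le_max_left _ _))]
  rw [mul_max_of_nonneg _ _ hX.le]
  apply max_le
  · rw [mul_one]
    exact h.trans (le_mul_of_one_le_right hY.le (le_max_left _ _))
  · calc X * (Y * dn φ) = Y * (X * dn φ) := by ring
      _ ≤ Y * max 1 (X * dn φ) := mul_le_mul_of_nonneg_left (le_max_right _ _) hY.le

theorem mn_le {X : ℝ} (hX : 0 < X) (φ : ℝ) : mn X φ ≤ X :=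
  div_le_self hX.le (le_max_left _ _)

theorem mn_le_inv {X : ℝ} (hX : 0 < X) {φ : ℝ} (h : 0 < dn φ) : mn X φ ≤ 1 / dn φ := by
  unfold mn
  rw [div_le_div_iff₀ (lt_of_lt_of_le one_pos (le_max_left _ _)) h, one_mul]
  exact le_max_right _ _

private theorem geo_ee_sub_one (φ : ℝ) : 4 * dn φ ≤ ‖ee φ - 1‖ := by
  have h1 : ee φ = ee (φ - round φ) := by
    rw [ee_eq, ee_eq]
    rw [Complex.exp_eq_exp_iff_exists_int]
    refine ⟨round φ, ?_⟩
    push_cast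
    ring
  rw [h1, ee_eq]
  have h2 : Complex.exp (((2 * Real.pi * (φ - round φ) : ℝ) : ℂ) * Complex.I) =
      Complex.exp (Complex.I * ((2 * Real.pi * (φ - round φ) : ℝ) : ℂ)) := by
    rw [mul_comm]
  rw [h2, Complex.norm_exp_I_mul_ofReal_sub_one]
  have hψ : |φ - round φ| ≤ 1 / 2 := abs_sub_round φ
  have h3 : 2 * Real.pi * (φ - round φ) / 2 = Real.pi * (φ - round φ) := by ring
  rw [h3, norm_mul, Real.norm_eq_abs, Real.norm_eq_abs, abs_two]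
  have hpi := Real.pi_pos
  have h4 : |Real.pi * (φ - round φ)| ≤ Real.pi / 2 := by
    rw [abs_mul, abs_of_pos hpi]
    nlinarith
  have h5 := Real.mul_abs_le_abs_sin h4
  rw [abs_mul, abs_of_pos hpi] at h5
  have h6 : 2 / Real.pi * (Real.pi * |φ - round φ|) = 2 * |φ - round φ| := by
    field_simp
  rw [h6] at h5
  unfold dn
  linarith

private theorem geo_tele {a b : ℕ} (hab : a ≤ b) (φ : ℝ) :
    (∑ m ∈ Ioc a b, ee (m * φ)) * (ee φ - 1) = ee ((b + 1 : ℕ) * φ) - ee ((a + 1 : ℕ) * φ) := by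
  induction b, hab using Nat.le_induction with
  | base => simp
  | succ b hab ih =>
    rw [sum_Ioc_succ_top hab, add_mul, ih]
    have h : ee (((b + 1 + 1 : ℕ) : ℝ) * φ) = ee (((b + 1 : ℕ) : ℝ) * φ) * ee φ := by
      rw [← ee_add]
      congr 1
      push_cast
      ring
    rw [h]
    ring

theorem geo {a b : ℕ} (hab : a ≤ b) (φ : ℝ) {X : ℝ} (hX : ((b - a : ℕ) : ℝ) ≤ X) (hX1 : 1 ≤ X) :
    ‖∑ m ∈ Ioc a b, ee (m * φ)‖ ≤ mn X φ := by
  have hX0 : 0 < X := lt_of_lt_of_le one_pos hX1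
  have hd := geo_dn_nonneg φ
  have htriv : ‖∑ m ∈ Ioc a b, ee (m * φ)‖ ≤ X := by
    refine (norm_sum_le _ _).trans ?_
    simp only [norm_ee, sum_const, Nat.card_Ioc, nsmul_eq_mul, mul_one]
    exact hX
  unfold mn
  rcases le_total (X * dn φ) 1 with h | h
  · rw [max_eq_left h, div_one]
    exact htriv
  · rw [max_eq_right h]
    have hdpos : 0 < dn φ := by
      by_contra hcon
      have : dn φ = 0 := le_antisymm (not_lt.1 hcon) hd
      rw [this, mul_zero] at h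
      linarith
    rw [le_div_iff₀ (mul_pos hX0 hdpos)]
    have h1 := geo_tele hab φ
    have h2 : ‖∑ m ∈ Ioc a b, ee (m * φ)‖ * ‖ee φ - 1‖ ≤ 2 := by
      rw [← norm_mul, h1]
      refine (norm_sub_le _ _).trans ?_
      rw [norm_ee, norm_ee]
      norm_num
    have h3 := geo_ee_sub_one φ
    have h4 : ‖∑ m ∈ Ioc a b, ee (m * φ)‖ * (4 * dn φ) ≤ 2 :=
      (mul_le_mul_of_nonneg_left h3 (norm_nonneg _)).trans h2
    have h5 : 0 ≤ ‖∑ m ∈ Ioc a b, ee (m * φ)‖ * dn φ := mul_nonneg (norm_nonneg _) hd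
    calc ‖∑ m ∈ Ioc a b, ee (m * φ)‖ * (X * dn φ)
        = X * (‖∑ m ∈ Ioc a b, ee (m * φ)‖ * dn φ) := by ring
      _ ≤ X * 1 := mul_le_mul_of_nonneg_left (by linarith) hX0.le
      _ = X := mul_one X

private theorem geo_log_mono (m : ℕ) : Real.log m ≤ Real.log ((m + 1 : ℕ) : ℝ) := by
  rcases Nat.eq_zero_or_pos m with rfl | hm
  · simp
  · apply Real.log_le_log
    · exact_mod_cast hm
    · push_cast
      linarith

private theorem geo_abel (z : ℕ → ℂ) {a b : ℕ} (hab : a ≤ b) {M : ℝ}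
    (hM : ∀ c, a ≤ c → c ≤ b → ‖∑ m ∈ Ioc a c, z m‖ ≤ M) :
    ‖(∑ m ∈ Ioc a b, ((Real.log m : ℝ) : ℂ) * z m) -
      ((Real.log b : ℝ) : ℂ) * ∑ m ∈ Ioc a b, z m‖ ≤ (Real.log b - Real.log a) * M := by
  induction b, hab using Nat.le_induction with
  | base => simp
  | succ b hab ih =>
    have ih' := ih (fun c h1 h2 => hM c h1 (h2.trans (Nat.le_succ b)))
    rw [sum_Ioc_succ_top hab, sum_Ioc_succ_top hab]
    have h1 : (∑ m ∈ Ioc a b, ((Real.log m : ℝ) : ℂ) * z m) +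
          ((Real.log ((b + 1 : ℕ) : ℝ) : ℝ) : ℂ) * z (b + 1) -
          ((Real.log ((b + 1 : ℕ) : ℝ) : ℝ) : ℂ) * ((∑ m ∈ Ioc a b, z m) + z (b + 1)) =
        ((∑ m ∈ Ioc a b, ((Real.log m : ℝ) : ℂ) * z m) -
          ((Real.log b : ℝ) : ℂ) * ∑ m ∈ Ioc a b, z m) +
        ((Real.log b - Real.log ((b + 1 : ℕ) : ℝ) : ℝ) : ℂ) * ∑ m ∈ Ioc a b, z m := by
      push_cast
      ring
    rw [h1]
    refine (norm_add_le _ _).trans ?_
    have h2 : ‖((Real.log b - Real.log ((b + 1 : ℕ) : ℝ) : ℝ) : ℂ) * ∑ m ∈ Ioc a b, z m‖ ≤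
        (Real.log ((b + 1 : ℕ) : ℝ) - Real.log b) * M := by
      rw [norm_mul, Complex.norm_real, Real.norm_eq_abs, abs_sub_comm,
        abs_of_nonneg (sub_nonneg.2 (geo_log_mono b))]
      exact mul_le_mul_of_nonneg_left (hM b hab (Nat.le_succ b)) (sub_nonneg.2 (geo_log_mono b))
    calc _ ≤ (Real.log b - Real.log a) * M + (Real.log ((b + 1 : ℕ) : ℝ) - Real.log b) * M :=
          add_le_add ih' h2
      _ = (Real.log ((b + 1 : ℕ) : ℝ) - Real.log a) * M := by ring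

theorem geo_log {a b : ℕ} (hab : a ≤ b) (φ : ℝ) {X : ℝ} (hX : ((b - a : ℕ) : ℝ) ≤ X) (hX1 : 1 ≤ X) :
    ‖∑ m ∈ Ioc a b, ((Real.log m : ℝ) : ℂ) * ee (m * φ)‖ ≤ 2 * Real.log b * mn X φ := by
  have hX0 : 0 < X := lt_of_lt_of_le one_pos hX1
  have hM : ∀ c, a ≤ c → c ≤ b → ‖∑ m ∈ Ioc a c, ee ((m : ℝ) * φ)‖ ≤ mn X φ := by
    intro c h1 h2
    refine geo h1 φ (le_trans ?_ hX) hX1
    exact_mod_cast Nat.sub_le_sub_right h2 a
  have h1 := geo_abel (fun m => ee ((m : ℝ) * φ)) hab hM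
  have hb0 : 0 ≤ Real.log b := Real.log_natCast_nonneg b
  have ha0 : 0 ≤ Real.log a := Real.log_natCast_nonneg a
  have hm := mn_pos hX0 φ
  have h2 : ‖((Real.log b : ℝ) : ℂ) * ∑ m ∈ Ioc a b, ee ((m : ℝ) * φ)‖ ≤ Real.log b * mn X φ := by
    rw [norm_mul, Complex.norm_real, Real.norm_eq_abs, abs_of_nonneg hb0]
    exact mul_le_mul_of_nonneg_left (hM b hab le_rfl) hb0
  have h3 : ∑ m ∈ Ioc a b, ((Real.log m : ℝ) : ℂ) * ee (m * φ) =
      ((∑ m ∈ Ioc a b, ((Real.log m : ℝ) : ℂ) * ee ((m : ℝ) * φ)) -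
        ((Real.log b : ℝ) : ℂ) * ∑ m ∈ Ioc a b, ee ((m : ℝ) * φ)) +
      ((Real.log b : ℝ) : ℂ) * ∑ m ∈ Ioc a b, ee ((m : ℝ) * φ) := by ring
  rw [h3]
  refine (norm_add_le _ _).trans ?_
  have h4 : Real.log a * mn X φ ≥ 0 := mul_nonneg ha0 hm.le
  nlinarith [h1, h2, h4]

end Pool.Agent.SW
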