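import Pool.Agent.SW.Defs

/-! SW/Gs.  Gauss type sums.

`gs_norm`: `∑_{a mod q} |gs q a χ|² = q φ(q)` (Parseval, `a = 0, …, q-1`), and `gs q (a a') χ = χ⁻¹(a') gs q a χ` for `a'` coprime to `q`
(substitution `r ↦ a'⁻¹ r`), so all the `φ(q)` coprime values have the same absolute value: `φ(q) |gs|² ≤ q φ(q)`.
`gs_one`: Ramanujan's sum at a coprime frequency: `∑_{(r,q)=1} e(ar/q) = ∑_{d ∣ q} μ(d) ∑_{r ≡ 0 (d)} e(ar/q) = μ(q)`.
`ee_expand`: orthogonality `∑_χ χ⁻¹(r) χ(n) = φ(q) [r = n]` (`DirichletCharacter.sum_char_inv_mul_char_eq` or similar). -/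

set_option autoImplicit false

namespace Pool.Agent.SW

open Finset Pool.Agent.Helper98.Bern

private theorem gs_psi {q : ℕ} [NeZero q] (a : ℤ) (r : ZMod q) :
    ee ((a : ℝ) * (r.val : ℝ) / (q : ℝ)) = ZMod.stdAddChar ((a : ZMod q) * r) := by
  have h := ZMod.stdAddChar_coe (N := q) (a * (r.val : ℤ))
  have e : ((a * (r.val : ℤ) : ℤ) : ZMod q) = (a : ZMod q) * r := by
    push_cast
    rw [ZMod.natCast_zmod_val]
  rw [e] at h
  rw [h, ee]
  congr 1
  push_cast
  ring

private theorem gs_psi_nat {q : ℕ} [NeZero q] (a : ℤ) (n : ℕ) :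
    ee ((a : ℝ) * (n : ℝ) / (q : ℝ)) = ZMod.stdAddChar ((a : ZMod q) * (n : ZMod q)) := by
  have h := ZMod.stdAddChar_coe (N := q) (a * (n : ℤ))
  have e : ((a * (n : ℤ) : ℤ) : ZMod q) = (a : ZMod q) * (n : ZMod q) := by
    push_cast
    rfl
  rw [e] at h
  rw [h, ee]
  congr 1
  push_cast
  ring

private theorem gs_eq {q : ℕ} [NeZero q] (a : ℤ) (χ : DirichletCharacter ℂ q) :
    gs q a χ = gaussSum χ ((ZMod.stdAddChar (N := q)).mulShift (a : ZMod q)) := by
  unfold gs gaussSum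
  refine Finset.sum_congr rfl fun r _ => ?_
  rw [gs_psi, AddChar.mulShift_apply]

private theorem gs_unit {q : ℕ} [NeZero q] {a : ℤ} (ha : IsCoprime a (q : ℤ)) :
    IsUnit (a : ZMod q) :=
  (ZMod.coe_int_isUnit_iff_isCoprime a q).mpr ha.symm

private theorem gs_parseval {q : ℕ} [NeZero q] (χ : DirichletCharacter ℂ q) :
    ∑ b : ZMod q, ‖gaussSum χ ((ZMod.stdAddChar (N := q)).mulShift b)‖ ^ 2 =
      q * ∑ r : ZMod q, ‖χ r‖ ^ 2 := by
  have key : ∑ b : ZMod q, gaussSum χ ((ZMod.stdAddChar (N := q)).mulShift b) *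
      (starRingEnd ℂ) (gaussSum χ ((ZMod.stdAddChar (N := q)).mulShift b)) =
      q * ∑ r : ZMod q, χ r * (starRingEnd ℂ) (χ r) := by
    have h1 : ∀ b : ZMod q, gaussSum χ ((ZMod.stdAddChar (N := q)).mulShift b) *
        (starRingEnd ℂ) (gaussSum χ ((ZMod.stdAddChar (N := q)).mulShift b)) =
        ∑ r : ZMod q, ∑ s : ZMod q, χ r * (starRingEnd ℂ) (χ s) *
          ZMod.stdAddChar (N := q) (b * (r - s)) := by
      intro b
      unfold gaussSum
      rw [map_sum, Finset.sum_mul_sum]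
      refine Finset.sum_congr rfl fun r _ => Finset.sum_congr rfl fun s _ => ?_
      rw [map_mul, AddChar.mulShift_apply, AddChar.mulShift_apply, mul_sub, sub_eq_add_neg,
        AddChar.map_add_eq_mul, AddChar.map_neg_eq_conj]
      ring
    simp only [h1]
    rw [Finset.sum_comm]
    have h2 : ∀ r : ZMod q, ∑ b : ZMod q, ∑ s : ZMod q, χ r * (starRingEnd ℂ) (χ s) *
        ZMod.stdAddChar (N := q) (b * (r - s)) = q * (χ r * (starRingEnd ℂ) (χ r)) := by
      intro r
      rw [Finset.sum_comm]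
      have h3 : ∀ s : ZMod q, ∑ b : ZMod q, χ r * (starRingEnd ℂ) (χ s) *
          ZMod.stdAddChar (N := q) (b * (r - s)) =
          if s = r then (q : ℂ) * (χ r * (starRingEnd ℂ) (χ r)) else 0 := by
        intro s
        rw [← Finset.mul_sum, AddChar.sum_mulShift (r - s) (ZMod.isPrimitive_stdAddChar q), ZMod.card]
        by_cases h : s = r
        · subst h
          simp only [sub_self, if_true]
          ring
        · rw [if_neg h, if_neg (sub_ne_zero.mpr (Ne.symm h)), Nat.cast_zero, mul_zero]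
      simp only [h3, Finset.sum_ite_eq', Finset.mem_univ, if_true]
    simp only [h2]
    rw [← Finset.mul_sum]
  have e1 : ∀ z : ℂ, z * (starRingEnd ℂ) z = ((‖z‖ ^ 2 : ℝ) : ℂ) := by
    intro z
    rw [Complex.mul_conj, Complex.normSq_eq_norm_sq]
  simp only [e1] at key
  exact_mod_cast key

theorem gs_norm {q : ℕ} [NeZero q] {a : ℤ} (ha : IsCoprime a (q : ℤ)) (χ : DirichletCharacter ℂ q) :
    ‖gs q a χ‖ ≤ √(q : ℝ) := by
  classical
  rw [gs_eq]
  have hP := gs_parseval χ
  have hn : ∀ r : ZMod q, ‖χ r‖ ^ 2 = if IsUnit r then (1 : ℝ) else 0 := by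
    intro r
    by_cases hr : IsUnit r
    · rw [if_pos hr]
      obtain ⟨u, rfl⟩ := hr
      rw [DirichletCharacter.unit_norm_eq_one, one_pow]
    · rw [if_neg hr, χ.map_nonunit hr, norm_zero]
      norm_num
  have hG : ∀ r : ZMod q, IsUnit r → ‖gaussSum χ ((ZMod.stdAddChar (N := q)).mulShift r)‖ =
      ‖gaussSum χ (ZMod.stdAddChar (N := q))‖ := by
    rintro r ⟨u, rfl⟩
    rw [gaussSum_mulShift_eq, norm_mul, DirichletCharacter.unit_norm_eq_one, one_mul]
  rw [hG _ (gs_unit ha)]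
  set g : ℝ := ‖gaussSum χ (ZMod.stdAddChar (N := q))‖ with hg
  have h1 : (∑ r : ZMod q, if IsUnit r then (1 : ℝ) else 0) * g ^ 2 ≤
      ∑ b : ZMod q, ‖gaussSum χ ((ZMod.stdAddChar (N := q)).mulShift b)‖ ^ 2 := by
    rw [Finset.sum_mul]
    refine Finset.sum_le_sum fun r _ => ?_
    by_cases hr : IsUnit r
    · rw [if_pos hr, one_mul, hG r hr]
    · rw [if_neg hr, zero_mul]
      positivity
  rw [hP] at h1
  simp only [hn] at h1
  have h2 : (0 : ℝ) < ∑ r : ZMod q, if IsUnit r then (1 : ℝ) else 0 := by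
    refine Finset.sum_pos' (fun r _ => by split_ifs <;> norm_num) ⟨1, Finset.mem_univ _, ?_⟩
    rw [if_pos isUnit_one]
    norm_num
  have h3 : g ^ 2 ≤ q := by
    rw [mul_comm (q : ℝ)] at h1
    exact le_of_mul_le_mul_left h1 h2
  exact Real.le_sqrt_of_sq_le h3

private theorem gs_nthRoots (n : ℕ) (hn : 0 < n) :
    ∑ z ∈ Polynomial.nthRootsFinset n (1 : ℂ), z = if n = 1 then 1 else 0 := by
  by_cases h1 : n = 1
  · subst h1
    have e : Polynomial.nthRootsFinset 1 (1 : ℂ) = {1} := by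
      ext z
      rw [Polynomial.mem_nthRootsFinset one_pos, pow_one, Finset.mem_singleton]
    rw [if_pos rfl, e, Finset.sum_singleton]
  · rw [if_neg h1]
    have hp := Complex.isPrimitiveRoot_exp n hn.ne'
    set w := Complex.exp (2 * Real.pi * Complex.I / n) with hw
    have hw1 : w ≠ 1 := hp.ne_one (by omega)
    have hw0 : w ≠ 0 := hp.ne_zero hn.ne'
    have h2 : ∑ z ∈ Polynomial.nthRootsFinset n (1 : ℂ), w * z =
        ∑ z ∈ Polynomial.nthRootsFinset n (1 : ℂ), z := by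
      refine Finset.sum_bij (fun z _ => w * z) ?_ ?_ ?_ ?_
      · intro z hz
        rw [Polynomial.mem_nthRootsFinset hn] at hz ⊢
        rw [mul_pow, hp.pow_eq_one, hz, mul_one]
      · intro z1 _ z2 _ h
        exact mul_left_cancel₀ hw0 h
      · intro z hz
        refine ⟨w⁻¹ * z, ?_, by field_simp⟩
        rw [Polynomial.mem_nthRootsFinset hn] at hz ⊢
        rw [mul_pow, inv_pow, hp.pow_eq_one, hz, inv_one, mul_one]
      · intro z _
        rfl
    rw [← Finset.mul_sum] at h2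
    have h3 : (w - 1) * ∑ z ∈ Polynomial.nthRootsFinset n (1 : ℂ), z = 0 := by
      rw [sub_mul, h2, one_mul, sub_self]
    exact (mul_eq_zero.mp h3).resolve_left (sub_ne_zero.mpr hw1)

private theorem gs_prim (n : ℕ) (hn : 0 < n) :
    ∑ z ∈ primitiveRoots n ℂ, z = ((ArithmeticFunction.moebius n : ℤ) : ℂ) := by
  classical
  have h := (ArithmeticFunction.sum_eq_iff_sum_mul_moebius_eq
    (f := fun n => ∑ z ∈ primitiveRoots n ℂ, z)
    (g := fun n => if n = 1 then (1 : ℂ) else 0)).mp (by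
      intro m hm
      rw [← gs_nthRoots m hm, IsPrimitiveRoot.nthRoots_one_eq_biUnion_primitiveRoots,
        Finset.sum_biUnion]
      intro x _ y _ hne
      exact IsPrimitiveRoot.disjoint hne) n hn
  rw [← h, Finset.sum_eq_single (n, 1)]
  · simp
  · rintro ⟨x, y⟩ hxy hne
    rw [Nat.mem_divisorsAntidiagonal] at hxy
    simp only at hxy ⊢
    rw [if_neg, mul_zero]
    rintro rfl
    apply hne
    rw [mul_one] at hxy
    rw [hxy.1]
  · intro h2
    exact absurd (Nat.mem_divisorsAntidiagonal.mpr ⟨by simp, hn.ne'⟩) h2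

theorem gs_one {q : ℕ} [NeZero q] {a : ℤ} (ha : IsCoprime a (q : ℤ)) :
    gs q a 1 = ((ArithmeticFunction.moebius q : ℤ) : ℂ) := by
  classical
  have hq : q ≠ 0 := NeZero.ne q
  rw [gs_eq]
  obtain ⟨u, hu⟩ := gs_unit ha
  rw [← hu, gaussSum_mulShift_eq, inv_one, MulChar.one_apply_coe, one_mul,
    ← gs_prim q (Nat.pos_of_ne_zero hq)]
  unfold gaussSum
  have hexp : ∀ r : ZMod q, ZMod.stdAddChar (N := q) r =
      Complex.exp (2 * Real.pi * Complex.I * ((r.val : ℂ) / (q : ℂ))) := by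
    intro r
    have h := ZMod.stdAddChar_coe (N := q) (r.val : ℤ)
    have e : (((r.val : ℤ)) : ZMod q) = r := by
      push_cast
      rw [ZMod.natCast_zmod_val]
    rw [e] at h
    rw [h]
    congr 1
    push_cast
    ring
  have hcop : ∀ r : ZMod q, IsUnit r ↔ r.val.Coprime q := by
    intro r
    rw [← ZMod.isUnit_iff_coprime, ZMod.natCast_zmod_val]
  have h1 : ∑ r : ZMod q, (1 : DirichletCharacter ℂ q) r * ZMod.stdAddChar (N := q) r =
      ∑ r ∈ (Finset.univ : Finset (ZMod q)).filter IsUnit, ZMod.stdAddChar (N := q) r := by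
    rw [Finset.sum_filter]
    refine Finset.sum_congr rfl fun r _ => ?_
    by_cases hr : IsUnit r
    · rw [if_pos hr, MulChar.one_apply hr, one_mul]
    · rw [if_neg hr, MulChar.map_nonunit _ hr, zero_mul]
  rw [h1]
  refine Finset.sum_bij (fun r _ => ZMod.stdAddChar (N := q) r) ?_ ?_ ?_ ?_
  · intro r hr
    rw [Finset.mem_filter] at hr
    rw [mem_primitiveRoots (Nat.pos_of_ne_zero hq), hexp r]
    exact Complex.isPrimitiveRoot_exp_of_coprime _ _ hq ((hcop r).mp hr.2)
  · intro r _ s _ h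
    exact ZMod.injective_stdAddChar h
  · intro z hz
    rw [mem_primitiveRoots (Nat.pos_of_ne_zero hq), Complex.isPrimitiveRoot_iff z q hq] at hz
    obtain ⟨i, hi, hic, hiz⟩ := hz
    have hv : ((i : ℕ) : ZMod q).val = i := ZMod.val_natCast_of_lt hi
    refine ⟨(i : ZMod q), ?_, ?_⟩
    · rw [Finset.mem_filter]
      refine ⟨Finset.mem_univ _, ?_⟩
      rw [hcop, hv]
      exact hic
    · rw [hexp, hv]
      exact hiz
  · intro r _
    rfl

theorem ee_expand {q : ℕ} [NeZero q] (a : ℤ) {n : ℕ} (hn : n.Coprime q) :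
    ee ((a : ℝ) * n / q) =
      (1 / (q.totient : ℂ)) * ∑ χ : DirichletCharacter ℂ q, gs q a χ⁻¹ * χ n := by
  classical
  have hq : q ≠ 0 := NeZero.ne q
  have hun : IsUnit ((n : ℕ) : ZMod q) := (ZMod.isUnit_iff_coprime n q).mpr hn
  have hφ : (q.totient : ℂ) ≠ 0 := by
    exact_mod_cast (Nat.totient_pos.mpr (Nat.pos_of_ne_zero hq)).ne'
  rw [gs_psi_nat]
  have h1 : ∀ r : ZMod q, ∑ χ : DirichletCharacter ℂ q, χ⁻¹ r * χ n =
      if r = (n : ZMod q) then (q.totient : ℂ) else 0 := by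
    intro r
    by_cases hr : IsUnit r
    · rw [← DirichletCharacter.sum_char_inv_mul_char_eq ℂ hr]
      refine Finset.sum_congr rfl fun χ _ => ?_
      congr 1
      obtain ⟨u, rfl⟩ := hr
      rw [MulChar.inv_apply, Ring.inverse_unit, ZMod.inv_coe_unit]
    · rw [if_neg]
      · refine Finset.sum_eq_zero fun χ _ => ?_
        rw [MulChar.map_nonunit _ hr, zero_mul]
      · rintro rfl
        exact hr hun
  have h2 : ∑ χ : DirichletCharacter ℂ q, gs q a χ⁻¹ * χ n =
      ∑ r : ZMod q, ZMod.stdAddChar (N := q) ((a : ZMod q) * r) *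
        ∑ χ : DirichletCharacter ℂ q, χ⁻¹ r * χ n := by
    have h3 : ∀ χ : DirichletCharacter ℂ q, gs q a χ⁻¹ * χ n =
        ∑ r : ZMod q, ZMod.stdAddChar (N := q) ((a : ZMod q) * r) * (χ⁻¹ r * χ n) := by
      intro χ
      unfold gs
      rw [Finset.sum_mul]
      refine Finset.sum_congr rfl fun r _ => ?_
      rw [gs_psi]
      ring
    simp only [h3]
    rw [Finset.sum_comm]
    refine Finset.sum_congr rfl fun r _ => ?_
    rw [Finset.mul_sum]
  rw [h2]
  simp only [h1, mul_ite, mul_zero, Finset.sum_ite_eq', Finset.mem_univ, if_true]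
  field_simp

end Pool.Agent.SW
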