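import Pool.Agent.SW.VinA

/-! SW/TyII.  One dyadic block of the bilinear sums.

Cauchy-Schwarz in `m`, the square is opened, the sums over `m` are geometric (`geo`), the sum over the differences is
Vinogradov's lemma `vin_a`. -/

set_option autoImplicit false

namespace Pool.Agent.SW

open Finset Pool.Agent.Helper98.Bern

private theorem ty2_dn_neg (φ : ℝ) : dn (-φ) = dn φ := by
  have h : ∀ ψ : ℝ, dn (-ψ) ≤ dn ψ := by
    intro ψ
    unfold dn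
    have h1 := round_le (-ψ) (-round ψ)
    refine h1.trans (le_of_eq ?_)
    rw [← abs_neg]
    congr 1
    push_cast
    ring
  refine le_antisymm (h φ) ?_
  have := h (-φ)
  rwa [neg_neg] at this

private theorem ty2_mn_neg (X φ : ℝ) : mn X (-φ) = mn X φ := by
  unfold mn
  rw [ty2_dn_neg]

private theorem ty2_inj {K : ℕ} (g : ℕ → ℝ) (hg : ∀ r, 0 ≤ g r) (s : Finset ℕ) (f : ℕ → ℕ)
    (hf : Set.InjOn f s) (hs : ∀ k' ∈ s, 1 ≤ f k' ∧ f k' ≤ K) :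
    ∑ k' ∈ s, g (f k') ≤ ∑ r ∈ Icc 1 K, g r := by
  rw [← sum_image (f := g) (g := f) (s := s) hf]
  refine sum_le_sum_of_subset_of_nonneg ?_ fun r _ _ => hg r
  intro r hr
  rw [mem_image] at hr
  obtain ⟨k', hk', rfl⟩ := hr
  exact mem_Icc.2 (hs k' hk')

private theorem ty2_row {X θ : ℝ} (hX : 0 < X) {K k : ℕ} (hk : k ∈ Ioc K (2 * K)) :
    ∑ k' ∈ Ioc K (2 * K), mn X (((k : ℝ) - k') * θ) ≤ X + 2 * ∑ r ∈ Icc 1 K, mn X (r * θ) := by
  rw [mem_Ioc] at hk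
  have hg : ∀ r : ℕ, 0 ≤ mn X (r * θ) := fun r => (mn_pos hX _).le
  have h1 : ∑ k' ∈ (Ioc K (2 * K)).filter (fun k' => k' < k), mn X (((k : ℝ) - k') * θ) ≤
      ∑ r ∈ Icc 1 K, mn X (r * θ) := by
    have h2 : ∑ k' ∈ (Ioc K (2 * K)).filter (fun k' => k' < k), mn X (((k : ℝ) - k') * θ) =
        ∑ k' ∈ (Ioc K (2 * K)).filter (fun k' => k' < k), mn X (((k - k' : ℕ) : ℝ) * θ) := by
      refine sum_congr rfl fun k' hk' => ?_
      rw [mem_filter] at hk'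
      rw [Nat.cast_sub hk'.2.le]
    rw [h2]
    refine ty2_inj (fun r => mn X (r * θ)) hg _ (fun k' => k - k') ?_ ?_
    · intro x hx y hy hxy
      rw [mem_coe, mem_filter] at hx hy
      have : k - x = k - y := hxy
      omega
    · intro k' hk'
      rw [mem_filter, mem_Ioc] at hk'
      omega
  have h3 : ∑ k' ∈ (Ioc K (2 * K)).filter (fun k' => k < k'), mn X (((k : ℝ) - k') * θ) ≤
      ∑ r ∈ Icc 1 K, mn X (r * θ) := by
    have h2 : ∑ k' ∈ (Ioc K (2 * K)).filter (fun k' => k < k'), mn X (((k : ℝ) - k') * θ) =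
        ∑ k' ∈ (Ioc K (2 * K)).filter (fun k' => k < k'), mn X (((k' - k : ℕ) : ℝ) * θ) := by
      refine sum_congr rfl fun k' hk' => ?_
      rw [mem_filter] at hk'
      rw [Nat.cast_sub hk'.2.le, ← ty2_mn_neg]
      congr 1
      ring
    rw [h2]
    refine ty2_inj (fun r => mn X (r * θ)) hg _ (fun k' => k' - k) ?_ ?_
    · intro x hx y hy hxy
      rw [mem_coe, mem_filter] at hx hy
      have : x - k = y - k := hxy
      omega
    · intro k' hk'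
      rw [mem_filter, mem_Ioc] at hk'
      omega
  have h4 : ∑ k' ∈ Ioc K (2 * K), mn X (((k : ℝ) - k') * θ) ≤
      ∑ k' ∈ (Ioc K (2 * K)).filter (fun k' => k' < k), mn X (((k : ℝ) - k') * θ) +
      (∑ k' ∈ (Ioc K (2 * K)).filter (fun k' => k < k'), mn X (((k : ℝ) - k') * θ) +
      ∑ k' ∈ ({k} : Finset ℕ), mn X (((k : ℝ) - k') * θ)) := by
    rw [sum_filter, sum_filter]
    have h5 : ∑ k' ∈ ({k} : Finset ℕ), mn X (((k : ℝ) - k') * θ) =
        ∑ k' ∈ Ioc K (2 * K), if k' = k then mn X (((k : ℝ) - k') * θ) else 0 := by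
      rw [sum_singleton, sum_ite_eq', if_pos (mem_Ioc.2 hk)]
    rw [h5, ← sum_add_distrib, ← sum_add_distrib]
    refine sum_le_sum fun k' _ => ?_
    rcases lt_trichotomy k' k with h | h | h
    · rw [if_pos h, if_neg (by omega), if_neg (by omega)]
      simp
    · rw [if_neg (by omega), if_neg (by omega), if_pos h]
      simp
    · rw [if_neg (by omega), if_pos h, if_neg (by omega)]
      simp
  rw [sum_singleton] at h4
  have h6 : mn X (((k : ℝ) - k) * θ) ≤ X := mn_le hX _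
  linarith

private theorem ty2_set {V M P k k' : ℕ} (hk : 0 < k) (hk' : 0 < k') :
    (Ioc V M).filter (fun m => (P < k * m ∧ k * m ≤ 4 * P) ∧ (P < k' * m ∧ k' * m ≤ 4 * P)) =
      Ioc (max V (max (P / k) (P / k'))) (min M (min (4 * P / k) (4 * P / k'))) := by
  ext m
  rw [mem_filter, mem_Ioc, mem_Ioc, max_lt_iff, max_lt_iff, le_min_iff, le_min_iff,
    Nat.div_lt_iff_lt_mul hk, Nat.div_lt_iff_lt_mul hk', Nat.le_div_iff_mul_le hk,
    Nat.le_div_iff_mul_le hk', mul_comm m k, mul_comm m k']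
  tauto

private theorem ty2_geo {V M P k k' : ℕ} (hk : 0 < k) (hk' : 0 < k') (hM : 1 ≤ M) (φ : ℝ) :
    ‖∑ m ∈ (Ioc V M).filter (fun m => (P < k * m ∧ k * m ≤ 4 * P) ∧ (P < k' * m ∧ k' * m ≤ 4 * P)),
      ee (m * φ)‖ ≤ mn M φ := by
  have hM' : (1 : ℝ) ≤ M := by exact_mod_cast hM
  rw [ty2_set hk hk']
  obtain ⟨lo, hlo⟩ : ∃ lo, lo = max V (max (P / k) (P / k')) := ⟨_, rfl⟩
  obtain ⟨hi, hhi⟩ : ∃ hi, hi = min M (min (4 * P / k) (4 * P / k')) := ⟨_, rfl⟩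
  rw [← hlo, ← hhi]
  have hiM : hi ≤ M := by
    rw [hhi]
    exact min_le_left _ _
  rcases le_total lo hi with h | h
  · refine geo h φ ?_ hM'
    have : hi - lo ≤ M := (Nat.sub_le _ _).trans hiM
    exact_mod_cast this
  · rw [Ioc_eq_empty (by omega), sum_empty, norm_zero]
    exact (mn_pos (by linarith) φ).le

private noncomputable def ty2c (α : ℕ → ℂ) (θ : ℝ) (P k m : ℕ) : ℂ :=
  if P < k * m ∧ k * m ≤ 4 * P then α k * ee (((k * m : ℕ) : ℝ) * θ) else 0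

private theorem ty2_pair (α : ℕ → ℂ) (hα : ∀ k, ‖α k‖ ≤ 1) (θ : ℝ) {V M P k k' : ℕ} (hk : 0 < k)
    (hk' : 0 < k') (hM : 1 ≤ M) :
    ‖∑ m ∈ Ioc V M, ty2c α θ P k m * star (ty2c α θ P k' m)‖ ≤ mn M (((k : ℝ) - k') * θ) := by
  have h1 : ∀ m, ty2c α θ P k m * star (ty2c α θ P k' m) =
      if (P < k * m ∧ k * m ≤ 4 * P) ∧ (P < k' * m ∧ k' * m ≤ 4 * P) then
        (α k * star (α k')) * ee (m * (((k : ℝ) - k') * θ)) else 0 := by
    intro m
    unfold ty2c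
    by_cases h : P < k * m ∧ k * m ≤ 4 * P
    · by_cases h' : P < k' * m ∧ k' * m ≤ 4 * P
      · rw [if_pos h, if_pos h', if_pos ⟨h, h'⟩]
        have h2 : (m : ℝ) * (((k : ℝ) - k') * θ) =
            ((k * m : ℕ) : ℝ) * θ - ((k' * m : ℕ) : ℝ) * θ := by
          push_cast
          ring
        rw [h2, ee_sub, star_mul]
        ring
      · have hn : ¬ ((P < k * m ∧ k * m ≤ 4 * P) ∧ (P < k' * m ∧ k' * m ≤ 4 * P)) :=
          fun hh => h' hh.2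
        rw [if_neg h', if_neg hn, star_zero, mul_zero]
    · have hn : ¬ ((P < k * m ∧ k * m ≤ 4 * P) ∧ (P < k' * m ∧ k' * m ≤ 4 * P)) :=
        fun hh => h hh.1
      rw [if_neg h, if_neg hn, zero_mul]
  simp only [h1]
  rw [← sum_filter, ← mul_sum, norm_mul, norm_mul, norm_star]
  have h3 := ty2_geo (V := V) (P := P) hk hk' hM (((k : ℝ) - k') * θ)
  have h4 : ‖α k‖ * ‖α k'‖ ≤ 1 := by
    calc ‖α k‖ * ‖α k'‖ ≤ 1 * 1 :=
          mul_le_mul (hα k) (hα k') (norm_nonneg _) zero_le_one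
      _ = 1 := one_mul 1
  calc ‖α k‖ * ‖α k'‖ * _ ≤ 1 * mn M (((k : ℝ) - k') * θ) :=
        mul_le_mul h4 h3 (norm_nonneg _) zero_le_one
    _ = _ := one_mul _

private theorem ty2_energy (α : ℕ → ℂ) (hα : ∀ k, ‖α k‖ ≤ 1) (θ : ℝ) {V M P K : ℕ} (hM : 1 ≤ M) :
    ∑ m ∈ Ioc V M, ‖∑ k ∈ Ioc K (2 * K), ty2c α θ P k m‖ ^ 2 ≤
      ∑ k ∈ Ioc K (2 * K), ∑ k' ∈ Ioc K (2 * K), mn M (((k : ℝ) - k') * θ) := by
  have e1 : ((∑ m ∈ Ioc V M, ‖∑ k ∈ Ioc K (2 * K), ty2c α θ P k m‖ ^ 2 : ℝ) : ℂ) =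
      ∑ k ∈ Ioc K (2 * K), ∑ k' ∈ Ioc K (2 * K), ∑ m ∈ Ioc V M,
        ty2c α θ P k m * star (ty2c α θ P k' m) := by
    have e2 : ∀ m, ((‖∑ k ∈ Ioc K (2 * K), ty2c α θ P k m‖ ^ 2 : ℝ) : ℂ) =
        ∑ k ∈ Ioc K (2 * K), ∑ k' ∈ Ioc K (2 * K),
          ty2c α θ P k m * star (ty2c α θ P k' m) := by
      intro m
      rw [← sum_mul_sum, ← star_sum]
      have := Complex.mul_conj' (∑ k ∈ Ioc K (2 * K), ty2c α θ P k m)
      rw [Complex.star_def, this]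
      push_cast
      rfl
    rw [Complex.ofReal_sum]
    simp only [e2]
    rw [sum_comm]
    refine sum_congr rfl fun k _ => ?_
    rw [sum_comm]
  have h0 : 0 ≤ ∑ m ∈ Ioc V M, ‖∑ k ∈ Ioc K (2 * K), ty2c α θ P k m‖ ^ 2 :=
    sum_nonneg fun _ _ => sq_nonneg _
  have e3 : ∑ m ∈ Ioc V M, ‖∑ k ∈ Ioc K (2 * K), ty2c α θ P k m‖ ^ 2 =
      ‖((∑ m ∈ Ioc V M, ‖∑ k ∈ Ioc K (2 * K), ty2c α θ P k m‖ ^ 2 : ℝ) : ℂ)‖ := by
    rw [Complex.norm_real, Real.norm_of_nonneg h0]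
  rw [e3, e1]
  refine (norm_sum_le _ _).trans (sum_le_sum fun k hk => ?_)
  refine (norm_sum_le _ _).trans (sum_le_sum fun k' hk' => ?_)
  rw [mem_Ioc] at hk hk'
  exact ty2_pair α hα θ (by omega) (by omega) hM

private theorem ty2_exch (α β : ℕ → ℂ) (θ : ℝ) {V P K : ℕ} (hK : 1 ≤ K) :
    ∑ k ∈ Ioc K (2 * K), ∑ m ∈ (Ioc V (4 * P)).filter (fun m => P < k * m ∧ k * m ≤ 4 * P),
      α k * β m * ee (((k * m : ℕ) : ℝ) * θ) =
      ∑ m ∈ Ioc V (4 * P / K), β m * ∑ k ∈ Ioc K (2 * K), ty2c α θ P k m := by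
  have h1 : ∀ k, ∑ m ∈ (Ioc V (4 * P)).filter (fun m => P < k * m ∧ k * m ≤ 4 * P),
      α k * β m * ee (((k * m : ℕ) : ℝ) * θ) =
      ∑ m ∈ Ioc V (4 * P), β m * ty2c α θ P k m := by
    intro k
    rw [sum_filter]
    refine sum_congr rfl fun m _ => ?_
    unfold ty2c
    by_cases h : P < k * m ∧ k * m ≤ 4 * P
    · rw [if_pos h, if_pos h]
      ring
    · rw [if_neg h, if_neg h, mul_zero]
  simp only [h1]
  rw [sum_comm]
  simp only [← mul_sum]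
  symm
  refine sum_subset ?_ ?_
  · intro m hm
    rw [mem_Ioc] at hm ⊢
    exact ⟨hm.1, hm.2.trans (Nat.div_le_self _ _)⟩
  · intro m hm hm'
    rw [mem_Ioc] at hm hm'
    have h2 : 4 * P / K < m := by
      by_contra hcon
      exact hm' ⟨hm.1, by omega⟩
    rw [sum_eq_zero, mul_zero]
    intro k hk
    rw [mem_Ioc] at hk
    unfold ty2c
    rw [if_neg]
    rintro ⟨-, h3⟩
    rw [Nat.div_lt_iff_lt_mul (by omega)] at h2
    have h4 : m * K ≤ k * m := by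
      rw [mul_comm]
      exact Nat.mul_le_mul_right m hk.1.le
    omega

theorem ty_two : ∃ C : ℝ, 0 < C ∧ ∀ (θ : ℝ) (a : ℤ) (q : ℕ), 1 ≤ q → IsCoprime a (q : ℤ) →
    |θ - a / q| ≤ 1 / (q : ℝ) ^ 2 → ∀ (P K V : ℕ) (α β : ℕ → ℂ) (B : ℝ), 2 ≤ P → 1 ≤ K → q ≤ 4 * P → 0 ≤ B →
    (∀ k, ‖α k‖ ≤ 1) → (∀ m, m ≤ 4 * P → ‖β m‖ ≤ B) →
    ‖∑ k ∈ Ioc K (2 * K), ∑ m ∈ (Ioc V (4 * P)).filter (fun m => P < k * m ∧ k * m ≤ 4 * P),
      α k * β m * ee (((k * m : ℕ) : ℝ) * θ)‖ ^ 2 ≤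
      C * B ^ 2 * P * ((P : ℝ) / q + (P : ℝ) / K + K + q) * Real.log (4 * P) := by
  obtain ⟨C0, hC0, hvin⟩ := vin_a
  refine ⟨16 + 32 * C0, by positivity, ?_⟩
  intro θ a q hq hcop hθ P K V α β B hP hK hqP hB hα hβ
  have hPr : (2 : ℝ) ≤ P := by exact_mod_cast hP
  have hKr : (1 : ℝ) ≤ K := by exact_mod_cast hK
  have hqr : (1 : ℝ) ≤ q := by exact_mod_cast hq
  have hP0 : (0 : ℝ) < P := by linarith
  have hK0 : (0 : ℝ) < K := by linarith
  have hq0 : (0 : ℝ) < q := by linarith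
  have hl : 1 ≤ Real.log (4 * P) := by
    rw [Real.le_log_iff_exp_le (by positivity)]
    have := Real.exp_one_lt_d9
    linarith
  rw [ty2_exch α β θ hK]
  obtain ⟨M, hM⟩ : ∃ M, M = 4 * P / K := ⟨_, rfl⟩
  rw [← hM]
  have hMK : (M : ℝ) * K ≤ 4 * P := by
    have : M * K ≤ 4 * P := by
      rw [hM]
      exact Nat.div_mul_le_self _ _
    exact_mod_cast this
  have hM4 : M ≤ 4 * P := by
    rw [hM]
    exact Nat.div_le_self _ _
  rcases Nat.eq_zero_or_pos M with h0 | hM1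
  · rw [h0, Ioc_eq_empty (by omega), sum_empty, norm_zero]
    rw [zero_pow (by norm_num)]
    positivity
  have hMr : (1 : ℝ) ≤ M := by exact_mod_cast hM1
  -- Cauchy-Schwarz
  have hcs : ‖∑ m ∈ Ioc V M, β m * ∑ k ∈ Ioc K (2 * K), ty2c α θ P k m‖ ^ 2 ≤
      B ^ 2 * (M * ∑ m ∈ Ioc V M, ‖∑ k ∈ Ioc K (2 * K), ty2c α θ P k m‖ ^ 2) := by
    have h1 : ‖∑ m ∈ Ioc V M, β m * ∑ k ∈ Ioc K (2 * K), ty2c α θ P k m‖ ≤
        B * ∑ m ∈ Ioc V M, ‖∑ k ∈ Ioc K (2 * K), ty2c α θ P k m‖ := by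
      rw [mul_sum]
      refine (norm_sum_le _ _).trans (sum_le_sum fun m hm => ?_)
      rw [norm_mul]
      exact mul_le_mul_of_nonneg_right (hβ m ((mem_Ioc.1 hm).2.trans hM4)) (norm_nonneg _)
    have h2 : (∑ m ∈ Ioc V M, ‖∑ k ∈ Ioc K (2 * K), ty2c α θ P k m‖) ^ 2 ≤
        (M : ℝ) * ∑ m ∈ Ioc V M, ‖∑ k ∈ Ioc K (2 * K), ty2c α θ P k m‖ ^ 2 := by
      refine (sq_sum_le_card_mul_sum_sq).trans ?_
      refine mul_le_mul_of_nonneg_right ?_ (sum_nonneg fun _ _ => sq_nonneg _)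
      rw [Nat.card_Ioc]
      exact_mod_cast Nat.sub_le M V
    calc _ ≤ (B * ∑ m ∈ Ioc V M, ‖∑ k ∈ Ioc K (2 * K), ty2c α θ P k m‖) ^ 2 :=
          pow_le_pow_left₀ (norm_nonneg _) h1 2
      _ = B ^ 2 * (∑ m ∈ Ioc V M, ‖∑ k ∈ Ioc K (2 * K), ty2c α θ P k m‖) ^ 2 := by ring
      _ ≤ _ := mul_le_mul_of_nonneg_left h2 (sq_nonneg B)
  have hen : ∑ m ∈ Ioc V M, ‖∑ k ∈ Ioc K (2 * K), ty2c α θ P k m‖ ^ 2 ≤
      K * (M + 2 * (C0 * ((K : ℝ) / q + 1) * (M + q * Real.log (2 * q)))) := by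
    refine (ty2_energy α hα θ hM1).trans ?_
    have h3 : ∀ k ∈ Ioc K (2 * K), ∑ k' ∈ Ioc K (2 * K), mn M (((k : ℝ) - k') * θ) ≤
        M + 2 * (C0 * ((K : ℝ) / q + 1) * (M + q * Real.log (2 * q))) := by
      intro k hk
      have h4 := ty2_row (θ := θ) (X := M) (by linarith) hk
      have h5 := hvin θ a q hq hcop hθ M hMr K
      linarith
    refine (sum_le_sum h3).trans (le_of_eq ?_)
    rw [sum_const, Nat.card_Ioc, nsmul_eq_mul]
    congr 1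
    have : 2 * K - K = K := by omega
    rw [this]
  have hlog : Real.log (2 * q) ≤ 2 * Real.log (4 * P) := by
    have h6 : Real.log (2 * q) ≤ Real.log (2 * (4 * P)) := by
      apply Real.log_le_log (by positivity)
      have : (q : ℝ) ≤ 4 * P := by exact_mod_cast hqP
      linarith
    have h6' : Real.log (2 * (4 * P)) = Real.log 2 + Real.log (4 * P) :=
      Real.log_mul (by norm_num) (by positivity)
    have h7 : Real.log 2 ≤ 1 := by
      have := Real.log_two_lt_d9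
      linarith
    linarith
  obtain ⟨l, hl'⟩ : ∃ l, l = Real.log (4 * P) := ⟨_, rfl⟩
  obtain ⟨L, hL'⟩ : ∃ L, L = Real.log (2 * q) := ⟨_, rfl⟩
  rw [← hl'] at hl hlog ⊢
  rw [← hL'] at hlog hen
  have hL0 : 0 ≤ L := by
    rw [hL']
    apply Real.log_nonneg
    linarith
  have hMP : (M : ℝ) ≤ 4 * (P / K) := by
    rw [← mul_div_assoc, le_div_iff₀ hK0]
    exact hMK
  -- the numerical inequality
  obtain ⟨W, hW⟩ : ∃ W : ℝ, W = (P : ℝ) / q + (P : ℝ) / K + K + q := ⟨_, rfl⟩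
  rw [← hW]
  have hPq : 0 ≤ (P : ℝ) / q := by positivity
  have hPK : 0 ≤ (P : ℝ) / K := by positivity
  have hW0 : 0 ≤ W := by
    rw [hW]
    positivity
  have hWl : W ≤ W * l := by
    nlinarith
  have h8 : ((K : ℝ) / q + 1) * (M + q * L) ≤ 4 * (W * l) := by
    have e : ((K : ℝ) / q + 1) * (M + q * L) = (M : ℝ) * K / q + K * L + M + q * L := by
      field_simp
      ring
    rw [e]
    have a1 : (M : ℝ) * K / q ≤ 4 * (P / q) := by
      rw [← mul_div_assoc]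
      exact div_le_div_of_nonneg_right hMK hq0.le
    have a2 : (K : ℝ) * L ≤ K * (2 * l) := mul_le_mul_of_nonneg_left hlog hK0.le
    have a3 : (q : ℝ) * L ≤ q * (2 * l) := mul_le_mul_of_nonneg_left hlog hq0.le
    have a4 : (P : ℝ) / q ≤ P / q * l := le_mul_of_one_le_right hPq hl
    have a5 : (P : ℝ) / K ≤ P / K * l := le_mul_of_one_le_right hPK hl
    have a6 : W * l = P / q * l + P / K * l + K * l + q * l := by
      rw [hW]
      ring
    have a7 : 0 ≤ K * l := by positivity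
    have a8 : 0 ≤ q * l := by positivity
    linarith
  have h9 : (M : ℝ) + 2 * (C0 * ((K : ℝ) / q + 1) * (M + q * L)) ≤ (4 + 8 * C0) * (W * l) := by
    have b1 : (M : ℝ) ≤ 4 * (W * l) := by
      have : (P : ℝ) / K ≤ W := by
        rw [hW]
        linarith
      linarith
    have b2 : C0 * ((K : ℝ) / q + 1) * (M + q * L) ≤ C0 * (4 * (W * l)) := by
      rw [mul_assoc]
      exact mul_le_mul_of_nonneg_left h8 hC0.le
    linarith
  have hWl0 : 0 ≤ W * l := mul_nonneg hW0 (by linarith)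
  calc _ ≤ B ^ 2 * (M * ∑ m ∈ Ioc V M, ‖∑ k ∈ Ioc K (2 * K), ty2c α θ P k m‖ ^ 2) := hcs
    _ ≤ B ^ 2 * (M * (K * ((4 + 8 * C0) * (W * l)))) := by
        refine mul_le_mul_of_nonneg_left ?_ (sq_nonneg B)
        refine mul_le_mul_of_nonneg_left (hen.trans ?_) (by linarith)
        exact mul_le_mul_of_nonneg_left h9 hK0.le
    _ = B ^ 2 * ((M * K) * ((4 + 8 * C0) * (W * l))) := by ring
    _ ≤ B ^ 2 * ((4 * P) * ((4 + 8 * C0) * (W * l))) := by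
        refine mul_le_mul_of_nonneg_left ?_ (sq_nonneg B)
        exact mul_le_mul_of_nonneg_right hMK (by positivity)
    _ = (16 + 32 * C0) * B ^ 2 * P * W * l := by ring

end Pool.Agent.SW
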