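import Pool.Agent.SW.TyI
import Pool.Agent.SW.TyII
import Pool.Agent.Helper98.Bern.VI
import Pool.Agent.Helper98.Bern.LS

/-! SW/Minor.  The sum over `P < n ≤ 4P` on the minor arcs.

PROOF.  `vaughan U V P` with `U = V = ⌊P^(1/3)⌋` (`≥ 1`) and `F n = ee (n θ)`; the first two sums by `ty_one_log`, `ty_one`
(`U V ≤ P^(2/3)`).  The third: split `k ∈ Ioc U (4P)` into dyadic blocks `Ioc K (2K)`, `K = 2^i U`; only the blocks with `K V < 4P`
contribute (`m > V`, `k m ≤ 4P`); in the last block `k ≤ 4P` is automatic (`m ≥ 1`).  Each block by `ty_two` (`α k = μ k`,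
`B = log (4P)`), `P/K ≤ P/U ≤ 2 P^(2/3)`, `K ≤ 4P/V`; at most `2 + 2 log (4P)` blocks.  See also `LS_dyadic` in
`Pool/Agent/Helper98/Bern/LS.lean`. -/

set_option autoImplicit false

namespace Pool.Agent.SW

open Finset Pool.Agent.Helper98.Bern

private theorem mb_block {C3 : ℝ} (hC3 : 0 < C3) {p q L K Y : ℝ} (hp : 2 ≤ p) (hq : 1 ≤ q)
    (hL : 1 ≤ L) (hK0 : 0 < K) (hK : p / K + K ≤ 10 * p ^ ((2 : ℝ) / 3))
    (hY : 0 ≤ Y) (h : Y ^ 2 ≤ C3 * L ^ 2 * p * (p / q + p / K + K + q) * L) :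
    Y ≤ √(10 * C3) * L ^ 2 * (p / √q + p ^ ((9 : ℝ) / 10) + √(q * p)) := by
  have hp0 : 0 < p := by linarith
  have hq0 : 0 < q := by linarith
  have hL0 : 0 < L := by linarith
  have hsq : 0 < √q := Real.sqrt_pos.2 hq0
  have h9 : 0 < p ^ ((9 : ℝ) / 10) := Real.rpow_pos_of_pos hp0 _
  have hX : 0 ≤ p / √q + p ^ ((9 : ℝ) / 10) + √(q * p) := by positivity
  apply le_of_sq_le_sq _ (by positivity)
  have e1 : (p / √q) ^ 2 = p * (p / q) := by
    rw [div_pow, Real.sq_sqrt hq0.le]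
    ring
  have e2 : (√(q * p)) ^ 2 = p * q := by
    rw [Real.sq_sqrt (by positivity)]
    ring
  have e3 : p * p ^ ((2 : ℝ) / 3) ≤ (p ^ ((9 : ℝ) / 10)) ^ 2 := by
    have a1 : (p ^ ((9 : ℝ) / 10)) ^ 2 = p ^ ((9 : ℝ) / 5) := by
      rw [← Real.rpow_natCast, ← Real.rpow_mul hp0.le]
      norm_num
    have a2 : p * p ^ ((2 : ℝ) / 3) = p ^ ((5 : ℝ) / 3) := by
      nth_rewrite 1 [← Real.rpow_one p]
      rw [← Real.rpow_add hp0]
      norm_num
    rw [a1, a2]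
    exact Real.rpow_le_rpow_of_exponent_le (by linarith) (by norm_num)
  have e4 : p * (p / q + p / K + K + q) ≤
      10 * (p / √q + p ^ ((9 : ℝ) / 10) + √(q * p)) ^ 2 := by
    have b1 : p * (p / q + p / K + K + q) = p * (p / q) + p * (p / K + K) + p * q := by ring
    have b2 : p * (p / K + K) ≤ 10 * (p ^ ((9 : ℝ) / 10)) ^ 2 := by
      calc p * (p / K + K) ≤ p * (10 * p ^ ((2 : ℝ) / 3)) := mul_le_mul_of_nonneg_left hK hp0.le
        _ = 10 * (p * p ^ ((2 : ℝ) / 3)) := by ring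
        _ ≤ _ := by linarith
    have b3 : (p / √q) ^ 2 + (p ^ ((9 : ℝ) / 10)) ^ 2 + (√(q * p)) ^ 2 ≤
        (p / √q + p ^ ((9 : ℝ) / 10) + √(q * p)) ^ 2 := by
      have c1 : 0 ≤ p / √q := by positivity
      have c2 : 0 ≤ √(q * p) := Real.sqrt_nonneg _
      nlinarith [mul_nonneg c1 h9.le, mul_nonneg c1 c2, mul_nonneg h9.le c2]
    have b4 : 0 ≤ p * (p / q) := by positivity
    have b5 : 0 ≤ p * q := by positivity
    rw [b1]
    nlinarith
  have hL34 : L ^ 3 ≤ L ^ 4 := pow_le_pow_right₀ hL (by norm_num)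
  calc Y ^ 2 ≤ C3 * L ^ 2 * p * (p / q + p / K + K + q) * L := h
    _ = C3 * L ^ 3 * (p * (p / q + p / K + K + q)) := by ring
    _ ≤ C3 * L ^ 3 * (10 * (p / √q + p ^ ((9 : ℝ) / 10) + √(q * p)) ^ 2) :=
        mul_le_mul_of_nonneg_left e4 (by positivity)
    _ ≤ C3 * L ^ 4 * (10 * (p / √q + p ^ ((9 : ℝ) / 10) + √(q * p)) ^ 2) := by
        apply mul_le_mul_of_nonneg_right _ (by positivity)
        exact mul_le_mul_of_nonneg_left hL34 hC3.le
    _ = (√(10 * C3) * L ^ 2 * (p / √q + p ^ ((9 : ℝ) / 10) + √(q * p))) ^ 2 := by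
        rw [mul_pow, mul_pow, Real.sq_sqrt (by positivity)]
        ring

theorem minor_block : ∃ C : ℝ, 0 < C ∧ ∀ (θ : ℝ) (a : ℤ) (q : ℕ), 1 ≤ q → IsCoprime a (q : ℤ) →
    |θ - a / q| ≤ 1 / (q : ℝ) ^ 2 → ∀ P : ℕ, 2 ≤ P → q ≤ 4 * P →
    ‖∑ n ∈ Ioc P (4 * P), ((ArithmeticFunction.vonMangoldt n : ℝ) : ℂ) * ee (n * θ)‖ ≤
      C * ((P : ℝ) / √q + (P : ℝ) ^ ((9 : ℝ) / 10) + √((q : ℝ) * P)) * Real.log (4 * P) ^ 4 := by
  classical
  obtain ⟨C1, hC1, h1⟩ := ty_one_log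
  obtain ⟨C2, hC2, h2⟩ := ty_one
  obtain ⟨C3, hC3, h3⟩ := ty_two
  refine ⟨2 * C1 + 2 * C2 + 3 * √(10 * C3), by positivity, ?_⟩
  intro θ a q hq hcop hθ P hP hqP
  have hp : (2 : ℝ) ≤ P := by exact_mod_cast hP
  have hp0 : (0 : ℝ) < P := by linarith
  have hq1 : (1 : ℝ) ≤ q := by exact_mod_cast hq
  have hq0 : (0 : ℝ) < q := by linarith
  have hqP' : (q : ℝ) ≤ 4 * P := by exact_mod_cast hqP
  set L := Real.log (4 * P) with hL
  have hL1 : 1 ≤ L := by
    rw [hL, Real.le_log_iff_exp_le (by positivity)]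
    have := Real.exp_one_lt_d9
    linarith
  have hL0 : 0 < L := by linarith
  set X := (P : ℝ) / √q + (P : ℝ) ^ ((9 : ℝ) / 10) + √((q : ℝ) * P) with hX
  have hX0 : 0 ≤ X := by positivity
  set t := (P : ℝ) ^ ((1 : ℝ) / 3) with ht
  have ht1 : 1 ≤ t := Real.one_le_rpow (by linarith) (by norm_num)
  have ht0 : 0 < t := by linarith
  have htt : t * t = (P : ℝ) ^ ((2 : ℝ) / 3) := by
    rw [ht, ← Real.rpow_add hp0]
    norm_num
  have h23p : (P : ℝ) ^ ((2 : ℝ) / 3) ≤ P := by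
    nth_rewrite 2 [← Real.rpow_one (P : ℝ)]
    exact Real.rpow_le_rpow_of_exponent_le (by linarith) (by norm_num)
  have h23 : (P : ℝ) ^ ((2 : ℝ) / 3) ≤ (P : ℝ) ^ ((9 : ℝ) / 10) :=
    Real.rpow_le_rpow_of_exponent_le (by linarith) (by norm_num)
  have hpt : (P : ℝ) = t * (P : ℝ) ^ ((2 : ℝ) / 3) := by
    rw [ht, ← Real.rpow_add hp0]
    norm_num
  set U := ⌊t⌋₊ with hU
  have hUt : (U : ℝ) ≤ t := Nat.floor_le ht0.le
  have hU1 : 1 ≤ U := (Nat.one_le_floor_iff _).2 ht1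
  have hU1' : (1 : ℝ) ≤ U := by exact_mod_cast hU1
  have hU0 : (0 : ℝ) < U := by linarith
  have htU : t ≤ 2 * U := by
    have := Nat.lt_floor_add_one t
    linarith
  have hUU : ((U * U : ℕ) : ℝ) ≤ (P : ℝ) ^ ((2 : ℝ) / 3) := by
    push_cast
    rw [← htt]
    exact mul_le_mul hUt hUt hU0.le ht0.le
  have hUUP : U * U ≤ P := by
    have : ((U * U : ℕ) : ℝ) ≤ P := hUU.trans h23p
    exact_mod_cast this
  have hUP : U ≤ P := (Nat.le_mul_of_pos_left U hU1).trans hUUP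
  have hUUr : (U : ℝ) ≤ ((U * U : ℕ) : ℝ) := by
    exact_mod_cast Nat.le_mul_of_pos_left U hU1
  -- small terms
  have hsq1 : 1 ≤ √(q : ℝ) := Real.one_le_sqrt.2 hq1
  have hPq : (P : ℝ) / q ≤ P / √q := by
    apply div_le_div_of_nonneg_left hp0.le (by linarith)
    calc √(q : ℝ) ≤ √q * √q := by nlinarith
      _ = q := Real.mul_self_sqrt hq0.le
  have hqq : (q : ℝ) ≤ 2 * √((q : ℝ) * P) := by
    have e1 : √((2 : ℝ) ^ 2 * ((q : ℝ) * P)) = 2 * √((q : ℝ) * P) := by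
      rw [Real.sqrt_mul (by norm_num), Real.sqrt_sq (by norm_num)]
    rw [← e1]
    apply Real.le_sqrt_of_sq_le
    nlinarith
  have hsm : ∀ D : ℝ, D ≤ (P : ℝ) ^ ((2 : ℝ) / 3) → (P : ℝ) / q + D + q ≤ 2 * X := by
    intro D hD
    have e1 : 0 ≤ (P : ℝ) / √q := by positivity
    have e2 : 0 ≤ (P : ℝ) ^ ((9 : ℝ) / 10) := by positivity
    rw [hX]
    linarith
  have hL24 : L ^ 2 ≤ L ^ 4 := pow_le_pow_right₀ hL1 (by norm_num)
  have hL34 : L ^ 3 ≤ L ^ 4 := pow_le_pow_right₀ hL1 (by norm_num)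
  obtain ⟨c, b, hc, hb, hV⟩ := vaughan U U P hU1 hUP
  have hF := hV (fun n => ee ((n : ℝ) * θ))
  rw [hF]
  -- first term
  have hT1 : ‖∑ d ∈ Icc 1 U, ((ArithmeticFunction.moebius d : ℤ) : ℂ) *
      ∑ m ∈ (Icc 1 (4 * P)).filter (fun m => P < d * m ∧ d * m ≤ 4 * P),
        ((Real.log m : ℝ) : ℂ) * ee (((d * m : ℕ) : ℝ) * θ)‖ ≤ 2 * C1 * X * L ^ 4 := by
    refine (h1 θ a q hq hcop hθ P U (fun d => ((ArithmeticFunction.moebius d : ℤ) : ℂ)) hP hqP
      (by omega) ?_).trans ?_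
    · intro d _
      simp only [Complex.norm_intCast]
      have := ArithmeticFunction.abs_moebius_le_one (n := d)
      exact_mod_cast this
    · calc C1 * ((P : ℝ) / q + U + q) * L ^ 2 ≤ C1 * (2 * X) * L ^ 2 := by
            apply mul_le_mul_of_nonneg_right _ (by positivity)
            exact mul_le_mul_of_nonneg_left (hsm U (hUUr.trans hUU)) hC1.le
        _ ≤ C1 * (2 * X) * L ^ 4 := mul_le_mul_of_nonneg_left hL24 (by positivity)
        _ = 2 * C1 * X * L ^ 4 := by ring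
  have hT2 : ‖∑ d ∈ Icc 1 (U * U), ((c d : ℝ) : ℂ) *
      ∑ m ∈ (Icc 1 (4 * P)).filter (fun m => P < d * m ∧ d * m ≤ 4 * P),
        ee (((d * m : ℕ) : ℝ) * θ)‖ ≤ 2 * C2 * X * L ^ 4 := by
    refine (h2 θ a q hq hcop hθ P (U * U) (fun d => ((c d : ℝ) : ℂ)) hP hqP
      (by omega) ?_).trans ?_
    · intro d _
      rw [Complex.norm_real, Real.norm_eq_abs]
      exact hc d
    · calc C2 * ((P : ℝ) / q + ((U * U : ℕ) : ℝ) + q) * L ^ 2 ≤ C2 * (2 * X) * L ^ 2 := by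
            apply mul_le_mul_of_nonneg_right _ (by positivity)
            exact mul_le_mul_of_nonneg_left (hsm _ hUU) hC2.le
        _ ≤ C2 * (2 * X) * L ^ 4 := mul_le_mul_of_nonneg_left hL24 (by positivity)
        _ = 2 * C2 * X * L ^ 4 := by ring
  -- third term
  set G : ℕ → ℂ := fun k => ∑ m ∈ (Ioc U (4 * P)).filter (fun m => P < k * m ∧ k * m ≤ 4 * P),
    ((ArithmeticFunction.moebius k : ℤ) : ℂ) * ((b m : ℝ) : ℂ) * ee (((k * m : ℕ) : ℝ) * θ) with hG
  have hG0 : ∀ k, 4 * P < k → G k = 0 := by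
    intro k hk
    apply Finset.sum_eq_zero
    intro m hm
    exfalso
    rw [mem_filter, mem_Ioc] at hm
    have : k ≤ k * m := Nat.le_mul_of_pos_right k (by omega)
    omega
  have hex : ∃ n : ℕ, 4 * P ≤ U * 2 ^ n := by
    refine ⟨4 * P, ?_⟩
    have e1 : 4 * P < 2 ^ (4 * P) := Nat.lt_two_pow_self
    exact e1.le.trans (Nat.le_mul_of_pos_left _ hU1)
  set n := Nat.find hex with hn
  have hn1 : 4 * P ≤ U * 2 ^ n := Nat.find_spec hex
  have hn2 : ∀ i < n, U * 2 ^ i < 4 * P := fun i hi => not_le.1 (Nat.find_min hex hi)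
  have hnL : (n : ℝ) ≤ 3 * L := by
    rcases Nat.eq_zero_or_pos n with h0 | h0
    · rw [h0]
      push_cast
      positivity
    · obtain ⟨j, hj⟩ : ∃ j, n = j + 1 := ⟨n - 1, by omega⟩
      have e1 := hn2 j (by omega)
      have e2 : (2 : ℝ) ^ j ≤ 4 * P := by
        have e3 : 2 ^ j ≤ 4 * P := (Nat.le_mul_of_pos_left _ hU1).trans e1.le
        exact_mod_cast e3
      have e4 := Real.log_le_log (by positivity) e2
      rw [Real.log_pow] at e4
      have e5 : (1 / 2 : ℝ) ≤ Real.log 2 := by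
        have := Real.log_two_gt_d9
        linarith
      have e6 : (j : ℝ) * (1 / 2) ≤ L := (mul_le_mul_of_nonneg_left e5 (by positivity)).trans e4
      rw [hj]
      push_cast
      linarith
  have hT3 : ‖∑ k ∈ Ioc U (4 * P), G k‖ ≤ 3 * √(10 * C3) * X * L ^ 4 := by
    have e1 : ∑ k ∈ Ioc U (4 * P), G k = ∑ k ∈ Ioc U (U * 2 ^ n), G k := by
      apply Finset.sum_subset
      · intro k hk
        rw [mem_Ioc] at hk ⊢
        omega
      · intro k hk hk'
        rw [mem_Ioc] at hk hk'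
        exact hG0 k (by omega)
    rw [e1]
    have e2 : ‖∑ k ∈ Ioc U (U * 2 ^ n), G k‖ ≤ n * (√(10 * C3) * L ^ 2 * X) := by
      apply LS_dyadic
      intro i hi
      set K := U * 2 ^ i with hK
      have hUK : U ≤ K := Nat.le_mul_of_pos_right U (by positivity)
      have hUK' : (U : ℝ) ≤ K := by exact_mod_cast hUK
      have hK0 : (0 : ℝ) < K := by linarith
      by_cases hKU : 4 * P ≤ K * U
      · have e3 : ∑ k ∈ Ioc K (2 * K), G k = 0 := by
          apply Finset.sum_eq_zero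
          intro k hk
          apply Finset.sum_eq_zero
          intro m hm
          exfalso
          rw [mem_filter, mem_Ioc] at hm
          rw [mem_Ioc] at hk
          have e4 : K * U < k * m := Nat.mul_lt_mul'' hk.1 hm.1.1
          omega
        rw [e3, norm_zero]
        positivity
      · have hKU' : (K : ℝ) * U ≤ 4 * P := by
          have : K * U ≤ 4 * P := by omega
          exact_mod_cast this
        have hKb : (K : ℝ) ≤ 8 * (P : ℝ) ^ ((2 : ℝ) / 3) := by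
          have e5 : (K : ℝ) * t ≤ 8 * P := by nlinarith
          have e6 : (K : ℝ) * t ≤ (8 * (P : ℝ) ^ ((2 : ℝ) / 3)) * t := by
            calc (K : ℝ) * t ≤ 8 * P := e5
              _ = 8 * (t * (P : ℝ) ^ ((2 : ℝ) / 3)) := by rw [← hpt]
              _ = _ := by ring
          exact le_of_mul_le_mul_right e6 ht0
        have hPK : (P : ℝ) / K ≤ 2 * (P : ℝ) ^ ((2 : ℝ) / 3) := by
          rw [div_le_iff₀ hK0]
          have e7 : t ≤ 2 * K := by linarith
          calc (P : ℝ) = t * (P : ℝ) ^ ((2 : ℝ) / 3) := hpt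
            _ ≤ (2 * K) * (P : ℝ) ^ ((2 : ℝ) / 3) := mul_le_mul_of_nonneg_right e7 (by positivity)
            _ = _ := by ring
        have e8 := h3 θ a q hq hcop hθ P K U (fun k => ((ArithmeticFunction.moebius k : ℤ) : ℂ))
          (fun m => ((b m : ℝ) : ℂ)) L hP (by omega) hqP hL0.le ?_ ?_
        · exact mb_block hC3 hp hq1 hL1 hK0 (by linarith) (norm_nonneg _) e8
        · intro k
          simp only [Complex.norm_intCast]
          have := ArithmeticFunction.abs_moebius_le_one (n := k)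
          exact_mod_cast this
        · intro m hm
          rw [Complex.norm_real, Real.norm_eq_abs]
          refine (hb m).trans ?_
          have e9 := LS_log_mono hm
          push_cast at e9
          exact e9
    calc ‖∑ k ∈ Ioc U (U * 2 ^ n), G k‖ ≤ n * (√(10 * C3) * L ^ 2 * X) := e2
      _ ≤ (3 * L) * (√(10 * C3) * L ^ 2 * X) := mul_le_mul_of_nonneg_right hnL (by positivity)
      _ = 3 * √(10 * C3) * X * L ^ 3 := by ring
      _ ≤ 3 * √(10 * C3) * X * L ^ 4 := mul_le_mul_of_nonneg_left hL34 (by positivity)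
  refine (norm_add_le _ _).trans ?_
  refine (add_le_add (norm_sub_le _ _) le_rfl).trans ?_
  calc _ ≤ (2 * C1 * X * L ^ 4 + 2 * C2 * X * L ^ 4) + 3 * √(10 * C3) * X * L ^ 4 :=
        add_le_add (add_le_add hT1 hT2) hT3
    _ = (2 * C1 + 2 * C2 + 3 * √(10 * C3)) * X * L ^ 4 := by ring

end Pool.Agent.SW
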