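import Pool.Agent.SW.Minor

/-! SW/MinorN.  The minor arcs.

Write `(0, N]` as the union of `Ioc (N / 4^(i+1)) (N / 4^i)` (natural division; each is `Ioc P (4P)` plus at most three more integers
`n ≤ 4P + 3`, every one contributing `≤ log N`; or use `Ioc 0 N = Ioc 0 P₀ ∪ ⋃ Ioc (4^i P₀) (4^(i+1) P₀)` with a last incomplete block
avoided by choosing `P₀ = …`; any way is fine).  Stop at `P < max (q, √N)`: the part `n ≤ 4 max (q, √N)` is trivially
`≤ 4 (q + √N) · 3 ≤ 12 (N/L^16 + √N)` (`Chebyshev.psi_le` or the trivial bound `log N` per term: `q log N ≤ N/L^15`).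
With `L = log N`, `√q ≥ L^8`, `q ≤ N/L^16`: every block is `≤ C (N L^(-8) + N^(9/10) + N L^(-8)) (log 4N)^4`, at most `2 L` blocks. -/

set_option autoImplicit false

namespace Pool.Agent.SW

open Finset Pool.Agent.Helper98.Bern

private theorem mn_triv (N : ℕ) (θ : ℝ) (s : Finset ℕ) (hs : ∀ n ∈ s, 1 ≤ n ∧ n ≤ N) :
    ‖∑ n ∈ s, ((ArithmeticFunction.vonMangoldt n : ℝ) : ℂ) * ee (n * θ)‖ ≤ s.card * Real.log N := by
  have h : ∀ n ∈ s, ‖((ArithmeticFunction.vonMangoldt n : ℝ) : ℂ) * ee (n * θ)‖ ≤ Real.log N := by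
    intro n hn
    obtain ⟨h1, h2⟩ := hs n hn
    rw [norm_mul, norm_ee, mul_one, Complex.norm_real, Real.norm_eq_abs,
      abs_of_nonneg ArithmeticFunction.vonMangoldt_nonneg]
    refine ArithmeticFunction.vonMangoldt_le_log.trans ?_
    apply Real.log_le_log
    · exact_mod_cast h1
    · exact_mod_cast h2
  have h2 := norm_sum_le_of_le s h
  rwa [Finset.sum_const, nsmul_eq_mul] at h2

private theorem mn_rec {N : ℕ} {θ : ℝ} {q : ℕ} {E L : ℝ} (hL : L = Real.log N) (hL0 : 0 ≤ L) (hE0 : 0 ≤ E)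
    (hq : 7 ≤ q)
    (hb : ∀ P : ℕ, 2 ≤ P → q ≤ 4 * P → 4 * P ≤ N →
      ‖∑ n ∈ Ioc P (4 * P), ((ArithmeticFunction.vonMangoldt n : ℝ) : ℂ) * ee (n * θ)‖ ≤ E) (j : ℕ) :
    ∀ M : ℕ, M ≤ N → M ≤ q * 4 ^ j → ‖∑ n ∈ Ioc 0 M, ((ArithmeticFunction.vonMangoldt n : ℝ) : ℂ) * ee (n * θ)‖ ≤
      j * (E + 3 * L) + (q + 3) * L := by
  have triv : ∀ M : ℕ, M ≤ N → M ≤ q + 3 →
      ‖∑ n ∈ Ioc 0 M, ((ArithmeticFunction.vonMangoldt n : ℝ) : ℂ) * ee (n * θ)‖ ≤ (q + 3) * L := by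
    intro M hM hMq
    have h := mn_triv N θ (Ioc 0 M) (fun n hn => by
      rw [Finset.mem_Ioc] at hn
      exact ⟨hn.1, hn.2.trans hM⟩)
    rw [Nat.card_Ioc, Nat.sub_zero, ← hL] at h
    refine h.trans ?_
    have h2 : (M : ℝ) ≤ q + 3 := by exact_mod_cast hMq
    exact mul_le_mul_of_nonneg_right h2 hL0
  induction j with
  | zero =>
    intro M hM hMq
    rw [pow_zero, mul_one] at hMq
    rw [Nat.cast_zero, zero_mul, zero_add]
    exact triv M hM (by omega)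
  | succ j ih =>
    intro M hM hMq
    by_cases hc : M ≤ q + 3
    · refine (triv M hM hc).trans ?_
      have : 0 ≤ ((j + 1 : ℕ) : ℝ) * (E + 3 * L) := by positivity
      linarith
    · have hP1 : M / 4 ≤ N := by omega
      have hP2 : M / 4 ≤ q * 4 ^ j := by
        rw [pow_succ, ← mul_assoc] at hMq
        omega
      have h1 := ih (M / 4) hP1 hP2
      have h2 := hb (M / 4) (by omega) (by omega) (by omega)
      have h3 := mn_triv N θ (Ioc (4 * (M / 4)) M) (fun n hn => by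
        rw [Finset.mem_Ioc] at hn
        omega)
      rw [Nat.card_Ioc, ← hL] at h3
      have h4 : ((M - 4 * (M / 4) : ℕ) : ℝ) ≤ 3 := by
        have : M - 4 * (M / 4) ≤ 3 := by omega
        exact_mod_cast this
      have h5 : ((M - 4 * (M / 4) : ℕ) : ℝ) * L ≤ 3 * L := mul_le_mul_of_nonneg_right h4 hL0
      have e1 : ∑ n ∈ Ioc 0 M, ((ArithmeticFunction.vonMangoldt n : ℝ) : ℂ) * ee (n * θ) =
          ∑ n ∈ Ioc 0 (M / 4), ((ArithmeticFunction.vonMangoldt n : ℝ) : ℂ) * ee (n * θ) +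
          ∑ n ∈ Ioc (M / 4) (4 * (M / 4)), ((ArithmeticFunction.vonMangoldt n : ℝ) : ℂ) * ee (n * θ) +
          ∑ n ∈ Ioc (4 * (M / 4)) M, ((ArithmeticFunction.vonMangoldt n : ℝ) : ℂ) * ee (n * θ) := by
        rw [Finset.sum_Ioc_consecutive _ (by omega) (by omega), Finset.sum_Ioc_consecutive _ (by omega) (by omega)]
      rw [e1]
      refine (norm_add₃_le).trans ?_
      push_cast
      have h6 : ((j : ℝ) + 1) * (E + 3 * L) = j * (E + 3 * L) + (E + 3 * L) := by ring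
      rw [h6]
      linarith

private theorem mn_large (C : ℝ) (hC : 0 < C) : ∃ N0 : ℕ, ∀ N : ℕ, N0 ≤ N →
    20 * C ≤ Real.log N ∧ 5 ≤ Real.log N ∧ 10 * C * Real.log N ^ 6 ≤ (N : ℝ) ^ ((1 : ℝ) / 10) ∧
      45 * Real.log N ^ 3 ≤ N := by
  have h1 : ∀ᶠ x : ℝ in Filter.atTop, 20 * C ≤ Real.log x :=
    Real.tendsto_log_atTop.eventually_ge_atTop _
  have h2 : ∀ᶠ x : ℝ in Filter.atTop, 5 ≤ Real.log x :=
    Real.tendsto_log_atTop.eventually_ge_atTop _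
  have h3 := (isLittleO_log_rpow_rpow_atTop (s := (1 : ℝ) / 10) 6 (by norm_num)).bound
    (c := 1 / (10 * C)) (by positivity)
  have h4 := (Real.isLittleO_pow_log_id_atTop (n := 3)).bound (c := 1 / 45) (by norm_num)
  have h5 := h1.and (h2.and (h3.and (h4.and (Filter.eventually_ge_atTop (1 : ℝ)))))
  have h6 := (tendsto_natCast_atTop_atTop (R := ℝ)).eventually h5
  obtain ⟨N0, hN0⟩ := Filter.eventually_atTop.1 h6
  refine ⟨N0, fun N hN => ?_⟩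
  obtain ⟨g1, g2, g3, g4, g5⟩ := hN0 N hN
  have hl : 0 ≤ Real.log N := by linarith
  refine ⟨g1, g2, ?_, ?_⟩
  · have e : Real.log (N : ℝ) ^ (6 : ℝ) = Real.log N ^ 6 := by
      rw [← Real.rpow_natCast]
      norm_num
    rw [e, Real.norm_of_nonneg (by positivity), Real.norm_of_nonneg (by positivity), one_div_mul_eq_div,
      le_div_iff₀ (by positivity)] at g3
    linarith
  · rw [Real.norm_of_nonneg (by positivity), id, Real.norm_of_nonneg (by positivity)] at g4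
    linarith

theorem minor : ∃ N0 : ℕ, ∀ N : ℕ, N0 ≤ N → ∀ (θ : ℝ) (a : ℤ) (q : ℕ), 1 ≤ q → IsCoprime a (q : ℤ) →
    |θ - a / q| ≤ 1 / (q : ℝ) ^ 2 → Real.log N ^ 16 ≤ q → (q : ℝ) ≤ N / Real.log N ^ 16 →
    ‖SL N θ‖ ≤ N / Real.log N := by
  obtain ⟨C, hC, hblock⟩ := minor_block
  obtain ⟨N0, hN0⟩ := mn_large C hC
  refine ⟨max N0 1, ?_⟩
  intro N hN θ a q hq1 hcop hθ hq2 hq3
  obtain ⟨g1, g2, g3, g4⟩ := hN0 N ((le_max_left _ _).trans hN)
  have hNpos : (0 : ℝ) < N := by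
    have : 1 ≤ N := (le_max_right _ _).trans hN
    exact_mod_cast this
  obtain ⟨L, hL⟩ : ∃ L, L = Real.log N := ⟨_, rfl⟩
  rw [← hL] at g1 g2 g3 g4 hq2 hq3 ⊢
  have hL0 : 0 < L := by linarith
  have hL1 : 1 ≤ L := by linarith
  have hq0 : (0 : ℝ) < q := by exact_mod_cast hq1
  have hq7 : 7 ≤ q := by
    have h1 : (7 : ℝ) ≤ q := by
      have h2 : (5 : ℝ) ^ 16 ≤ L ^ 16 := pow_le_pow_left₀ (by norm_num) g2 16
      have h3 : (7 : ℝ) ≤ 5 ^ 16 := by norm_num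
      linarith
    exact_mod_cast h1
  -- the square roots
  have hs1 : L ^ 8 ≤ √(q : ℝ) := by
    apply Real.le_sqrt_of_sq_le
    rw [← pow_mul]
    exact hq2
  have hs2 : √((q : ℝ) * N) ≤ N / L ^ 8 := by
    rw [Real.sqrt_le_left (by positivity)]
    calc (q : ℝ) * N ≤ N / L ^ 16 * N := mul_le_mul_of_nonneg_right hq3 hNpos.le
      _ = (N / L ^ 8) ^ 2 := by
          field_simp
  have hs1' : (N : ℝ) / √q ≤ N / L ^ 8 := by
    apply div_le_div_of_nonneg_left hNpos.le (by positivity) hs1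
  obtain ⟨E, hE⟩ : ∃ E, E = C * (2 * (N / L ^ 8) + (N : ℝ) ^ ((9 : ℝ) / 10)) * L ^ 4 := ⟨_, rfl⟩
  have hE0 : 0 ≤ E := by
    rw [hE]
    positivity
  have hb : ∀ P : ℕ, 2 ≤ P → q ≤ 4 * P → 4 * P ≤ N →
      ‖∑ n ∈ Ioc P (4 * P), ((ArithmeticFunction.vonMangoldt n : ℝ) : ℂ) * ee (n * θ)‖ ≤ E := by
    intro P hP hqP hPN
    refine (hblock θ a q hq1 hcop hθ P hP hqP).trans ?_
    rw [hE]
    have hP0 : (0 : ℝ) < P := by
      have : 0 < P := by omega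
      exact_mod_cast this
    have hPN' : (4 : ℝ) * P ≤ N := by exact_mod_cast hPN
    have hPN2 : (P : ℝ) ≤ N := by linarith
    have h1 : (P : ℝ) / √q ≤ N / L ^ 8 :=
      (div_le_div_of_nonneg_right hPN2 (Real.sqrt_nonneg _)).trans hs1'
    have h2 : √((q : ℝ) * P) ≤ N / L ^ 8 :=
      (Real.sqrt_le_sqrt (mul_le_mul_of_nonneg_left hPN2 hq0.le)).trans hs2
    have h3 : (P : ℝ) ^ ((9 : ℝ) / 10) ≤ (N : ℝ) ^ ((9 : ℝ) / 10) :=
      Real.rpow_le_rpow hP0.le hPN2 (by norm_num)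
    have h4 : Real.log (4 * P) ≤ L := by
      rw [hL]
      exact Real.log_le_log (by positivity) hPN'
    have h5 : 0 ≤ Real.log (4 * P) := by
      apply Real.log_nonneg
      have : (2 : ℝ) ≤ P := by exact_mod_cast hP
      linarith
    have h6 : Real.log (4 * P) ^ 4 ≤ L ^ 4 := pow_le_pow_left₀ h5 h4 4
    apply mul_le_mul _ h6 (by positivity) (by positivity)
    apply mul_le_mul_of_nonneg_left _ hC.le
    linarith
  -- number of blocks
  have hj : (N : ℝ) ≤ q * 4 ^ ⌈L⌉₊ := by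
    have h1 : (N : ℝ) = Real.exp L := by rw [hL, Real.exp_log hNpos]
    have h2 : Real.exp L ≤ Real.exp (⌈L⌉₊ : ℝ) := Real.exp_le_exp.2 (Nat.le_ceil L)
    have h3 : Real.exp (⌈L⌉₊ : ℝ) = Real.exp 1 ^ ⌈L⌉₊ := by
      rw [← Real.exp_nat_mul, mul_one]
    have h4 : Real.exp 1 ^ ⌈L⌉₊ ≤ 4 ^ ⌈L⌉₊ := by
      apply pow_le_pow_left₀ (Real.exp_pos 1).le
      have := Real.exp_one_lt_d9
      linarith
    have h5 : (4 : ℝ) ^ ⌈L⌉₊ ≤ q * 4 ^ ⌈L⌉₊ := by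
      have h6 : (1 : ℝ) ≤ q := by exact_mod_cast hq1
      have h7 : (0 : ℝ) < 4 ^ ⌈L⌉₊ := by positivity
      nlinarith
    rw [h1]
    linarith
  have hj' : N ≤ q * 4 ^ ⌈L⌉₊ := by exact_mod_cast hj
  have key := mn_rec hL hL0.le hE0 hq7 hb ⌈L⌉₊ N le_rfl hj'
  refine le_trans key ?_
  have hc : (⌈L⌉₊ : ℝ) ≤ 2 * L := by
    have := (Nat.ceil_lt_add_one hL0.le).le
    linarith
  have t1 : (⌈L⌉₊ : ℝ) * (E + 3 * L) ≤ 2 * L * (E + 3 * L) :=
    mul_le_mul_of_nonneg_right hc (by positivity)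
  have t2 : ((q : ℝ) + 3) * L ≤ (N / L ^ 16 + 3) * L := by
    apply mul_le_mul_of_nonneg_right _ hL0.le
    linarith
  refine (add_le_add t1 t2).trans ?_
  -- the five terms
  have u1 : 4 * C * (N / L ^ 3) ≤ (N / L) / 5 := by
    have h1 : 20 * C ≤ L ^ 2 := by nlinarith
    have h2 : 4 * C * (N / L ^ 3) = (4 * C / L ^ 2) * (N / L) := by
      field_simp
    have h3 : 4 * C / L ^ 2 ≤ 1 / 5 := by
      rw [div_le_div_iff₀ (by positivity) (by positivity)]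
      linarith
    rw [h2]
    have h4 : 0 ≤ (N : ℝ) / L := by positivity
    nlinarith
  have u2 : 2 * C * L ^ 5 * (N : ℝ) ^ ((9 : ℝ) / 10) ≤ (N / L) / 5 := by
    have h1 : (N : ℝ) ^ ((9 : ℝ) / 10) * (N : ℝ) ^ ((1 : ℝ) / 10) = N := by
      rw [← Real.rpow_add hNpos]
      norm_num
    have h2 : 0 < (N : ℝ) ^ ((9 : ℝ) / 10) := by positivity
    have h3 : 10 * C * L ^ 6 * (N : ℝ) ^ ((9 : ℝ) / 10) ≤ N := by
      calc 10 * C * L ^ 6 * (N : ℝ) ^ ((9 : ℝ) / 10)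
          ≤ (N : ℝ) ^ ((1 : ℝ) / 10) * (N : ℝ) ^ ((9 : ℝ) / 10) := mul_le_mul_of_nonneg_right g3 h2.le
        _ = N := by rw [mul_comm, h1]
    rw [div_div, le_div_iff₀ (by positivity)]
    calc 2 * C * L ^ 5 * (N : ℝ) ^ ((9 : ℝ) / 10) * (L * 5) = 10 * C * L ^ 6 * (N : ℝ) ^ ((9 : ℝ) / 10) := by ring
      _ ≤ (N : ℝ) := h3
  have u3 : 9 * L ^ 2 ≤ (N / L) / 5 := by
    rw [div_div, le_div_iff₀ (by positivity)]
    calc 9 * L ^ 2 * (L * 5) = 45 * L ^ 3 := by ring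
      _ ≤ (N : ℝ) := g4
  have u4 : N / L ^ 15 ≤ (N / L) / 5 := by
    have h1 : N / L ^ 15 = (N / L) / L ^ 14 := by
      rw [div_div]
      congr 1
      ring
    rw [h1]
    apply div_le_div_of_nonneg_left (by positivity) (by norm_num)
    calc (5 : ℝ) ≤ L := g2
      _ ≤ L ^ 14 := le_self_pow₀ hL1 (by norm_num)
  have u5 : 2 * L * (E + 3 * L) + (N / L ^ 16 + 3) * L =
      4 * C * (N / L ^ 3) + 2 * C * L ^ 5 * (N : ℝ) ^ ((9 : ℝ) / 10) + (6 * L ^ 2 + 3 * L) + N / L ^ 15 := by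
    rw [hE]
    field_simp
    ring
  have u6 : 6 * L ^ 2 + 3 * L ≤ 9 * L ^ 2 := by nlinarith
  have u7 : 0 ≤ (N : ℝ) / L := by positivity
  rw [u5]
  linarith

end Pool.Agent.SW
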