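import Pool.Agent.SW.Geo
import Pool.Agent.SW.AbelE

/-! SW/Mod.  The exponential sums of the model: expand the indicator of the integers coprime to a primorial by the
Moebius function; geometric sums for the divisors not divisible by `q`, comparison with `TT N β` for the others. -/

set_option autoImplicit false

namespace Pool.Agent.SW

open Finset Pool.Agent.Helper98.Bern

private lemma ee_zero' : ee 0 = 1 := by
  have := ee_int 0
  simpa using this

private lemma norm_ee_sub_one_le (t : ℝ) : ‖ee t - 1‖ ≤ 7 * |t| := by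
  have h1 : ee t = Complex.exp (Complex.I * ((2 * Real.pi * t : ℝ) : ℂ)) := by
    unfold ee
    congr 1
    push_cast
    ring
  rw [h1]
  refine (Real.norm_exp_I_mul_ofReal_sub_one_le).trans ?_
  rw [Real.norm_eq_abs, abs_mul, abs_of_pos (by positivity : (0 : ℝ) < 2 * Real.pi)]
  have h2 : Real.pi < 3.15 := Real.pi_lt_d2
  nlinarith [abs_nonneg t]

private lemma norm_ee_sub_le (x y : ℝ) : ‖ee x - ee y‖ ≤ 7 * |x - y| := by
  have h1 : ee x - ee y = ee y * (ee (x - y) - 1) := by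
    rw [mul_sub, ← ee_add]
    congr 2
    · ring
    · ring
  rw [h1, norm_mul, norm_ee, one_mul]
  exact norm_ee_sub_one_le _

private lemma sum_mult (N d : ℕ) (hd : 0 < d) (f : ℕ → ℂ) :
    ∑ n ∈ (Ioc 0 N).filter (fun n => d ∣ n), f n = ∑ m ∈ Ioc 0 (N / d), f (m * d) := by
  symm
  refine Finset.sum_bij (fun m _ => m * d) ?_ ?_ ?_ ?_
  · intro m hm
    rw [mem_Ioc] at hm
    rw [mem_filter, mem_Ioc]
    exact ⟨⟨Nat.mul_pos hm.1 hd, (Nat.le_div_iff_mul_le hd).1 hm.2⟩, dvd_mul_left _ _⟩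
  · intro m _ m' _ h
    exact Nat.eq_of_mul_eq_mul_right hd h
  · intro n hn
    rw [mem_filter, mem_Ioc] at hn
    obtain ⟨⟨h0, h1⟩, k, hk⟩ := hn
    have hk' : n = k * d := by rw [hk, mul_comm]
    refine ⟨k, ?_, hk'.symm⟩
    rw [mem_Ioc]
    refine ⟨?_, (Nat.le_div_iff_mul_le hd).2 (hk' ▸ h1)⟩
    rcases Nat.eq_zero_or_pos k with h | h
    · rw [hk', h] at h0
      simp at h0
    · exact h
  · intro m _
    rfl

private lemma moeb (n W : ℕ) (hW : 0 < W) :
    (∑ d ∈ W.divisors, if d ∣ n then (ArithmeticFunction.moebius d : ℤ) else 0) =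
      if n.Coprime W then 1 else 0 := by
  rw [← Finset.sum_filter]
  have h1 : W.divisors.filter (fun d => d ∣ n) = (Nat.gcd n W).divisors := by
    ext d
    rw [mem_filter, Nat.mem_divisors, Nat.mem_divisors, Nat.dvd_gcd_iff]
    constructor
    · rintro ⟨⟨h1, h2⟩, h3⟩
      exact ⟨⟨h3, h1⟩, (Nat.gcd_pos_of_pos_right _ hW).ne'⟩
    · rintro ⟨⟨h1, h2⟩, h3⟩
      exact ⟨⟨h2, hW.ne'⟩, h1⟩
  rw [h1]
  have h2 := ArithmeticFunction.coe_zeta_mul_moebius
  have h3 := congrArg (fun f : ArithmeticFunction ℤ => f (Nat.gcd n W)) h2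
  simp only [ArithmeticFunction.coe_zeta_mul_apply] at h3
  rw [h3, ArithmeticFunction.one_apply]

/-- the Moebius expansion of the model sum -/
private lemma sm_eq (w N : ℕ) (θ : ℝ) :
    SM w N θ = (((primorial w : ℝ) / ((primorial w).totient : ℝ) : ℝ) : ℂ) *
      ∑ d ∈ (primorial w).divisors, ((ArithmeticFunction.moebius d : ℤ) : ℂ) *
        ∑ m ∈ Ioc 0 (N / d), ee (m * (d * θ)) := by
  have hW : 0 < primorial w := primorial_pos w
  unfold SM
  have h1 : ∀ n ∈ Ioc 0 N, ((lam w n : ℝ) : ℂ) * ee (n * θ) =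
      (((primorial w : ℝ) / ((primorial w).totient : ℝ) : ℝ) : ℂ) *
      ∑ d ∈ (primorial w).divisors, (if d ∣ n then ((ArithmeticFunction.moebius d : ℤ) : ℂ) * ee (n * θ) else 0) := by
    intro n _
    have h2 : (∑ d ∈ (primorial w).divisors, (if d ∣ n then ((ArithmeticFunction.moebius d : ℤ) : ℂ) * ee (n * θ)
        else 0)) = (if n.Coprime (primorial w) then (1 : ℂ) else 0) * ee (n * θ) := by
      have h3 := congrArg (fun z : ℤ => (z : ℂ)) (moeb n (primorial w) hW)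
      simp only [Int.cast_sum, Int.cast_ite, Int.cast_zero, Int.cast_one] at h3
      rw [← h3, Finset.sum_mul]
      refine Finset.sum_congr rfl fun d _ => ?_
      split_ifs <;> simp
    rw [h2]
    unfold lam
    split_ifs <;> simp
  rw [Finset.sum_congr rfl h1, ← Finset.mul_sum, Finset.sum_comm]
  congr 1
  refine Finset.sum_congr rfl fun d hd => ?_
  have hd0 : 0 < d := Nat.pos_of_mem_divisors hd
  rw [← Finset.sum_filter, sum_mult N d hd0, Finset.mul_sum]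
  refine Finset.sum_congr rfl fun m _ => ?_
  congr 2
  push_cast
  ring

private lemma dn_ge {q d W : ℕ} (hq : 1 ≤ q) (hqd : ¬ q ∣ d) (hdW : d ≤ W) (hW : 0 < W) {a : ℤ}
    (ha : IsCoprime a (q : ℤ)) {β : ℝ} (hβ : |β| ≤ 1 / (2 * q * W)) :
    1 / (2 * (q : ℝ)) ≤ dn (d * ((a : ℝ) / q + β)) := by
  unfold dn
  set k : ℤ := round ((d : ℝ) * ((a : ℝ) / q + β)) with hk
  have hq0 : (0 : ℝ) < q := by exact_mod_cast hq
  have hW0 : (0 : ℝ) < W := by exact_mod_cast hW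
  have h1 : (d : ℤ) * a - k * q ≠ 0 := by
    intro h
    apply hqd
    have h2 : (q : ℤ) ∣ (d : ℤ) * a := ⟨k, by linarith⟩
    have h3 : (q : ℤ) ∣ (d : ℤ) := ha.symm.dvd_of_dvd_mul_right h2
    exact_mod_cast h3
  have h2 : (1 : ℝ) ≤ |(d : ℝ) * a - k * q| := by
    have := Int.one_le_abs h1
    exact_mod_cast this
  have h3 : (1 : ℝ) / q ≤ |((d : ℝ) * a - k * q) / q| := by
    rw [abs_div, abs_of_pos hq0]
    gcongr
  have h4 : (d : ℝ) * ((a : ℝ) / q + β) - k = ((d : ℝ) * a - k * q) / q + d * β := by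
    field_simp
    ring
  have h5 : |(d : ℝ) * β| ≤ 1 / (2 * q) := by
    rw [abs_mul, Nat.abs_cast]
    calc (d : ℝ) * |β| ≤ W * (1 / (2 * q * W)) := by
          gcongr
      _ = 1 / (2 * q) := by
          field_simp
  rw [h4]
  have h6 : |((d : ℝ) * a - k * q) / q| ≤ |((d : ℝ) * a - k * q) / q + d * β| + |(d : ℝ) * β| := by
    have := abs_sub (((d : ℝ) * a - k * q) / q + d * β) (d * β)
    simpa using this
  have h7 : (1 : ℝ) / q = 1 / (2 * q) + 1 / (2 * q) := by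
    field_simp
    norm_num
  linarith

private lemma geo_bd {φ : ℝ} {q : ℕ} (hq : 1 ≤ q) (h : 1 / (2 * (q : ℝ)) ≤ dn φ) (M : ℕ) :
    ‖∑ m ∈ Ioc 0 M, ee (m * φ)‖ ≤ 2 * q := by
  have hq0 : (0 : ℝ) < q := by exact_mod_cast hq
  have h0 : 0 < dn φ := lt_of_lt_of_le (by positivity) h
  have hX : (((M - 0 : ℕ) : ℝ)) ≤ (M : ℝ) + 1 := by
    rw [Nat.sub_zero]
    linarith
  have hX1 : (1 : ℝ) ≤ (M : ℝ) + 1 := by
    have : (0 : ℝ) ≤ M := Nat.cast_nonneg M
    linarith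
  refine (geo (Nat.zero_le M) φ hX hX1).trans ((mn_le_inv (by linarith) h0).trans ?_)
  rw [div_le_iff₀ h0]
  have h2 : 2 * (q : ℝ) * (1 / (2 * q)) = 1 := by field_simp
  calc (1 : ℝ) = 2 * (q : ℝ) * (1 / (2 * q)) := h2.symm
    _ ≤ 2 * q * dn φ := by gcongr

private lemma moeb_norm (d : ℕ) : ‖((ArithmeticFunction.moebius d : ℤ) : ℂ)‖ ≤ 1 := by
  rw [Complex.norm_intCast]
  exact_mod_cast ArithmeticFunction.abs_moebius_le_one

private lemma block (d : ℕ) (β : ℝ) (M : ℕ) :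
    ‖∑ n ∈ Ioc 0 (d * M), ee (n * β) - d * ∑ m ∈ Ioc 0 M, ee (m * (d * β))‖ ≤ 7 * d * |β| * (d * M) := by
  induction M with
  | zero => simp
  | succ M ih =>
    rw [← Finset.sum_Ioc_consecutive (fun n : ℕ => ee (n * β)) (Nat.zero_le (d * M))
      (Nat.mul_le_mul_left d (Nat.le_succ M)), Finset.sum_Ioc_succ_top (Nat.zero_le M)]
    have h1 : ∑ n ∈ Ioc (d * M) (d * (M + 1)), ee (n * β) - d * ee (((M + 1 : ℕ) : ℝ) * (d * β)) =
        ∑ n ∈ Ioc (d * M) (d * (M + 1)), (ee (n * β) - ee (((M + 1 : ℕ) : ℝ) * (d * β))) := by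
      rw [Finset.sum_sub_distrib, Finset.sum_const, Nat.card_Ioc, nsmul_eq_mul]
      congr 3
      rw [Nat.mul_succ]
      omega
    have h2 : ‖∑ n ∈ Ioc (d * M) (d * (M + 1)), (ee (n * β) - ee (((M + 1 : ℕ) : ℝ) * (d * β)))‖ ≤
        7 * d * |β| * d := by
      refine (norm_sum_le _ _).trans ?_
      have h3 : ∀ n ∈ Ioc (d * M) (d * (M + 1)), ‖ee (n * β) - ee (((M + 1 : ℕ) : ℝ) * (d * β))‖ ≤
          7 * d * |β| := by
        intro n hn
        rw [mem_Ioc] at hn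
        refine (norm_ee_sub_le _ _).trans ?_
        have h4 : (n : ℝ) * β - ((M + 1 : ℕ) : ℝ) * (d * β) = ((n : ℝ) - d * (M + 1)) * β := by
          push_cast
          ring
        have h5 : |(n : ℝ) - d * (M + 1)| ≤ d := by
          have h6 : ((d * M : ℕ) : ℝ) < n := by exact_mod_cast hn.1
          have h7 : (n : ℝ) ≤ ((d * (M + 1) : ℕ) : ℝ) := by exact_mod_cast hn.2
          push_cast at h6 h7
          rw [abs_le]
          constructor
          · linarith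
          · have : (0 : ℝ) ≤ d := Nat.cast_nonneg d
            linarith
        rw [h4, abs_mul, mul_assoc]
        gcongr
      refine (Finset.sum_le_sum h3).trans ?_
      rw [Finset.sum_const, Nat.card_Ioc, nsmul_eq_mul]
      have h8 : ((d * (M + 1) - d * M : ℕ) : ℝ) = d := by
        congr 1
        rw [Nat.mul_succ]
        omega
      rw [h8]
      exact le_of_eq (by ring)
    calc ‖∑ n ∈ Ioc 0 (d * M), ee (n * β) + ∑ n ∈ Ioc (d * M) (d * (M + 1)), ee (n * β) -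
          d * (∑ m ∈ Ioc 0 M, ee (m * (d * β)) + ee (((M + 1 : ℕ) : ℝ) * (d * β)))‖
        = ‖(∑ n ∈ Ioc 0 (d * M), ee (n * β) - d * ∑ m ∈ Ioc 0 M, ee (m * (d * β))) +
          (∑ n ∈ Ioc (d * M) (d * (M + 1)), ee (n * β) - d * ee (((M + 1 : ℕ) : ℝ) * (d * β)))‖ := by
          congr 1
          ring
      _ ≤ 7 * d * |β| * (d * M) + 7 * d * |β| * d := by
          refine (norm_add_le _ _).trans (add_le_add ih ?_)
          rw [h1]
          exact h2
      _ = 7 * d * |β| * (d * ((M + 1 : ℕ) : ℝ)) := by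
          push_cast
          ring

private lemma block2 {d : ℕ} (hd : 0 < d) (β : ℝ) (N : ℕ) :
    ‖∑ m ∈ Ioc 0 (N / d), ee (m * (d * β)) - (1 / (d : ℂ)) * TT N β‖ ≤ 1 + 7 * |β| * N := by
  have hd0 : (0 : ℝ) < d := by exact_mod_cast hd
  have hdc : (d : ℂ) ≠ 0 := by exact_mod_cast hd.ne'
  have hle : d * (N / d) ≤ N := Nat.mul_div_le N d
  have hT : TT N β = ∑ n ∈ Ioc 0 (d * (N / d)), ee (n * β) + ∑ n ∈ Ioc (d * (N / d)) N, ee (n * β) := by
    unfold TT
    rw [← Finset.sum_Ioc_consecutive (fun n : ℕ => ee (n * β)) (Nat.zero_le _) hle]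
  have h1 : ‖∑ n ∈ Ioc (d * (N / d)) N, ee (n * β)‖ ≤ d := by
    refine (norm_sum_le _ _).trans ?_
    simp only [norm_ee]
    rw [Finset.sum_const, Nat.card_Ioc, nsmul_eq_mul, mul_one]
    have h2 : N - d * (N / d) ≤ d := by
      have h3 := Nat.div_add_mod N d
      have h4 := Nat.mod_lt N hd
      omega
    exact_mod_cast h2
  have h2 := block d β (N / d)
  have h3 : ‖TT N β - d * ∑ m ∈ Ioc 0 (N / d), ee (m * (d * β))‖ ≤ 7 * d * |β| * N + d := by
    rw [hT]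
    calc ‖∑ n ∈ Ioc 0 (d * (N / d)), ee (n * β) + ∑ n ∈ Ioc (d * (N / d)) N, ee (n * β) -
          d * ∑ m ∈ Ioc 0 (N / d), ee (m * (d * β))‖
        = ‖(∑ n ∈ Ioc 0 (d * (N / d)), ee (n * β) - d * ∑ m ∈ Ioc 0 (N / d), ee (m * (d * β))) +
          ∑ n ∈ Ioc (d * (N / d)) N, ee (n * β)‖ := by
          congr 1
          ring
      _ ≤ 7 * d * |β| * (d * ((N / d : ℕ) : ℝ)) + d := (norm_add_le _ _).trans (add_le_add h2 h1)
      _ ≤ 7 * d * |β| * N + d := by
          have h5 : (d : ℝ) * ((N / d : ℕ) : ℝ) ≤ N := by exact_mod_cast hle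
          gcongr
  have h4 : ∑ m ∈ Ioc 0 (N / d), ee (m * (d * β)) - (1 / (d : ℂ)) * TT N β =
      -(1 / (d : ℂ)) * (TT N β - d * ∑ m ∈ Ioc 0 (N / d), ee (m * (d * β))) := by
    have h5 : (1 / (d : ℂ)) * d = 1 := by field_simp
    linear_combination (-∑ m ∈ Ioc 0 (N / d), ee (m * (d * β))) * h5
  rw [h4, norm_mul, norm_neg, norm_div, norm_one, Complex.norm_natCast]
  calc 1 / (d : ℝ) * ‖TT N β - d * ∑ m ∈ Ioc 0 (N / d), ee (m * (d * β))‖
      ≤ 1 / (d : ℝ) * (7 * d * |β| * N + d) := by gcongr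
    _ = 1 + 7 * |β| * N := by
        field_simp
        ring

private lemma phi_sum (n : ℕ) (hn : 0 < n) :
    ∑ d ∈ n.divisors, ((ArithmeticFunction.moebius d : ℤ) : ℂ) / d = (n.totient : ℂ) / n := by
  have h1 := (ArithmeticFunction.sum_eq_iff_sum_mul_moebius_eq (R := ℂ) (f := fun n => (n.totient : ℂ))
    (g := fun n => (n : ℂ))).1 (by
      intro n hn
      have := Nat.sum_totient n
      exact_mod_cast this) n hn
  have hnc : (n : ℂ) ≠ 0 := by exact_mod_cast hn.ne'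
  rw [eq_div_iff hnc, ← h1, Finset.sum_mul, Nat.sum_divisorsAntidiagonal
    (f := fun i j => ((ArithmeticFunction.moebius i : ℤ) : ℂ) * (j : ℂ))]
  refine Finset.sum_congr rfl fun d hd => ?_
  have hd0 : (d : ℂ) ≠ 0 := by exact_mod_cast (Nat.pos_of_mem_divisors hd).ne'
  rw [Nat.cast_div (Nat.dvd_of_mem_divisors hd) hd0]
  field_simp

private lemma coef (W q : ℕ) (hW : 0 < W) (hsq : Squarefree W) (hq : q ∣ W) :
    (((W : ℝ) / (W.totient : ℝ) : ℝ) : ℂ) *
      ∑ d ∈ W.divisors.filter (fun d => q ∣ d), ((ArithmeticFunction.moebius d : ℤ) : ℂ) * (1 / (d : ℂ)) =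
      cq q := by
  obtain ⟨k, hk⟩ := hq
  have hq0 : 0 < q := Nat.pos_of_ne_zero (by rintro rfl; simp at hk; omega)
  have hk0 : 0 < k := Nat.pos_of_ne_zero (by rintro rfl; simp at hk; omega)
  have hcop : Nat.Coprime q k := by
    rw [hk] at hsq
    exact Nat.coprime_of_squarefree_mul hsq
  have h1 : ∑ d ∈ W.divisors.filter (fun d => q ∣ d), ((ArithmeticFunction.moebius d : ℤ) : ℂ) * (1 / (d : ℂ)) =
      ∑ d ∈ k.divisors, ((ArithmeticFunction.moebius (q * d) : ℤ) : ℂ) * (1 / ((q * d : ℕ) : ℂ)) := by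
    symm
    refine Finset.sum_bij (fun d _ => q * d) ?_ ?_ ?_ ?_
    · intro d hd
      rw [Nat.mem_divisors] at hd
      rw [mem_filter, Nat.mem_divisors, hk]
      exact ⟨⟨Nat.mul_dvd_mul_left q hd.1, by positivity⟩, dvd_mul_right _ _⟩
    · intro d _ d' _ h
      exact Nat.eq_of_mul_eq_mul_left hq0 h
    · intro n hn
      rw [mem_filter, Nat.mem_divisors, hk] at hn
      obtain ⟨⟨h2, h3⟩, e, he⟩ := hn
      refine ⟨e, ?_, he.symm⟩
      rw [Nat.mem_divisors]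
      rw [he] at h2
      exact ⟨Nat.dvd_of_mul_dvd_mul_left hq0 h2, hk0.ne'⟩
    · intro d _
      rfl
  have h2 : ∀ d ∈ k.divisors, ((ArithmeticFunction.moebius (q * d) : ℤ) : ℂ) * (1 / ((q * d : ℕ) : ℂ)) =
      ((ArithmeticFunction.moebius q : ℤ) : ℂ) / q * (((ArithmeticFunction.moebius d : ℤ) : ℂ) / d) := by
    intro d hd
    have hc : Nat.Coprime q d := Nat.Coprime.coprime_dvd_right (Nat.dvd_of_mem_divisors hd) hcop
    rw [ArithmeticFunction.isMultiplicative_moebius.map_mul_of_coprime hc]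
    have hd0 : (d : ℂ) ≠ 0 := by exact_mod_cast (Nat.pos_of_mem_divisors hd).ne'
    have hqc : (q : ℂ) ≠ 0 := by exact_mod_cast hq0.ne'
    push_cast
    field_simp
  rw [h1, Finset.sum_congr rfl h2, ← Finset.mul_sum, phi_sum k hk0]
  unfold cq
  have hqc : (q : ℂ) ≠ 0 := by exact_mod_cast hq0.ne'
  have hkc : (k : ℂ) ≠ 0 := by exact_mod_cast hk0.ne'
  have hφq : (q.totient : ℂ) ≠ 0 := by exact_mod_cast (Nat.totient_pos.2 hq0).ne'
  have hφk : (k.totient : ℂ) ≠ 0 := by exact_mod_cast (Nat.totient_pos.2 hk0).ne'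
  rw [hk, Nat.totient_mul hcop]
  push_cast
  field_simp

theorem model_major (w : ℕ) : ∃ C : ℝ, 0 < C ∧ ∀ q : ℕ, q ∣ primorial w → ∀ a : ℤ, IsCoprime a (q : ℤ) →
    ∀ (N : ℕ) (β : ℝ), |β| ≤ 1 / (2 * q * primorial w) →
    ‖SM w N ((a : ℝ) / q + β) - cq q * TT N β‖ ≤ C * (1 + |β| * N) := by
  have hW : 0 < primorial w := primorial_pos w
  have hsq : Squarefree (primorial w) := squarefree_primorial w
  set W := primorial w with hWdef
  have hWr : (0 : ℝ) < W := by exact_mod_cast hW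
  have hφ : (0 : ℝ) < (W.totient : ℝ) := by exact_mod_cast Nat.totient_pos.2 hW
  have hcard : (0 : ℝ) < (W.divisors.card : ℝ) := by
    have : 0 < W.divisors.card := Finset.card_pos.2 ⟨1, Nat.one_mem_divisors.2 hW.ne'⟩
    exact_mod_cast this
  refine ⟨(W : ℝ) / W.totient * (W.divisors.card * (2 * W + 7)), by positivity, ?_⟩
  intro q hq a ha N β hβ
  have hq1 : 1 ≤ q := Nat.pos_of_dvd_of_pos hq hW
  have hq0 : (0 : ℝ) < q := by exact_mod_cast hq1
  have hqW : (q : ℝ) ≤ W := by exact_mod_cast Nat.le_of_dvd hW hq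
  have hN : (0 : ℝ) ≤ N := Nat.cast_nonneg N
  rw [sm_eq, ← hWdef, ← coef W q hW hsq hq, mul_assoc, ← mul_sub, norm_mul]
  have hR : ‖(((W : ℝ) / (W.totient : ℝ) : ℝ) : ℂ)‖ = (W : ℝ) / W.totient := by
    rw [Complex.norm_real, Real.norm_of_nonneg (by positivity)]
  rw [hR, mul_assoc]
  refine mul_le_mul_of_nonneg_left ?_ (by positivity)
  rw [Finset.sum_filter, Finset.sum_mul, ← Finset.sum_sub_distrib]
  refine (norm_sum_le _ _).trans ?_
  rw [mul_assoc, ← nsmul_eq_mul]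
  refine Finset.sum_le_card_nsmul _ _ _ ?_
  intro d hd
  have hd0 : 0 < d := Nat.pos_of_mem_divisors hd
  have hdc : (d : ℂ) ≠ 0 := by exact_mod_cast hd0.ne'
  have hdr : (d : ℝ) ≠ 0 := by exact_mod_cast hd0.ne'
  have hdW : d ≤ W := Nat.divisor_le hd
  by_cases hqd : q ∣ d
  · rw [if_pos hqd]
    obtain ⟨e, he⟩ := hqd
    have h1 : ∀ m : ℕ, ee (m * (d * ((a : ℝ) / q + β))) = ee (m * (d * β)) := by
      intro m
      have h2 : (m : ℝ) * (d * ((a : ℝ) / q + β)) = m * (d * β) + ((m * e * a : ℤ) : ℝ) := by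
        rw [he]
        push_cast
        field_simp
        ring
      rw [h2, ee_add_int]
    simp only [h1]
    have h3 : ((ArithmeticFunction.moebius d : ℤ) : ℂ) * ∑ m ∈ Ioc 0 (N / d), ee (m * (d * β)) -
        ((ArithmeticFunction.moebius d : ℤ) : ℂ) * (1 / (d : ℂ)) * TT N β =
        ((ArithmeticFunction.moebius d : ℤ) : ℂ) * (∑ m ∈ Ioc 0 (N / d), ee (m * (d * β)) - (1 / (d : ℂ)) * TT N β) := by
      ring
    rw [h3, norm_mul]
    calc ‖((ArithmeticFunction.moebius d : ℤ) : ℂ)‖ *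
          ‖∑ m ∈ Ioc 0 (N / d), ee (m * (d * β)) - (1 / (d : ℂ)) * TT N β‖
        ≤ 1 * (1 + 7 * |β| * N) :=
          mul_le_mul (moeb_norm d) (block2 hd0 β N) (norm_nonneg _) zero_le_one
      _ ≤ (2 * W + 7) * (1 + |β| * N) := by
          have h4 : 0 ≤ |β| * N := by positivity
          nlinarith
  · rw [if_neg hqd, zero_mul, sub_zero, norm_mul]
    have h1 := geo_bd hq1 (dn_ge hq1 hqd hdW hW ha hβ) (N / d)
    calc ‖((ArithmeticFunction.moebius d : ℤ) : ℂ)‖ *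
          ‖∑ m ∈ Ioc 0 (N / d), ee (m * (d * ((a : ℝ) / q + β)))‖
        ≤ 1 * (2 * q) := mul_le_mul (moeb_norm d) h1 (norm_nonneg _) zero_le_one
      _ ≤ (2 * W + 7) * (1 + |β| * N) := by
          have h4 : 0 ≤ |β| * N := by positivity
          nlinarith

theorem model_minor (w : ℕ) : ∃ C : ℝ, 0 < C ∧ ∀ q : ℕ, 1 ≤ q → ¬ q ∣ primorial w → ∀ a : ℤ,
    IsCoprime a (q : ℤ) → ∀ (N : ℕ) (β : ℝ), |β| ≤ 1 / (2 * q * primorial w) →
    ‖SM w N ((a : ℝ) / q + β)‖ ≤ C * q := by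
  have hW : 0 < primorial w := primorial_pos w
  set W := primorial w with hWdef
  have hWr : (0 : ℝ) < W := by exact_mod_cast hW
  have hφ : (0 : ℝ) < (W.totient : ℝ) := by exact_mod_cast Nat.totient_pos.2 hW
  have hcard : (0 : ℝ) < (W.divisors.card : ℝ) := by
    have : 0 < W.divisors.card := Finset.card_pos.2 ⟨1, Nat.one_mem_divisors.2 hW.ne'⟩
    exact_mod_cast this
  refine ⟨(W : ℝ) / W.totient * (W.divisors.card * 2), by positivity, ?_⟩
  intro q hq1 hq a ha N β hβ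
  rw [sm_eq, ← hWdef, norm_mul]
  have hR : ‖(((W : ℝ) / (W.totient : ℝ) : ℝ) : ℂ)‖ = (W : ℝ) / W.totient := by
    rw [Complex.norm_real, Real.norm_of_nonneg (by positivity)]
  rw [hR, mul_assoc]
  refine mul_le_mul_of_nonneg_left ?_ (by positivity)
  refine (norm_sum_le _ _).trans ?_
  rw [mul_assoc, ← nsmul_eq_mul]
  refine Finset.sum_le_card_nsmul _ _ _ ?_
  intro d hd
  have hqd : ¬ q ∣ d := fun h => hq (h.trans (Nat.dvd_of_mem_divisors hd))
  have hdW : d ≤ W := Nat.divisor_le hd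
  rw [norm_mul]
  have h1 := geo_bd hq1 (dn_ge hq1 hqd hdW hW ha hβ) (N / d)
  calc ‖((ArithmeticFunction.moebius d : ℤ) : ℂ)‖ *
        ‖∑ m ∈ Ioc 0 (N / d), ee (m * (d * ((a : ℝ) / q + β)))‖
      ≤ 1 * (2 * q) := mul_le_mul (moeb_norm d) h1 (norm_nonneg _) zero_le_one
    _ = 2 * q := one_mul _

end Pool.Agent.SW
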