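import Pool.Agent.SW.ZFar
import Pool.Agent.REC.Triv

/-! SW/ZSer.  The Dirichlet series of `(Λ(n) - 1) (log n)^k`.

As in `Pool/Agent/REC/Ser.lean` (`co_series`, `co_norm`): `LSeries (Λ - 1) s = -ζ'(s)/ζ(s) - ζ(s)` for `Re s > 1`
(`ArithmeticFunction.LSeries_vonMangoldt_eq_deriv_riemannZeta_div`, `LSeries_one_eq_riemannZeta`, `LSeries_sub`), then
`LSeries_iteratedDeriv`.  `|Λ n - 1| ≤ 2 log n` for `n ≥ 2`. -/

set_option autoImplicit false

namespace Pool.Agent.SW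

open Complex ArithmeticFunction

/-- the coefficient `(Λ(n) - 1) (log n)^k n^(-(1+x))` -/
noncomputable def cz (k : ℕ) (x : ℝ) (n : ℕ) : ℂ :=
  (((vonMangoldt n - 1) * Real.log n ^ k * (n : ℝ) ^ (-(1 + x)) : ℝ) : ℂ)

private lemma zser_log_pow_le (k : ℕ) {x : ℝ} (hx : 0 < x) {n : ℕ} (hn : 0 < n) :
    Real.log n ^ k ≤ k.factorial * (2 / x) ^ k * (n : ℝ) ^ (x / 2) := by
  have hn' : (0 : ℝ) < n := by exact_mod_cast hn
  have h1 := Real.pow_div_factorial_le_exp (x := x / 2 * Real.log n) (by positivity) k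
  have h2 : Real.exp (x / 2 * Real.log n) = (n : ℝ) ^ (x / 2) := by
    rw [Real.rpow_def_of_pos hn', mul_comm]
  rw [h2, div_le_iff₀ (by positivity)] at h1
  have h3 : Real.log n ^ k = (2 / x) ^ k * (x / 2 * Real.log n) ^ k := by
    rw [← mul_pow]
    congr 1
    field_simp
  rw [h3]
  calc (2 / x) ^ k * (x / 2 * Real.log n) ^ k
      ≤ (2 / x) ^ k * ((n : ℝ) ^ (x / 2) * k.factorial) :=
        mul_le_mul_of_nonneg_left h1 (by positivity)
    _ = _ := by ring

private lemma cz_zero (k : ℕ) {x : ℝ} (hx : 0 < x) : cz k x 0 = 0 := by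
  unfold cz
  rw [Nat.cast_zero, Real.zero_rpow (by linarith), mul_zero, Complex.ofReal_zero]

private lemma cz_norm_le (k : ℕ) {x : ℝ} (hx : 0 < x) (hx1 : x ≤ 1)
    (n : ℕ) : ‖cz k x n‖ ≤
      2 * (k + 1).factorial * (2 / x) ^ (k + 1) * ((n : ℝ) ^ (1 + x / 2))⁻¹ := by
  rcases Nat.eq_zero_or_pos n with hn | hn
  · subst hn
    rw [cz_zero k hx, norm_zero]
    positivity
  · have hn' : (0 : ℝ) < n := by exact_mod_cast hn
    have hl : 0 ≤ Real.log n := Real.log_natCast_nonneg n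
    have hL : (0 : ℝ) ≤ vonMangoldt n := vonMangoldt_nonneg
    have hL2 : vonMangoldt n ≤ Real.log n := vonMangoldt_le_log
    have hp : (0 : ℝ) ≤ (n : ℝ) ^ (-(1 + x)) := by positivity
    have h1 : ‖cz k x n‖ ≤ (Real.log n ^ k + Real.log n ^ (k + 1)) * (n : ℝ) ^ (-(1 + x)) := by
      unfold cz
      rw [Complex.norm_real, Real.norm_eq_abs, abs_mul, abs_of_nonneg hp, abs_mul,
        abs_of_nonneg (pow_nonneg hl k)]
      refine mul_le_mul_of_nonneg_right ?_ hp
      have h5 : |vonMangoldt n - 1| ≤ 1 + Real.log n := by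
        rw [abs_le]
        constructor <;> linarith
      calc |vonMangoldt n - 1| * Real.log n ^ k ≤ (1 + Real.log n) * Real.log n ^ k :=
            mul_le_mul_of_nonneg_right h5 (pow_nonneg hl k)
        _ = _ := by ring
    have h3 := zser_log_pow_le (k + 1) hx hn
    have h3' := zser_log_pow_le k hx hn
    have h6 : (k.factorial : ℝ) * (2 / x) ^ k ≤ (k + 1).factorial * (2 / x) ^ (k + 1) := by
      have h7 : (k.factorial : ℝ) ≤ (k + 1).factorial := by
        exact_mod_cast Nat.factorial_le (Nat.le_succ k)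
      have h8 : (1 : ℝ) ≤ 2 / x := by
        rw [le_div_iff₀ hx]
        linarith
      have h9 : (2 / x : ℝ) ^ k ≤ (2 / x) ^ (k + 1) := pow_le_pow_right₀ h8 (Nat.le_succ k)
      exact mul_le_mul h7 h9 (by positivity) (by positivity)
    have h10 : Real.log n ^ k ≤ (k + 1).factorial * (2 / x) ^ (k + 1) * (n : ℝ) ^ (x / 2) :=
      h3'.trans (mul_le_mul_of_nonneg_right h6 (by positivity))
    have h4 : (n : ℝ) ^ (x / 2) * (n : ℝ) ^ (-(1 + x)) = ((n : ℝ) ^ (1 + x / 2))⁻¹ := by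
      rw [← Real.rpow_add hn', ← Real.rpow_neg hn'.le]
      congr 1
      ring
    calc ‖cz k x n‖ ≤ (Real.log n ^ k + Real.log n ^ (k + 1)) * (n : ℝ) ^ (-(1 + x)) := h1
      _ ≤ ((k + 1).factorial * (2 / x) ^ (k + 1) * (n : ℝ) ^ (x / 2) +
            (k + 1).factorial * (2 / x) ^ (k + 1) * (n : ℝ) ^ (x / 2)) *
            (n : ℝ) ^ (-(1 + x)) := mul_le_mul_of_nonneg_right (add_le_add h10 h3) hp
      _ = 2 * (k + 1).factorial * (2 / x) ^ (k + 1) *
            ((n : ℝ) ^ (x / 2) * (n : ℝ) ^ (-(1 + x))) := by ring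
      _ = _ := by rw [h4]

theorem cz_norm (k : ℕ) {x : ℝ} (hx : 0 < x) (hx1 : x ≤ 1) :
    Summable (fun n : ℕ => ‖cz k x n‖) ∧
      ∑' n : ℕ, ‖cz k x n‖ ≤ 4 * (k + 1).factorial * (4 / x) ^ (k + 2) := by
  obtain ⟨hs, hle⟩ := REC.zeta_sum_le (x := x / 2) (by linarith) (by linarith)
  have hs2 : Summable (fun n : ℕ =>
      (2 * (k + 1).factorial * (2 / x) ^ (k + 1) * ((n : ℝ) ^ (1 + x / 2))⁻¹ : ℝ)) :=
    hs.mul_left _
  have hs1 : Summable (fun n : ℕ => ‖cz k x n‖) :=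
    Summable.of_nonneg_of_le (fun n => norm_nonneg _) (fun n => cz_norm_le k hx hx1 n) hs2
  refine ⟨hs1, ?_⟩
  have h1 := hs1.tsum_le_tsum (fun n => cz_norm_le k hx hx1 n) hs2
  rw [tsum_mul_left] at h1
  refine le_trans h1 ?_
  have h2 : (2 * (k + 1).factorial * (2 / x) ^ (k + 1) : ℝ) *
      ∑' n : ℕ, ((n : ℝ) ^ (1 + x / 2))⁻¹ ≤
      (2 * (k + 1).factorial * (2 / x) ^ (k + 1)) * (2 / (x / 2)) :=
    mul_le_mul_of_nonneg_left hle (by positivity)
  refine le_trans h2 ?_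
  have h3 : (2 / (x / 2) : ℝ) = 4 / x := by field_simp; norm_num
  have h4 : (2 / x : ℝ) ^ (k + 1) ≤ (4 / x) ^ (k + 1) := by
    apply pow_le_pow_left₀ (by positivity)
    apply div_le_div_of_nonneg_right (by norm_num) hx.le
  rw [h3, pow_succ (4 / x) (k + 1)]
  calc 2 * ((k + 1).factorial : ℝ) * (2 / x) ^ (k + 1) * (4 / x)
      ≤ 2 * ((k + 1).factorial : ℝ) * (4 / x) ^ (k + 1) * (4 / x) := by gcongr
    _ = 2 * (((k + 1).factorial : ℝ) * (4 / x) ^ (k + 1) * (4 / x)) := by ring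
    _ ≤ 4 * (((k + 1).factorial : ℝ) * (4 / x) ^ (k + 1) * (4 / x)) := by
        apply mul_le_mul_of_nonneg_right (by norm_num)
        positivity
    _ = _ := by ring

private lemma zser_logMul_iter (f : ℕ → ℂ) (k n : ℕ) :
    (LSeries.logMul^[k] f) n = Complex.log n ^ k * f n := by
  induction k with
  | zero => simp
  | succ k ih =>
    rw [Function.iterate_succ_apply', LSeries.logMul, ih, pow_succ]
    ring

private lemma zser_summable {s : ℂ} (hs : 1 < s.re) :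
    LSeriesSummable ((fun n : ℕ => (vonMangoldt n : ℂ)) - 1) s :=
  (LSeriesSummable_vonMangoldt hs).sub (LSeriesSummable_one_iff.2 hs)

theorem cz_series (k : ℕ) {x : ℝ} (hx : 0 < x) (t : ℝ) :
    ∑' n : ℕ, cz k x n * (n : ℂ) ^ (-(I * t)) = (-1) ^ k * iteratedDeriv k GZ (1 + x + I * t) := by
  obtain ⟨s, hs⟩ : ∃ s : ℂ, s = 1 + x + I * t := ⟨_, rfl⟩
  have hre : s.re = 1 + x := by rw [hs]; simp
  have hre1 : 1 < s.re := by rw [hre]; linarith
  obtain ⟨f, hf⟩ : ∃ f : ℕ → ℂ, f = (fun n : ℕ => (vonMangoldt n : ℂ)) - 1 := ⟨_, rfl⟩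
  have hev : GZ =ᶠ[nhds s] LSeries f := by
    have h : {z | 1 < z.re} ∈ nhds s :=
      (isOpen_lt continuous_const continuous_re).mem_nhds hre1
    filter_upwards [h] with z hz
    rw [hf, LSeries_sub (LSeriesSummable_vonMangoldt hz) (LSeriesSummable_one_iff.2 hz),
      LSeries_vonMangoldt_eq_deriv_riemannZeta_div hz, LSeries_one_eq_riemannZeta hz]
    rfl
  have habs : LSeries.abscissaOfAbsConv f < s.re := by
    have h1 : LSeriesSummable f (1 + (x / 2 : ℝ)) := by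
      rw [hf]
      apply zser_summable
      simp
      exact hx
    have h2 := h1.abscissaOfAbsConv_le
    refine lt_of_le_of_lt h2 ?_
    rw [hre]
    simp only [add_re, one_re, ofReal_re]
    exact_mod_cast (by linarith : 1 + x / 2 < 1 + x)
  rw [← hs, (hev.iteratedDeriv k).eq_of_nhds, LSeries_iteratedDeriv k habs, ← mul_assoc,
    ← mul_pow]
  norm_num
  unfold LSeries
  congr 1
  ext n
  rcases Nat.eq_zero_or_pos n with hn | hn
  · subst hn
    rw [cz_zero k hx]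
    simp
  · have hn0 : (n : ℂ) ≠ 0 := by exact_mod_cast hn.ne'
    rw [LSeries.term_of_ne_zero hn.ne', zser_logMul_iter, hf]
    simp only [cz, Pi.sub_apply, Pi.one_apply]
    have h1 : (n : ℂ) ^ s = (n : ℂ) ^ ((1 + x : ℝ) : ℂ) * (n : ℂ) ^ (I * t) := by
      rw [← Complex.cpow_add _ _ hn0, hs]
      push_cast
      rfl
    rw [h1, Complex.cpow_neg]
    push_cast
    rw [← Complex.ofReal_natCast, Complex.ofReal_cpow (Nat.cast_nonneg n)]
    push_cast
    rw [show (-(1 + (x : ℂ))) = -(1 + (x : ℂ)) from rfl, Complex.cpow_neg]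
    have h2 : (n : ℂ) ^ (1 + (x : ℂ)) ≠ 0 := by
      intro h
      rw [Complex.cpow_eq_zero_iff] at h
      exact hn0 h.1
    have h3 : (n : ℂ) ^ (I * t) ≠ 0 := by
      intro h
      rw [Complex.cpow_eq_zero_iff] at h
      exact hn0 h.1
    field_simp

end Pool.Agent.SW
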