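import Pool.Agent.SW.ZNear
import Pool.Agent.SW.ZSer
import Pool.Agent.REC.Riesz
import Pool.Agent.REC.Diff

/-! SW/Pnt.  The prime number theorem with an error `N/(log N)^A` for every `A`.

PROOF (adapt `Pool/Agent/REC/QMain.lean`).  `X = log N`, `x = 1/X`, `k = 2A + 10`, `T = X^(k+3)`, `V = log (2T + 5)`, `c = cz k x`.
`|t| ≤ T`: `‖∑' c n n^(-it)‖ ≤ k! max (M^(k+1), (32V)^(65(k+1))) =: E1` (`zeta_near`, `zeta_far`, `cz_series`), all `t`:
`≤ 4 (k+1)! (4X)^(k+2) =: E2` (`cz_norm`).  `REC.riesz_bound`: Riesz means `≤ E = E1 + E2/T = (log X)^O(1)`.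
`REC.diff_bound` with `b n = n c n = (Λ n - 1)(log n)^k n^(-x)`, `β = (X+3)^(k+1)`, `η = X^(-(A+3))`:
`‖∑_{n ≤ m} b n‖ ≤ 4 N E/η + β (2 η N + 1) ≤ N X^(A+4) + 2·2^k N X^(k-A-2) + …`, `m ≤ N` (apply it with a slightly larger `N`).
Remove the weights `(log n)^k n^(-x)` on `√N < n ≤ t` by `REC.abel_anti`, `REC.weight_anti`: divide by `(X/2)^k`, loss `3`; the part
`n ≤ √N` is trivially `≤ √N (log N + 1)`. -/

set_option autoImplicit false

namespace Pool.Agent.SW

open Finset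

private theorem pn_par (A k : ℕ) (M : ℝ) :
    ∀ᶠ X : ℝ in Filter.atTop, 10 ≤ X ∧
      (k.factorial * M ^ (k + 1) + k.factorial *
        (32 * Real.log (2 * X ^ (k + 3) + 5)) ^ (65 * (k + 1)) +
        4 * (k + 1).factorial * (4 * X) ^ (k + 2) / X ^ (k + 3) ≤ X) ∧
      (2 * X) ^ (k + 1) ≤ Real.exp X ∧ 12 * 2 ^ k * (5 + 2 ^ (k + 2)) ≤ X ^ 2 ∧
      4 * (X + 1) * X ^ A ≤ Real.exp (X / 2) := by
  have hc0 : (0 : ℝ) < 3 * (k.factorial * (32 * (k + 4)) ^ (65 * (k + 1)) + 1) := by positivity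
  have h1 := (Real.isLittleO_pow_log_id_atTop (n := 65 * (k + 1))).def (inv_pos.2 hc0)
  have h2 : ∀ᶠ X : ℝ in Filter.atTop, X ^ (k + 1) * Real.exp (-X) < 1 / 2 ^ (k + 1) :=
    (Real.tendsto_pow_mul_exp_neg_atTop_nhds_zero (k + 1)).eventually (gt_mem_nhds (by positivity))
  have h3 : ∀ᶠ X : ℝ in Filter.atTop,
      (X / 2) ^ (A + 1) * Real.exp (-(X / 2)) < 1 / (8 * 2 ^ (A + 1)) :=
    (Filter.tendsto_id.atTop_div_const (by norm_num : (0 : ℝ) < 2)).eventually
      ((Real.tendsto_pow_mul_exp_neg_atTop_nhds_zero (A + 1)).eventually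
        (gt_mem_nhds (by positivity)))
  filter_upwards [h1, h2, h3, Filter.eventually_ge_atTop (10 : ℝ),
    Filter.eventually_ge_atTop (3 * (k.factorial * M ^ (k + 1))),
    Filter.eventually_ge_atTop (3 * (4 * (k + 1).factorial * 4 ^ (k + 2) : ℝ)),
    Filter.eventually_ge_atTop (12 * 2 ^ k * (5 + 2 ^ (k + 2)) : ℝ)] with X a1 a2 a3 a4 a5 a6 a7
  have hX0 : 0 < X := by linarith
  have hX1 : 1 ≤ X := by linarith
  have hlog : 0 ≤ Real.log X := Real.log_nonneg hX1
  refine ⟨a4, ?_, ?_, ?_, ?_⟩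
  · have b1 : Real.log (2 * X ^ (k + 3) + 5) ≤ (k + 4) * Real.log X := by
      have c1 : 2 * X ^ (k + 3) + 5 ≤ X ^ (k + 4) := by
        have c2 : 1 ≤ X ^ (k + 3) := one_le_pow₀ hX1
        have c3 : X ^ (k + 4) = X * X ^ (k + 3) := by ring
        rw [c3]
        nlinarith
      have c4 := Real.log_le_log (by positivity) c1
      rw [Real.log_pow] at c4
      push_cast at c4
      exact c4
    have b0 : 0 ≤ Real.log (2 * X ^ (k + 3) + 5) := by
      apply Real.log_nonneg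
      have : 0 ≤ X ^ (k + 3) := by positivity
      linarith
    have b2 : (32 * Real.log (2 * X ^ (k + 3) + 5)) ^ (65 * (k + 1)) ≤
        (32 * (k + 4)) ^ (65 * (k + 1)) * Real.log X ^ (65 * (k + 1)) := by
      rw [← mul_pow]
      apply pow_le_pow_left₀ (by positivity)
      linarith
    have b3 : Real.log X ^ (65 * (k + 1)) ≤
        (3 * (k.factorial * (32 * (k + 4)) ^ (65 * (k + 1)) + 1) : ℝ)⁻¹ * X := by
      have e1 : ‖(id X : ℝ)‖ = X := Real.norm_of_nonneg hX0.le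
      rw [e1] at a1
      exact (Real.le_norm_self _).trans a1
    have b4 : (k.factorial : ℝ) * (32 * Real.log (2 * X ^ (k + 3) + 5)) ^ (65 * (k + 1)) ≤
        X / 3 := by
      calc (k.factorial : ℝ) * (32 * Real.log (2 * X ^ (k + 3) + 5)) ^ (65 * (k + 1))
          ≤ k.factorial * ((32 * (k + 4)) ^ (65 * (k + 1)) *
            ((3 * (k.factorial * (32 * (k + 4)) ^ (65 * (k + 1)) + 1) : ℝ)⁻¹ * X)) := by
            apply mul_le_mul_of_nonneg_left _ (by positivity)
            exact b2.trans (mul_le_mul_of_nonneg_left b3 (by positivity))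
        _ = (k.factorial * (32 * (k + 4)) ^ (65 * (k + 1))) /
            (k.factorial * (32 * (k + 4)) ^ (65 * (k + 1)) + 1) * (X / 3) := by
            field_simp
        _ ≤ 1 * (X / 3) := by
            apply mul_le_mul_of_nonneg_right _ (by positivity)
            rw [div_le_one (by positivity)]
            linarith
        _ = X / 3 := one_mul _
    have b5 : 4 * (k + 1).factorial * (4 * X) ^ (k + 2) / X ^ (k + 3) ≤ X / 3 := by
      have c1 : 4 * (k + 1).factorial * (4 * X) ^ (k + 2) / X ^ (k + 3) =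
          4 * (k + 1).factorial * 4 ^ (k + 2) / X := by
        rw [mul_pow]
        field_simp
        ring
      rw [c1, div_le_iff₀ hX0]
      nlinarith
    have b6 : k.factorial * M ^ (k + 1) ≤ X / 3 := by linarith
    linarith
  · have b1 : X ^ (k + 1) * Real.exp (-X) * (2 ^ (k + 1) * Real.exp X) ≤
        1 / 2 ^ (k + 1) * (2 ^ (k + 1) * Real.exp X) :=
      mul_le_mul_of_nonneg_right a2.le (by positivity)
    have b2 : X ^ (k + 1) * Real.exp (-X) * (2 ^ (k + 1) * Real.exp X) = (2 * X) ^ (k + 1) := by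
      rw [mul_pow, Real.exp_neg]
      field_simp
    have b3 : 1 / 2 ^ (k + 1) * (2 ^ (k + 1) * Real.exp X) = Real.exp X := by
      field_simp
    rw [b2, b3] at b1
    exact b1
  · nlinarith
  · have b1 : (X / 2) ^ (A + 1) * Real.exp (-(X / 2)) * (8 * 2 ^ (A + 1) * Real.exp (X / 2)) ≤
        1 / (8 * 2 ^ (A + 1)) * (8 * 2 ^ (A + 1) * Real.exp (X / 2)) :=
      mul_le_mul_of_nonneg_right a3.le (by positivity)
    have b2 : (X / 2) ^ (A + 1) * Real.exp (-(X / 2)) * (8 * 2 ^ (A + 1) * Real.exp (X / 2)) =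
        8 * X * X ^ A := by
      rw [div_pow, Real.exp_neg]
      field_simp
      ring
    have b3 : 1 / (8 * 2 ^ (A + 1)) * (8 * 2 ^ (A + 1) * Real.exp (X / 2)) =
        Real.exp (X / 2) := by
      field_simp
    rw [b2, b3] at b1
    refine le_trans ?_ b1
    apply mul_le_mul_of_nonneg_right _ (by positivity)
    linarith

private theorem pn_cz_zero {k : ℕ} (hk : 1 ≤ k) (x : ℝ) : cz k x 0 = 0 := by
  have : k ≠ 0 := by omega
  simp [cz, this]

private theorem pn_cpow_le (n : ℕ) (t : ℝ) : ‖(n : ℂ) ^ (-(Complex.I * t))‖ ≤ 1 := by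
  rcases Nat.eq_zero_or_pos n with rfl | hn
  · by_cases h : -(Complex.I * (t : ℂ)) = 0
    · rw [h]
      simp
    · rw [Nat.cast_zero, Complex.zero_cpow h]
      simp
  · rw [Complex.norm_natCast_cpow_of_pos hn]
    have : (-(Complex.I * (t : ℂ))).re = 0 := by simp
    rw [this, Real.rpow_zero]

private theorem pn_bd (k : ℕ) {x : ℝ} (hx : 0 < x) (hx1 : x ≤ 1) (t : ℝ) :
    ‖∑' n : ℕ, cz k x n * (n : ℂ) ^ (-(Complex.I * t))‖ ≤
      4 * (k + 1).factorial * (4 / x) ^ (k + 2) := by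
  obtain ⟨h1, h2⟩ := cz_norm k hx hx1
  have h3 : ∀ n : ℕ, ‖cz k x n * (n : ℂ) ^ (-(Complex.I * t))‖ ≤ ‖cz k x n‖ := by
    intro n
    rw [norm_mul]
    exact mul_le_of_le_one_right (norm_nonneg _) (pn_cpow_le n t)
  have h4 : Summable fun n : ℕ => ‖cz k x n * (n : ℂ) ^ (-(Complex.I * t))‖ :=
    Summable.of_nonneg_of_le (fun n => norm_nonneg _) h3 h1
  exact (norm_tsum_le_tsum_norm h4).trans ((h4.tsum_le_tsum h3 h1).trans h2)

private theorem pn_sm {M : ℝ} (hM1 : 1 ≤ M) (hM : ∀ x t : ℝ, 0 < x → x ≤ 1 → |t| ≤ 1 → ∀ k : ℕ,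
    ‖iteratedDeriv k GZ (1 + x + Complex.I * t)‖ ≤ k.factorial * M ^ (k + 1)) (k : ℕ)
    {V : ℝ} (hV : 1 ≤ V) {x : ℝ} (hx : 0 < x) (hx1 : x ≤ 1) {t : ℝ}
    (hq : 2 * |t| + 5 ≤ Real.exp V) :
    ‖∑' n : ℕ, cz k x n * (n : ℂ) ^ (-(Complex.I * t))‖ ≤
      k.factorial * M ^ (k + 1) + k.factorial * (32 * V) ^ (65 * (k + 1)) := by
  rw [cz_series k hx t, norm_mul]
  have h1 : ‖((-1 : ℂ)) ^ k‖ = 1 := by
    rw [norm_pow, norm_neg, norm_one, one_pow]
  rw [h1, one_mul]
  have a1 : (0 : ℝ) ≤ k.factorial * M ^ (k + 1) := by positivity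
  have a2 : (0 : ℝ) ≤ k.factorial * (32 * V) ^ (65 * (k + 1)) := by positivity
  by_cases ht : |t| ≤ 1
  · have := hM x t hx hx1 ht k
    linarith
  · have := zeta_far hV hx hx1 (by linarith : 1 / 2 ≤ |t|) hq k
    linarith

private theorem pn_lam (n : ℕ) (hn : 1 ≤ n) :
    |(ArithmeticFunction.vonMangoldt n - 1 : ℝ)| ≤ Real.log n + 1 := by
  have h1 : (0 : ℝ) ≤ ArithmeticFunction.vonMangoldt n := ArithmeticFunction.vonMangoldt_nonneg
  have h2 : (ArithmeticFunction.vonMangoldt n : ℝ) ≤ Real.log n :=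
    ArithmeticFunction.vonMangoldt_le_log
  have h3 : (1 : ℝ) ≤ n := by exact_mod_cast hn
  have h4 := Real.log_nonneg h3
  rw [abs_le]
  constructor <;> linarith

private theorem pn_b (k : ℕ) {x : ℝ} (hx : 0 < x) {n : ℕ} (hn : 1 ≤ n) :
    ‖(n : ℂ) * cz k x n‖ ≤ (Real.log n + 1) * Real.log n ^ k := by
  have hn0 : (0 : ℝ) < n := by exact_mod_cast hn
  have hn1 : (1 : ℝ) ≤ n := by exact_mod_cast hn
  have hl : 0 ≤ Real.log n := Real.log_nonneg hn1
  have h1 : (n : ℝ) * (n : ℝ) ^ (-(1 + x)) ≤ 1 := by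
    have h2 : (n : ℝ) ^ (-(1 + x)) = (n : ℝ)⁻¹ * (n : ℝ) ^ (-x) := by
      rw [← Real.rpow_neg_one, ← Real.rpow_add hn0]
      congr 1
      ring
    rw [h2, ← mul_assoc, mul_inv_cancel₀ hn0.ne', one_mul]
    exact Real.rpow_le_one_of_one_le_of_nonpos hn1 (by linarith)
  unfold cz
  rw [norm_mul, Complex.norm_natCast, Complex.norm_real, Real.norm_eq_abs, abs_mul, abs_mul,
    abs_of_nonneg (pow_nonneg hl k), abs_of_nonneg (Real.rpow_nonneg hn0.le _)]
  have h4 := pn_lam n hn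
  calc (n : ℝ) * (|(ArithmeticFunction.vonMangoldt n - 1 : ℝ)| * Real.log n ^ k *
        (n : ℝ) ^ (-(1 + x)))
      = (|(ArithmeticFunction.vonMangoldt n - 1 : ℝ)| * Real.log n ^ k) *
        ((n : ℝ) * (n : ℝ) ^ (-(1 + x))) := by ring
    _ ≤ (|(ArithmeticFunction.vonMangoldt n - 1 : ℝ)| * Real.log n ^ k) * 1 :=
        mul_le_mul_of_nonneg_left h1 (by positivity)
    _ ≤ (Real.log n + 1) * Real.log n ^ k := by
        rw [mul_one]
        exact mul_le_mul_of_nonneg_right h4 (by positivity)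

private theorem pn_gb (k : ℕ) (x : ℝ) {n : ℕ} (hn : 2 ≤ n) :
    (((Real.log n ^ k)⁻¹ * (n : ℝ) ^ x : ℝ) : ℂ) * ((n : ℂ) * cz k x n) =
      ((ArithmeticFunction.vonMangoldt n - 1 : ℝ) : ℂ) := by
  have hn0 : (0 : ℝ) < n := by
    have : 0 < n := by omega
    exact_mod_cast this
  have hl : Real.log n ≠ 0 := by
    apply (Real.log_pos _).ne'
    have : 1 < n := by omega
    exact_mod_cast this
  have h1 : (Real.log n ^ k)⁻¹ * (n : ℝ) ^ x * ((n : ℝ) *
      ((ArithmeticFunction.vonMangoldt n - 1 : ℝ) * Real.log n ^ k * (n : ℝ) ^ (-(1 + x)))) =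
      (ArithmeticFunction.vonMangoldt n - 1 : ℝ) := by
    have h2 : (n : ℝ) ^ x * ((n : ℝ) * (n : ℝ) ^ (-(1 + x))) = 1 := by
      have h3 : (n : ℝ) * (n : ℝ) ^ (-(1 + x)) = (n : ℝ) ^ (-x) := by
        nth_rewrite 1 [← Real.rpow_one (n : ℝ)]
        rw [← Real.rpow_add hn0]
        congr 1
        ring
      rw [h3, ← Real.rpow_add hn0, add_neg_cancel, Real.rpow_zero]
    have h4 : (Real.log n ^ k)⁻¹ * Real.log n ^ k = 1 :=
      inv_mul_cancel₀ (pow_ne_zero _ hl)
    calc (Real.log n ^ k)⁻¹ * (n : ℝ) ^ x * ((n : ℝ) *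
      ((ArithmeticFunction.vonMangoldt n - 1 : ℝ) * Real.log n ^ k * (n : ℝ) ^ (-(1 + x))))
        = (ArithmeticFunction.vonMangoldt n - 1 : ℝ) * ((Real.log n ^ k)⁻¹ * Real.log n ^ k) *
          ((n : ℝ) ^ x * ((n : ℝ) * (n : ℝ) ^ (-(1 + x)))) := by ring
      _ = _ := by rw [h2, h4, mul_one, mul_one]
  unfold cz
  conv_rhs => rw [← h1]
  push_cast
  ring

/-- the trivial bound -/
private theorem pn_triv {t : ℕ} {L : ℝ} (_hL0 : 0 ≤ L) (hL : Real.log t ≤ L) :
    |∑ n ∈ Ioc 0 t, (ArithmeticFunction.vonMangoldt n - 1 : ℝ)| ≤ t * (L + 1) := by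
  refine (Finset.abs_sum_le_sum_abs _ _).trans ?_
  have h1 : ∀ n ∈ Ioc 0 t, |(ArithmeticFunction.vonMangoldt n - 1 : ℝ)| ≤ L + 1 := by
    intro n hn
    obtain ⟨hn1, hn2⟩ := Finset.mem_Ioc.1 hn
    refine (pn_lam n hn1).trans ?_
    have h2 : Real.log n ≤ Real.log t :=
      Real.log_le_log (by exact_mod_cast hn1) (by exact_mod_cast hn2)
    linarith
  refine (Finset.sum_le_card_nsmul _ _ _ h1).trans ?_
  rw [Nat.card_Ioc, Nat.sub_zero, nsmul_eq_mul]

theorem pnt (A : ℕ) : ∃ N0 : ℕ, ∀ N : ℕ, N0 ≤ N → ∀ t : ℕ, t ≤ N →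
    |∑ n ∈ Ioc 0 t, (ArithmeticFunction.vonMangoldt n - 1)| ≤ N / Real.log N ^ A := by
  obtain ⟨M, hM1, hM⟩ := zeta_near
  obtain ⟨k, hk⟩ : ∃ k : ℕ, k = 2 * A + 10 := ⟨_, rfl⟩
  obtain ⟨X0, hX0⟩ := Filter.eventually_atTop.1 (pn_par A k M)
  refine ⟨⌈Real.exp (max X0 2)⌉₊, ?_⟩
  intro N hN t htN
  set X := Real.log N with hX
  have hN1 : Real.exp (max X0 2) ≤ N := Nat.ceil_le.1 hN
  have hN0 : (0 : ℝ) < N := (Real.exp_pos _).trans_le hN1
  have hXm : max X0 2 ≤ X := by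
    rw [hX, Real.le_log_iff_exp_le hN0]
    exact hN1
  have hexpX : Real.exp X = N := by rw [hX, Real.exp_log hN0]
  obtain ⟨hX10, hEX, hbX, hCX, hsX⟩ := hX0 X ((le_max_left _ _).trans hXm)
  have hXpos : 0 < X := by linarith
  have hX2 : 2 ≤ X := by linarith
  set T := X ^ (k + 3) with hT
  have hT1 : 1 ≤ T := one_le_pow₀ (by linarith)
  have hT0 : 0 < T := by linarith
  set V := Real.log (2 * T + 5) with hV
  have hexpV : Real.exp V = 2 * T + 5 := by
    rw [hV, Real.exp_log (by positivity)]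
  have hV1 : 1 ≤ V := by
    rw [hV, Real.le_log_iff_exp_le (by positivity)]
    have := Real.exp_one_lt_d9
    linarith
  have hx0 : 0 < 1 / X := by positivity
  have hx1 : 1 / X ≤ 1 := by
    rw [div_le_one hXpos]
    linarith
  have h4X : 4 / (1 / X) = 4 * X := by
    field_simp
  set E1 : ℝ := k.factorial * M ^ (k + 1) + k.factorial * (32 * V) ^ (65 * (k + 1)) with hE1
  set E2 : ℝ := 4 * (k + 1).factorial * (4 * X) ^ (k + 2) with hE2
  have hE10 : 0 ≤ E1 := by positivity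
  have hE20 : 0 ≤ E2 := by positivity
  have hcn := (cz_norm k hx0 hx1).1
  have hk1 : 1 ≤ k := by omega
  have hA1 : ∀ t : ℝ, |t| ≤ T →
      ‖∑' n : ℕ, cz k (1 / X) n * (n : ℂ) ^ (-(Complex.I * t))‖ ≤ E1 := by
    intro t ht
    apply pn_sm hM1 hM k hV1 hx0 hx1
    rw [hexpV]
    linarith
  have hB1 : ∀ t : ℝ, ‖∑' n : ℕ, cz k (1 / X) n * (n : ℂ) ^ (-(Complex.I * t))‖ ≤ E2 := by
    intro t
    have h1 := pn_bd k hx0 hx1 t
    rw [h4X] at h1
    exact h1
  set b : ℕ → ℂ := fun n => (n : ℂ) * cz k (1 / X) n with hb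
  have hb0 : b 0 = 0 := by
    simp [hb]
  have hbn : ∀ n : ℕ, b n / n = cz k (1 / X) n := by
    intro n
    rcases Nat.eq_zero_or_pos n with rfl | hn
    · rw [hb0, pn_cz_zero hk1, zero_div]
    · have : (n : ℂ) ≠ 0 := by
        exact_mod_cast hn.ne'
      simp only [hb]
      rw [mul_comm, mul_div_assoc, div_self this, mul_one]
  have hlog3 : Real.log 3 ≤ 2 := by
    have := Real.log_le_sub_one_of_pos (by norm_num : (0 : ℝ) < 3)
    linarith
  have hNpos : 1 ≤ N := by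
    have : (0 : ℝ) < N := hN0
    exact_mod_cast this
  have hβ : ∀ n : ℕ, (n : ℝ) ≤ 3 * (N : ℝ) → ‖b n‖ ≤ (X + 3) ^ (k + 1) := by
    intro n hn
    rcases Nat.eq_zero_or_pos n with rfl | hn0
    · rw [hb0, norm_zero]
      positivity
    · refine (pn_b k hx0 hn0).trans ?_
      have hn1 : (1 : ℝ) ≤ n := by exact_mod_cast hn0
      have hl0 := Real.log_nonneg hn1
      have h2 : Real.log n ≤ X + 2 := by
        calc Real.log n ≤ Real.log (3 * N) := Real.log_le_log (by linarith) hn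
          _ = Real.log 3 + X := by rw [Real.log_mul (by norm_num) hN0.ne']
          _ ≤ X + 2 := by linarith
      rw [pow_succ, mul_comm ((X + 3) ^ k)]
      apply mul_le_mul (by linarith) _ (by positivity) (by linarith)
      exact pow_le_pow_left₀ hl0 (by linarith) k
  have hG : ∀ y : ℝ, 1 ≤ y → y ≤ 3 * (N : ℝ) →
      ‖∑' n : ℕ, b n / n * (((n : ℝ) / y * max (Real.log (y / n)) 0 : ℝ) : ℂ)‖ ≤ X := by
    intro y hy _
    simp only [hbn]
    refine (REC.riesz_bound hcn (pn_cz_zero hk1 _) hT1 hE10 hE20 hA1 hB1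
      (by linarith)).trans ?_
    rw [hE1, hE2]
    exact hEX
  set η : ℝ := (X ^ (A + 3))⁻¹ with hη
  have hη0 : 0 < η := by positivity
  have hη1 : η ≤ 1 := by
    apply inv_le_one_of_one_le₀
    exact one_le_pow₀ (by linarith)
  set C : ℝ := 5 + 2 ^ (k + 2) with hC
  have hC0 : 0 < C := by positivity
  have hD : ∀ m : ℕ, m ≤ N → ‖∑ n ∈ Ioc 0 m, b n‖ ≤ N * (C * X ^ (A + 8)) := by
    intro m hm
    have h1 := REC.diff_bound hb0 hXpos.le hη0 hη1 (N := N) hNpos hβ hG hm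
    refine h1.trans ?_
    have h2 : 4 * (N : ℝ) * X / η = 4 * N * X ^ (A + 4) := by
      rw [hη, div_inv_eq_mul]
      ring
    have hX1 : 1 ≤ X := by linarith
    have h3 : X ^ (A + 4) ≤ X ^ (A + 8) := pow_le_pow_right₀ hX1 (by omega)
    have h4 : (X + 3) ^ (k + 1) ≤ (2 * X) ^ (k + 1) :=
      pow_le_pow_left₀ (by linarith) (by linarith) _
    have h5 : (2 * X) ^ (k + 1) * (2 * η * N) = N * (2 ^ (k + 2) * X ^ (A + 8)) := by
      have e1 : X ^ (k + 1) = X ^ (A + 8) * X ^ (A + 3) := by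
        rw [← pow_add, hk]
        congr 1
        omega
      rw [hη, mul_pow, e1]
      field_simp
      ring
    have h6 : (2 * X) ^ (k + 1) ≤ N * X ^ (A + 8) := by
      rw [← hexpX]
      refine hbX.trans ?_
      exact le_mul_of_one_le_right (Real.exp_pos _).le (one_le_pow₀ hX1)
    rw [h2]
    calc 4 * (N : ℝ) * X ^ (A + 4) + (X + 3) ^ (k + 1) * (2 * η * N + 1)
        ≤ 4 * (N : ℝ) * X ^ (A + 8) + (2 * X) ^ (k + 1) * (2 * η * N + 1) := by
          apply add_le_add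
          · exact mul_le_mul_of_nonneg_left h3 (by positivity)
          · exact mul_le_mul_of_nonneg_right h4 (by positivity)
      _ = 4 * (N : ℝ) * X ^ (A + 8) + (N * (2 ^ (k + 2) * X ^ (A + 8)) +
            (2 * X) ^ (k + 1)) := by
          rw [mul_add, h5, mul_one]
      _ ≤ 4 * (N : ℝ) * X ^ (A + 8) + (N * (2 ^ (k + 2) * X ^ (A + 8)) +
            N * X ^ (A + 8)) := by linarith
      _ = N * (C * X ^ (A + 8)) := by
          rw [hC]
          ring
  -- the cut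
  set P : ℕ := ⌈Real.exp (X / 2)⌉₊ with hP
  have hPge : Real.exp (X / 2) ≤ P := Nat.le_ceil _
  have hexp2 : 1 ≤ Real.exp (X / 2) := Real.one_le_exp (by positivity)
  have hPle : (P : ℝ) ≤ 2 * Real.exp (X / 2) := by
    have := Nat.ceil_lt_add_one (Real.exp_pos (X / 2)).le
    linarith
  have hP0 : (0 : ℝ) < P := by linarith
  have hlogP : X / 2 ≤ Real.log P := by
    rw [Real.le_log_iff_exp_le hP0]
    exact hPge
  have hNsq : (N : ℝ) = Real.exp (X / 2) * Real.exp (X / 2) := by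
    rw [← Real.exp_add, add_halves, hexpX]
  have hPN : P ≤ N := by
    have h1 : 2 ≤ Real.exp (X / 2) := by
      have := Real.add_one_le_exp (X / 2)
      linarith
    have h2 : (P : ℝ) ≤ N := by
      rw [hNsq]
      nlinarith
    exact_mod_cast h2
  have hsmall : (P : ℝ) * (X + 1) ≤ N / X ^ A / 2 := by
    have h1 : 4 * (X + 1) * X ^ A * Real.exp (X / 2) ≤ Real.exp (X / 2) * Real.exp (X / 2) :=
      mul_le_mul_of_nonneg_right hsX (Real.exp_pos _).le
    rw [← hNsq] at h1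
    rw [div_div, le_div_iff₀ (by positivity)]
    calc (P : ℝ) * (X + 1) * (X ^ A * 2)
        ≤ 2 * Real.exp (X / 2) * (X + 1) * (X ^ A * 2) := by
          apply mul_le_mul_of_nonneg_right _ (by positivity)
          exact mul_le_mul_of_nonneg_right hPle (by linarith)
      _ = 4 * (X + 1) * X ^ A * Real.exp (X / 2) := by ring
      _ ≤ N := h1
  have hNA : 0 ≤ (N : ℝ) / X ^ A := by positivity
  by_cases htP : t ≤ P
  · have h1 : Real.log t ≤ X := by
      rcases Nat.eq_zero_or_pos t with rfl | ht0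
      · rw [Nat.cast_zero, Real.log_zero]
        exact hXpos.le
      · exact Real.log_le_log (by exact_mod_cast ht0) (by exact_mod_cast htN)
    have h2 := pn_triv (t := t) hXpos.le h1
    have h3 : (t : ℝ) * (X + 1) ≤ P * (X + 1) :=
      mul_le_mul_of_nonneg_right (by exact_mod_cast htP) (by linarith)
    linarith
  · have hPt : P ≤ t := by omega
    set g : ℕ → ℝ := fun n => (Real.log n ^ k)⁻¹ * (n : ℝ) ^ (1 / X) with hg
    have hlogn : ∀ n : ℕ, P ≤ n → X / 2 ≤ Real.log n := by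
      intro n hn
      have : (P : ℝ) ≤ n := by exact_mod_cast hn
      exact hlogP.trans (Real.log_le_log hP0 this)
    have hanti : ∀ n, P ≤ n → n < t → g (n + 1) ≤ g n := by
      intro n hn1 hn2
      have h1 := hlogn n hn1
      apply REC.weight_anti hX2 (by omega) (by linarith)
      have h2 : (n : ℝ) + 1 ≤ N := by
        have : n + 1 ≤ N := by omega
        exact_mod_cast this
      have h3 : Real.log ((n : ℝ) + 1) ≤ Real.log N :=
        Real.log_le_log (by positivity) h2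
      linarith
    have hg0 : ∀ n, P ≤ n → n ≤ t → 0 ≤ g n := by
      intro n hn1 _
      have h1 := hlogn n hn1
      simp only [hg]
      have : 0 ≤ Real.log n := by linarith
      positivity
    have hab := REC.abel_anti (b := b) hPt hanti hg0 (D := N * (C * X ^ (A + 8)))
      (fun n _ hn => hD n (hn.trans htN))
    have hP2 : 2 ≤ P := by
      have h1 : (2 : ℝ) ≤ P := by
        have := Real.add_one_le_exp (X / 2)
        linarith
      exact_mod_cast h1
    have hsum : ((∑ n ∈ Ioc P t, (ArithmeticFunction.vonMangoldt n - 1 : ℝ) : ℝ) : ℂ) =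
        ∑ m ∈ Ioc P t, (g m : ℂ) * b m := by
      rw [Complex.ofReal_sum]
      refine Finset.sum_congr rfl fun n hn => ?_
      rw [mem_Ioc] at hn
      exact (pn_gb k (1 / X) (by omega)).symm
    have hg1 : g P ≤ 3 * (2 ^ k / X ^ k) := by
      have h2 : (Real.log P ^ k)⁻¹ ≤ ((X / 2) ^ k)⁻¹ := by
        apply inv_anti₀ (by positivity)
        exact pow_le_pow_left₀ (by positivity) hlogP k
      have h3 : (P : ℝ) ^ (1 / X) ≤ 3 := by
        have h4 : (P : ℝ) ^ (1 / X) ≤ (N : ℝ) ^ (1 / X) :=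
          Real.rpow_le_rpow hP0.le (by exact_mod_cast hPN) hx0.le
        have h5 : (N : ℝ) ^ (1 / X) = Real.exp 1 := by
          rw [Real.rpow_def_of_pos hN0, ← hX, mul_one_div, div_self hXpos.ne']
        have h6 := Real.exp_one_lt_d9
        rw [h5] at h4
        linarith
      calc g P = (Real.log P ^ k)⁻¹ * (P : ℝ) ^ (1 / X) := rfl
        _ ≤ ((X / 2) ^ k)⁻¹ * 3 := by
            apply mul_le_mul h2 h3 (by positivity) (by positivity)
        _ = 3 * (2 ^ k / X ^ k) := by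
            rw [div_pow, inv_div]
            ring
    have hbig : |∑ n ∈ Ioc P t, (ArithmeticFunction.vonMangoldt n - 1 : ℝ)| ≤
        N / X ^ A / 2 := by
      have h1 : |∑ n ∈ Ioc P t, (ArithmeticFunction.vonMangoldt n - 1 : ℝ)| =
          ‖((∑ n ∈ Ioc P t, (ArithmeticFunction.vonMangoldt n - 1 : ℝ) : ℝ) : ℂ)‖ := by
        rw [Complex.norm_real, Real.norm_eq_abs]
      rw [h1, hsum]
      refine hab.trans ?_
      calc 2 * (N * (C * X ^ (A + 8))) * g P
          ≤ 2 * (N * (C * X ^ (A + 8))) * (3 * (2 ^ k / X ^ k)) :=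
            mul_le_mul_of_nonneg_left hg1 (by positivity)
        _ = (12 * 2 ^ k * C) * (N * X ^ (A + 8) / X ^ k) / 2 := by ring
        _ ≤ X ^ 2 * (N * X ^ (A + 8) / X ^ k) / 2 := by
            have := mul_le_mul_of_nonneg_right hCX
              (by positivity : 0 ≤ N * X ^ (A + 8) / X ^ k)
            linarith
        _ = N / X ^ A / 2 := by
            have e1 : X ^ k = X ^ 2 * X ^ (A + 8) * X ^ A := by
              rw [← pow_add, ← pow_add, hk]
              congr 1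
              omega
            rw [e1]
            field_simp
    have hPX : Real.log P ≤ X := Real.log_le_log hP0 (by exact_mod_cast hPN)
    have htr := pn_triv (t := P) hXpos.le hPX
    have hsplit : ∑ n ∈ Ioc 0 t, (ArithmeticFunction.vonMangoldt n - 1 : ℝ) =
        ∑ n ∈ Ioc 0 P, (ArithmeticFunction.vonMangoldt n - 1 : ℝ) +
          ∑ n ∈ Ioc P t, (ArithmeticFunction.vonMangoldt n - 1 : ℝ) :=
      (Finset.sum_Ioc_consecutive _ (Nat.zero_le P) hPt).symm
    rw [hsplit]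
    refine (abs_add_le _ _).trans ?_
    linarith

end Pool.Agent.SW
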