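import Pool.Agent.SW.Defs

/-! SW/Tot.  `φ(q)/√q → ∞`.

PROOF.  The `i`-th prime factor is `≥ i + 1`, so `q/φ(q) = ∏_{p ∣ q} p/(p-1) ≤ ω(q) + 1`, and `(ω+1)^4 ≤ 64 · 2^ω ≤ 64 q`. -/

set_option autoImplicit false

namespace Pool.Agent.SW

open Finset

private theorem tot_card {S : Finset ℕ} {m : ℕ} (h : ∀ x ∈ S, 2 ≤ x ∧ x < m) : S.card + 2 ≤ m ∨ S.card = 0 := by
  by_cases h0 : S.card = 0
  · exact Or.inr h0
  left
  have h1 : S ⊆ Ico 2 m := fun x hx => mem_Ico.2 (h x hx)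
  have h2 := card_le_card h1
  rw [Nat.card_Ico] at h2
  omega

private theorem tot_prod (S : Finset ℕ) (hS : ∀ x ∈ S, 2 ≤ x) :
    ∏ p ∈ S, p ≤ (S.card + 1) * ∏ p ∈ S, (p - 1) := by
  induction S using Finset.induction_on_max with
  | empty => simp
  | insert m S hm ih =>
    have hmS : m ∉ S := fun h => lt_irrefl _ (hm m h)
    rw [prod_insert hmS, prod_insert hmS, card_insert_of_notMem hmS]
    have h1 := ih fun x hx => hS x (mem_insert_of_mem hx)
    have hm2 : 2 ≤ m := hS m (mem_insert_self _ _)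
    have hc : S.card + 2 ≤ m := by
      rcases tot_card (S := S) (m := m) fun x hx => ⟨hS x (mem_insert_of_mem hx), hm x hx⟩ with h | h
      · exact h
      · omega
    obtain ⟨a, rfl⟩ : ∃ a, m = S.card + 2 + a := ⟨m - (S.card + 2), by omega⟩
    calc (S.card + 2 + a) * ∏ p ∈ S, p ≤ (S.card + 2 + a) * ((S.card + 1) * ∏ p ∈ S, (p - 1)) :=
          Nat.mul_le_mul_left _ h1
      _ = ((S.card + 2 + a) * (S.card + 1)) * ∏ p ∈ S, (p - 1) := by ring
      _ ≤ ((S.card + 1 + 1) * (S.card + 2 + a - 1)) * ∏ p ∈ S, (p - 1) := by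
          apply Nat.mul_le_mul_right
          have : S.card + 2 + a - 1 = S.card + 1 + a := by omega
          rw [this]
          nlinarith
      _ = _ := by ring

private theorem tot_pow (n : ℕ) : (n + 1) ^ 4 ≤ 64 * 2 ^ n := by
  induction n with
  | zero => norm_num
  | succ n ih =>
    by_cases hn : n ≤ 5
    · interval_cases n <;> norm_num
    · have h1 : (n + 1 + 1) ^ 4 ≤ 2 * (n + 1) ^ 4 := by
        obtain ⟨m, rfl⟩ : ∃ m, n = m + 6 := ⟨n - 6, by omega⟩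
        have e1 : (m + 6 + 1 + 1) ^ 4 = m ^ 4 + 32 * m ^ 3 + 384 * m ^ 2 + 2048 * m + 4096 := by ring
        have e2 : 2 * (m + 6 + 1) ^ 4 = 2 * m ^ 4 + 56 * m ^ 3 + 588 * m ^ 2 + 2744 * m + 4802 := by ring
        rw [e1, e2]
        have := Nat.zero_le (m ^ 4)
        have := Nat.zero_le (m ^ 3)
        have := Nat.zero_le (m ^ 2)
        omega
      calc (n + 1 + 1) ^ 4 ≤ 2 * (n + 1) ^ 4 := h1
        _ ≤ 2 * (64 * 2 ^ n) := Nat.mul_le_mul_left _ ih
        _ = 64 * 2 ^ (n + 1) := by ring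

theorem tot_large (C : ℝ) : ∃ w1 : ℕ, ∀ q : ℕ, w1 < q → C * √(q : ℝ) ≤ (q.totient : ℝ) := by
  by_cases hC : C ≤ 0
  · refine ⟨0, fun q _ => ?_⟩
    have h1 : C * √(q : ℝ) ≤ 0 := mul_nonpos_of_nonpos_of_nonneg hC (Real.sqrt_nonneg _)
    exact h1.trans (Nat.cast_nonneg _)
  push Not at hC
  refine ⟨⌈64 * C ^ 4⌉₊, fun q hq => ?_⟩
  have hq1 : 64 * C ^ 4 ≤ q := (Nat.le_ceil _).trans (by exact_mod_cast hq.le)
  have hq0 : 0 < q := by omega
  have hqr : (0 : ℝ) < q := by exact_mod_cast hq0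
  set k := q.primeFactors.card with hk
  have h1 := Nat.totient_mul_prod_primeFactors q
  have h2 := tot_prod q.primeFactors fun x hx => (Nat.prime_of_mem_primeFactors hx).two_le
  have hpos : 0 < ∏ p ∈ q.primeFactors, (p - 1) := by
    apply Finset.prod_pos
    intro p hp
    have := (Nat.prime_of_mem_primeFactors hp).two_le
    omega
  have h3 : q ≤ q.totient * (k + 1) := by
    have h4 : q * ∏ p ∈ q.primeFactors, (p - 1) ≤
        (q.totient * (k + 1)) * ∏ p ∈ q.primeFactors, (p - 1) := by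
      rw [← h1]
      calc q.totient * ∏ p ∈ q.primeFactors, p
          ≤ q.totient * ((k + 1) * ∏ p ∈ q.primeFactors, (p - 1)) := Nat.mul_le_mul_left _ h2
        _ = _ := by ring
    exact Nat.le_of_mul_le_mul_right h4 hpos
  have h5 : 2 ^ k ≤ q := by
    have h6 : ∏ p ∈ q.primeFactors, p ≤ q := Nat.le_of_dvd hq0 (Nat.prod_primeFactors_dvd q)
    refine le_trans ?_ h6
    exact Finset.pow_card_le_prod _ _ _ fun p hp => (Nat.prime_of_mem_primeFactors hp).two_le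
  have h7 : ((k : ℝ) + 1) ^ 4 ≤ 64 * q := by
    have h8 : (k + 1) ^ 4 ≤ 64 * q := (tot_pow k).trans (Nat.mul_le_mul_left _ h5)
    exact_mod_cast h8
  have h9 : C * ((k : ℝ) + 1) ≤ √(q : ℝ) := by
    apply Real.le_sqrt_of_sq_le
    have h10 : (C * ((k : ℝ) + 1)) ^ 2 ≤ q := by
      have h11 : ((C * ((k : ℝ) + 1)) ^ 2) ^ 2 ≤ (q : ℝ) ^ 2 := by
        calc ((C * ((k : ℝ) + 1)) ^ 2) ^ 2 = C ^ 4 * ((k : ℝ) + 1) ^ 4 := by ring
          _ ≤ C ^ 4 * (64 * q) := mul_le_mul_of_nonneg_left h7 (by positivity)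
          _ = (64 * C ^ 4) * q := by ring
          _ ≤ q * q := mul_le_mul_of_nonneg_right hq1 hqr.le
          _ = (q : ℝ) ^ 2 := by ring
      exact le_of_sq_le_sq h11 hqr.le
    exact h10
  have h12 : (q : ℝ) ≤ q.totient * ((k : ℝ) + 1) := by exact_mod_cast h3
  have hsq : √(q : ℝ) * √(q : ℝ) = q := Real.mul_self_sqrt hqr.le
  have hk1 : (0 : ℝ) < (k : ℝ) + 1 := by positivity
  have h13 : C * √(q : ℝ) * ((k : ℝ) + 1) ≤ q.totient * ((k : ℝ) + 1) := by
    calc C * √(q : ℝ) * ((k : ℝ) + 1) = (C * ((k : ℝ) + 1)) * √(q : ℝ) := by ring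
      _ ≤ √(q : ℝ) * √(q : ℝ) := mul_le_mul_of_nonneg_right h9 (Real.sqrt_nonneg _)
      _ = q := hsq
      _ ≤ _ := h12
  exact le_of_mul_le_mul_right h13 hk1

end Pool.Agent.SW
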