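import Pool.Agent.SW.VinB

/-! SW/TyI.  Type I sums.

For `d ≥ 1` the set of `m` is `Ioc (P/d) (4P/d)`, `F (d m) = ee (m (d θ))`; `geo`, `geo_log` with `X = 4P/d ≥ 1` (for `d ≤ D ≤ 4P`),
then `vin_b` with `N = 4 P`. -/

set_option autoImplicit false

namespace Pool.Agent.SW

open Finset Pool.Agent.Helper98.Bern

private theorem tyI_filter (P d : ℕ) (hd : 1 ≤ d) :
    (Icc 1 (4 * P)).filter (fun m => P < d * m ∧ d * m ≤ 4 * P) = Ioc (P / d) (4 * P / d) := by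
  ext m
  simp only [mem_filter, mem_Icc, mem_Ioc]
  have h1 : P / d < m ↔ P < d * m := by
    rw [Nat.div_lt_iff_lt_mul (by omega), mul_comm]
  have h2 : m ≤ 4 * P / d ↔ d * m ≤ 4 * P := by
    rw [Nat.le_div_iff_mul_le (by omega), mul_comm]
  rw [h1, h2]
  constructor
  · rintro ⟨_, h⟩
    exact h
  · rintro ⟨h3, h4⟩
    refine ⟨⟨?_, ?_⟩, h3, h4⟩
    · rcases Nat.eq_zero_or_pos m with h0 | h0
      · subst h0
        omega
      · exact h0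
    · exact (Nat.le_mul_of_pos_left m (by omega)).trans h4

private theorem tyI_X {P d D : ℕ} (hD : D ≤ 4 * P) (hd : d ∈ Icc 1 D) :
    1 ≤ (((4 * P : ℕ) : ℝ) / d) ∧ (((4 * P / d - P / d : ℕ)) : ℝ) ≤ ((4 * P : ℕ) : ℝ) / d := by
  rw [mem_Icc] at hd
  have hd0 : (0 : ℝ) < d := by exact_mod_cast hd.1
  constructor
  · rw [one_le_div hd0]
    exact_mod_cast hd.2.trans hD
  · calc (((4 * P / d - P / d : ℕ)) : ℝ) ≤ ((4 * P / d : ℕ) : ℝ) := by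
          exact_mod_cast Nat.sub_le _ _
      _ ≤ ((4 * P : ℕ) : ℝ) / d := Nat.cast_div_le

private theorem tyI_ee (d m : ℕ) (θ : ℝ) : ((d * m : ℕ) : ℝ) * θ = m * (d * θ) := by
  push_cast
  ring

private theorem tyI_geo (θ : ℝ) {P d D : ℕ} (hD : D ≤ 4 * P) (hd : d ∈ Icc 1 D) :
    ‖∑ m ∈ (Icc 1 (4 * P)).filter (fun m => P < d * m ∧ d * m ≤ 4 * P),
      ee (((d * m : ℕ) : ℝ) * θ)‖ ≤ mn (((4 * P : ℕ) : ℝ) / d) (d * θ) := by
  obtain ⟨h1, h2⟩ := tyI_X hD hd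
  rw [tyI_filter P d (mem_Icc.1 hd).1]
  simp only [tyI_ee]
  exact geo (Nat.div_le_div_right (by omega)) _ h2 h1

private theorem tyI_geo_log (θ : ℝ) {P d D : ℕ} (hP : 2 ≤ P) (hD : D ≤ 4 * P) (hd : d ∈ Icc 1 D) :
    ‖∑ m ∈ (Icc 1 (4 * P)).filter (fun m => P < d * m ∧ d * m ≤ 4 * P),
      ((Real.log m : ℝ) : ℂ) * ee (((d * m : ℕ) : ℝ) * θ)‖ ≤
      2 * Real.log (4 * P) * mn (((4 * P : ℕ) : ℝ) / d) (d * θ) := by
  obtain ⟨h1, h2⟩ := tyI_X hD hd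
  rw [tyI_filter P d (mem_Icc.1 hd).1]
  simp only [tyI_ee]
  refine (geo_log (Nat.div_le_div_right (by omega)) _ h2 h1).trans ?_
  have h3 : 0 < mn (((4 * P : ℕ) : ℝ) / d) (d * θ) := mn_pos (by linarith) _
  have h4 : Real.log ((4 * P / d : ℕ) : ℝ) ≤ Real.log (4 * P) := by
    rcases Nat.eq_zero_or_pos (4 * P / d) with h0 | h0
    · rw [h0, Nat.cast_zero, Real.log_zero]
      apply Real.log_nonneg
      have : (2 : ℝ) ≤ P := by exact_mod_cast hP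
      linarith
    · apply Real.log_le_log (by exact_mod_cast h0)
      have : 4 * P / d ≤ 4 * P := Nat.div_le_self _ _
      exact_mod_cast this
  gcongr

private theorem tyI_fin {C L : ℝ} (hC : 0 < C) {P D q : ℕ} (hL : 0 ≤ L) :
    C * (((4 * P : ℕ) : ℝ) / q + D + q) * L ≤ 4 * C * ((P : ℝ) / q + D + q) * L := by
  apply mul_le_mul_of_nonneg_right _ hL
  have e : (((4 * P : ℕ) : ℝ) / q) = 4 * ((P : ℝ) / q) := by
    push_cast
    ring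
  rw [e]
  have h1 : (0 : ℝ) ≤ D := Nat.cast_nonneg _
  have h2 : (0 : ℝ) ≤ q := Nat.cast_nonneg _
  nlinarith [mul_nonneg hC.le h1, mul_nonneg hC.le h2]

theorem ty_one : ∃ C : ℝ, 0 < C ∧ ∀ (θ : ℝ) (a : ℤ) (q : ℕ), 1 ≤ q → IsCoprime a (q : ℤ) →
    |θ - a / q| ≤ 1 / (q : ℝ) ^ 2 → ∀ (P D : ℕ) (c : ℕ → ℂ), 2 ≤ P → q ≤ 4 * P → D ≤ 4 * P →
    (∀ d, 1 ≤ d → ‖c d‖ ≤ Real.log d) →
    ‖∑ d ∈ Icc 1 D, c d * ∑ m ∈ (Icc 1 (4 * P)).filter (fun m => P < d * m ∧ d * m ≤ 4 * P),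
      ee (((d * m : ℕ) : ℝ) * θ)‖ ≤ C * ((P : ℝ) / q + D + q) * Real.log (4 * P) ^ 2 := by
  obtain ⟨C, hC, h⟩ := vin_b
  refine ⟨4 * C, by linarith, fun θ a q hq ha hθ P D c hP hqP hDP hc => ?_⟩
  have hlog : 0 ≤ Real.log (4 * P) := by
    apply Real.log_nonneg
    have : (2 : ℝ) ≤ P := by exact_mod_cast hP
    linarith
  have hv := h θ a q hq ha hθ (4 * P) D (by omega) hqP hDP
  have e : Real.log (((4 * P : ℕ)) : ℝ) = Real.log (4 * P) := by push_cast; rfl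
  rw [e] at hv
  calc ‖∑ d ∈ Icc 1 D, c d * ∑ m ∈ (Icc 1 (4 * P)).filter (fun m => P < d * m ∧ d * m ≤ 4 * P),
      ee (((d * m : ℕ) : ℝ) * θ)‖
      ≤ ∑ d ∈ Icc 1 D, Real.log (4 * P) * mn (((4 * P : ℕ) : ℝ) / d) (d * θ) := by
        refine (norm_sum_le _ _).trans (sum_le_sum fun d hd => ?_)
        rw [norm_mul]
        have hd' := mem_Icc.1 hd
        have h1 : ‖c d‖ ≤ Real.log (4 * P) := by
          refine (hc d hd'.1).trans (Real.log_le_log (by exact_mod_cast hd'.1) ?_)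
          exact_mod_cast hd'.2.trans hDP
        exact mul_le_mul h1 (tyI_geo θ hDP hd) (norm_nonneg _) hlog
    _ = (∑ d ∈ Icc 1 D, mn (((4 * P : ℕ) : ℝ) / d) (d * θ)) * Real.log (4 * P) := by
        rw [← mul_sum]
        ring
    _ ≤ (C * (((4 * P : ℕ) : ℝ) / q + D + q) * Real.log (4 * P)) * Real.log (4 * P) :=
        mul_le_mul_of_nonneg_right hv hlog
    _ = C * (((4 * P : ℕ) : ℝ) / q + D + q) * Real.log (4 * P) ^ 2 := by ring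
    _ ≤ 4 * C * ((P : ℝ) / q + D + q) * Real.log (4 * P) ^ 2 := tyI_fin hC (by positivity)

theorem ty_one_log : ∃ C : ℝ, 0 < C ∧ ∀ (θ : ℝ) (a : ℤ) (q : ℕ), 1 ≤ q → IsCoprime a (q : ℤ) →
    |θ - a / q| ≤ 1 / (q : ℝ) ^ 2 → ∀ (P D : ℕ) (c : ℕ → ℂ), 2 ≤ P → q ≤ 4 * P → D ≤ 4 * P →
    (∀ d, 1 ≤ d → ‖c d‖ ≤ 1) →
    ‖∑ d ∈ Icc 1 D, c d * ∑ m ∈ (Icc 1 (4 * P)).filter (fun m => P < d * m ∧ d * m ≤ 4 * P),
      ((Real.log m : ℝ) : ℂ) * ee (((d * m : ℕ) : ℝ) * θ)‖ ≤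
      C * ((P : ℝ) / q + D + q) * Real.log (4 * P) ^ 2 := by
  obtain ⟨C, hC, h⟩ := vin_b
  refine ⟨4 * (2 * C), by linarith, fun θ a q hq ha hθ P D c hP hqP hDP hc => ?_⟩
  have hlog : 0 ≤ Real.log (4 * P) := by
    apply Real.log_nonneg
    have : (2 : ℝ) ≤ P := by exact_mod_cast hP
    linarith
  have hv := h θ a q hq ha hθ (4 * P) D (by omega) hqP hDP
  have e : Real.log (((4 * P : ℕ)) : ℝ) = Real.log (4 * P) := by push_cast; rfl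
  rw [e] at hv
  calc ‖∑ d ∈ Icc 1 D, c d * ∑ m ∈ (Icc 1 (4 * P)).filter (fun m => P < d * m ∧ d * m ≤ 4 * P),
      ((Real.log m : ℝ) : ℂ) * ee (((d * m : ℕ) : ℝ) * θ)‖
      ≤ ∑ d ∈ Icc 1 D, 1 * (2 * Real.log (4 * P) * mn (((4 * P : ℕ) : ℝ) / d) (d * θ)) := by
        refine (norm_sum_le _ _).trans (sum_le_sum fun d hd => ?_)
        rw [norm_mul]
        have hd' := mem_Icc.1 hd
        exact mul_le_mul (hc d hd'.1) (tyI_geo_log θ hP hDP hd) (norm_nonneg _) zero_le_one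
    _ = (∑ d ∈ Icc 1 D, mn (((4 * P : ℕ) : ℝ) / d) (d * θ)) * (2 * Real.log (4 * P)) := by
        rw [sum_mul]
        refine sum_congr rfl fun d _ => ?_
        ring
    _ ≤ (C * (((4 * P : ℕ) : ℝ) / q + D + q) * Real.log (4 * P)) * (2 * Real.log (4 * P)) :=
        mul_le_mul_of_nonneg_right hv (by linarith)
    _ = (2 * C) * (((4 * P : ℕ) : ℝ) / q + D + q) * Real.log (4 * P) ^ 2 := by ring
    _ ≤ 4 * (2 * C) * ((P : ℝ) / q + D + q) * Real.log (4 * P) ^ 2 :=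
        tyI_fin (by linarith) (by positivity)

end Pool.Agent.SW
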