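import Pool.Agent.SW.FDefs

/-! SW/UD.  The uniform density statement, and basic facts on walks. -/

set_option autoImplicit false

namespace Pool.Agent.SW

open Pool.Agent.Helper27

/-- the walk from `k` with the steps `s 0, s 1, …` -/
def stepWalk (s : ℕ → ℤ) (k : ℤ) (n : ℕ) : ℤ := k + ∑ m ∈ Finset.range n, s m

/-- for every sequence of steps, at most `ε N` of the odd starting points in `[1, N]` give a walk with at most `R` primes,
uniformly in the sequence of steps -/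
def UD (i j : ℤ) : Prop :=
  ∀ (R : ℕ) (ε : ℝ), 0 < ε → ∃ N0 : ℕ, ∀ N : ℕ, N0 ≤ N → ∀ s : ℕ → ℤ, (∀ n, s n = i ∨ s n = j) →
    (({k : ℤ | 1 ≤ k ∧ k ≤ N ∧ Odd k ∧ FewPrimes R (stepWalk s k)}.ncard : ℕ) : ℝ) ≤ ε * N

end Pool.Agent.SW
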