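import Pool.Agent.SW.DensM
import Pool.Agent.SW.UD

/-! SW/UDL.  Translation of `dens_main` to integers: `Listed i j → UD i j`.

`s n = i` or `j` positive integers: `s' n = (s n).toNat`, `stepWalk s k n = k + hs s' n`, `IsPosPrime ((m : ℕ) : ℤ) ↔ m.Prime`; the five
cases `b = 2, 4, 8, 16, 256` with the cuts `cut2 adm2`, …, `cut256 adm256` of `Pool/Agent/Helper27/WalkCuts.lean`
(`j = b * 2^u`). -/

set_option autoImplicit false

namespace Pool.Agent.SW

open Pool.Agent.Helper27

private theorem isPosPrime_cast (m : ℕ) : IsPosPrime (m : ℤ) ↔ m.Prime := by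
  constructor
  · rintro ⟨p, hp, h⟩
    have : m = p := by exact_mod_cast h
    rwa [this]
  · intro h
    exact ⟨m, h, rfl⟩

private theorem ud_cut (u b : ℕ) (hu : 1 ≤ u) (hb : 2 ≤ b) (L : List ℕ) (hL : IsCut b L)
    (hadm : ∀ q : ℕ, q.Prime → q ≠ 2 → ∃ a, Misses L q a) : UD (2 ^ u) (2 ^ u * b) := by
  intro R ε hε
  obtain ⟨N0, hN0⟩ := dens_main u b hu hb L hL hadm R ε hε
  refine ⟨N0, fun N hN s hs' => ?_⟩
  have hs1 : ∀ n, ((s n).toNat : ℤ) = s n := by
    intro n
    apply Int.toNat_of_nonneg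
    rcases hs' n with h | h <;> rw [h] <;> positivity
  have hs2 : ∀ n, (s n).toNat = 2 ^ u ∨ (s n).toNat = 2 ^ u * b := by
    intro n
    rcases hs' n with h | h
    · left
      have := hs1 n
      rw [h] at this ⊢
      exact_mod_cast this
    · right
      have := hs1 n
      rw [h] at this ⊢
      exact_mod_cast this
  have h1 := hN0 N hN (fun n => (s n).toNat) hs2
  have hval : ∀ (k n : ℕ), stepWalk s k n = ((k + hs (fun n => (s n).toNat) n : ℕ) : ℤ) := by
    intro k n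
    unfold stepWalk hs
    push_cast
    rw [Finset.sum_congr rfl fun m _ => (hs1 m).symm]
  have hset : {k : ℤ | 1 ≤ k ∧ k ≤ N ∧ Odd k ∧ FewPrimes R (stepWalk s k)} =
      (fun k : ℕ => (k : ℤ)) '' {k : ℕ | 1 ≤ k ∧ k ≤ N ∧ Odd k ∧
        {n : ℕ | (k + hs (fun n => (s n).toNat) n).Prime}.encard ≤ R} := by
    ext k
    simp only [Set.mem_setOf_eq, Set.mem_image]
    constructor
    · rintro ⟨h1, h2, h3, h4⟩
      obtain ⟨m, rfl⟩ := Int.eq_ofNat_of_zero_le (by omega : 0 ≤ k)
      refine ⟨m, ⟨by exact_mod_cast h1, by exact_mod_cast h2, by exact_mod_cast h3, ?_⟩, rfl⟩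
      unfold FewPrimes at h4
      simp only [hval, isPosPrime_cast] at h4
      exact h4
    · rintro ⟨m, ⟨h1, h2, h3, h4⟩, rfl⟩
      refine ⟨by exact_mod_cast h1, by exact_mod_cast h2, by exact_mod_cast h3, ?_⟩
      unfold FewPrimes
      simp only [hval, isPosPrime_cast]
      exact h4
  rw [hset, Set.ncard_image_of_injective _ Nat.cast_injective]
  exact h1

theorem ud_of_listed {i j : ℤ} (h : Listed i j) : UD i j := by
  obtain ⟨u, hu, hi, hj⟩ := h
  have e2 : (2 : ℤ) * i = 2 ^ u * (2 : ℕ) := by rw [hi]; push_cast; ring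
  have e4 : (4 : ℤ) * i = 2 ^ u * (4 : ℕ) := by rw [hi]; push_cast; ring
  have e8 : (8 : ℤ) * i = 2 ^ u * (8 : ℕ) := by rw [hi]; push_cast; ring
  have e16 : (16 : ℤ) * i = 2 ^ u * (16 : ℕ) := by rw [hi]; push_cast; ring
  have e256 : (256 : ℤ) * i = 2 ^ u * (256 : ℕ) := by rw [hi]; push_cast; ring
  rcases hj with h | h | h | h | h
  · rw [e2] at h
    rw [h, hi]
    exact ud_cut u 2 hu (by norm_num) list2 cut2 adm2
  · rw [e4] at h
    rw [h, hi]
    exact ud_cut u 4 hu (by norm_num) list4 cut4 adm4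
  · rw [e8] at h
    rw [h, hi]
    exact ud_cut u 8 hu (by norm_num) list8 cut8 adm8
  · rw [e16] at h
    rw [h, hi]
    exact ud_cut u 16 hu (by norm_num) list16 cut16 adm16
  · rw [e256] at h
    rw [h, hi]
    exact ud_cut u 256 hu (by norm_num) list256 cut256 adm256

end Pool.Agent.SW
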