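import Pool.Agent.SW.MinorN
import Pool.Agent.SW.Maj
import Pool.Agent.SW.Mod
import Pool.Agent.SW.Tot

/-! SW/Uni.  The primes and the model have the same exponential sums up to `3 N/w`, for ALL `θ`.

PROOF.  `L = log N`, `W = primorial w`, `w1` from `tot_large (2w)` enlarged so that `W ≤ w1`; `N` large.
Dirichlet (`Real.exists_rat_abs_sub_le_and_den_le θ` with `n = ⌊N/L^16⌋ ≥ 1`): `θ = a/q + β`, `a = r.num`, `q = r.den ≤ N/L^16`,
`|β| ≤ 1/((n+1) q) ≤ L^16/(N q)`, also `≤ 1/q²` and `≤ 1/(2 q W)` for large `N`.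
(i) `q ≥ L^16`: `‖SL N θ‖ ≤ N/L` (`minor`), `q ∤ W` because `q > W`, `‖SM‖ ≤ C q ≤ C N/L^16` (`model_minor`).
(ii) `q < L^16`, `q ∣ W`: `q ≤ W ≤ w1`: `major w1`: `‖SL - cq q TT‖ ≤ N/L`; `model_major`: `‖SM - cq q TT‖ ≤ C (1 + L^16)`.
(iii) `q < L^16`, `q ∤ W`: `‖SM‖ ≤ C L^16`; `‖SL‖ ≤ ‖cq q‖ N + N/L + (N/w if q > w1)`, and `‖cq q‖ ≤ 1/w`: if `q` is squarefree and does not
divide `primorial w` it has a prime factor `p > w`, `φ(q) ≥ p - 1 ≥ w`; if `q` is not squarefree `μ(q) = 0`. -/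

set_option autoImplicit false

namespace Pool.Agent.SW

open Finset Pool.Agent.Helper98.Bern

private lemma uni_cq_le (w : ℕ) (hw : 2 ≤ w) (q : ℕ) (hq : 1 ≤ q) (hqw : ¬ q ∣ primorial w) :
    ‖cq q‖ ≤ 1 / (w : ℝ) := by
  unfold cq
  have hw0 : (0 : ℝ) < w := by exact_mod_cast (by omega : 0 < w)
  by_cases hs : Squarefree q
  · have : ∃ p : ℕ, p.Prime ∧ p ∣ q ∧ w < p := by
      by_contra hcon
      push Not at hcon
      apply hqw
      rw [← Nat.prod_primeFactors_of_squarefree hs]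
      unfold primorial
      apply Finset.prod_dvd_prod_of_subset
      intro p hp
      have hp' := Nat.mem_primeFactors.mp hp
      simp only [Finset.mem_filter, Finset.mem_range]
      exact ⟨Nat.lt_succ_of_le (hcon p hp'.1 hp'.2.1), hp'.1⟩
    obtain ⟨p, hp, hpq, hwp⟩ := this
    have h1 : (w : ℝ) ≤ (q.totient : ℝ) := by
      have : p.totient ∣ q.totient := Nat.totient_dvd_of_dvd hpq
      rw [Nat.totient_prime hp] at this
      have h2 : p - 1 ≤ q.totient := Nat.le_of_dvd (Nat.totient_pos.mpr hq) this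
      exact_mod_cast (by omega : w ≤ q.totient)
    have hq0 : (0 : ℝ) < (q.totient : ℝ) := lt_of_lt_of_le hw0 h1
    rw [norm_div]
    have h3 : ‖((ArithmeticFunction.moebius q : ℤ) : ℂ)‖ ≤ 1 := by
      rw [Complex.norm_intCast]
      exact_mod_cast ArithmeticFunction.abs_moebius_le_one
    rw [Complex.norm_natCast]
    calc ‖((ArithmeticFunction.moebius q : ℤ) : ℂ)‖ / (q.totient : ℝ)
        ≤ 1 / (q.totient : ℝ) := by
          exact div_le_div_of_nonneg_right h3 hq0.le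
      _ ≤ 1 / (w : ℝ) := one_div_le_one_div_of_le hw0 h1
  · rw [ArithmeticFunction.moebius_eq_zero_of_not_squarefree hs]
    simp

private lemma uni_ee_norm (t : ℝ) : ‖ee t‖ = 1 := by
  unfold ee
  have h : (2 * (Real.pi : ℂ) * (t : ℂ) * Complex.I) = ((2 * Real.pi * t : ℝ) : ℂ) * Complex.I := by
    push_cast
    ring
  rw [h, Complex.norm_exp_ofReal_mul_I]

private lemma uni_TT_norm (N : ℕ) (β : ℝ) : ‖TT N β‖ ≤ N := by
  unfold TT
  refine (norm_sum_le _ _).trans ?_
  have : ∀ n ∈ Ioc 0 N, ‖ee (n * β)‖ = 1 := fun n _ => uni_ee_norm _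
  rw [Finset.sum_congr rfl this]
  simp

private lemma uni_ev_log (c : ℝ) : ∀ᶠ N : ℕ in Filter.atTop, c ≤ Real.log (N : ℝ) :=
  (Real.tendsto_log_atTop.comp tendsto_natCast_atTop_atTop).eventually_ge_atTop c

private lemma uni_ev_pow (c : ℝ) (hc : 0 < c) :
    ∀ᶠ N : ℕ in Filter.atTop, Real.log (N : ℝ) ^ 16 ≤ c * (N : ℝ) := by
  have h := (Real.isLittleO_pow_log_id_atTop (n := 16)).comp_tendsto
    (tendsto_natCast_atTop_atTop (R := ℝ))
  have h2 := h.def hc
  filter_upwards [h2] with N hN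
  simp only [Function.comp, id] at hN
  rw [Real.norm_eq_abs, Real.norm_eq_abs, abs_of_nonneg (by positivity : (0 : ℝ) ≤ (N : ℝ))] at hN
  exact (le_abs_self _).trans hN

theorem uniform (w : ℕ) (hw : 2 ≤ w) : ∃ N0 : ℕ, ∀ N : ℕ, N0 ≤ N → ∀ θ : ℝ,
    ‖SL N θ - SM w N θ‖ ≤ 3 / w * N := by
  have hw0 : (0 : ℝ) < w := by exact_mod_cast (by omega : 0 < w)
  obtain ⟨w1', hw1'⟩ := tot_large (2 * w)
  set W : ℕ := primorial w with hWdef
  have hWpos : 0 < W := primorial_pos w
  have hW0 : (0 : ℝ) < W := by exact_mod_cast hWpos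
  obtain ⟨w1, hw1a, hw1b⟩ : ∃ w1 : ℕ, w1' ≤ w1 ∧ W ≤ w1 := ⟨max w1' W, le_max_left _ _, le_max_right _ _⟩
  obtain ⟨N1, hN1⟩ := minor
  obtain ⟨N2, hN2⟩ := major w1
  obtain ⟨C1, hC1, hmaj⟩ := model_major w
  obtain ⟨C2, hC2, hmin⟩ := model_minor w
  have e1 := Filter.eventually_ge_atTop (α := ℕ) N1
  have e2 := Filter.eventually_ge_atTop (α := ℕ) N2
  have e3 := uni_ev_log (2 * w + C2 * w + W + 1)
  have e4 := uni_ev_pow (1 / (2 * W + 1)) (by positivity)
  have e5 := uni_ev_pow (1 / (2 * w * (C1 + C2 + 1))) (by positivity)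
  have e6 := Filter.eventually_ge_atTop (α := ℕ) 1
  have e7 := (tendsto_natCast_atTop_atTop (R := ℝ)).eventually_ge_atTop (2 * w * C1)
  obtain ⟨N0, hN0⟩ := Filter.eventually_atTop.1
    (e1.and (e2.and (e3.and (e4.and (e5.and (e6.and e7))))))
  refine ⟨N0, fun N hN θ => ?_⟩
  obtain ⟨c1, c2, c3, c4, c5, c6, c7⟩ := hN0 N hN
  have hNpos : (0 : ℝ) < (N : ℝ) := by exact_mod_cast c6
  generalize hL : Real.log (N : ℝ) = L at c3 c4 c5
  have hL1 : 1 ≤ L := by
    have : 0 ≤ 2 * (w : ℝ) + C2 * w + W := by positivity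
    linarith
  have hL0 : 0 < L := by linarith
  have hLw : 2 * (w : ℝ) ≤ L := by
    have : 0 ≤ C2 * w + W + 1 := by positivity
    linarith
  have hLC : C2 * (w : ℝ) ≤ L := by
    have : 0 ≤ 2 * (w : ℝ) + W + 1 := by positivity
    linarith
  have hLW : (W : ℝ) < L := by
    have : 0 ≤ 2 * (w : ℝ) + C2 * w := by positivity
    linarith
  have hL16 : L ≤ L ^ 16 := by
    calc L = L ^ 1 := (pow_one L).symm
      _ ≤ L ^ 16 := pow_le_pow_right₀ hL1 (by norm_num)
  have hL16p : 0 < L ^ 16 := by positivity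
  -- the quotient N / L^16
  have hquot : (2 * W + 1 : ℝ) ≤ N / L ^ 16 := by
    rw [le_div_iff₀ hL16p]
    have h1 := c4
    rw [one_div, inv_mul_eq_div, le_div_iff₀ (by positivity)] at h1
    linarith
  have hCL : (C1 + C2 + 1) * L ^ 16 ≤ N / (2 * w) := by
    rw [le_div_iff₀ (by positivity)]
    have h1 := c5
    rw [one_div, inv_mul_eq_div, le_div_iff₀ (by positivity)] at h1
    linarith
  have hC1L : C1 * L ^ 16 ≤ N / (2 * w) := by
    refine le_trans ?_ hCL
    have : 0 ≤ (C2 + 1) * L ^ 16 := by positivity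
    nlinarith
  have hC2L : C2 * L ^ 16 ≤ N / (2 * w) := by
    refine le_trans ?_ hCL
    have : 0 ≤ (C1 + 1) * L ^ 16 := by positivity
    nlinarith
  have hC1N : C1 ≤ N / (2 * w) := by
    rw [le_div_iff₀ (by positivity)]
    linarith
  have hNL : (N : ℝ) / L ≤ N / (2 * w) := div_le_div_of_nonneg_left hNpos.le (by positivity) hLw
  have hhalf : (N : ℝ) / (2 * w) + N / (2 * w) = N / w := by
    field_simp
    norm_num
  set n : ℕ := ⌊(N : ℝ) / L ^ 16⌋₊ with hn
  have hn1 : 0 < n := by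
    rw [hn]
    apply Nat.floor_pos.mpr
    have : (0 : ℝ) ≤ 2 * W := by positivity
    linarith
  have hnle : (n : ℝ) ≤ N / L ^ 16 := Nat.floor_le (by positivity)
  have hnlt : (N : ℝ) / L ^ 16 < n + 1 := Nat.lt_floor_add_one _
  obtain ⟨r, hr1, hr2⟩ := Real.exists_rat_abs_sub_le_and_den_le θ hn1
  have hqpos : 1 ≤ r.den := r.pos
  have hcop : IsCoprime r.num (r.den : ℤ) := by
    rw [Int.isCoprime_iff_gcd_eq_one, Int.gcd_eq_natAbs, Int.natAbs_natCast]
    exact r.reduced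
  have hrcast : (r : ℝ) = (r.num : ℝ) / (r.den : ℝ) := Rat.cast_def r
  generalize hqdef : r.den = q at hr1 hr2 hqpos hcop hrcast
  generalize hadef : r.num = a at hcop hrcast
  have hq0 : (0 : ℝ) < (q : ℝ) := by exact_mod_cast hqpos
  have hq1 : (1 : ℝ) ≤ (q : ℝ) := by exact_mod_cast hqpos
  obtain ⟨β, hβ⟩ : ∃ β : ℝ, β = θ - (r : ℝ) := ⟨_, rfl⟩
  have hθ : θ = (a : ℝ) / q + β := by rw [hβ, hrcast]; ring
  rw [← hβ] at hr1
  have hqn : (q : ℝ) ≤ (n : ℝ) := by exact_mod_cast hr2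
  have hβ1 : |β| ≤ L ^ 16 / N := by
    refine hr1.trans ?_
    rw [div_le_div_iff₀ (by positivity) hNpos, one_mul]
    have h1 : (N : ℝ) ≤ L ^ 16 * (n + 1) := by
      rw [div_lt_iff₀ hL16p] at hnlt
      linarith
    calc (N : ℝ) ≤ L ^ 16 * (n + 1) := h1
      _ = L ^ 16 * ((n + 1) * 1) := by ring
      _ ≤ L ^ 16 * ((n + 1) * q) := by gcongr
  have hβ2 : |θ - a / q| ≤ 1 / (q : ℝ) ^ 2 := by
    have : θ - (a : ℝ) / q = β := by rw [hθ]; ring
    rw [this]
    refine hr1.trans ?_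
    apply one_div_le_one_div_of_le (by positivity)
    rw [pow_two]
    have : (q : ℝ) ≤ n + 1 := by linarith
    gcongr
  have hβ3 : |β| ≤ 1 / (2 * q * (W : ℝ)) := by
    refine hr1.trans ?_
    apply one_div_le_one_div_of_le (by positivity)
    have h1 : 2 * (W : ℝ) ≤ n + 1 := by linarith
    calc 2 * (q : ℝ) * W = (2 * W) * q := by ring
      _ ≤ (n + 1) * q := by gcongr
  have hβN : |β| * N ≤ L ^ 16 := by
    rw [le_div_iff₀ hNpos] at hβ1
    exact hβ1
  by_cases hcase : L ^ 16 ≤ (q : ℝ)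
  · -- minor arcs
    have hqle : (q : ℝ) ≤ N / L ^ 16 := hqn.trans hnle
    have h1 : ‖SL N θ‖ ≤ N / L := by
      have := hN1 N c1 θ a q hqpos hcop hβ2 (by rw [hL]; exact hcase) (by rw [hL]; exact hqle)
      rw [hL] at this
      exact this
    have hndvd : ¬ q ∣ W := by
      intro hd
      have : q ≤ W := Nat.le_of_dvd hWpos hd
      have : (q : ℝ) ≤ W := by exact_mod_cast this
      linarith
    have h2 : ‖SM w N θ‖ ≤ C2 * q := by
      rw [hθ]
      exact hmin q hqpos hndvd a hcop N β hβ3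
    have h3 : C2 * (q : ℝ) ≤ N / w := by
      calc C2 * (q : ℝ) ≤ C2 * (N / L ^ 16) := by gcongr
        _ = (C2 * N) / L ^ 16 := by ring
        _ ≤ N / w := by
          rw [div_le_div_iff₀ hL16p hw0]
          have : C2 * w ≤ L ^ 16 := hLC.trans hL16
          nlinarith
    calc ‖SL N θ - SM w N θ‖ ≤ ‖SL N θ‖ + ‖SM w N θ‖ := norm_sub_le _ _
      _ ≤ N / L + N / w := add_le_add h1 (h2.trans h3)
      _ ≤ N / (2 * w) + N / w := by linarith
      _ ≤ 3 / w * N := by
        have h5 : 0 ≤ (N : ℝ) / (2 * w) := by positivity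
        have h6 : (3 : ℝ) / w * N = 3 * (N / w) := by ring
        rw [h6]
        have h7 : 0 ≤ (N : ℝ) / w := by positivity
        linarith
  · push Not at hcase
    have hmj := hN2 N c2 q hqpos (by rw [hL]; exact hcase.le) a hcop β (by rw [hL]; exact hβ1)
    rw [hL, ← hθ] at hmj
    have h6 : (3 : ℝ) / w * N = 3 * (N / w) := by ring
    have h7 : 0 ≤ (N : ℝ) / w := by positivity
    by_cases hd : q ∣ W
    · have hqW : q ≤ w1 := (Nat.le_of_dvd hWpos hd).trans hw1b
      rw [if_pos hqW, add_zero] at hmj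
      have h2 := hmaj q hd a hcop N β hβ3
      rw [← hθ] at h2
      have h3 : C1 * (1 + |β| * N) ≤ N / w := by
        have : C1 * (|β| * N) ≤ C1 * L ^ 16 := by gcongr
        calc C1 * (1 + |β| * N) = C1 + C1 * (|β| * N) := by ring
          _ ≤ N / (2 * w) + N / (2 * w) := add_le_add hC1N (this.trans hC1L)
          _ = N / w := hhalf
      calc ‖SL N θ - SM w N θ‖ = ‖(SL N θ - cq q * TT N β) - (SM w N θ - cq q * TT N β)‖ := by
            congr 1
            ring
        _ ≤ ‖SL N θ - cq q * TT N β‖ + ‖SM w N θ - cq q * TT N β‖ := norm_sub_le _ _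
        _ ≤ N / L + C1 * (1 + |β| * N) := add_le_add hmj h2
        _ ≤ N / (2 * w) + N / w := add_le_add hNL h3
        _ ≤ 3 / w * N := by
          rw [h6]
          have : 0 ≤ (N : ℝ) / (2 * w) := by positivity
          linarith
    · have h2 : ‖SM w N θ‖ ≤ C2 * q := by
        rw [hθ]
        exact hmin q hqpos hd a hcop N β hβ3
      have h3 : C2 * (q : ℝ) ≤ N / (2 * w) := by
        refine le_trans ?_ hC2L
        gcongr
      have h4 : ‖cq q * TT N β‖ ≤ N / w := by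
        rw [norm_mul]
        calc ‖cq q‖ * ‖TT N β‖ ≤ 1 / (w : ℝ) * N :=
              mul_le_mul (uni_cq_le w hw q hqpos hd) (uni_TT_norm N β) (norm_nonneg _) (by positivity)
          _ = N / w := by ring
      have h5 : (if q ≤ w1 then (0 : ℝ) else 2 * √(q : ℝ) / (q.totient : ℝ) * N) ≤ N / w := by
        split_ifs with hqw
        · exact h7
        · push Not at hqw
          have ht := hw1' q (lt_of_le_of_lt hw1a hqw)
          have hs : 0 < √(q : ℝ) := Real.sqrt_pos.mpr hq0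
          have ht0 : (0 : ℝ) < (q.totient : ℝ) := lt_of_lt_of_le (by positivity) ht
          have : 2 * √(q : ℝ) / (q.totient : ℝ) ≤ 1 / w := by
            rw [div_le_div_iff₀ ht0 hw0]
            linarith
          calc 2 * √(q : ℝ) / (q.totient : ℝ) * N ≤ 1 / w * N := by gcongr
            _ = N / w := by ring
      have h8 : ‖SL N θ‖ ≤ N / w + (N / L + N / w) := by
        calc ‖SL N θ‖ = ‖cq q * TT N β + (SL N θ - cq q * TT N β)‖ := by
              congr 1
              ring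
          _ ≤ ‖cq q * TT N β‖ + ‖SL N θ - cq q * TT N β‖ := norm_add_le _ _
          _ ≤ N / w + (N / L + N / w) := add_le_add h4 (hmj.trans (add_le_add le_rfl h5))
      calc ‖SL N θ - SM w N θ‖ ≤ ‖SL N θ‖ + ‖SM w N θ‖ := norm_sub_le _ _
        _ ≤ (N / w + (N / L + N / w)) + N / (2 * w) := add_le_add h8 (h2.trans h3)
        _ ≤ (N / w + (N / (2 * w) + N / w)) + N / (2 * w) := by linarith
        _ = 3 / w * N := by
          rw [h6]
          linarith

end Pool.Agent.SW
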