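import Pool.Agent.SW.Geo

/-! SW/VinA.  Vinogradov's lemma.

PROOF.  Split `1..D` into at most `D/q + 1` blocks of at most `q` consecutive integers `d = d₀ + i`, `0 ≤ i < q`.  In a block
`d θ = d₀ θ + i a/q + i (θ - a/q)`, `|i (θ - a/q)| ≤ 1/q`; `i a mod q` runs through distinct residues `r` (`a` coprime to `q`), so with
`t = q d₀ θ` (a real number) the number `q d θ` is within distance `1` of `t + r` modulo `q`.  Hence for every integer `j` at most `4`
values of `i` have `q · (d θ mod 1) ∈ [j, j+1)`, and `∑_block mn X ≤ 8 X + 2 · 4 · ∑_{1 ≤ j ≤ q} q/j ≤ 8 X + 8 q (1 + log q)`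
(use `mn_le` for the `j` with `dn < 1/q`, `mn_le_inv` for the others).  Any constant `C` is fine (`log (2 q) ≥ log 2`). -/

set_option autoImplicit false

namespace Pool.Agent.SW

open Finset

private theorem vinA_dn_lip (x y : ℝ) : dn y - |x - y| ≤ dn x := by
  unfold dn
  have h1 := round_le y (round x)
  have h2 : |y - round x| ≤ |x - y| + |x - round x| := by
    have h3 : y - round x = -(x - y) + (x - round x) := by ring
    rw [h3]
    exact (abs_add_le _ _).trans (by rw [abs_neg])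
  linarith

/-- the balanced residue -/
private noncomputable def vinA_rho (q : ℕ) (m : ℤ) : ℤ := m - q * round ((m : ℝ) / q)

private theorem vinA_dn_rho {q : ℕ} (hq : 1 ≤ q) (m : ℤ) :
    dn ((m : ℝ) / q) = ((vinA_rho q m).natAbs : ℝ) / q := by
  have hq0 : (0 : ℝ) < q := by exact_mod_cast hq
  unfold dn vinA_rho
  rw [Nat.cast_natAbs]
  push_cast
  rw [← abs_of_pos hq0, ← abs_div, abs_of_pos hq0]
  congr 1
  field_simp

private theorem vinA_rho_le {q : ℕ} (hq : 1 ≤ q) (m : ℤ) : (vinA_rho q m).natAbs ≤ q := by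
  have hq0 : (0 : ℝ) < q := by exact_mod_cast hq
  have h1 := vinA_dn_rho hq m
  have h2 : dn ((m : ℝ) / q) ≤ 1 / 2 := abs_sub_round _
  rw [h1, div_le_iff₀ hq0] at h2
  have h3 : ((vinA_rho q m).natAbs : ℝ) ≤ q := by linarith
  exact_mod_cast h3

private theorem vinA_inj {q : ℕ} {a : ℤ} (hc : IsCoprime a (q : ℤ)) (n0 : ℤ) {i j : ℕ} (hi : i < q)
    (hj : j < q) (h : vinA_rho q (n0 + i * a) = vinA_rho q (n0 + j * a)) : i = j := by
  unfold vinA_rho at h
  have h1 : (q : ℤ) ∣ ((i : ℤ) - j) * a :=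
    ⟨round (((n0 + i * a : ℤ) : ℝ) / q) - round (((n0 + j * a : ℤ) : ℝ) / q), by linear_combination h⟩
  have h2 : (q : ℤ) ∣ ((i : ℤ) - j) := hc.symm.dvd_of_dvd_mul_right h1
  obtain ⟨k, hk⟩ := h2
  have h3 : k = 0 := by
    by_contra hk0
    rcases lt_or_gt_of_ne hk0 with h4 | h4
    · have : (q : ℤ) * k ≤ (q : ℤ) * (-1) := mul_le_mul_of_nonneg_left (by omega) (by positivity)
      omega
    · have : (q : ℤ) * 1 ≤ (q : ℤ) * k := mul_le_mul_of_nonneg_left (by omega) (by positivity)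
      omega
  rw [h3, mul_zero] at hk
  omega

/-- the majorant -/
private noncomputable def vinA_G (X : ℝ) (q j : ℕ) : ℝ :=
  (if j ≤ 2 then X else 0) + 3 * q * (1 / (j : ℝ))

private theorem vinA_G_nonneg {X : ℝ} (hX : 1 ≤ X) (q j : ℕ) : 0 ≤ vinA_G X q j := by
  unfold vinA_G
  have h1 : (0 : ℝ) ≤ if j ≤ 2 then X else 0 := by
    split_ifs
    · linarith
    · exact le_rfl
  positivity

private theorem vinA_term {θ : ℝ} {a : ℤ} {q : ℕ} (hq : 1 ≤ q)
    (hθ : |θ - a / q| ≤ 1 / (q : ℝ) ^ 2) {X : ℝ} (hX : 1 ≤ X) (d₀ i : ℕ) (hi : i < q) :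
    mn X (((d₀ + i : ℕ) : ℝ) * θ) ≤
      vinA_G X q (vinA_rho q (⌊(d₀ : ℝ) * θ * q⌋ + i * a)).natAbs := by
  have hq0 : (0 : ℝ) < q := by exact_mod_cast hq
  have hX0 : (0 : ℝ) < X := by linarith
  set n0 : ℤ := ⌊(d₀ : ℝ) * θ * q⌋ with hn0
  set m : ℤ := n0 + i * a with hm
  set j : ℕ := (vinA_rho q m).natAbs with hj
  unfold vinA_G
  by_cases h2 : j ≤ 2
  · rw [if_pos h2]
    have h3 : (0 : ℝ) ≤ 3 * q * (1 / (j : ℝ)) := by positivity
    have h4 := mn_le hX0 (((d₀ + i : ℕ) : ℝ) * θ)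
    linarith
  · rw [if_neg h2, zero_add]
    have hj3 : (3 : ℝ) ≤ j := by exact_mod_cast (by omega : 3 ≤ j)
    have hdiff : |((d₀ + i : ℕ) : ℝ) * θ - (m : ℝ) / q| ≤ 2 / q := by
      have e : ((d₀ + i : ℕ) : ℝ) * θ - (m : ℝ) / q =
          ((d₀ : ℝ) * θ * q - n0) / q + i * (θ - a / q) := by
        rw [hm]
        push_cast
        field_simp
        ring
      rw [e]
      refine (abs_add_le _ _).trans ?_
      have h5 : |((d₀ : ℝ) * θ * q - n0) / q| ≤ 1 / q := by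
        rw [abs_div, abs_of_pos hq0]
        gcongr
        rw [abs_le]
        constructor
        · have := Int.floor_le ((d₀ : ℝ) * θ * q)
          linarith
        · have := Int.lt_floor_add_one ((d₀ : ℝ) * θ * q)
          linarith
      have h6 : |(i : ℝ) * (θ - a / q)| ≤ 1 / q := by
        rw [abs_mul, abs_of_nonneg (by positivity : (0 : ℝ) ≤ (i : ℝ))]
        have hi' : (i : ℝ) ≤ q := by exact_mod_cast hi.le
        calc (i : ℝ) * |θ - a / q| ≤ q * (1 / (q : ℝ) ^ 2) := by gcongr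
          _ = 1 / q := by field_simp
      have h7 : (2 : ℝ) / q = 1 / q + 1 / q := by ring
      rw [h7]
      exact add_le_add h5 h6
    have h8 := vinA_dn_lip (((d₀ + i : ℕ) : ℝ) * θ) ((m : ℝ) / q)
    rw [vinA_dn_rho hq m, ← hj] at h8
    have h9 : (j : ℝ) / (3 * q) ≤ dn (((d₀ + i : ℕ) : ℝ) * θ) := by
      have h10 : (j : ℝ) / (3 * q) ≤ (j : ℝ) / q - 2 / q := by
        rw [← sub_div, div_le_div_iff₀ (by positivity) hq0]
        nlinarith
      linarith
    have h11 : (0 : ℝ) < (j : ℝ) / (3 * q) := by positivity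
    have h12 := mn_le_inv hX0 (lt_of_lt_of_le h11 h9)
    refine h12.trans ?_
    calc 1 / dn (((d₀ + i : ℕ) : ℝ) * θ) ≤ 1 / ((j : ℝ) / (3 * q)) := by gcongr
      _ = 3 * q * (1 / (j : ℝ)) := by field_simp

private theorem vinA_sumG {X : ℝ} (hX : 1 ≤ X) {q : ℕ} (hq : 1 ≤ q) :
    ∑ j ∈ range (q + 1), vinA_G X q j ≤ 3 * X + 6 * (q * Real.log (2 * q)) := by
  have hq1 : (1 : ℝ) ≤ q := by exact_mod_cast hq
  unfold vinA_G
  rw [Finset.sum_add_distrib, ← Finset.mul_sum]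
  have h1 : ∑ j ∈ range (q + 1), (if j ≤ 2 then X else 0) ≤ 3 * X := by
    rw [← Finset.sum_filter, Finset.sum_const, nsmul_eq_mul]
    have h2 : (((range (q + 1)).filter (fun j => j ≤ 2)).card : ℝ) ≤ 3 := by
      have h3 : ((range (q + 1)).filter (fun j => j ≤ 2)).card ≤ (range 3).card := by
        apply Finset.card_le_card
        intro j hj
        rw [mem_filter] at hj
        rw [mem_range]
        omega
      rw [card_range] at h3
      exact_mod_cast h3
    gcongr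
  have h4 : ∑ j ∈ range (q + 1), (1 / (j : ℝ)) ≤ 1 + Real.log q := by
    rw [Finset.sum_range_succ']
    have h5 := harmonic_le_one_add_log q
    have h6 : ((harmonic q : ℚ) : ℝ) = ∑ j ∈ range q, (1 / ((j + 1 : ℕ) : ℝ)) := by
      unfold harmonic
      push_cast
      refine Finset.sum_congr rfl fun j _ => ?_
      rw [one_div]
    rw [h6] at h5
    simpa using h5
  have h7 : 1 + Real.log q ≤ 2 * Real.log (2 * q) := by
    rw [Real.log_mul (by norm_num) (by positivity)]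
    have h8 := Real.log_two_gt_d9
    have h9 : 0 ≤ Real.log q := Real.log_nonneg hq1
    linarith
  have h10 : 3 * (q : ℝ) * ∑ j ∈ range (q + 1), (1 / (j : ℝ)) ≤ 3 * q * (2 * Real.log (2 * q)) := by
    have := h4.trans h7
    gcongr
  linarith

private theorem vinA_half {q : ℕ} {X : ℝ} (hX : 1 ≤ X) (S : Finset ℕ) (r : ℕ → ℕ)
    (hr : ∀ i ∈ S, r i ≤ q) (hinj : ∀ i ∈ S, ∀ j ∈ S, r i = r j → i = j) :
    ∑ i ∈ S, vinA_G X q (r i) ≤ ∑ j ∈ range (q + 1), vinA_G X q j := by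
  rw [← Finset.sum_image (f := fun j => vinA_G X q j) (g := r) (s := S) hinj]
  apply Finset.sum_le_sum_of_subset_of_nonneg
  · intro j hj
    obtain ⟨i, hi, rfl⟩ := mem_image.1 hj
    rw [mem_range]
    have := hr i hi
    omega
  · intro j _ _
    exact vinA_G_nonneg hX q j

private theorem vinA_block {θ : ℝ} {a : ℤ} {q : ℕ} (hq : 1 ≤ q) (hc : IsCoprime a (q : ℤ))
    (hθ : |θ - a / q| ≤ 1 / (q : ℝ) ^ 2) {X : ℝ} (hX : 1 ≤ X) (d₀ : ℕ) :
    ∑ i ∈ range q, mn X (((d₀ + i : ℕ) : ℝ) * θ) ≤ 12 * (X + q * Real.log (2 * q)) := by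
  set r : ℕ → ℤ := fun i => vinA_rho q (⌊(d₀ : ℝ) * θ * q⌋ + i * a) with hr
  have h1 : ∑ i ∈ range q, mn X (((d₀ + i : ℕ) : ℝ) * θ) ≤ ∑ i ∈ range q, vinA_G X q (r i).natAbs :=
    Finset.sum_le_sum fun i hi => vinA_term hq hθ hX d₀ i (mem_range.1 hi)
  have h2 : ∑ i ∈ range q, vinA_G X q (r i).natAbs =
      ∑ i ∈ (range q).filter (fun i => 0 ≤ r i), vinA_G X q (r i).natAbs +
      ∑ i ∈ (range q).filter (fun i => ¬ 0 ≤ r i), vinA_G X q (r i).natAbs :=
    (Finset.sum_filter_add_sum_filter_not _ _ _).symm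
  have h3 := vinA_half (q := q) hX ((range q).filter (fun i => 0 ≤ r i)) (fun i => (r i).natAbs)
    (fun i _ => vinA_rho_le hq _) (fun i hi j hj h => by
      rw [mem_filter, mem_range] at hi hj
      refine vinA_inj hc ⌊(d₀ : ℝ) * θ * q⌋ hi.1 hj.1 ?_
      have h4 : r i = r j := by
        omega
      exact h4)
  have h4 := vinA_half (q := q) hX ((range q).filter (fun i => ¬ 0 ≤ r i)) (fun i => (r i).natAbs)
    (fun i _ => vinA_rho_le hq _) (fun i hi j hj h => by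
      rw [mem_filter, mem_range] at hi hj
      refine vinA_inj hc ⌊(d₀ : ℝ) * θ * q⌋ hi.1 hj.1 ?_
      have h4 : r i = r j := by
        omega
      exact h4)
  have h5 := vinA_sumG hX hq
  have h6 : 0 ≤ (q : ℝ) * Real.log (2 * q) := by
    have hq1 : (1 : ℝ) ≤ q := by exact_mod_cast hq
    exact mul_nonneg (by positivity) (Real.log_nonneg (by linarith))
  linarith

theorem vin_a : ∃ C : ℝ, 0 < C ∧ ∀ (θ : ℝ) (a : ℤ) (q : ℕ), 1 ≤ q → IsCoprime a (q : ℤ) →
    |θ - a / q| ≤ 1 / (q : ℝ) ^ 2 → ∀ X : ℝ, 1 ≤ X → ∀ D : ℕ,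
    ∑ d ∈ Icc 1 D, mn X (d * θ) ≤ C * ((D : ℝ) / q + 1) * (X + q * Real.log (2 * q)) := by
  refine ⟨12, by norm_num, ?_⟩
  intro θ a q hq hc hθ X hX D
  have hX0 : (0 : ℝ) < X := by linarith
  have hq0 : (0 : ℝ) < q := by exact_mod_cast hq
  have hblocks : ∀ K : ℕ, ∑ d ∈ range (K * q), mn X ((d : ℝ) * θ) ≤
      K * (12 * (X + q * Real.log (2 * q))) := by
    intro K
    induction K with
    | zero => simp
    | succ K ih =>
      rw [add_mul, one_mul, Finset.sum_range_add]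
      have h1 := vinA_block hq hc hθ hX (K * q)
      push_cast at h1 ih ⊢
      linarith
  have h2 : ∑ d ∈ Icc 1 D, mn X (d * θ) ≤ ∑ d ∈ range ((D / q + 1) * q), mn X ((d : ℝ) * θ) := by
    apply Finset.sum_le_sum_of_subset_of_nonneg
    · intro d hd
      rw [mem_Icc] at hd
      rw [mem_range]
      have h3 := Nat.lt_div_mul_add (a := D) (b := q) (by omega)
      have h4 : (D / q + 1) * q = D / q * q + q := by ring
      omega
    · intro d _ _
      exact (mn_pos hX0 _).le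
  have h3 := hblocks (D / q + 1)
  have h4 : ((D / q + 1 : ℕ) : ℝ) ≤ (D : ℝ) / q + 1 := by
    push_cast
    have := @Nat.cast_div_le ℝ _ _ _ D q
    linarith
  have h6 : 0 ≤ (q : ℝ) * Real.log (2 * q) := by
    have hq1 : (1 : ℝ) ≤ q := by exact_mod_cast hq
    exact mul_nonneg (by positivity) (Real.log_nonneg (by linarith))
  calc ∑ d ∈ Icc 1 D, mn X (d * θ) ≤ ((D / q + 1 : ℕ) : ℝ) * (12 * (X + q * Real.log (2 * q))) :=
        h2.trans h3
    _ ≤ ((D : ℝ) / q + 1) * (12 * (X + q * Real.log (2 * q))) := by gcongr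
    _ = 12 * ((D : ℝ) / q + 1) * (X + q * Real.log (2 * q)) := by ring

end Pool.Agent.SW
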