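import Pool.Agent.SW.VinA

/-! SW/VinB.  Vinogradov's lemma with the weights `N/d`.

PROOF.  (i) `1 ≤ d ≤ q/2`: `dn (d θ) ≥ dn (d a/q) - d/q² ≥ r/(2q)` where `r = ` the distance of `d a` to the next multiple of `q`
(`r ≥ 1`), the residues `d a` are distinct, so `∑ 1/dn ≤ 2 ∑_{1 ≤ r ≤ q/2} 2q/r ≤ 4 q (1 + log q)`.
(ii) the other `d`: blocks `d ∈ (j q/2 …]`: it is enough to use the blocks `(j h, (j+1) h]`, `h = q` if `q ≥ 2` (or treat `q = 1`
separately: then `N/q = N` and `∑ N/d ≤ N (1 + log D)` is enough), `j ≥ 1`, with `mn (N/d) ≤ mn (N/(j h))` (`mn_mono`) and one block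
bound `≤ C (N/(j q) + q log (2q))` (from `vin_a` applied to differences? `vin_a` is stated for `1..D`; a block version is proved in the
same way, or use: for `d ∈ (q/2, D]`, Abel summation `∑_{d ≤ D} mn (N/d) (dθ) ≤ ∑_{i} ∑_{2^i ≤ d < 2^(i+1)} mn (N/2^i) (d θ)
≤ ∑_i C (2^(i+1)/q + 1) (N/2^i + q log 2q)` over the dyadic `2^i ≥ q/4`: this needs only `vin_a`, and gives
`≤ C' (N/q + D + q) log N`; for the dyadic blocks `2^i < q/4` use (i)). -/

set_option autoImplicit false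

namespace Pool.Agent.SW

open Finset

private theorem vinB_dn_lip (x y : ℝ) : dn y - |x - y| ≤ dn x := by
  unfold dn
  have h1 := round_le y (round x)
  have h2 : |y - round x| ≤ |x - y| + |x - round x| := by
    have h3 : y - round x = -(x - y) + (x - round x) := by ring
    rw [h3]
    exact (abs_add_le _ _).trans (by rw [abs_neg])
  linarith

/-- the balanced residue -/
private noncomputable def vinB_rho (q : ℕ) (m : ℤ) : ℤ := m - q * round ((m : ℝ) / q)

private theorem vinB_dn_rho {q : ℕ} (hq : 1 ≤ q) (m : ℤ) :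
    dn ((m : ℝ) / q) = ((vinB_rho q m).natAbs : ℝ) / q := by
  have hq0 : (0 : ℝ) < q := by exact_mod_cast hq
  unfold dn vinB_rho
  rw [Nat.cast_natAbs]
  push_cast
  rw [← abs_of_pos hq0, ← abs_div, abs_of_pos hq0]
  congr 1
  field_simp

private theorem vinB_rho_le {q : ℕ} (hq : 1 ≤ q) (m : ℤ) : (vinB_rho q m).natAbs ≤ q := by
  have hq0 : (0 : ℝ) < q := by exact_mod_cast hq
  have h1 := vinB_dn_rho hq m
  have h2 : dn ((m : ℝ) / q) ≤ 1 / 2 := abs_sub_round _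
  rw [h1, div_le_iff₀ hq0] at h2
  have h3 : ((vinB_rho q m).natAbs : ℝ) ≤ q := by linarith
  exact_mod_cast h3

private theorem vinB_inj {q : ℕ} {a : ℤ} (hc : IsCoprime a (q : ℤ)) (n0 : ℤ) {i j : ℕ} (hi : i < q)
    (hj : j < q) (h : vinB_rho q (n0 + i * a) = vinB_rho q (n0 + j * a)) : i = j := by
  unfold vinB_rho at h
  have h1 : (q : ℤ) ∣ ((i : ℤ) - j) * a :=
    ⟨round (((n0 + i * a : ℤ) : ℝ) / q) - round (((n0 + j * a : ℤ) : ℝ) / q), by linear_combination h⟩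
  have h2 : (q : ℤ) ∣ ((i : ℤ) - j) := hc.symm.dvd_of_dvd_mul_right h1
  obtain ⟨k, hk⟩ := h2
  have h3 : k = 0 := by
    by_contra hk0
    rcases lt_or_gt_of_ne hk0 with h4 | h4
    · have : (q : ℤ) * k ≤ (q : ℤ) * (-1) := mul_le_mul_of_nonneg_left (by omega) (by positivity)
      omega
    · have : (q : ℤ) * 1 ≤ (q : ℤ) * k := mul_le_mul_of_nonneg_left (by omega) (by positivity)
      omega
  rw [h3, mul_zero] at hk
  omega

/-- the majorant -/
private noncomputable def vinB_G (X : ℝ) (q j : ℕ) : ℝ :=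
  (if j ≤ 2 then X else 0) + 3 * q * (1 / (j : ℝ))

private theorem vinB_G_nonneg {X : ℝ} (hX : 1 ≤ X) (q j : ℕ) : 0 ≤ vinB_G X q j := by
  unfold vinB_G
  have h1 : (0 : ℝ) ≤ if j ≤ 2 then X else 0 := by
    split_ifs
    · linarith
    · exact le_rfl
  positivity

private theorem vinB_term {θ : ℝ} {a : ℤ} {q : ℕ} (hq : 1 ≤ q)
    (hθ : |θ - a / q| ≤ 1 / (q : ℝ) ^ 2) {X : ℝ} (hX : 1 ≤ X) (d₀ i : ℕ) (hi : i < q) :
    mn X (((d₀ + i : ℕ) : ℝ) * θ) ≤
      vinB_G X q (vinB_rho q (⌊(d₀ : ℝ) * θ * q⌋ + i * a)).natAbs := by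
  have hq0 : (0 : ℝ) < q := by exact_mod_cast hq
  have hX0 : (0 : ℝ) < X := by linarith
  set n0 : ℤ := ⌊(d₀ : ℝ) * θ * q⌋ with hn0
  set m : ℤ := n0 + i * a with hm
  set j : ℕ := (vinB_rho q m).natAbs with hj
  unfold vinB_G
  by_cases h2 : j ≤ 2
  · rw [if_pos h2]
    have h3 : (0 : ℝ) ≤ 3 * q * (1 / (j : ℝ)) := by positivity
    have h4 := mn_le hX0 (((d₀ + i : ℕ) : ℝ) * θ)
    linarith
  · rw [if_neg h2, zero_add]
    have hj3 : (3 : ℝ) ≤ j := by exact_mod_cast (by omega : 3 ≤ j)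
    have hdiff : |((d₀ + i : ℕ) : ℝ) * θ - (m : ℝ) / q| ≤ 2 / q := by
      have e : ((d₀ + i : ℕ) : ℝ) * θ - (m : ℝ) / q =
          ((d₀ : ℝ) * θ * q - n0) / q + i * (θ - a / q) := by
        rw [hm]
        push_cast
        field_simp
        ring
      rw [e]
      refine (abs_add_le _ _).trans ?_
      have h5 : |((d₀ : ℝ) * θ * q - n0) / q| ≤ 1 / q := by
        rw [abs_div, abs_of_pos hq0]
        gcongr
        rw [abs_le]
        constructor
        · have := Int.floor_le ((d₀ : ℝ) * θ * q)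
          linarith
        · have := Int.lt_floor_add_one ((d₀ : ℝ) * θ * q)
          linarith
      have h6 : |(i : ℝ) * (θ - a / q)| ≤ 1 / q := by
        rw [abs_mul, abs_of_nonneg (by positivity : (0 : ℝ) ≤ (i : ℝ))]
        have hi' : (i : ℝ) ≤ q := by exact_mod_cast hi.le
        calc (i : ℝ) * |θ - a / q| ≤ q * (1 / (q : ℝ) ^ 2) := by gcongr
          _ = 1 / q := by field_simp
      have h7 : (2 : ℝ) / q = 1 / q + 1 / q := by ring
      rw [h7]
      exact add_le_add h5 h6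
    have h8 := vinB_dn_lip (((d₀ + i : ℕ) : ℝ) * θ) ((m : ℝ) / q)
    rw [vinB_dn_rho hq m, ← hj] at h8
    have h9 : (j : ℝ) / (3 * q) ≤ dn (((d₀ + i : ℕ) : ℝ) * θ) := by
      have h10 : (j : ℝ) / (3 * q) ≤ (j : ℝ) / q - 2 / q := by
        rw [← sub_div, div_le_div_iff₀ (by positivity) hq0]
        nlinarith
      linarith
    have h11 : (0 : ℝ) < (j : ℝ) / (3 * q) := by positivity
    have h12 := mn_le_inv hX0 (lt_of_lt_of_le h11 h9)
    refine h12.trans ?_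
    calc 1 / dn (((d₀ + i : ℕ) : ℝ) * θ) ≤ 1 / ((j : ℝ) / (3 * q)) := by gcongr
      _ = 3 * q * (1 / (j : ℝ)) := by field_simp

private theorem vinB_sumG {X : ℝ} (hX : 1 ≤ X) {q : ℕ} (hq : 1 ≤ q) :
    ∑ j ∈ range (q + 1), vinB_G X q j ≤ 3 * X + 6 * (q * Real.log (2 * q)) := by
  have hq1 : (1 : ℝ) ≤ q := by exact_mod_cast hq
  unfold vinB_G
  rw [Finset.sum_add_distrib, ← Finset.mul_sum]
  have h1 : ∑ j ∈ range (q + 1), (if j ≤ 2 then X else 0) ≤ 3 * X := by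
    rw [← Finset.sum_filter, Finset.sum_const, nsmul_eq_mul]
    have h2 : (((range (q + 1)).filter (fun j => j ≤ 2)).card : ℝ) ≤ 3 := by
      have h3 : ((range (q + 1)).filter (fun j => j ≤ 2)).card ≤ (range 3).card := by
        apply Finset.card_le_card
        intro j hj
        rw [mem_filter] at hj
        rw [mem_range]
        omega
      rw [card_range] at h3
      exact_mod_cast h3
    gcongr
  have h4 : ∑ j ∈ range (q + 1), (1 / (j : ℝ)) ≤ 1 + Real.log q := by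
    rw [Finset.sum_range_succ']
    have h5 := harmonic_le_one_add_log q
    have h6 : ((harmonic q : ℚ) : ℝ) = ∑ j ∈ range q, (1 / ((j + 1 : ℕ) : ℝ)) := by
      unfold harmonic
      push_cast
      refine Finset.sum_congr rfl fun j _ => ?_
      rw [one_div]
    rw [h6] at h5
    simpa using h5
  have h7 : 1 + Real.log q ≤ 2 * Real.log (2 * q) := by
    rw [Real.log_mul (by norm_num) (by positivity)]
    have h8 := Real.log_two_gt_d9
    have h9 : 0 ≤ Real.log q := Real.log_nonneg hq1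
    linarith
  have h10 : 3 * (q : ℝ) * ∑ j ∈ range (q + 1), (1 / (j : ℝ)) ≤ 3 * q * (2 * Real.log (2 * q)) := by
    have := h4.trans h7
    gcongr
  linarith

private theorem vinB_half {q : ℕ} {X : ℝ} (hX : 1 ≤ X) (S : Finset ℕ) (r : ℕ → ℕ)
    (hr : ∀ i ∈ S, r i ≤ q) (hinj : ∀ i ∈ S, ∀ j ∈ S, r i = r j → i = j) :
    ∑ i ∈ S, vinB_G X q (r i) ≤ ∑ j ∈ range (q + 1), vinB_G X q j := by
  rw [← Finset.sum_image (f := fun j => vinB_G X q j) (g := r) (s := S) hinj]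
  apply Finset.sum_le_sum_of_subset_of_nonneg
  · intro j hj
    obtain ⟨i, hi, rfl⟩ := mem_image.1 hj
    rw [mem_range]
    have := hr i hi
    omega
  · intro j _ _
    exact vinB_G_nonneg hX q j

private theorem vinB_block {θ : ℝ} {a : ℤ} {q : ℕ} (hq : 1 ≤ q) (hc : IsCoprime a (q : ℤ))
    (hθ : |θ - a / q| ≤ 1 / (q : ℝ) ^ 2) {X : ℝ} (hX : 1 ≤ X) (d₀ : ℕ) :
    ∑ i ∈ range q, mn X (((d₀ + i : ℕ) : ℝ) * θ) ≤ 12 * (X + q * Real.log (2 * q)) := by
  set r : ℕ → ℤ := fun i => vinB_rho q (⌊(d₀ : ℝ) * θ * q⌋ + i * a) with hr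
  have h1 : ∑ i ∈ range q, mn X (((d₀ + i : ℕ) : ℝ) * θ) ≤ ∑ i ∈ range q, vinB_G X q (r i).natAbs :=
    Finset.sum_le_sum fun i hi => vinB_term hq hθ hX d₀ i (mem_range.1 hi)
  have h2 : ∑ i ∈ range q, vinB_G X q (r i).natAbs =
      ∑ i ∈ (range q).filter (fun i => 0 ≤ r i), vinB_G X q (r i).natAbs +
      ∑ i ∈ (range q).filter (fun i => ¬ 0 ≤ r i), vinB_G X q (r i).natAbs :=
    (Finset.sum_filter_add_sum_filter_not _ _ _).symm
  have h3 := vinB_half (q := q) hX ((range q).filter (fun i => 0 ≤ r i)) (fun i => (r i).natAbs)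
    (fun i _ => vinB_rho_le hq _) (fun i hi j hj h => by
      rw [mem_filter, mem_range] at hi hj
      refine vinB_inj hc ⌊(d₀ : ℝ) * θ * q⌋ hi.1 hj.1 ?_
      have h4 : r i = r j := by
        omega
      exact h4)
  have h4 := vinB_half (q := q) hX ((range q).filter (fun i => ¬ 0 ≤ r i)) (fun i => (r i).natAbs)
    (fun i _ => vinB_rho_le hq _) (fun i hi j hj h => by
      rw [mem_filter, mem_range] at hi hj
      refine vinB_inj hc ⌊(d₀ : ℝ) * θ * q⌋ hi.1 hj.1 ?_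
      have h4 : r i = r j := by
        omega
      exact h4)
  have h5 := vinB_sumG hX hq
  have h6 : 0 ≤ (q : ℝ) * Real.log (2 * q) := by
    have hq1 : (1 : ℝ) ≤ q := by exact_mod_cast hq
    exact mul_nonneg (by positivity) (Real.log_nonneg (by linarith))
  linarith

private theorem vinB_harm (q : ℕ) : ∑ j ∈ range (q + 1), (1 / (j : ℝ)) ≤ 1 + Real.log q := by
  rw [Finset.sum_range_succ']
  have h5 := harmonic_le_one_add_log q
  have h6 : ((harmonic q : ℚ) : ℝ) = ∑ j ∈ range q, (1 / ((j + 1 : ℕ) : ℝ)) := by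
    unfold harmonic
    push_cast
    refine Finset.sum_congr rfl fun j _ => ?_
    rw [one_div]
  rw [h6] at h5
  simpa using h5

private theorem vinB_inv {q : ℕ} (S : Finset ℕ) (r : ℕ → ℕ)
    (hr : ∀ i ∈ S, r i ≤ q) (hinj : ∀ i ∈ S, ∀ j ∈ S, r i = r j → i = j) :
    ∑ i ∈ S, (1 / (r i : ℝ)) ≤ 1 + Real.log q := by
  refine le_trans ?_ (vinB_harm q)
  rw [← Finset.sum_image (f := fun j : ℕ => (1 / (j : ℝ))) (g := r) (s := S) hinj]
  apply Finset.sum_le_sum_of_subset_of_nonneg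
  · intro j hj
    obtain ⟨i, hi, rfl⟩ := mem_image.1 hj
    rw [mem_range]
    have := hr i hi
    omega
  · intro j _ _
    positivity

private theorem vinB_small_term {θ : ℝ} {a : ℤ} {q : ℕ} (hq : 1 ≤ q) (hc : IsCoprime a (q : ℤ))
    (hθ : |θ - a / q| ≤ 1 / (q : ℝ) ^ 2) {N : ℕ} (hN : 2 ≤ N) {d : ℕ} (hd0 : 1 ≤ d) (hd : 2 * d ≤ q) :
    mn ((N : ℝ) / d) ((d : ℝ) * θ) ≤
      2 * q * (1 / ((vinB_rho q ((0 : ℤ) + d * a)).natAbs : ℝ)) := by
  have hq0 : (0 : ℝ) < q := by exact_mod_cast hq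
  have hd1 : (0 : ℝ) < d := by exact_mod_cast hd0
  have hX0 : (0 : ℝ) < (N : ℝ) / d := by
    have : (0 : ℝ) < N := by exact_mod_cast (by omega : 0 < N)
    positivity
  set m : ℤ := (0 : ℤ) + d * a with hm
  set j : ℕ := (vinB_rho q m).natAbs with hj
  have hj1 : 1 ≤ j := by
    by_contra hcon
    have h0 : j = 0 := by omega
    rw [hj, Int.natAbs_eq_zero] at h0
    have h1 : vinB_rho q ((0 : ℤ) + (d : ℕ) * a) = vinB_rho q ((0 : ℤ) + (0 : ℕ) * a) := by
      rw [← hm, h0]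
      unfold vinB_rho
      simp
    have h2 := vinB_inj hc 0 (i := d) (j := 0) (by omega) (by omega) h1
    omega
  have hj1' : (1 : ℝ) ≤ j := by exact_mod_cast hj1
  have hdq : (2 : ℝ) * d ≤ q := by exact_mod_cast hd
  have hdiff : |(d : ℝ) * θ - (m : ℝ) / q| ≤ 1 / (2 * q) := by
    have e : (d : ℝ) * θ - (m : ℝ) / q = d * (θ - a / q) := by
      rw [hm]
      push_cast
      field_simp
      ring
    rw [e, abs_mul, abs_of_pos hd1]
    calc (d : ℝ) * |θ - a / q| ≤ (q / 2) * (1 / (q : ℝ) ^ 2) := by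
          gcongr
          linarith
      _ = 1 / (2 * q) := by field_simp
  have h8 := vinB_dn_lip ((d : ℝ) * θ) ((m : ℝ) / q)
  rw [vinB_dn_rho hq m, ← hj] at h8
  have h9 : (j : ℝ) / (2 * q) ≤ dn ((d : ℝ) * θ) := by
    have h10 : (j : ℝ) / (2 * q) ≤ (j : ℝ) / q - 1 / (2 * q) := by
      have e1 : (j : ℝ) / q = 2 * j / (2 * q) := by
        field_simp
      rw [e1, ← sub_div]
      gcongr
      linarith
    linarith
  have h11 : (0 : ℝ) < (j : ℝ) / (2 * q) := by positivity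
  have h12 := mn_le_inv hX0 (lt_of_lt_of_le h11 h9)
  refine h12.trans ?_
  calc 1 / dn ((d : ℝ) * θ) ≤ 1 / ((j : ℝ) / (2 * q)) := by gcongr
    _ = 2 * q * (1 / (j : ℝ)) := by field_simp

private theorem vinB_small {θ : ℝ} {a : ℤ} {q : ℕ} (hq : 1 ≤ q) (hc : IsCoprime a (q : ℤ))
    (hθ : |θ - a / q| ≤ 1 / (q : ℝ) ^ 2) {N : ℕ} (hN : 2 ≤ N) :
    ∑ d ∈ (Icc 1 q).filter (fun d => 2 * d ≤ q), mn ((N : ℝ) / d) ((d : ℝ) * θ) ≤
      4 * q * (1 + Real.log q) := by
  have hq0 : (0 : ℝ) < q := by exact_mod_cast hq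
  set S := (Icc 1 q).filter (fun d => 2 * d ≤ q) with hS
  have hSm : ∀ d ∈ S, 1 ≤ d ∧ 2 * d ≤ q := by
    intro d hd
    rw [hS, mem_filter, mem_Icc] at hd
    exact ⟨hd.1.1, hd.2⟩
  set r : ℕ → ℤ := fun i => vinB_rho q ((0 : ℤ) + i * a) with hr
  have h1 : ∑ d ∈ S, mn ((N : ℝ) / d) ((d : ℝ) * θ) ≤ ∑ d ∈ S, 2 * q * (1 / ((r d).natAbs : ℝ)) :=
    Finset.sum_le_sum fun d hd => vinB_small_term hq hc hθ hN (hSm d hd).1 (hSm d hd).2
  have h2 : ∑ d ∈ S, 2 * (q : ℝ) * (1 / ((r d).natAbs : ℝ)) =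
      2 * q * (∑ i ∈ S.filter (fun i => 0 ≤ r i), (1 / ((r i).natAbs : ℝ)) +
      ∑ i ∈ S.filter (fun i => ¬ 0 ≤ r i), (1 / ((r i).natAbs : ℝ))) := by
    rw [Finset.sum_filter_add_sum_filter_not, ← Finset.mul_sum]
  have h3 := vinB_inv (q := q) (S.filter (fun i => 0 ≤ r i)) (fun i => (r i).natAbs)
    (fun i _ => vinB_rho_le hq _) (fun i hi j hj h => by
      rw [mem_filter] at hi hj
      have a1 := hSm i hi.1
      have a2 := hSm j hj.1
      refine vinB_inj hc 0 (by omega) (by omega) ?_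
      have h4 : r i = r j := by
        omega
      exact h4)
  have h4 := vinB_inv (q := q) (S.filter (fun i => ¬ 0 ≤ r i)) (fun i => (r i).natAbs)
    (fun i _ => vinB_rho_le hq _) (fun i hi j hj h => by
      rw [mem_filter] at hi hj
      have a1 := hSm i hi.1
      have a2 := hSm j hj.1
      refine vinB_inj hc 0 (by omega) (by omega) ?_
      have h4 : r i = r j := by
        omega
      exact h4)
  rw [h2] at h1
  refine h1.trans ?_
  calc 2 * (q : ℝ) * (∑ i ∈ S.filter (fun i => 0 ≤ r i), (1 / ((r i).natAbs : ℝ)) +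
      ∑ i ∈ S.filter (fun i => ¬ 0 ≤ r i), (1 / ((r i).natAbs : ℝ)))
      ≤ 2 * q * ((1 + Real.log q) + (1 + Real.log q)) := by
        gcongr
    _ = 4 * q * (1 + Real.log q) := by ring

private theorem vinB_first {θ : ℝ} {a : ℤ} {q : ℕ} (hq : 1 ≤ q) (hc : IsCoprime a (q : ℤ))
    (hθ : |θ - a / q| ≤ 1 / (q : ℝ) ^ 2) {N : ℕ} (hN : 2 ≤ N) (hqN : q ≤ N) :
    ∑ d ∈ range q, mn ((N : ℝ) / d) ((d : ℝ) * θ) ≤
      4 * q * (1 + Real.log q) + 12 * (2 * N / q + q * Real.log (2 * q)) := by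
  have hq0 : (0 : ℝ) < q := by exact_mod_cast hq
  have hN0 : (0 : ℝ) < N := by exact_mod_cast (by omega : 0 < N)
  have hmn0 : ∀ d : ℕ, 0 ≤ mn ((N : ℝ) / d) ((d : ℝ) * θ) := by
    intro d
    unfold mn
    positivity
  have hX : (1 : ℝ) ≤ 2 * N / q := by
    rw [one_le_div hq0]
    have : (q : ℝ) ≤ N := by exact_mod_cast hqN
    linarith
  rw [← Finset.sum_filter_add_sum_filter_not (range q) (fun d => 2 * d ≤ q)]
  refine add_le_add ?_ ?_
  · refine le_trans ?_ (vinB_small hq hc hθ hN)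
    have h0 : ∑ d ∈ (range q).filter (fun d => 2 * d ≤ q), mn ((N : ℝ) / d) ((d : ℝ) * θ) ≤
        ∑ d ∈ insert 0 ((Icc 1 q).filter (fun d => 2 * d ≤ q)), mn ((N : ℝ) / d) ((d : ℝ) * θ) := by
      apply Finset.sum_le_sum_of_subset_of_nonneg
      · intro d hd
        rw [mem_filter, mem_range] at hd
        rw [mem_insert, mem_filter, mem_Icc]
        omega
      · intro d _ _
        exact hmn0 d
    refine h0.trans (le_of_eq ?_)
    rw [Finset.sum_insert]
    · have h1 : mn ((N : ℝ) / (0 : ℕ)) (((0 : ℕ) : ℝ) * θ) = 0 := by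
        unfold mn
        simp
      rw [h1, zero_add]
    · intro h
      rw [mem_filter, mem_Icc] at h
      omega
  · have hb := vinB_block hq hc hθ hX 0
    refine le_trans ?_ hb
    calc ∑ d ∈ (range q).filter (fun d => ¬ 2 * d ≤ q), mn ((N : ℝ) / d) ((d : ℝ) * θ)
        ≤ ∑ d ∈ (range q).filter (fun d => ¬ 2 * d ≤ q), mn (2 * N / q) (((0 + d : ℕ) : ℝ) * θ) := by
          refine Finset.sum_le_sum fun d hd => ?_
          rw [mem_filter] at hd
          have hdq : (q : ℝ) ≤ 2 * d := by exact_mod_cast (by omega : q ≤ 2 * d)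
          have hd0 : (0 : ℝ) < d := by linarith
          rw [zero_add]
          refine mn_mono (by positivity) ?_ _
          rw [div_le_div_iff₀ hd0 hq0]
          nlinarith
      _ ≤ ∑ d ∈ range q, mn (2 * N / q) (((0 + d : ℕ) : ℝ) * θ) := by
          apply Finset.sum_le_sum_of_subset_of_nonneg (Finset.filter_subset _ _)
          intro d _ _
          exact (mn_pos (by linarith) _).le

private theorem vinB_all {θ : ℝ} {a : ℤ} {q : ℕ} (hq : 1 ≤ q) (hc : IsCoprime a (q : ℤ))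
    (hθ : |θ - a / q| ≤ 1 / (q : ℝ) ^ 2) {N : ℕ} (hN : 2 ≤ N) (hqN : q ≤ N) (K : ℕ)
    (hK : K * q ≤ N) :
    ∑ d ∈ range ((K + 1) * q), mn ((N : ℝ) / d) ((d : ℝ) * θ) ≤
      (4 * q * (1 + Real.log q) + 12 * (2 * N / q + q * Real.log (2 * q))) +
        (12 * ((N : ℝ) / q) * ∑ k ∈ range (K + 1), (1 / (k : ℝ)) + 12 * K * (q * Real.log (2 * q))) := by
  have hq0 : (0 : ℝ) < q := by exact_mod_cast hq
  have hN0 : (0 : ℝ) < N := by exact_mod_cast (by omega : 0 < N)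
  induction K with
  | zero =>
    have h := vinB_first hq hc hθ hN hqN
    simpa using h
  | succ K ih =>
    have hK' : K * q ≤ N := by
      refine le_trans ?_ hK
      exact Nat.mul_le_mul_right q (Nat.le_succ K)
    have ih' := ih hK'
    have e1 : (K + 1 + 1) * q = (K + 1) * q + q := by ring
    rw [e1, Finset.sum_range_add]
    have hK1 : (0 : ℝ) < ((K + 1 : ℕ) : ℝ) := by positivity
    have hX : (1 : ℝ) ≤ (N : ℝ) / (((K + 1) * q : ℕ) : ℝ) := by
      rw [one_le_div (by exact_mod_cast Nat.mul_pos (Nat.succ_pos K) (by omega))]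
      exact_mod_cast hK
    have hb := vinB_block hq hc hθ hX ((K + 1) * q)
    have h1 : ∑ i ∈ range q, mn ((N : ℝ) / (((K + 1) * q + i : ℕ) : ℝ))
        ((((K + 1) * q + i : ℕ) : ℝ) * θ) ≤
        ∑ i ∈ range q, mn ((N : ℝ) / (((K + 1) * q : ℕ) : ℝ)) ((((K + 1) * q + i : ℕ) : ℝ) * θ) := by
      refine Finset.sum_le_sum fun i _ => ?_
      have hp : (0 : ℝ) < (((K + 1) * q : ℕ) : ℝ) := by
        exact_mod_cast Nat.mul_pos (Nat.succ_pos K) (by omega)
      have hle : (((K + 1) * q : ℕ) : ℝ) ≤ (((K + 1) * q + i : ℕ) : ℝ) := by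
        exact_mod_cast Nat.le_add_right _ _
      refine mn_mono ?_ ?_ _
      · exact div_pos hN0 (lt_of_lt_of_le hp hle)
      · exact div_le_div_of_nonneg_left hN0.le hp hle
    rw [Finset.sum_range_succ (fun k : ℕ => (1 / (k : ℝ))) (K + 1)]
    have e2 : (N : ℝ) / (((K + 1) * q : ℕ) : ℝ) = (N : ℝ) / q * (1 / ((K + 1 : ℕ) : ℝ)) := by
      push_cast
      field_simp
    rw [e2] at hb h1
    push_cast at hb h1 ih' ⊢
    linarith

theorem vin_b : ∃ C : ℝ, 0 < C ∧ ∀ (θ : ℝ) (a : ℤ) (q : ℕ), 1 ≤ q → IsCoprime a (q : ℤ) →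
    |θ - a / q| ≤ 1 / (q : ℝ) ^ 2 → ∀ N D : ℕ, 2 ≤ N → q ≤ N → D ≤ N →
    ∑ d ∈ Icc 1 D, mn ((N : ℝ) / d) (d * θ) ≤ C * ((N : ℝ) / q + D + q) * Real.log N := by
  refine ⟨100, by norm_num, ?_⟩
  intro θ a q hq hc hθ N D hN hqN hDN
  have hq0 : (0 : ℝ) < q := by exact_mod_cast hq
  have hq1 : (1 : ℝ) ≤ q := by exact_mod_cast hq
  have hN0 : (0 : ℝ) < N := by exact_mod_cast (by omega : 0 < N)
  have hN2 : (2 : ℝ) ≤ N := by exact_mod_cast hN
  have hqN' : (q : ℝ) ≤ N := by exact_mod_cast hqN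
  have hmn0 : ∀ d : ℕ, 0 ≤ mn ((N : ℝ) / d) ((d : ℝ) * θ) := by
    intro d
    unfold mn
    positivity
  have hK : D / q * q ≤ N := (Nat.div_mul_le_self D q).trans hDN
  have h1 := vinB_all hq hc hθ hN hqN (D / q) hK
  have h2 : ∑ d ∈ Icc 1 D, mn ((N : ℝ) / d) (d * θ) ≤
      ∑ d ∈ range ((D / q + 1) * q), mn ((N : ℝ) / d) ((d : ℝ) * θ) := by
    apply Finset.sum_le_sum_of_subset_of_nonneg
    · intro d hd
      rw [mem_Icc] at hd
      rw [mem_range]
      have h3 := Nat.lt_div_mul_add (a := D) (b := q) (by omega)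
      have h4 : (D / q + 1) * q = D / q * q + q := by ring
      omega
    · intro d _ _
      exact hmn0 d
  set L := Real.log N with hL
  have hlog2 := Real.log_two_gt_d9
  have hL2 : Real.log 2 ≤ L := Real.log_le_log (by norm_num) hN2
  have hL1 : 1 ≤ 2 * L := by linarith
  have hL0 : 0 ≤ L := by linarith
  have hlq : Real.log q ≤ L := Real.log_le_log hq0 hqN'
  have hlq0 : 0 ≤ Real.log q := Real.log_nonneg hq1
  have hl2q : Real.log (2 * q) ≤ 2 * L := by
    rw [Real.log_mul (by norm_num) (by positivity)]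
    linarith
  have hl2q0 : 0 ≤ Real.log (2 * q) := Real.log_nonneg (by linarith)
  have hKD : ((D / q : ℕ) : ℝ) * q ≤ D := by
    exact_mod_cast Nat.div_mul_le_self D q
  have hharm : ∑ k ∈ range (D / q + 1), (1 / (k : ℝ)) ≤ 3 * L := by
    refine (vinB_harm (D / q)).trans ?_
    have h5 : Real.log ((D / q : ℕ) : ℝ) ≤ L := by
      rcases Nat.eq_zero_or_pos (D / q) with h0 | h0
      · rw [h0, Nat.cast_zero, Real.log_zero]
        exact hL0
      · refine Real.log_le_log (by exact_mod_cast h0) ?_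
        exact_mod_cast (Nat.div_le_self D q).trans hDN
    linarith
  have hNq : 0 ≤ (N : ℝ) / q := by positivity
  have t1 : 4 * (q : ℝ) * (1 + Real.log q) ≤ 12 * (q * L) := by
    have : 1 + Real.log q ≤ 3 * L := by linarith
    calc 4 * (q : ℝ) * (1 + Real.log q) ≤ 4 * q * (3 * L) := by gcongr
      _ = 12 * (q * L) := by ring
  have t2 : 12 * (2 * (N : ℝ) / q + q * Real.log (2 * q)) ≤ 48 * ((N : ℝ) / q * L) + 24 * (q * L) := by
    have a1 : 2 * (N : ℝ) / q ≤ 4 * ((N : ℝ) / q * L) := by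
      have : 2 * (N : ℝ) / q = 2 * ((N : ℝ) / q) * 1 := by ring
      rw [this]
      calc 2 * ((N : ℝ) / q) * 1 ≤ 2 * ((N : ℝ) / q) * (2 * L) := by gcongr
        _ = 4 * ((N : ℝ) / q * L) := by ring
    have a2 : (q : ℝ) * Real.log (2 * q) ≤ 2 * (q * L) := by
      calc (q : ℝ) * Real.log (2 * q) ≤ q * (2 * L) := by gcongr
        _ = 2 * (q * L) := by ring
    linarith
  have t3 : 12 * ((N : ℝ) / q) * ∑ k ∈ range (D / q + 1), (1 / (k : ℝ)) ≤ 36 * ((N : ℝ) / q * L) := by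
    calc 12 * ((N : ℝ) / q) * ∑ k ∈ range (D / q + 1), (1 / (k : ℝ)) ≤ 12 * ((N : ℝ) / q) * (3 * L) := by
          gcongr
      _ = 36 * ((N : ℝ) / q * L) := by ring
  have t4 : 12 * ((D / q : ℕ) : ℝ) * (q * Real.log (2 * q)) ≤ 24 * (D * L) := by
    calc 12 * ((D / q : ℕ) : ℝ) * (q * Real.log (2 * q))
        = 12 * ((((D / q : ℕ) : ℝ) * q) * Real.log (2 * q)) := by ring
      _ ≤ 12 * ((D : ℝ) * (2 * L)) := by gcongr
      _ = 24 * (D * L) := by ring
  have p1 : 0 ≤ (N : ℝ) / q * L := mul_nonneg hNq hL0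
  have p2 : 0 ≤ (D : ℝ) * L := mul_nonneg (Nat.cast_nonneg _) hL0
  have p3 : 0 ≤ (q : ℝ) * L := mul_nonneg hq0.le hL0
  calc ∑ d ∈ Icc 1 D, mn ((N : ℝ) / d) (d * θ) ≤ _ := h2.trans h1
    _ ≤ (12 * (q * L) + (48 * ((N : ℝ) / q * L) + 24 * (q * L))) +
        (36 * ((N : ℝ) / q * L) + 24 * (D * L)) := by
        linarith
    _ ≤ 100 * ((N : ℝ) / q + D + q) * L := by
        nlinarith

end Pool.Agent.SW
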