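import Mathlib

/-! SW/ZBd.  A bound for `ζ` slightly to the left of `Re s = 1`.

PROOF (as in `Pool/Agent/REC/DerivB.lean`, which does nonprincipal characters).  `N = ⌊exp (2V)⌋`.  For `Re w > 1`
(`LSeries_eq_mul_integral` or Abel summation) `ζ(w) = ∑_{n ≤ N} n^(-w) + N^(1-w)/(w-1) - w ∫_N^∞ {u} u^(-w-1) du`.  The right side
times `(w-1)` is analytic for `Re w > 0` (the integral is a Mellin transform), so the formula holds for `Re w > 0`, `w ≠ 1`.  Bounds:
`e^(1/2) (1 + 2V)` for the sum, `e^(1/2)/|w-1| ≤ 6.6`, `|w| N^(-Re w)/Re w ≤ 1` for the integral (`|w| ≤ exp V`, `Re w ≥ 3/4`). -/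

set_option autoImplicit false

namespace Pool.Agent.SW

open Filter MeasureTheory Topology

/-- the tail of the constant function -/
private noncomputable def zTl (N n : ℕ) : ℂ := if n ≤ N then 0 else 1

/-- partial sums of the tail -/
private noncomputable def zA (N : ℕ) (t : ℝ) : ℂ := ∑ k ∈ Finset.Icc 1 ⌊t⌋₊, zTl N k

/-- minus the fractional part, from `N` on -/
private noncomputable def zB (N : ℕ) (t : ℝ) : ℂ := if t ≤ N then 0 else zA N t - ((t : ℂ) - N)

private theorem zTl_sum (N n : ℕ) : ∑ k ∈ Finset.Icc 1 n, zTl N k = ((n - N : ℕ) : ℂ) := by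
  induction n with
  | zero => simp
  | succ n ih =>
    rw [Finset.sum_Icc_succ_top (by omega), ih]
    unfold zTl
    split_ifs with h
    · rw [add_zero]
      have h1 : n + 1 - N = 0 := by omega
      have h2 : n - N = 0 := by omega
      rw [h1, h2]
    · have h1 : n + 1 - N = (n - N) + 1 := by omega
      rw [h1]
      push_cast
      rfl

private theorem zTl_le (N n : ℕ) : ‖zTl N n‖ ≤ 1 := by
  unfold zTl
  split_ifs <;> simp

private theorem zB_le (N : ℕ) (t : ℝ) : ‖zB N t‖ ≤ 1 := by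
  unfold zB
  split_ifs with h
  · simp
  · have h1 : (N : ℝ) < t := not_le.1 h
    have ht0 : 0 ≤ t := (Nat.cast_nonneg N).trans h1.le
    have h2 : N ≤ ⌊t⌋₊ := Nat.le_floor h1.le
    have h3 : zA N t - ((t : ℂ) - N) = (((⌊t⌋₊ : ℝ) - t : ℝ) : ℂ) := by
      unfold zA
      rw [zTl_sum, Nat.cast_sub h2]
      push_cast
      ring
    rw [h3, Complex.norm_real, Real.norm_eq_abs, abs_le]
    have h4 := Nat.floor_le ht0
    have h5 := Nat.lt_floor_add_one t
    constructor <;> linarith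

private theorem zA_zero {N : ℕ} {t : ℝ} (ht : t ≤ N) : zA N t = 0 := by
  unfold zA
  rw [zTl_sum]
  have h1 : ⌊t⌋₊ ≤ N := Nat.floor_le_of_le ht
  have h2 : ⌊t⌋₊ - N = 0 := by omega
  rw [h2, Nat.cast_zero]

private theorem zB_zero {N : ℕ} {t : ℝ} (ht : t ≤ N) : zB N t = 0 := by
  unfold zB
  rw [if_pos ht]

private theorem zB_meas (N : ℕ) : Measurable (zB N) := by
  unfold zB
  refine Measurable.ite (measurableSet_le measurable_id measurable_const) measurable_const ?_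
  have h1 : Measurable (zA N) := by
    have h2 : Measurable fun n : ℕ => ∑ k ∈ Finset.Icc 1 n, zTl N k := measurable_from_nat
    exact h2.comp Nat.measurable_floor
  exact h1.sub (Complex.measurable_ofReal.sub measurable_const)

private theorem zTl_LSeries (N : ℕ) {w : ℂ} (hw : 1 < w.re) :
    LSeries (zTl N) w = w * ∫ t in Set.Ioi (1 : ℝ), zA N t * t ^ (-(w + 1)) := by
  have hS : LSeriesSummable (zTl N) w :=
    LSeriesSummable_of_bounded_of_one_lt_re (m := 1) (fun n _ => zTl_le N n) hw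
  refine LSeries_eq_mul_integral (zTl N) zero_le_one hw hS ?_
  refine Asymptotics.IsBigO.of_bound 1 (Eventually.of_forall fun n => ?_)
  rw [Real.rpow_one, one_mul, zTl_sum, Complex.norm_natCast, Real.norm_natCast]
  exact_mod_cast Nat.sub_le n N

private theorem z_split (N : ℕ) {w : ℂ} (hw : 1 < w.re) :
    riemannZeta w = ∑ n ∈ Finset.Icc 1 N, LSeries.term 1 w n + LSeries (zTl N) w := by
  have h1 : (1 : ℕ → ℂ) = (fun n : ℕ => if n ≤ N then (1 : ℂ) else 0) + zTl N := by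
    funext n
    rw [Pi.add_apply, Pi.one_apply]
    unfold zTl
    by_cases h : n ≤ N
    · rw [if_pos h, if_pos h, add_zero]
    · rw [if_neg h, if_neg h, zero_add]
  have hS : LSeriesSummable (zTl N) w :=
    LSeriesSummable_of_bounded_of_one_lt_re (m := 1) (fun n _ => zTl_le N n) hw
  have hS' : LSeriesSummable (fun n : ℕ => if n ≤ N then (1 : ℂ) else 0) w := by
    refine LSeriesSummable_of_bounded_of_one_lt_re (m := 1) ?_ hw
    intro n _
    show ‖if n ≤ N then (1 : ℂ) else 0‖ ≤ 1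
    by_cases h : n ≤ N
    · rw [if_pos h, norm_one]
    · rw [if_neg h, norm_zero]
      exact zero_le_one
  rw [← LSeries_one_eq_riemannZeta hw]
  have h2 : LSeries 1 w = LSeries ((fun n : ℕ => if n ≤ N then (1 : ℂ) else 0) + zTl N) w := by
    rw [← h1]
  rw [h2, LSeries_add hS' hS]
  congr 1
  unfold LSeries
  rw [tsum_eq_sum (s := Finset.Icc 1 N)]
  · apply Finset.sum_congr rfl
    intro n hn
    have h2 := Finset.mem_Icc.1 hn
    rw [LSeries.term_of_ne_zero (by omega), LSeries.term_of_ne_zero (by omega), if_pos h2.2,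
      Pi.one_apply]
  · intro n hn
    rcases Nat.eq_zero_or_pos n with h | h
    · rw [h, LSeries.term_zero]
    · have h3 : ¬ n ≤ N := by
        intro h4
        exact hn (Finset.mem_Icc.2 ⟨h, h4⟩)
      rw [LSeries.term_of_ne_zero (by omega), if_neg h3, zero_div]

/-- the continuation of the integral -/
private noncomputable def zG (N : ℕ) (w : ℂ) : ℂ := w * mellin (zB N) (-w)

private theorem zG_int {N : ℕ} (w : ℂ) :
    mellin (zB N) (-w) = ∫ t in Set.Ioi (N : ℝ), zB N t * t ^ (-(w + 1)) := by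
  unfold mellin
  rw [setIntegral_eq_of_subset_of_forall_sdiff_eq_zero measurableSet_Ioi
    (Set.Ioi_subset_Ioi (Nat.cast_nonneg N) : Set.Ioi (N : ℝ) ⊆ Set.Ioi 0)]
  · apply setIntegral_congr_fun measurableSet_Ioi
    intro t _
    show (t : ℂ) ^ (-w - 1) • zB N t = zB N t * (t : ℂ) ^ (-(w + 1))
    rw [smul_eq_mul, mul_comm]
    congr 2
    ring
  · intro t ht
    have h1 : t ≤ N := not_lt.1 ht.2
    rw [zB_zero h1, smul_zero]

private theorem z_tail {N : ℕ} (hN : 1 ≤ N) {w : ℂ} (hw : 1 < w.re) :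
    LSeries (zTl N) w = (N : ℂ) ^ (1 - w) / (w - 1) + zG N w := by
  have hN0 : (0 : ℝ) < N := by exact_mod_cast hN
  have hNc : (N : ℂ) ≠ 0 := by exact_mod_cast hN0.ne'
  have hw0 : w ≠ 0 := by
    rintro rfl
    simp at hw
    linarith
  have hw1 : w - 1 ≠ 0 := by
    intro h
    have : w = 1 := sub_eq_zero.1 h
    rw [this] at hw
    simp at hw
  have a1 : (-w).re < -1 := by rw [Complex.neg_re]; linarith
  have a2 : (-(w + 1)).re < -1 := by
    rw [Complex.neg_re, Complex.add_re, Complex.one_re]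
    linarith
  have i1 := integrableOn_Ioi_cpow_of_lt a1 hN0
  have i2 := integrableOn_Ioi_cpow_of_lt a2 hN0
  have v1 := integral_Ioi_cpow_of_lt a1 hN0
  have v2 := integral_Ioi_cpow_of_lt a2 hN0
  have i3 : IntegrableOn (fun t : ℝ => zB N t * (t : ℂ) ^ (-(w + 1))) (Set.Ioi (N : ℝ)) :=
    Integrable.bdd_mul (c := 1) i2 (zB_meas N).aestronglyMeasurable
      (Eventually.of_forall fun t => zB_le N t)
  rw [zTl_LSeries N hw]
  have e1 : ∫ t in Set.Ioi (1 : ℝ), zA N t * (t : ℂ) ^ (-(w + 1)) =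
      ∫ t in Set.Ioi (N : ℝ), zA N t * (t : ℂ) ^ (-(w + 1)) := by
    refine setIntegral_eq_of_subset_of_forall_sdiff_eq_zero measurableSet_Ioi
      (Set.Ioi_subset_Ioi (by exact_mod_cast hN)) ?_
    intro t ht
    rw [zA_zero (not_lt.1 ht.2), zero_mul]
  have e2 : ∫ t in Set.Ioi (N : ℝ), zA N t * (t : ℂ) ^ (-(w + 1)) =
      ∫ t in Set.Ioi (N : ℝ), (zB N t * (t : ℂ) ^ (-(w + 1)) +
        ((t : ℂ) ^ (-w) - N * (t : ℂ) ^ (-(w + 1)))) := by
    apply setIntegral_congr_fun measurableSet_Ioi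
    intro t ht
    have ht1 : (N : ℝ) < t := ht
    have ht0 : (t : ℂ) ≠ 0 := by exact_mod_cast (hN0.trans ht1).ne'
    have h1 : (t : ℂ) ^ (-w) = t * (t : ℂ) ^ (-(w + 1)) := by
      have h2 : -w = 1 + -(w + 1) := by ring
      conv_lhs => rw [h2]
      rw [Complex.cpow_add _ _ ht0, Complex.cpow_one]
    show zA N t * (t : ℂ) ^ (-(w + 1)) = zB N t * (t : ℂ) ^ (-(w + 1)) +
        ((t : ℂ) ^ (-w) - N * (t : ℂ) ^ (-(w + 1)))
    rw [h1]
    unfold zB
    rw [if_neg (not_le.2 ht1)]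
    ring
  have e3 : ∫ t in Set.Ioi (N : ℝ), (zB N t * (t : ℂ) ^ (-(w + 1)) +
        ((t : ℂ) ^ (-w) - N * (t : ℂ) ^ (-(w + 1)))) =
      (∫ t in Set.Ioi (N : ℝ), zB N t * (t : ℂ) ^ (-(w + 1))) +
        ((∫ t : ℝ in Set.Ioi (N : ℝ), (t : ℂ) ^ (-w)) -
          N * ∫ t : ℝ in Set.Ioi (N : ℝ), (t : ℂ) ^ (-(w + 1))) := by
    have i4 : IntegrableOn (fun t : ℝ => (N : ℂ) * (t : ℂ) ^ (-(w + 1))) (Set.Ioi (N : ℝ)) :=
      i2.const_mul _
    have i5 : IntegrableOn (fun t : ℝ => (t : ℂ) ^ (-w) - (N : ℂ) * (t : ℂ) ^ (-(w + 1)))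
      (Set.Ioi (N : ℝ)) := i1.sub i4
    rw [integral_add i3 i5, integral_sub i1 i4, integral_const_mul]
  rw [e1, e2, e3, v1, v2, ← zG_int]
  unfold zG
  rw [Complex.ofReal_natCast]
  have h3 : -w + 1 = 1 - w := by ring
  have h4 : -(w + 1) + 1 = -w := by ring
  have h5 : (N : ℂ) * (N : ℂ) ^ (-w) = (N : ℂ) ^ (1 - w) := by
    have h6 : 1 - w = 1 + -w := by ring
    rw [h6, Complex.cpow_add _ _ hNc, Complex.cpow_one]
  rw [h3, h4, ← h5]
  have hw1' : 1 - w ≠ 0 := fun h => hw1 (by rw [← neg_sub, h, neg_zero])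
  field_simp
  ring

private theorem zG_diff {N : ℕ} (hN : 1 ≤ N) {w : ℂ} (hw : 0 < w.re) : DifferentiableAt ℂ (zG N) w := by
  unfold zG
  refine differentiableAt_id.mul ?_
  have h1 : DifferentiableAt ℂ (mellin (zB N)) (-w) := by
    refine mellin_differentiableAt_of_isBigO_rpow (a := 0) (b := -w.re - 1) ?_ ?_ ?_ ?_ ?_
    · refine LocallyIntegrable.locallyIntegrableOn ?_ _
      refine (locallyIntegrable_const (1 : ℝ)).mono (zB_meas N).aestronglyMeasurable ?_
      exact Eventually.of_forall fun t => by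
        rw [norm_one]
        exact zB_le N t
    · refine Asymptotics.IsBigO.of_bound 1 (Eventually.of_forall fun t => ?_)
      rw [neg_zero, Real.rpow_zero, norm_one, mul_one]
      exact zB_le N t
    · rw [Complex.neg_re]
      linarith
    · refine Asymptotics.IsBigO.of_bound 1 ?_
      have h3 : Set.Ioo (0 : ℝ) 1 ∈ 𝓝[>] (0 : ℝ) := Ioo_mem_nhdsGT one_pos
      filter_upwards [h3] with t ht
      have h4 : (1 : ℝ) ≤ N := by exact_mod_cast hN
      rw [zB_zero (by linarith [ht.2]), norm_zero]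
      positivity
    · rw [Complex.neg_re]
      linarith
  have h5 : DifferentiableAt ℂ (fun z : ℂ => -z) w := differentiableAt_id.neg
  exact DifferentiableAt.comp (g := mellin (zB N)) (f := fun z : ℂ => -z) w h1 h5

/-- the formula for zeta -/
private noncomputable def zF (N : ℕ) (w : ℂ) : ℂ :=
  ∑ n ∈ Finset.Icc 1 N, LSeries.term 1 w n + ((N : ℂ) ^ (1 - w) / (w - 1) + zG N w)

private theorem z_eq_on {N : ℕ} (hN : 1 ≤ N) {U : Set ℂ} (hU : IsOpen U) (hc : IsPreconnected U)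
    (hs : ∀ z ∈ U, 0 < z.re ∧ z ≠ 1) {z0 : ℂ} (hz0 : z0 ∈ U) (h0 : 1 < z0.re) {w : ℂ}
    (hw : w ∈ U) : riemannZeta w = zF N w := by
  have hNc : (N : ℂ) ≠ 0 := by exact_mod_cast (by omega : N ≠ 0)
  have h1 : AnalyticOnNhd ℂ riemannZeta U := fun z hz => analyticOn_riemannZeta z (hs z hz).2
  have h2 : AnalyticOnNhd ℂ (zF N) U := by
    refine DifferentiableOn.analyticOnNhd ?_ hU
    intro z hz
    refine DifferentiableAt.differentiableWithinAt ?_
    unfold zF
    refine DifferentiableAt.add ?_ (DifferentiableAt.add ?_ (zG_diff hN (hs z hz).1))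
    · exact DifferentiableAt.fun_sum fun n _ => (LSeries.hasDerivAt_term 1 n z).differentiableAt
    · refine DifferentiableAt.div ?_ (differentiableAt_id.sub_const 1)
        (sub_ne_zero.2 (hs z hz).2)
      exact ((differentiableAt_const (1 : ℂ)).sub differentiableAt_id).const_cpow (Or.inl hNc)
  have h4 : riemannZeta =ᶠ[𝓝 z0] zF N := by
    have h5 : {w : ℂ | 1 < w.re} ∈ 𝓝 z0 :=
      (isOpen_lt continuous_const Complex.continuous_re).mem_nhds h0
    filter_upwards [h5] with z hz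
    rw [z_split N hz, z_tail hN hz]
    rfl
  exact h1.eqOn_of_preconnected_of_eventuallyEq h2 hc hz0 h4 hw

private theorem z_eq {N : ℕ} (hN : 1 ≤ N) {w : ℂ} (hw : 0 < w.re) (hi : w.im ≠ 0) :
    riemannZeta w = zF N w := by
  rcases lt_or_gt_of_ne hi with h | h
  · refine z_eq_on hN (U := {z : ℂ | 0 < z.re} ∩ {z : ℂ | z.im < 0}) ?_ ?_ ?_
      (z0 := ⟨2, -1⟩) ?_ (by norm_num) ⟨hw, h⟩
    · exact (isOpen_lt continuous_const Complex.continuous_re).inter
        (isOpen_lt Complex.continuous_im continuous_const)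
    · exact ((convex_halfSpace_re_gt 0).inter (convex_halfSpace_im_lt 0)).isPreconnected
    · rintro z ⟨h1, h2⟩
      refine ⟨h1, ?_⟩
      rintro rfl
      have h3 : (1 : ℂ).im < 0 := h2
      simp at h3
    · exact ⟨show (0 : ℝ) < 2 by norm_num, show (-1 : ℝ) < 0 by norm_num⟩
  · refine z_eq_on hN (U := {z : ℂ | 0 < z.re} ∩ {z : ℂ | 0 < z.im}) ?_ ?_ ?_
      (z0 := ⟨2, 1⟩) ?_ (by norm_num) ⟨hw, h⟩
    · exact (isOpen_lt continuous_const Complex.continuous_re).inter
        (isOpen_lt continuous_const Complex.continuous_im)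
    · exact ((convex_halfSpace_re_gt 0).inter (convex_halfSpace_im_gt 0)).isPreconnected
    · rintro z ⟨h1, h2⟩
      refine ⟨h1, ?_⟩
      rintro rfl
      have h3 : 0 < (1 : ℂ).im := h2
      simp at h3
    · exact ⟨show (0 : ℝ) < 2 by norm_num, show (0 : ℝ) < 1 by norm_num⟩

private theorem zG_le {N : ℕ} (hN : 1 ≤ N) {w : ℂ} (hw : 0 < w.re) :
    ‖zG N w‖ ≤ ‖w‖ * ((N : ℝ) ^ (-w.re) / w.re) := by
  have hN0 : (0 : ℝ) < N := by exact_mod_cast hN
  unfold zG
  rw [norm_mul, zG_int]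
  refine mul_le_mul_of_nonneg_left ?_ (norm_nonneg _)
  have ha : -w.re - 1 < -1 := by linarith
  have h2 : ∫ t : ℝ in Set.Ioi (N : ℝ), t ^ (-w.re - 1) = (N : ℝ) ^ (-w.re) / w.re := by
    rw [integral_Ioi_rpow_of_lt ha hN0]
    rw [show -w.re - 1 + 1 = -w.re by ring, neg_div_neg_eq]
  rw [← h2]
  refine norm_integral_le_of_norm_le (integrableOn_Ioi_rpow_of_lt ha hN0) ?_
  refine (ae_restrict_iff' measurableSet_Ioi).2 (Eventually.of_forall fun t ht => ?_)
  have ht0 : 0 < t := hN0.trans ht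
  rw [norm_mul, Complex.norm_cpow_eq_rpow_re_of_pos ht0]
  have h3 : (-(w + 1)).re = -w.re - 1 := by
    rw [Complex.neg_re, Complex.add_re, Complex.one_re]
    ring
  rw [h3]
  calc ‖zB N t‖ * t ^ (-w.re - 1) ≤ 1 * t ^ (-w.re - 1) :=
        mul_le_mul_of_nonneg_right (zB_le N t) (Real.rpow_nonneg ht0.le _)
    _ = _ := one_mul _

private theorem pow_small {V x : ℝ} (hV : 1 ≤ V) (hx1 : 1 ≤ x) (hx : x ≤ Real.exp (2 * V)) {r : ℝ}
    (hr : r ≤ 1 / (4 * V)) : x ^ r ≤ Real.exp (1 / 2) := by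
  have hV0 : 0 < V := by linarith
  calc x ^ r ≤ x ^ (1 / (4 * V)) := Real.rpow_le_rpow_of_exponent_le hx1 hr
    _ ≤ (Real.exp (2 * V)) ^ (1 / (4 * V)) :=
        Real.rpow_le_rpow (by linarith) hx (by positivity)
    _ = Real.exp (1 / 2) := by
        rw [← Real.exp_mul]
        congr 1
        field_simp
        norm_num

private theorem z_head_le {N : ℕ} {V : ℝ} (hV : 1 ≤ V)
    (hN : (N : ℝ) ≤ Real.exp (2 * V)) {w : ℂ} (hw : 1 - 1 / (4 * V) ≤ w.re) :
    ‖∑ n ∈ Finset.Icc 1 N, LSeries.term 1 w n‖ ≤ Real.exp (1 / 2) * (1 + 2 * V) := by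
  have hV0 : 0 < V := by linarith
  refine (norm_sum_le _ _).trans ?_
  have h1 : ∀ n ∈ Finset.Icc 1 N, ‖LSeries.term 1 w n‖ ≤ Real.exp (1 / 2) * ((n : ℝ))⁻¹ := by
    intro n hn
    have h2 := Finset.mem_Icc.1 hn
    have hn0 : (0 : ℝ) < n := by exact_mod_cast (by omega : 0 < n)
    have hn1 : (1 : ℝ) ≤ n := by exact_mod_cast h2.1
    rw [LSeries.term_of_ne_zero (by omega), norm_div, Pi.one_apply, norm_one]
    have h3 : ‖(n : ℂ) ^ w‖ = (n : ℝ) ^ w.re := by
      have := Complex.norm_cpow_eq_rpow_re_of_pos hn0 w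
      rwa [Complex.ofReal_natCast] at this
    rw [h3]
    have h5 : (n : ℝ) ≤ Real.exp (1 / 2) * (n : ℝ) ^ w.re := by
      have h6 : (n : ℝ) ^ (1 - w.re) ≤ Real.exp (1 / 2) :=
        pow_small hV hn1 (le_trans (by exact_mod_cast h2.2) hN) (by linarith)
      calc (n : ℝ) = (n : ℝ) ^ (1 - w.re) * (n : ℝ) ^ w.re := by
            rw [← Real.rpow_add hn0, sub_add_cancel, Real.rpow_one]
        _ ≤ Real.exp (1 / 2) * (n : ℝ) ^ w.re :=
            mul_le_mul_of_nonneg_right h6 (Real.rpow_nonneg hn0.le _)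
    have h8 : 0 < (n : ℝ) ^ w.re := Real.rpow_pos_of_pos hn0 _
    rw [div_le_iff₀ h8]
    have h10 : Real.exp (1 / 2) * (n : ℝ)⁻¹ * (n : ℝ) ^ w.re =
        (Real.exp (1 / 2) * (n : ℝ) ^ w.re) / n := by
      field_simp
    rw [h10, le_div_iff₀ hn0, one_mul]
    exact h5
  refine (Finset.sum_le_sum h1).trans ?_
  rw [← Finset.mul_sum]
  refine mul_le_mul_of_nonneg_left ?_ (Real.exp_pos _).le
  have h11 := harmonic_le_one_add_log N
  rw [harmonic_eq_sum_Icc] at h11
  push_cast at h11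
  refine h11.trans ?_
  rcases Nat.eq_zero_or_pos N with h | h
  · rw [h, Nat.cast_zero, Real.log_zero]
    linarith
  · have h12 : Real.log N ≤ 2 * V := by
      rw [Real.log_le_iff_le_exp (by exact_mod_cast h)]
      exact hN
    linarith

private theorem exp_half_le : Real.exp (1 / 2) ≤ 1.65 := by
  have h1 := Real.exp_one_lt_d9
  have h2 : Real.exp (1 / 2) * Real.exp (1 / 2) = Real.exp 1 := by
    rw [← Real.exp_add]
    norm_num
  have h3 := Real.exp_pos (1 / 2)
  by_contra h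
  have h4 : 1.65 < Real.exp (1 / 2) := not_le.1 h
  nlinarith

theorem zeta_bd {V : ℝ} (hV : 1 ≤ V) {w : ℂ} (h1 : 1 - 1 / (4 * V) ≤ w.re) (h2 : w.re ≤ 3)
    (h3 : 1 / 4 ≤ |w.im|) (h4 : |w.im| + 4 ≤ Real.exp V) : ‖riemannZeta w‖ ≤ 16 * V := by
  have hV0 : 0 < V := by linarith
  have h4V : 1 / (4 * V) ≤ 1 / 4 := by
    rw [div_le_div_iff₀ (by positivity) (by norm_num)]
    linarith
  have hw34 : 3 / 4 ≤ w.re := by linarith
  have hw0 : 0 < w.re := by linarith
  have him : w.im ≠ 0 := by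
    intro h
    rw [h, abs_zero] at h3
    norm_num at h3
  have hY1 : 1 ≤ Real.exp (2 * V) := Real.one_le_exp (by positivity)
  obtain ⟨N, hNd⟩ : ∃ N : ℕ, N = ⌊Real.exp (2 * V)⌋₊ := ⟨_, rfl⟩
  have hN : 1 ≤ N := by
    rw [hNd]
    exact (Nat.one_le_floor_iff _).2 hY1
  have hN1 : (1 : ℝ) ≤ N := by exact_mod_cast hN
  have hN0 : (0 : ℝ) < N := by linarith
  have hNle : (N : ℝ) ≤ Real.exp (2 * V) := by
    rw [hNd]
    exact Nat.floor_le (Real.exp_pos _).le
  have hNge : Real.exp (2 * V - 1) ≤ N := by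
    have g1 := Nat.lt_floor_add_one (Real.exp (2 * V))
    rw [← hNd] at g1
    have g2 : Real.exp (2 * V) = Real.exp (2 * V - 1) * Real.exp 1 := by
      rw [← Real.exp_add]
      congr 1
      ring
    have g3 : 2 ≤ Real.exp 1 := by
      have := Real.add_one_le_exp (1 : ℝ)
      linarith
    have g4 : 1 ≤ Real.exp (2 * V - 1) := Real.one_le_exp (by linarith)
    nlinarith
  have hwn : ‖w‖ ≤ Real.exp V := by
    have g1 := Complex.norm_le_abs_re_add_abs_im w
    rw [abs_of_pos hw0] at g1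
    linarith
  rw [z_eq hN hw0 him]
  unfold zF
  refine (norm_add_le _ _).trans ?_
  have t1 := z_head_le hV hNle h1
  have t2 : ‖(N : ℂ) ^ (1 - w) / (w - 1)‖ ≤ 4 * Real.exp (1 / 2) := by
    rw [norm_div]
    have g1 : ‖(N : ℂ) ^ (1 - w)‖ = (N : ℝ) ^ (1 - w.re) := by
      have := Complex.norm_cpow_eq_rpow_re_of_pos hN0 (1 - w)
      rwa [Complex.ofReal_natCast, Complex.sub_re, Complex.one_re] at this
    have g2 : (N : ℝ) ^ (1 - w.re) ≤ Real.exp (1 / 2) :=
      pow_small hV hN1 hNle (by linarith)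
    have g3 : 1 / 4 ≤ ‖w - 1‖ := by
      refine h3.trans ?_
      have := Complex.abs_im_le_norm (w - 1)
      rwa [Complex.sub_im, Complex.one_im, sub_zero] at this
    rw [g1, div_le_iff₀ (by linarith)]
    have g4 := Real.exp_pos (1 / 2)
    nlinarith
  have t3 : ‖zG N w‖ ≤ 2.2 := by
    refine (zG_le hN hw0).trans ?_
    have g1 : (N : ℝ) ^ (-w.re) ≤ Real.exp (-V) * Real.exp (1 / 2) := by
      calc (N : ℝ) ^ (-w.re) ≤ (N : ℝ) ^ (-(3 / 4) : ℝ) :=
            Real.rpow_le_rpow_of_exponent_le hN1 (by linarith)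
        _ ≤ (Real.exp (2 * V - 1)) ^ (-(3 / 4) : ℝ) :=
            Real.rpow_le_rpow_of_nonpos (Real.exp_pos _) hNge (by norm_num)
        _ = Real.exp ((2 * V - 1) * (-(3 / 4))) := (Real.exp_mul _ _).symm
        _ ≤ Real.exp (-V + 1 / 2) := Real.exp_le_exp.2 (by linarith)
        _ = _ := Real.exp_add _ _
    have g2 : (N : ℝ) ^ (-w.re) / w.re ≤ Real.exp (-V) * (1.65 * (4 / 3)) := by
      rw [div_le_iff₀ hw0]
      have g3 := Real.exp_pos (-V)
      have g4 := exp_half_le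
      have g5 : Real.exp (-V) * Real.exp (1 / 2) ≤ Real.exp (-V) * 1.65 :=
        mul_le_mul_of_nonneg_left g4 g3.le
      nlinarith
    calc ‖w‖ * ((N : ℝ) ^ (-w.re) / w.re) ≤ Real.exp V * (Real.exp (-V) * (1.65 * (4 / 3))) :=
          mul_le_mul hwn g2 (by positivity) (Real.exp_pos _).le
      _ = 2.2 := by
          rw [← mul_assoc, ← Real.exp_add, add_neg_cancel, Real.exp_zero, one_mul]
          norm_num
  have t4 := norm_add_le ((N : ℂ) ^ (1 - w) / (w - 1)) (zG N w)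
  have t5 := exp_half_le
  nlinarith

end Pool.Agent.SW
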