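import Pool.Agent.SW.ZBd
import Pool.Agent.REC.Triv

/-! SW/ZFar.  Derivatives of `-ζ'/ζ - ζ` at height `|t| ≥ 1/2`.

Bounds for `ζ`, `ζ'` near the line `Re s = 1` (`zeta_bd` and Cauchy's inequality), the 3-4-1 inequality for a lower
bound of `|ζ|`, and Cauchy's inequality on a disc of radius `(32 V)^(-20)`. -/

set_option autoImplicit false

namespace Pool.Agent.SW

open Complex

/-- `-ζ'/ζ - ζ` -/
noncomputable def GZ (z : ℂ) : ℂ := -deriv riemannZeta z / riemannZeta z - riemannZeta z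

/-- the region -/
private def Rg (V : ℝ) (z : ℂ) : Prop :=
  1 - 1 / (8 * V) ≤ z.re ∧ z.re ≤ 5 / 2 ∧ 3 / 8 ≤ |z.im| ∧ |z.im| + 17 / 4 ≤ Real.exp V

private theorem Rg.ne {V : ℝ} {z : ℂ} (h : Rg V z) : z ≠ 1 := by
  rintro rfl
  have h1 := h.2.2.1
  rw [one_im, abs_zero] at h1
  linarith

private theorem Rg.bd {V : ℝ} (hV : 1 ≤ V) {z : ℂ} (h : Rg V z) : ‖riemannZeta z‖ ≤ 16 * V := by
  obtain ⟨h1, h2, h3, h4⟩ := h
  refine zeta_bd hV ?_ (by linarith) (by linarith) (by linarith)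
  have h5 : 1 / (8 * V) ≤ 1 / (4 * V) := by
    apply one_div_le_one_div_of_le (by linarith)
    linarith
  linarith

private theorem Rg.deriv_bd {V : ℝ} (hV : 1 ≤ V) {z : ℂ} (h : Rg V z) :
    ‖deriv riemannZeta z‖ ≤ (32 * V) ^ 2 / 8 := by
  have hV0 : 0 < V := by linarith
  obtain ⟨h1, h2, h3, h4⟩ := h
  have hr0 : 0 < 1 / (8 * V) := by positivity
  have hr1 : 1 / (8 * V) ≤ 1 / 8 := by
    apply one_div_le_one_div_of_le (by norm_num)
    linarith
  have h8 : 1 / (4 * V) = 1 / (8 * V) + 1 / (8 * V) := by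
    field_simp
    norm_num
  have hball : ∀ w ∈ Metric.closedBall z (1 / (8 * V)), ‖riemannZeta w‖ ≤ 16 * V ∧ w ≠ 1 := by
    intro w hw
    rw [Metric.mem_closedBall, dist_eq_norm] at hw
    have hre : |w.re - z.re| ≤ 1 / (8 * V) := by
      have := Complex.abs_re_le_norm (w - z)
      rw [sub_re] at this
      linarith
    have him : |w.im - z.im| ≤ 1 / (8 * V) := by
      have := Complex.abs_im_le_norm (w - z)
      rw [sub_im] at this
      linarith
    have ha := abs_sub_abs_le_abs_sub w.im z.im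
    have hb := abs_sub_abs_le_abs_sub z.im w.im
    rw [abs_sub_comm] at hb
    rw [abs_le] at hre
    have hw3 : 1 / 4 ≤ |w.im| := by linarith
    refine ⟨zeta_bd hV (by linarith) (by linarith) hw3 (by linarith), ?_⟩
    rintro rfl
    rw [one_im, abs_zero] at hw3
    linarith
  have hdc : DiffContOnCl ℂ riemannZeta (Metric.ball z (1 / (8 * V))) := by
    apply DifferentiableOn.diffContOnCl
    rw [closure_ball z hr0.ne']
    intro w hw
    exact (differentiableAt_riemannZeta (hball w hw).2).differentiableWithinAt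
  have h5 := Complex.norm_deriv_le_of_forall_mem_sphere_norm_le hr0 hdc
    (fun w hw => (hball w (Metric.sphere_subset_closedBall hw)).1)
  refine h5.trans (le_of_eq ?_)
  field_simp
  norm_num

/-- 3-4-1 inequality -/
private theorem tfo {x t : ℝ} (hx : 0 < x) : 1 ≤ ‖riemannZeta (1 + x)‖ ^ 3 *
    ‖riemannZeta (1 + x + I * t)‖ ^ 4 * ‖riemannZeta (1 + x + 2 * I * t)‖ := by
  have h := DirichletCharacter.norm_LFunction_product_ge_one (1 : DirichletCharacter ℂ 1) hx t
  rw [one_pow, DirichletCharacter.LFunctionTrivChar, DirichletCharacter.LFunction_modOne_eq,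
    norm_mul, norm_mul, norm_pow, norm_pow] at h
  exact h

private theorem zeta_real {x : ℝ} (hx : 0 < x) (hx1 : x ≤ 1) : ‖riemannZeta (1 + x)‖ ≤ 2 / x := by
  have h := Pool.Agent.REC.triv_real 1 hx hx1
  rw [DirichletCharacter.LFunctionTrivChar, DirichletCharacter.LFunction_modOne_eq] at h
  exact h

private theorem re_eq (x t : ℝ) : (1 + (x : ℂ) + I * t).re = 1 + x := by simp
private theorem im_eq (x t : ℝ) : (1 + (x : ℂ) + I * t).im = t := by simp
private theorem re_eq2 (x t : ℝ) : (1 + (x : ℂ) + 2 * I * t).re = 1 + x := by simp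
private theorem im_eq2 (x t : ℝ) : (1 + (x : ℂ) + 2 * I * t).im = 2 * t := by simp

/-- lower bound, away from the line -/
private theorem low1 {V : ℝ} (hV : 1 ≤ V) {x t : ℝ} (hx : 1 / (32 * V) ^ 20 ≤ x) (hx1 : x ≤ 1)
    (ht : 1 / 2 ≤ |t|) (hq : 2 * |t| + 5 ≤ Real.exp V) :
    1 / (32 * V) ^ 16 ≤ ‖riemannZeta (1 + x + I * t)‖ := by
  obtain ⟨W, hW⟩ : ∃ W, W = 32 * V := ⟨_, rfl⟩
  rw [← hW] at hx ⊢
  have hW32 : 32 ≤ W := by rw [hW]; linarith
  have hW0 : 0 < W := by linarith
  have hx0 : 0 < x := lt_of_lt_of_le (by positivity) hx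
  have h := tfo (t := t) hx0
  have ha := zeta_real hx0 hx1
  have hc : ‖riemannZeta (1 + x + 2 * I * t)‖ ≤ W := by
    have h1 : Rg V (1 + x + 2 * I * t) := by
      refine ⟨?_, ?_, ?_, ?_⟩
      · rw [re_eq2]
        have : 0 < 1 / (8 * V) := by positivity
        linarith
      · rw [re_eq2]
        linarith
      · rw [im_eq2, abs_mul, abs_two]
        linarith
      · rw [im_eq2, abs_mul, abs_two]
        linarith
    have h2 := h1.bd hV
    rw [hW]
    linarith
  obtain ⟨a, ha'⟩ : ∃ a, a = ‖riemannZeta (1 + x)‖ := ⟨_, rfl⟩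
  obtain ⟨b, hb'⟩ : ∃ b, b = ‖riemannZeta (1 + x + I * t)‖ := ⟨_, rfl⟩
  obtain ⟨c, hc'⟩ : ∃ c, c = ‖riemannZeta (1 + x + 2 * I * t)‖ := ⟨_, rfl⟩
  rw [← ha', ← hb', ← hc'] at h
  rw [← ha'] at ha
  rw [← hc'] at hc
  rw [← hb']
  have ha0 : 0 ≤ a := by rw [ha']; exact norm_nonneg _
  have hb0 : 0 ≤ b := by rw [hb']; exact norm_nonneg _
  have hc0 : 0 ≤ c := by rw [hc']; exact norm_nonneg _
  by_contra hcon
  push Not at hcon
  have hb4 : b ^ 4 < (1 / W ^ 16) ^ 4 := pow_lt_pow_left₀ hcon hb0 (by norm_num)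
  have ha3 : a ^ 3 ≤ (2 / x) ^ 3 := pow_le_pow_left₀ ha0 ha 3
  have hx' : 1 / x ≤ W ^ 20 := by
    rw [div_le_iff₀ hx0]
    rw [div_le_iff₀ (by positivity)] at hx
    linarith
  have ha4 : (2 / x) ^ 3 ≤ 8 * W ^ 60 := by
    have e1 : (2 / x) ^ 3 = 8 * (1 / x) ^ 3 := by ring
    rw [e1]
    have e2 : (1 / x) ^ 3 ≤ (W ^ 20) ^ 3 := pow_le_pow_left₀ (by positivity) hx' 3
    have e3 : (W ^ 20) ^ 3 = W ^ 60 := by rw [← pow_mul]
    rw [e3] at e2
    linarith
  have h5 : a ^ 3 * b ^ 4 * c ≤ (8 * W ^ 60) * (1 / W ^ 16) ^ 4 * W := by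
    apply mul_le_mul _ hc hc0 (by positivity)
    exact mul_le_mul (ha3.trans ha4) hb4.le (by positivity) (by positivity)
  have h6 : (8 * W ^ 60) * (1 / W ^ 16) ^ 4 * W = 8 / W ^ 3 := by
    field_simp
  rw [h6] at h5
  have h7 : 8 / W ^ 3 < 1 := by
    rw [div_lt_one (by positivity)]
    have : (32 : ℝ) ^ 3 ≤ W ^ 3 := pow_le_pow_left₀ (by norm_num) hW32 3
    norm_num at this
    linarith
  linarith

private theorem Rg_of {V : ℝ} (hV : 1 ≤ V) {z : ℂ} {t : ℝ} (h1 : 1 ≤ z.re) (h2 : z.re ≤ 2)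
    (h3 : z.im = t) (ht : 1 / 2 ≤ |t|) (hq : 2 * |t| + 5 ≤ Real.exp V) : Rg V z := by
  have : 0 < 1 / (8 * V) := by positivity
  have := abs_nonneg t
  refine ⟨by linarith, by linarith, by rw [h3]; linarith, by rw [h3]; linarith⟩

/-- lower bound -/
private theorem low2 {V : ℝ} (hV : 1 ≤ V) {x t : ℝ} (hx : 0 < x) (hx1 : x ≤ 1)
    (ht : 1 / 2 ≤ |t|) (hq : 2 * |t| + 5 ≤ Real.exp V) :
    1 / (32 * V) ^ 17 ≤ ‖riemannZeta (1 + x + I * t)‖ := by
  have hW32 : 32 ≤ 32 * V := by linarith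
  have hW0 : 0 < 32 * V := by linarith
  have hp : 0 < 1 / (32 * V) ^ 17 := by positivity
  have hp16 : 1 / (32 * V) ^ 16 = 32 * V * (1 / (32 * V) ^ 17) := by field_simp
  by_cases hc : 1 / (32 * V) ^ 20 ≤ x
  · have h := low1 hV hc hx1 ht hq
    nlinarith
  · push Not at hc
    obtain ⟨y, hy⟩ : ∃ y : ℝ, y = 1 / (32 * V) ^ 20 := ⟨_, rfl⟩
    have hy0 : 0 < y := by rw [hy]; positivity
    have hy1 : y ≤ 1 := by
      rw [hy, div_le_one (by positivity)]
      exact one_le_pow₀ (by linarith)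
    rw [← hy] at hc
    have h := low1 hV (x := y) hy.ge hy1 ht hq
    have hm : ‖riemannZeta (1 + y + I * t) - riemannZeta (1 + x + I * t)‖ ≤
        (32 * V) ^ 2 / 8 * ‖(1 + (y : ℂ) + I * t) - (1 + x + I * t)‖ := by
      refine Convex.norm_image_sub_le_of_norm_deriv_le
        (s := {z : ℂ | 1 ≤ z.re ∧ z.re ≤ 2 ∧ z.im = t}) (f := riemannZeta) ?_ ?_ ?_ ?_ ?_
      · rintro z ⟨h1, h2, h3⟩
        exact differentiableAt_riemannZeta (Rg_of hV h1 h2 h3 ht hq).ne
      · rintro z ⟨h1, h2, h3⟩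
        exact (Rg_of hV h1 h2 h3 ht hq).deriv_bd hV
      · rintro a ⟨ha1, ha2, ha3⟩ b ⟨hb1, hb2, hb3⟩ u v hu hv huv
        have hre : (u • a + v • b).re = u * a.re + v * b.re := by simp
        have him : (u • a + v • b).im = u * a.im + v * b.im := by simp
        refine ⟨?_, ?_, ?_⟩
        · rw [hre]
          nlinarith
        · rw [hre]
          nlinarith
        · rw [him, ha3, hb3, ← add_mul, huv, one_mul]
      · exact ⟨by rw [re_eq]; linarith, by rw [re_eq]; linarith, im_eq x t⟩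
      · exact ⟨by rw [re_eq]; linarith, by rw [re_eq]; linarith, im_eq y t⟩
    have hd : (1 + (y : ℂ) + I * t) - (1 + (x : ℂ) + I * t) = ((y - x : ℝ) : ℂ) := by
      push_cast
      ring
    rw [hd, norm_real, Real.norm_eq_abs, abs_of_nonneg (by linarith)] at hm
    have hm2 : (32 * V) ^ 2 / 8 * (y - x) ≤ 1 / (32 * V) ^ 17 := by
      have e1 : (32 * V) ^ 2 / 8 * (y - x) ≤ (32 * V) ^ 2 * y := by
        have e0 : 0 < (32 * V) ^ 2 := by positivity
        nlinarith
      refine e1.trans ?_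
      have e2 : (32 * V) ^ 2 * y = 1 / (32 * V) ^ 18 := by
        rw [hy]
        field_simp
      rw [e2]
      apply one_div_le_one_div_of_le (by positivity)
      exact pow_le_pow_right₀ (by linarith) (by norm_num)
    have htri : ‖riemannZeta (1 + y + I * t)‖ ≤
        ‖riemannZeta (1 + y + I * t) - riemannZeta (1 + x + I * t)‖ +
          ‖riemannZeta (1 + x + I * t)‖ := by
      have := norm_add_le (riemannZeta (1 + y + I * t) - riemannZeta (1 + x + I * t))
        (riemannZeta (1 + x + I * t))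
      rwa [sub_add_cancel] at this
    nlinarith

theorem zeta_far {V : ℝ} (hV : 1 ≤ V) {x t : ℝ} (hx : 0 < x) (hx1 : x ≤ 1) (ht : 1 / 2 ≤ |t|)
    (hq : 2 * |t| + 5 ≤ Real.exp V) (k : ℕ) :
    ‖iteratedDeriv k GZ (1 + x + I * t)‖ ≤ k.factorial * (32 * V) ^ (65 * (k + 1)) := by
  have hW32 : 32 ≤ 32 * V := by linarith
  have hW0 : 0 < 32 * V := by linarith
  obtain ⟨s, hs⟩ : ∃ s : ℂ, s = 1 + x + I * t := ⟨_, rfl⟩
  have hsre : s.re = 1 + x := by rw [hs, re_eq]
  have hsim : s.im = t := by rw [hs, im_eq]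
  have hlow := low2 hV hx hx1 ht hq
  rw [← hs] at hlow ⊢
  obtain ⟨W, hW⟩ : ∃ W, W = 32 * V := ⟨_, rfl⟩
  rw [← hW] at hW32 hW0 hlow ⊢
  obtain ⟨r, hr⟩ : ∃ r, r = (W ^ 20)⁻¹ := ⟨_, rfl⟩
  have hr0 : 0 < r := by rw [hr]; positivity
  have hrW : r * W = (W ^ 19)⁻¹ := by
    rw [hr]
    field_simp
  have hr1 : r ≤ 1 / (8 * V) := by
    have h1 : r * W ≤ 1 := by
      rw [hrW]
      exact inv_le_one_of_one_le₀ (one_le_pow₀ (by linarith))
    rw [le_div_iff₀ (by linarith)]
    rw [hW] at h1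
    nlinarith
  have hr2 : r ≤ 1 / 8 := by
    refine hr1.trans ?_
    apply one_div_le_one_div_of_le (by norm_num)
    linarith
  have hRg : ∀ z ∈ Metric.closedBall s r, Rg V z := by
    intro w hw
    rw [Metric.mem_closedBall, dist_eq_norm] at hw
    have hre : |w.re - s.re| ≤ r := by
      have := Complex.abs_re_le_norm (w - s)
      rw [sub_re] at this
      linarith
    have him : |w.im - s.im| ≤ r := by
      have := Complex.abs_im_le_norm (w - s)
      rw [sub_im] at this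
      linarith
    have ha := abs_sub_abs_le_abs_sub w.im s.im
    have hb := abs_sub_abs_le_abs_sub s.im w.im
    rw [abs_sub_comm] at hb
    rw [abs_le] at hre
    rw [hsim] at ha hb him
    rw [hsre] at hre
    have := abs_nonneg t
    exact ⟨by linarith, by linarith, by linarith, by linarith⟩
  have hdiff : ∀ z ∈ Metric.closedBall s r, DifferentiableAt ℂ riemannZeta z := fun z hz =>
    differentiableAt_riemannZeta (hRg z hz).ne
  have hddiff : ∀ z ∈ Metric.closedBall s r, DifferentiableAt ℂ (deriv riemannZeta) z := by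
    intro z hz
    have h1 : AnalyticAt ℂ riemannZeta z := by
      rw [Complex.analyticAt_iff_eventually_differentiableAt]
      filter_upwards [isOpen_ne.mem_nhds (hRg z hz).ne] with w hw
      exact differentiableAt_riemannZeta hw
    exact h1.deriv.differentiableAt
  have hb : ∀ z ∈ Metric.closedBall s r, ‖deriv riemannZeta z‖ ≤ W ^ 2 / 8 := fun z hz => by
    rw [hW]
    exact (hRg z hz).deriv_bd hV
  have hlw : ∀ z ∈ Metric.closedBall s r, 1 / (2 * W ^ 17) ≤ ‖riemannZeta z‖ := by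
    intro z hz
    have h1 := Convex.norm_image_sub_le_of_norm_deriv_le (f := riemannZeta) (C := W ^ 2 / 8)
      (s := Metric.closedBall s r) (x := s) (y := z) hdiff hb
      (convex_closedBall s r) (Metric.mem_closedBall_self hr0.le) hz
    rw [Metric.mem_closedBall, dist_eq_norm] at hz
    have h2 : ‖riemannZeta z - riemannZeta s‖ ≤ 1 / (2 * W ^ 17) := by
      refine h1.trans ?_
      calc W ^ 2 / 8 * ‖z - s‖ ≤ W ^ 2 / 8 * r := mul_le_mul_of_nonneg_left hz (by positivity)
        _ ≤ 1 / (2 * W ^ 17) := by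
            rw [hr, le_div_iff₀ (by positivity)]
            have h3 : W ^ 2 / 8 * (W ^ 20)⁻¹ * (2 * W ^ 17) = 1 / (4 * W) := by
              field_simp
              norm_num
            rw [h3, div_le_one (by positivity)]
            linarith
    have h3 : ‖riemannZeta s‖ ≤ ‖riemannZeta z‖ + ‖riemannZeta z - riemannZeta s‖ := by
      have h4 : riemannZeta s = riemannZeta z - (riemannZeta z - riemannZeta s) := by ring
      calc ‖riemannZeta s‖ = ‖riemannZeta z - (riemannZeta z - riemannZeta s)‖ := by rw [← h4]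
        _ ≤ _ := norm_sub_le _ _
    have h4 : 1 / W ^ 17 = 1 / (2 * W ^ 17) + 1 / (2 * W ^ 17) := by
      field_simp
      norm_num
    linarith
  have hne : ∀ z ∈ Metric.closedBall s r, riemannZeta z ≠ 0 := by
    intro z hz h0
    have h1 := hlw z hz
    rw [h0, norm_zero] at h1
    have h2 : 0 < 1 / (2 * W ^ 17) := by positivity
    linarith
  have hg : ∀ z ∈ Metric.closedBall s r, ‖GZ z‖ ≤ W ^ 20 := by
    intro z hz
    unfold GZ
    refine (norm_sub_le _ _).trans ?_
    rw [norm_div, norm_neg]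
    have h1 := hb z hz
    have h2 := hlw z hz
    have h3 : 0 < 1 / (2 * W ^ 17) := by positivity
    have h4 : ‖deriv riemannZeta z‖ / ‖riemannZeta z‖ ≤ W ^ 19 := by
      calc ‖deriv riemannZeta z‖ / ‖riemannZeta z‖ ≤ (W ^ 2 / 8) / (1 / (2 * W ^ 17)) :=
            div_le_div₀ (by positivity) h1 h3 h2
        _ = W ^ 19 / 4 := by
            field_simp
            norm_num
        _ ≤ W ^ 19 := by
            have : 0 < W ^ 19 := by positivity
            linarith
    have h5 := (hRg z hz).bd hV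
    have h6 : ‖riemannZeta z‖ ≤ W ^ 19 := by
      have h7 : W ^ 1 ≤ W ^ 19 := pow_le_pow_right₀ (by linarith) (by norm_num)
      rw [pow_one] at h7
      linarith
    have h8 : W ^ 20 = W * W ^ 19 := by ring
    have h9 : 0 < W ^ 19 := by positivity
    rw [h8]
    nlinarith
  have hdc : DiffContOnCl ℂ GZ (Metric.ball s r) := by
    apply DifferentiableOn.diffContOnCl
    rw [closure_ball s hr0.ne']
    intro z hz
    exact (((hddiff z hz).neg.div (hdiff z hz) (hne z hz)).sub (hdiff z hz)).differentiableWithinAt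
  have h1 := Complex.norm_iteratedDeriv_le_of_forall_mem_sphere_norm_le k hr0 hdc
    (fun z hz => hg z (Metric.sphere_subset_closedBall hz))
  refine h1.trans ?_
  have h2 : (k.factorial : ℝ) * W ^ 20 / r ^ k = k.factorial * (W ^ 20 * W ^ (20 * k)) := by
    rw [hr, inv_pow, div_inv_eq_mul, ← pow_mul, mul_assoc]
  rw [h2]
  apply mul_le_mul_of_nonneg_left _ (by positivity)
  rw [← pow_add]
  exact pow_le_pow_right₀ (by linarith) (by omega)

end Pool.Agent.SW
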