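import Pool.Agent.SW.ZFar

/-! SW/ZNear.  Derivatives of `-ζ'/ζ - ζ` near `s = 1`. -/

set_option autoImplicit false

namespace Pool.Agent.SW

open Complex

open Filter Topology

/-- `(z - 1) ζ(z)` -/
private noncomputable def znF : ℂ → ℂ := Function.update (fun s => (s - 1) * riemannZeta s) 1 1

private theorem znF_ne {z : ℂ} (hz : z ≠ 1) : znF z = (z - 1) * riemannZeta z := by
  unfold znF
  rw [Function.update_of_ne hz]

private theorem znF_one : znF 1 = 1 := by
  unfold znF
  rw [Function.update_self]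

private theorem znF_ev {z : ℂ} (hz : z ≠ 1) : znF =ᶠ[𝓝 z] fun s => (s - 1) * riemannZeta s := by
  filter_upwards [isOpen_ne.mem_nhds hz] with w hw
  exact znF_ne hw

private theorem znF_diff : Differentiable ℂ znF := by
  have h1 : ∀ z : ℂ, z ≠ 1 → DifferentiableAt ℂ znF z := by
    intro z hz
    refine DifferentiableAt.congr_of_eventuallyEq ?_ (znF_ev hz)
    exact (differentiableAt_id.sub_const 1).mul (differentiableAt_riemannZeta hz)
  intro z
  by_cases hz : z = 1
  · rw [hz]
    refine AnalyticAt.differentiableAt ?_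
    refine Complex.analyticAt_of_differentiable_on_punctured_nhds_of_continuousAt ?_ ?_
    · filter_upwards [self_mem_nhdsWithin] with w hw
      exact h1 w hw
    · exact continuousAt_update_same.2 riemannZeta_residue_one
  · exact h1 z hz

private theorem znF_ne_zero {z : ℂ} (hz : 1 ≤ z.re) : znF z ≠ 0 := by
  by_cases h : z = 1
  · rw [h, znF_one]
    exact one_ne_zero
  · rw [znF_ne h]
    exact mul_ne_zero (sub_ne_zero.2 h) (riemannZeta_ne_zero_of_one_le_re hz)

private noncomputable def znH (z : ℂ) : ℂ := -deriv znF z / znF z - dslope znF 1 z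

private theorem znH_diff {z : ℂ} (hz : znF z ≠ 0) : DifferentiableAt ℂ znH z := by
  have h1 : DifferentiableAt ℂ (deriv znF) z :=
    ((znF_diff.differentiableOn (s := Set.univ)).analyticAt (Filter.univ_mem)).deriv.differentiableAt
  have h2 : DifferentiableAt ℂ (dslope znF 1) z := by
    have h3 : DifferentiableOn ℂ (dslope znF 1) Set.univ :=
      (Complex.differentiableOn_dslope Filter.univ_mem).2 znF_diff.differentiableOn
    exact (h3 z (Set.mem_univ z)).differentiableAt Filter.univ_mem
  exact (h1.neg.div (znF_diff z) hz).sub h2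

private theorem znH_eq {z : ℂ} (hz : z ≠ 1) (hr : 1 ≤ z.re) : GZ z = znH z := by
  have hz1 : z - 1 ≠ 0 := sub_ne_zero.2 hz
  have hzeta := riemannZeta_ne_zero_of_one_le_re hr
  have hd : deriv znF z = riemannZeta z + (z - 1) * deriv riemannZeta z := by
    rw [(znF_ev hz).deriv_eq]
    have h1 : HasDerivAt (fun s : ℂ => (s - 1) * riemannZeta s)
        (1 * riemannZeta z + (z - 1) * deriv riemannZeta z) z :=
      ((hasDerivAt_id z).sub_const 1).mul (differentiableAt_riemannZeta hz).hasDerivAt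
    rw [h1.deriv, one_mul]
  unfold GZ znH
  rw [dslope_of_ne _ hz, slope_def_field, znF_one, hd, znF_ne hz]
  field_simp
  ring

theorem zeta_near : ∃ M : ℝ, 1 ≤ M ∧ ∀ x t : ℝ, 0 < x → x ≤ 1 → |t| ≤ 1 → ∀ k : ℕ,
    ‖iteratedDeriv k GZ (1 + x + I * t)‖ ≤ k.factorial * M ^ (k + 1) := by
  obtain ⟨K, hK⟩ : ∃ K : Set ℂ, K = Set.Icc (1 : ℝ) 2 ×ℂ Set.Icc (-1 : ℝ) 1 := ⟨_, rfl⟩
  have hKc : IsCompact K := by
    rw [hK]
    exact isCompact_Icc.reProdIm isCompact_Icc
  have hU : IsOpen {z : ℂ | znF z ≠ 0} := isOpen_ne_fun znF_diff.continuous continuous_const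
  have hKU : K ⊆ {z : ℂ | znF z ≠ 0} := by
    intro z hz
    rw [hK, Complex.mem_reProdIm] at hz
    exact znF_ne_zero hz.1.1
  obtain ⟨δ, hδ, hsub⟩ := hKc.exists_cthickening_subset_open hU hKU
  have hcomp : IsCompact (Metric.cthickening δ K) := hKc.cthickening
  have hcont : ContinuousOn znH (Metric.cthickening δ K) := fun z hz =>
    (znH_diff (hsub hz)).continuousAt.continuousWithinAt
  obtain ⟨M0, hM0⟩ := hcomp.exists_bound_of_continuousOn hcont
  obtain ⟨M, hM⟩ : ∃ M : ℝ, M = max M0 (max (1 / δ) 1) := ⟨_, rfl⟩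
  have hM1 : 1 ≤ M := by
    rw [hM]
    exact (le_max_right _ _).trans (le_max_right _ _)
  have hMδ : 1 / δ ≤ M := by
    rw [hM]
    exact (le_max_left _ _).trans (le_max_right _ _)
  have hMM : M0 ≤ M := by
    rw [hM]
    exact le_max_left _ _
  refine ⟨M, hM1, ?_⟩
  intro x t hx hx1 ht k
  obtain ⟨z, hz⟩ : ∃ z : ℂ, z = 1 + x + I * t := ⟨_, rfl⟩
  have hre : z.re = 1 + x := by rw [hz]; simp
  have him : z.im = t := by rw [hz]; simp
  rw [← hz]
  have hzK : z ∈ K := by
    rw [hK, Complex.mem_reProdIm, hre, him]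
    rw [abs_le] at ht
    exact ⟨⟨by linarith, by linarith⟩, ht⟩
  have hball : Metric.closedBall z δ ⊆ Metric.cthickening δ K :=
    Metric.closedBall_subset_cthickening hzK δ
  have hev : GZ =ᶠ[𝓝 z] znH := by
    have hopen : IsOpen {w : ℂ | 1 < w.re} := isOpen_lt continuous_const Complex.continuous_re
    have hmem : z ∈ {w : ℂ | 1 < w.re} := by
      show 1 < z.re
      rw [hre]
      linarith
    filter_upwards [hopen.mem_nhds hmem] with w hw
    refine znH_eq ?_ (le_of_lt hw)
    rintro rfl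
    exact absurd hw (by simp)
  rw [hev.iteratedDeriv_eq k]
  have hdc : DiffContOnCl ℂ znH (Metric.ball z δ) := by
    apply DifferentiableOn.diffContOnCl
    rw [closure_ball z hδ.ne']
    intro w hw
    exact (znH_diff (hsub (hball hw))).differentiableWithinAt
  have h1 := Complex.norm_iteratedDeriv_le_of_forall_mem_sphere_norm_le k hδ hdc
    (fun w hw => hM0 w (hball (Metric.sphere_subset_closedBall hw)))
  refine h1.trans ?_
  have h2 : (k.factorial : ℝ) * M0 / δ ^ k = k.factorial * (M0 * (1 / δ) ^ k) := by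
    rw [one_div, inv_pow]
    ring
  rw [h2]
  apply mul_le_mul_of_nonneg_left _ (by positivity)
  rw [pow_succ']
  have h3 : (1 / δ) ^ k ≤ M ^ k := pow_le_pow_left₀ (by positivity) hMδ k
  exact mul_le_mul hMM h3 (by positivity) (by linarith)

end Pool.Agent.SW
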